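import Pool.Agent.Work.MP_916cc8_co.Stmts

/-! Final assembly: `IncTh θ` gives `U(n) = O(n^{2+θ/3})`. -/

set_option autoImplicit false

namespace Pool.Agent.Work.MP_916cc8_co

open MvPolynomial

open scoped Classical in
theorem uTri_le (S : Finset Pt) : uTri S ≤ S.card ^ 3 := by
  unfold uTri
  refine (Finset.card_filter_le _ _).trans ?_
  rw [Finset.card_powersetCard]
  exact Nat.choose_le_pow _ _

open scoped Classical in
theorem closeP_card {t : ℕ} (f : Fin t → MvPolynomial (Fin 2) ℝ) (S : Finset Pt)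
    (h : ∀ x : Fin 2 → ℝ, 2 ^ t * (S.filter (fun a => sameCl f x (v2 a))).card ≤ S.card) :
    2 ^ t * (closeP f S).card ≤ S.card * S.card := by
  have h1 : (closeP f S).card ≤ ∑ x ∈ S, (S.filter (fun a => sameCl f (v2 x) (v2 a))).card := by
    unfold closeP
    rw [← Finset.card_sigma]
    refine Finset.card_le_card_of_injOn (fun x => ⟨x.1, x.2⟩) ?_ ?_
    · intro x hx
      simp only [Finset.coe_filter, Set.mem_ofPred_eq, Finset.mem_product] at hx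
      simp only [Finset.coe_sigma, Set.mem_sigma_iff, Finset.mem_coe, Finset.mem_filter]
      exact ⟨hx.1.1, hx.1.2, hx.2.2⟩
    · intro x _ y _ hxy
      simp only [Sigma.mk.injEq, heq_eq_eq] at hxy
      exact Prod.ext hxy.1 hxy.2
  calc 2 ^ t * (closeP f S).card
      ≤ 2 ^ t * ∑ x ∈ S, (S.filter (fun a => sameCl f (v2 x) (v2 a))).card :=
        Nat.mul_le_mul_left _ h1
    _ = ∑ x ∈ S, 2 ^ t * (S.filter (fun a => sameCl f (v2 x) (v2 a))).card := Finset.mul_sum _ _ _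
    _ ≤ ∑ _x ∈ S, S.card := Finset.sum_le_sum fun x _ => h _
    _ = S.card * S.card := by rw [Finset.sum_const, smul_eq_mul]

open scoped Classical in
theorem Main_proof (θ : ℝ) (h0 : 0 < θ) (h1 : θ ≤ 3 / 4) (hp : Part 2) (hi : IncTh θ) (ht : Tri)
    (hb : BadSum) (hg : GoodSum) : Main θ := by
  obtain ⟨C1, hC1, hp⟩ := hp
  obtain ⟨C2, hC2, hi⟩ := hi
  obtain ⟨C3, hC3, hb⟩ := hb
  obtain ⟨C4, hC4, hg⟩ := hg
  set K : ℝ := C3 * (1 + (C1 + C2) ^ 2 + (C1 + C2) ^ 2) +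
    C4 * (1 + (10 * C1 + 2) ^ 2 + (10 * C1 + 2) * Real.sqrt C2) with hK
  have hKpos : 0 ≤ K := by positivity
  refine ⟨K + ((2 : ℝ) ^ (3 / θ)) ^ 3, fun S => ?_⟩
  set n : ℝ := (S.card : ℝ) with hn
  rcases Nat.eq_zero_or_pos S.card with h00 | hpos
  · have h2 : uTri S ≤ 0 := by
      have := uTri_le S
      rw [h00] at this
      simpa using this
    have h3 : (uTri S : ℝ) = 0 := by
      have : uTri S = 0 := Nat.le_zero.1 h2
      rw [this, Nat.cast_zero]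
    rw [h3]
    positivity
  have hn1 : 1 ≤ n := by
    rw [hn]
    exact_mod_cast hpos
  have hn0 : 0 < n := lt_of_lt_of_le one_pos hn1
  have hpow1 : 1 ≤ n ^ (2 + θ / 3) := Real.one_le_rpow hn1 (by positivity)
  by_cases hsmall : n < (2 : ℝ) ^ (3 / θ)
  · have h2 : (uTri S : ℝ) ≤ n ^ 3 := by
      have := uTri_le S
      rw [hn]
      exact_mod_cast this
    calc (uTri S : ℝ) ≤ n ^ 3 := h2
      _ ≤ ((2 : ℝ) ^ (3 / θ)) ^ 3 := pow_le_pow_left₀ hn0.le hsmall.le 3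
      _ ≤ (K + ((2 : ℝ) ^ (3 / θ)) ^ 3) * 1 := by rw [mul_one]; linarith
      _ ≤ _ := mul_le_mul_of_nonneg_left hpow1 (by positivity)
  push Not at hsmall
  -- parameters
  set k₀ : ℝ := n ^ (θ / 3) with hk₀
  have hk2 : 2 ≤ k₀ := by
    have : ((2 : ℝ) ^ (3 / θ)) ^ (θ / 3) ≤ n ^ (θ / 3) :=
      Real.rpow_le_rpow (by positivity) hsmall (by positivity)
    rw [← Real.rpow_mul (by norm_num)] at this
    have h5 : 3 / θ * (θ / 3) = 1 := by field_simp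
    rwa [h5, Real.rpow_one] at this
  have hk0 : 0 < k₀ := lt_of_lt_of_le two_pos hk2
  have hnθ : 1 ≤ n ^ θ := Real.one_le_rpow hn1 h0.le
  obtain ⟨t, ht1, ht2⟩ : ∃ t : ℕ, (2 : ℝ) ^ t ≤ n ^ θ ∧ n ^ θ < (2 : ℝ) ^ (t + 1) := by
    exact exists_nat_pow_near hnθ (by norm_num)
  obtain ⟨f, hf0, hfd, hfc⟩ := hp Pt S v2 t
  have hfd' : ((∑ j, (f j).totalDegree : ℕ) : ℝ) ≤ C1 * n ^ (θ / 2) := by
    refine hfd.trans (mul_le_mul_of_nonneg_left ?_ hC1.le)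
    have h5 : (2 : ℝ) ^ ((t : ℝ) / (2 : ℕ)) = ((2 : ℝ) ^ t) ^ ((1 : ℝ) / 2) := by
      rw [← Real.rpow_natCast, ← Real.rpow_mul (by norm_num)]
      congr 1
      push_cast
      ring
    rw [h5]
    calc ((2 : ℝ) ^ t) ^ ((1 : ℝ) / 2) ≤ (n ^ θ) ^ ((1 : ℝ) / 2) :=
          Real.rpow_le_rpow (by positivity) ht1 (by norm_num)
      _ = n ^ (θ / 2) := by
          rw [← Real.rpow_mul hn0.le]
          congr 1
          ring
  -- close pairs
  set X := closeP f S with hX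
  have hXc : (X.card : ℝ) ≤ 2 * n ^ (2 - θ) := by
    have h5 := closeP_card f S hfc
    have h6 : (2 : ℝ) ^ t * (X.card : ℝ) ≤ n * n := by
      rw [hn]
      exact_mod_cast h5
    have h7 : n ^ θ * (X.card : ℝ) ≤ 2 * (n * n) := by
      calc n ^ θ * (X.card : ℝ) ≤ (2 : ℝ) ^ (t + 1) * (X.card : ℝ) :=
            mul_le_mul_of_nonneg_right ht2.le (by positivity)
        _ = 2 * ((2 : ℝ) ^ t * (X.card : ℝ)) := by rw [pow_succ]; ring
        _ ≤ 2 * (n * n) := by linarith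
    have h8 : n ^ (2 - θ) * n ^ θ = n * n := by
      rw [← Real.rpow_add hn0, show 2 - θ + θ = (2 : ℝ) by ring, Real.rpow_two, sq]
    have h9 : n ^ θ * (X.card : ℝ) ≤ n ^ θ * (2 * n ^ (2 - θ)) := by
      calc n ^ θ * (X.card : ℝ) ≤ 2 * (n * n) := h7
        _ = 2 * (n ^ (2 - θ) * n ^ θ) := by rw [h8]
        _ = _ := by ring
    exact le_of_mul_le_mul_left h9 (lt_of_lt_of_le one_pos hnθ)
  have hXm : ∀ x ∈ X, x.1 ∈ S ∧ x.2 ∈ S ∧ x.1 ≠ x.2 := by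
    intro x hx
    rw [hX] at hx
    unfold closeP at hx
    rw [Finset.mem_filter, Finset.mem_product] at hx
    exact ⟨hx.1.1, hx.1.2, hx.2.1⟩
  obtain ⟨c, hc0, hcd, hcI⟩ := hi S X hXm hXc
  -- the bad set
  set P : MvPolynomial (Fin 2) ℝ := (∏ j, f j) * c with hP
  have hP0 : P ≠ 0 := mul_ne_zero (Finset.prod_ne_zero_iff.2 fun j _ => hf0 j) hc0
  have hPd : (P.totalDegree : ℝ) ≤ (C1 + C2) * n ^ (θ / 2) := by
    have h5 : P.totalDegree ≤ (∑ j, (f j).totalDegree) + c.totalDegree := by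
      refine (totalDegree_mul _ _).trans (Nat.add_le_add_right ?_ _)
      exact totalDegree_finsetProd _ _
    calc (P.totalDegree : ℝ) ≤ ((∑ j, (f j).totalDegree : ℕ) : ℝ) + (c.totalDegree : ℝ) := by
          exact_mod_cast h5
      _ ≤ C1 * n ^ (θ / 2) + C2 * n ^ (θ / 2) := add_le_add hfd' hcd
      _ = _ := by ring
  set B := S.filter (fun p => eval (v2 p) P = 0) with hB
  have hBS : B ⊆ S := Finset.filter_subset _ _
  have hGn : ∀ p ∈ S \ B, eval (v2 p) P ≠ 0 := by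
    intro p hp hz
    rw [Finset.mem_sdiff] at hp
    exact hp.2 (Finset.mem_filter.2 ⟨hp.1, hz⟩)
  have hGf : ∀ p ∈ S \ B, ∀ j, eval (v2 p) (f j) ≠ 0 := by
    intro p hp j hz
    apply hGn p hp
    rw [hP, map_mul, map_prod, Finset.prod_eq_zero (Finset.mem_univ j) hz, zero_mul]
  have hGc : ∀ p ∈ S \ B, eval (v2 p) c ≠ 0 := by
    intro p hp hz
    apply hGn p hp
    rw [hP, map_mul, hz, mul_zero]
  have hI : (((closeP f (S \ B) ×ˢ closeP f (S \ B)).filter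
      (fun z => NRel z.1 z.2)).card : ℝ) ≤ C2 * n ^ (2 : ℝ) := by
    refine le_trans ?_ hcI
    norm_cast
    refine Finset.card_le_card ?_
    intro z hz
    rw [Finset.mem_filter, Finset.mem_product] at hz
    have hsub : ∀ x ∈ closeP f (S \ B), x ∈ X ∧ x.1 ∈ S \ B := by
      intro x hx
      unfold closeP at hx
      rw [Finset.mem_filter, Finset.mem_product] at hx
      refine ⟨?_, hx.1.1⟩
      rw [hX]
      unfold closeP
      rw [Finset.mem_filter, Finset.mem_product]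
      exact ⟨⟨(Finset.mem_sdiff.1 hx.1.1).1, (Finset.mem_sdiff.1 hx.1.2).1⟩, hx.2⟩
    rw [Finset.mem_filter, Finset.mem_product, Finset.mem_filter]
    exact ⟨⟨(hsub _ hz.1.1).1, (hsub _ hz.1.2).1, hGc _ (hsub _ hz.1.2).2⟩, hz.2⟩
  have hbad := hb S B P k₀ hk2 hBS hP0 (fun p hp => (Finset.mem_filter.1 hp).2)
  have hgood := hg S (S \ B) t f k₀ _ hk2 Finset.sdiff_subset hGf hI
  -- arithmetic
  set M : ℝ := n ^ (2 + θ / 3) with hM
  have hnhalf : 0 < n ^ (θ / 2) := by positivity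
  have e1 : k₀ * n ^ 2 = M := by
    rw [hk₀, hM, add_comm, Real.rpow_add hn0, Real.rpow_two]
  have e2 : (n ^ (θ / 2)) ^ 2 * n ^ 2 / k₀ ^ 2 = M := by
    rw [div_eq_iff (by positivity), hM, hk₀, ← Real.rpow_natCast, ← Real.rpow_natCast,
      ← Real.rpow_natCast, ← Real.rpow_mul hn0.le, ← Real.rpow_mul hn0.le,
      ← Real.rpow_add hn0, ← Real.rpow_add hn0]
    congr 1
    push_cast
    ring
  have e3 : (n ^ (θ / 2)) ^ 2 * n ^ ((3 : ℝ) / 2) ≤ M := by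
    rw [hM, ← Real.rpow_natCast, ← Real.rpow_mul hn0.le, ← Real.rpow_add hn0]
    refine Real.rpow_le_rpow_of_exponent_le hn1 ?_
    push_cast
    linarith
  have hD2 : (P.totalDegree : ℝ) ^ 2 ≤ (C1 + C2) ^ 2 * (n ^ (θ / 2)) ^ 2 := by
    rw [← mul_pow]
    exact pow_le_pow_left₀ (by positivity) hPd 2
  have hbad' : (tri B S : ℝ) ≤ C3 * (1 + (C1 + C2) ^ 2 + (C1 + C2) ^ 2) * M := by
    refine hbad.trans ?_
    rw [mul_assoc]
    refine mul_le_mul_of_nonneg_left ?_ hC3.le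
    have a1 : (P.totalDegree : ℝ) ^ 2 * n ^ 2 / k₀ ^ 2 ≤ (C1 + C2) ^ 2 * M := by
      calc (P.totalDegree : ℝ) ^ 2 * n ^ 2 / k₀ ^ 2
          ≤ ((C1 + C2) ^ 2 * (n ^ (θ / 2)) ^ 2) * n ^ 2 / k₀ ^ 2 := by gcongr
        _ = (C1 + C2) ^ 2 * ((n ^ (θ / 2)) ^ 2 * n ^ 2 / k₀ ^ 2) := by ring
        _ = _ := by rw [e2]
    have a2 : (P.totalDegree : ℝ) ^ 2 * n ^ ((3 : ℝ) / 2) ≤ (C1 + C2) ^ 2 * M := by
      calc (P.totalDegree : ℝ) ^ 2 * n ^ ((3 : ℝ) / 2)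
          ≤ ((C1 + C2) ^ 2 * (n ^ (θ / 2)) ^ 2) * n ^ ((3 : ℝ) / 2) := by gcongr
        _ = (C1 + C2) ^ 2 * ((n ^ (θ / 2)) ^ 2 * n ^ ((3 : ℝ) / 2)) := by ring
        _ ≤ _ := by gcongr
    calc k₀ * n ^ 2 + (P.totalDegree : ℝ) ^ 2 * n ^ 2 / k₀ ^ 2 +
          (P.totalDegree : ℝ) ^ 2 * n ^ ((3 : ℝ) / 2)
        ≤ M + (C1 + C2) ^ 2 * M + (C1 + C2) ^ 2 * M := by
          rw [e1]; gcongr
      _ = _ := by ring
  have hV : (VV f : ℝ) ≤ (10 * C1 + 2) ^ 2 * (n ^ (θ / 2)) ^ 2 := by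
    have h5 : (VV f : ℝ) = (10 * ((∑ j, (f j).totalDegree : ℕ) : ℝ) + 2) ^ 2 := by
      unfold VV
      push_cast
      ring
    have h6 : 1 ≤ n ^ (θ / 2) := Real.one_le_rpow hn1 (by positivity)
    rw [h5, ← mul_pow]
    refine pow_le_pow_left₀ (by positivity) ?_ 2
    calc 10 * ((∑ j, (f j).totalDegree : ℕ) : ℝ) + 2
        ≤ 10 * (C1 * n ^ (θ / 2)) + 2 * n ^ (θ / 2) := by linarith
      _ = _ := by ring
  have hgood' : (tri (S \ B) S : ℝ) ≤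
      C4 * (1 + (10 * C1 + 2) ^ 2 + (10 * C1 + 2) * Real.sqrt C2) * M := by
    refine hgood.trans ?_
    rw [mul_assoc]
    refine mul_le_mul_of_nonneg_left ?_ hC4.le
    have a1 : (VV f : ℝ) * n ^ 2 / k₀ ^ 2 ≤ (10 * C1 + 2) ^ 2 * M := by
      calc (VV f : ℝ) * n ^ 2 / k₀ ^ 2
          ≤ ((10 * C1 + 2) ^ 2 * (n ^ (θ / 2)) ^ 2) * n ^ 2 / k₀ ^ 2 := by gcongr
        _ = (10 * C1 + 2) ^ 2 * ((n ^ (θ / 2)) ^ 2 * n ^ 2 / k₀ ^ 2) := by ring
        _ = _ := by rw [e2]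
    have a2 : n * Real.sqrt ((VV f : ℝ) * (C2 * n ^ (2 : ℝ)) / k₀) ≤
        (10 * C1 + 2) * Real.sqrt C2 * M := by
      have b1 : (VV f : ℝ) * (C2 * n ^ (2 : ℝ)) / k₀ ≤
          ((10 * C1 + 2) * Real.sqrt C2 * n ^ (1 + θ / 3)) ^ 2 := by
        rw [div_le_iff₀ hk0]
        calc (VV f : ℝ) * (C2 * n ^ (2 : ℝ))
            ≤ ((10 * C1 + 2) ^ 2 * (n ^ (θ / 2)) ^ 2) * (C2 * n ^ (2 : ℝ)) := by gcongr
          _ = (10 * C1 + 2) ^ 2 * C2 * ((n ^ (θ / 2)) ^ 2 * n ^ (2 : ℝ)) := by ring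
          _ = (10 * C1 + 2) ^ 2 * C2 * ((n ^ (1 + θ / 3)) ^ 2 * k₀) := by
              congr 1
              rw [hk₀, ← Real.rpow_natCast, ← Real.rpow_natCast, ← Real.rpow_mul hn0.le,
                ← Real.rpow_mul hn0.le, ← Real.rpow_add hn0, ← Real.rpow_add hn0]
              congr 1
              push_cast
              ring
          _ = ((10 * C1 + 2) * Real.sqrt C2 * n ^ (1 + θ / 3)) ^ 2 * k₀ := by
              rw [mul_pow, mul_pow, Real.sq_sqrt hC2.le]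
              ring
      have b2 : Real.sqrt ((VV f : ℝ) * (C2 * n ^ (2 : ℝ)) / k₀) ≤
          (10 * C1 + 2) * Real.sqrt C2 * n ^ (1 + θ / 3) := by
        calc Real.sqrt ((VV f : ℝ) * (C2 * n ^ (2 : ℝ)) / k₀)
            ≤ Real.sqrt (((10 * C1 + 2) * Real.sqrt C2 * n ^ (1 + θ / 3)) ^ 2) :=
              Real.sqrt_le_sqrt b1
          _ = _ := Real.sqrt_sq (by positivity)
      calc n * Real.sqrt ((VV f : ℝ) * (C2 * n ^ (2 : ℝ)) / k₀)
          ≤ n * ((10 * C1 + 2) * Real.sqrt C2 * n ^ (1 + θ / 3)) := by gcongr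
        _ = (10 * C1 + 2) * Real.sqrt C2 * (n * n ^ (1 + θ / 3)) := by ring
        _ = (10 * C1 + 2) * Real.sqrt C2 * M := by
            congr 1
            rw [hM]
            nth_rewrite 1 [← Real.rpow_one n]
            rw [← Real.rpow_add hn0]
            congr 1
            ring
    calc k₀ * n ^ 2 + (VV f : ℝ) * n ^ 2 / k₀ ^ 2 +
          n * Real.sqrt ((VV f : ℝ) * (C2 * n ^ (2 : ℝ)) / k₀)
        ≤ M + (10 * C1 + 2) ^ 2 * M + (10 * C1 + 2) * Real.sqrt C2 * M := by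
          rw [e1]; gcongr
      _ = _ := by ring
  have hT : (uTri S : ℝ) ≤ (tri B S : ℝ) + (tri (S \ B) S : ℝ) := by
    exact_mod_cast ht S B hBS
  calc (uTri S : ℝ) ≤ (tri B S : ℝ) + (tri (S \ B) S : ℝ) := hT
    _ ≤ C3 * (1 + (C1 + C2) ^ 2 + (C1 + C2) ^ 2) * M +
        C4 * (1 + (10 * C1 + 2) ^ 2 + (10 * C1 + 2) * Real.sqrt C2) * M :=
        add_le_add hbad' hgood'
    _ = K * M := by rw [hK]; ring
    _ ≤ (K + ((2 : ℝ) ^ (3 / θ)) ^ 3) * M := by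
        have : 0 ≤ ((2 : ℝ) ^ (3 / θ)) ^ 3 := by positivity
        have hM0 : 0 ≤ M := by positivity
        nlinarith

end Pool.Agent.Work.MP_916cc8_co
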