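import Mathlib

/-!
# MP_916cc8_co (unit area triangles): U(n) = O(n^{24/11})

Statements of the items.  All `def ... : Prop` below are proved in other files
(`theorem name_proof : Name`).  Paper proof: team note 1235 and the specs of the items.
-/

set_option autoImplicit false

namespace Pool.Agent.Work.MP_916cc8_co

open MvPolynomial

section Defs

open scoped Classical

/-- points of the plane -/
abbrev Pt := ℝ × ℝ

/-- cross product -/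
def cr (u v : Pt) : ℝ := u.1 * v.2 - u.2 * v.1

/-- the line of all `x` with `(q-p) × (x-p) = 2` (the triangle `p q x` has signed area `1`) -/
def top (p q : Pt) : Set Pt := {x | cr (q - p) (x - p) = 2}

/-- the line through `p` and `q` -/
def base (p q : Pt) : Set Pt := {x | cr (q - p) (x - p) = 0}

def IsLine (ℓ : Set Pt) : Prop :=
  ∃ a b c : ℝ, (a ≠ 0 ∨ b ≠ 0) ∧ ℓ = {x | a * x.1 + b * x.2 = c}

/-- number of points of `S` on `ℓ` -/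
noncomputable def rich (S : Finset Pt) (ℓ : Set Pt) : ℕ := (S.filter (fun x => x ∈ ℓ)).card

/-- number of unit area triangles of `S` -/
noncomputable def uTri (S : Finset Pt) : ℕ :=
  ((S.powersetCard 3).filter
    (fun t => ∃ p q r : Pt, t = {p, q, r} ∧ |cr (q - p) (r - p)| / 2 = 1)).card

/-- triples `(p,q,r)`, `p,q ∈ A`, `r ∈ S`, with signed area `1` -/
noncomputable def tri (A S : Finset Pt) : ℕ :=
  ((A ×ˢ A ×ˢ S).filter (fun z => cr (z.2.1 - z.1) (z.2.2 - z.1) = 2)).card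

/-- pairs `(p,q)` of points of `A` whose top line is `ℓ` -/
noncomputable def prs (A : Finset Pt) (ℓ : Set Pt) : Finset (Pt × Pt) :=
  (A ×ˢ A).filter (fun z => z.1 ≠ z.2 ∧ top z.1 z.2 = ℓ)

/-- all top lines of pairs of points of `A` -/
noncomputable def topLines (A : Finset Pt) : Finset (Set Pt) :=
  ((A ×ˢ A).filter (fun z => z.1 ≠ z.2)).image (fun z => top z.1 z.2)

def v2 (p : Pt) : Fin 2 → ℝ := ![p.1, p.2]
def v3 (p : Pt) (t : ℝ) : Fin 3 → ℝ := ![p.1, p.2, t]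
def v4 (p q : Pt) : Fin 4 → ℝ := ![p.1, p.2, q.1, q.2]

/-- linear functional, injective on a given finite set for generic `h` -/
def hh (h : ℝ) (p : Pt) : ℝ := p.1 + h * p.2

/-- `x = (p,p')`, `y = (q,q')` are related: `(p,q)` and `(p',q')` have the same top line -/
def Rel (x y : Pt × Pt) : Prop := x.1 ≠ y.1 ∧ x.2 ≠ y.2 ∧ top x.1 y.1 = top x.2 y.2

/-- non-degenerate: not all four points on a line -/
def NRel (x y : Pt × Pt) : Prop := Rel x y ∧ cr (y.1 - x.1) (x.2 - x.1) ≠ 0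

/-- same (non-zero) sign vector -/
def sameCl {d t : ℕ} (f : Fin t → MvPolynomial (Fin d) ℝ) (x y : Fin d → ℝ) : Prop :=
  ∀ j, 0 < eval x (f j) * eval y (f j)

/-- pairs of distinct points of `A` in the same class -/
noncomputable def closeP {t : ℕ} (f : Fin t → MvPolynomial (Fin 2) ℝ) (A : Finset Pt) :
    Finset (Pt × Pt) :=
  (A ×ˢ A).filter (fun x => x.1 ≠ x.2 ∧ sameCl f (v2 x.1) (v2 x.2))

/-- the constant `V` bounding the number of (class, class) pairs visited by a line -/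
noncomputable def VV {t : ℕ} (f : Fin t → MvPolynomial (Fin 2) ℝ) : ℕ :=
  (10 * ∑ j, (f j).totalDegree + 2) ^ 2

/-- iterated partial derivatives -/
noncomputable def der (l : List (Fin 4)) (F : MvPolynomial (Fin 4) ℝ) :
    MvPolynomial (Fin 4) ℝ :=
  l.foldr (fun i G => pderiv i G) F

/-- all derivatives of order `< |l|` vanish on the surface of `x`, but `der l F` does not at `y` -/
def TypeB (F : MvPolynomial (Fin 4) ℝ) (x y : Pt × Pt) : Prop :=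
  ∃ l : List (Fin 4), l ≠ [] ∧ eval (v4 y.1 y.2) (der l F) ≠ 0 ∧
    ∀ l' : List (Fin 4), l'.length < l.length → ∀ z : Pt × Pt, Rel x z →
      eval (v4 z.1 z.2) (der l' F) = 0

end Defs

section Stmts

/-! ## Topology: Borsuk-Ulam, ham sandwich, partition -/

/-- Borsuk-Ulam on the unit sphere of the sup norm (boundary of the cube). -/
def BU : Prop := ∀ (n : ℕ) (g : (Fin (n + 1) → ℝ) → (Fin n → ℝ)), Continuous g →
  (∀ x, g (-x) = - g x) → ∃ x, ‖x‖ = 1 ∧ g x = 0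

open scoped Classical in
/-- discrete ham sandwich theorem for a linear space of functions of dimension `s+1` -/
def HS : Prop := ∀ (ι : Type) (s : ℕ) (A : Fin s → Finset ι) (Φ : ι → Fin (s + 1) → ℝ),
  ∃ v : Fin (s + 1) → ℝ, v ≠ 0 ∧ ∀ i,
    2 * ((A i).filter (fun a => 0 < ∑ j, v j * Φ a j)).card ≤ (A i).card ∧
    2 * ((A i).filter (fun a => ∑ j, v j * Φ a j < 0)).card ≤ (A i).card

open scoped Classical in
/-- polynomial partitioning in dimension `d` -/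
def Part (d : ℕ) : Prop := ∃ C : ℝ, 0 < C ∧
  ∀ (ι : Type) (A : Finset ι) (pt : ι → Fin d → ℝ) (t : ℕ),
    ∃ f : Fin t → MvPolynomial (Fin d) ℝ, (∀ j, f j ≠ 0) ∧
      ((∑ j, (f j).totalDegree : ℕ) : ℝ) ≤ C * (2 : ℝ) ^ ((t : ℝ) / d) ∧
      ∀ x : Fin d → ℝ, 2 ^ t * (A.filter (fun a => sameCl f x (pt a))).card ≤ A.card

/-! ## Plane algebraic geometry -/

/-- for all but finitely many constants `c`, `A - c` is relatively prime to `K` -/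
def RPS : Prop := ∀ (A K : MvPolynomial (Fin 2) ℝ), K ≠ 0 →
  Set.Finite {c : ℝ | ¬ IsRelPrime (A - C c) K}

/-- Bezout -/
def Bez : Prop := ∀ (f g : MvPolynomial (Fin 2) ℝ), IsRelPrime f g →
  ∀ Z : Finset (Fin 2 → ℝ), (∀ z ∈ Z, eval z f = 0 ∧ eval z g = 0) →
    Z.card ≤ f.totalDegree * g.totalDegree

/-- planar Warren bound: number of non-zero sign vectors -/
def War : Prop := ∀ (t : ℕ) (f : Fin t → MvPolynomial (Fin 2) ℝ) (Z : Finset (Fin 2 → ℝ)),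
  (∀ z ∈ Z, ∀ j, eval z (f j) ≠ 0) → (∀ z ∈ Z, ∀ w ∈ Z, sameCl f z w → z = w) →
  Z.card ≤ (2 * ∑ j, (f j).totalDegree + 2) ^ 2

/-- Warren bound along a plane curve `g = 0` -/
def CW : Prop := ∀ (g : MvPolynomial (Fin 2) ℝ) (t : ℕ) (f : Fin t → MvPolynomial (Fin 2) ℝ)
  (Z : Finset (Fin 2 → ℝ)), g ≠ 0 →
  (∀ z ∈ Z, eval z g = 0 ∧ ∀ j, eval z (f j) ≠ 0) →
  (∀ z ∈ Z, ∀ w ∈ Z, sameCl f z w → z = w) →
  Z.card ≤ 2 * g.totalDegree * (g.totalDegree + 2 * ∑ j, (f j).totalDegree + 2)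

/-- clearing denominators in the composition of a polynomial with a rational map -/
def Clr : Prop := ∀ (d m : ℕ) (P : MvPolynomial (Fin m) ℝ)
  (N : Fin m → MvPolynomial (Fin d) ℝ) (den : MvPolynomial (Fin d) ℝ) (a e : ℕ),
  (∀ i, (N i).totalDegree ≤ a) → den.totalDegree ≤ a → P.totalDegree ≤ e →
  ∃ Q : MvPolynomial (Fin d) ℝ, Q.totalDegree ≤ a * e ∧ ∀ x, eval x den ≠ 0 →
    eval x Q = (eval x den) ^ e * eval (fun i => eval x (N i) / eval x den) P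

/-- a non-zero polynomial in three variables vanishes for few values of the last variable,
outside a plane curve of small degree -/
def ZeroR3 : Prop := ∀ (G : MvPolynomial (Fin 3) ℝ), G ≠ 0 →
  ∃ c : MvPolynomial (Fin 2) ℝ, c ≠ 0 ∧ c.totalDegree ≤ G.totalDegree ∧
    ∀ (p : Pt) (T : Finset ℝ), eval (v2 p) c ≠ 0 → (∀ t ∈ T, eval (v3 p t) G = 0) →
      T.card ≤ G.totalDegree

/-- number of lines in the zero set -/
def LinesIn : Prop := ∀ (P : MvPolynomial (Fin 2) ℝ), P ≠ 0 → ∀ L : Finset (Set Pt),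
  (∀ ℓ ∈ L, IsLine ℓ ∧ ∀ w ∈ ℓ, eval (v2 w) P = 0) → L.card ≤ P.totalDegree

/-- outside `(deg P)^2` exceptional (asymptote) lines `ℓ`, there are at most `2 (deg P)^2` pairs
`(p,q)` of zeros of `P` with top line `ℓ` whose base line is not contained in the zero set. -/
def BadLine : Prop := ∀ (P : MvPolynomial (Fin 2) ℝ), P ≠ 0 →
  ∃ 𝓐 : Finset (Set Pt), (∀ ℓ ∈ 𝓐, IsLine ℓ) ∧ 𝓐.card ≤ P.totalDegree ^ 2 ∧
    ∀ ℓ, IsLine ℓ → ℓ ∉ 𝓐 → ∀ Z : Finset (Pt × Pt),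
      (∀ z ∈ Z, z.1 ≠ z.2 ∧ top z.1 z.2 = ℓ ∧ eval (v2 z.1) P = 0 ∧ eval (v2 z.2) P = 0 ∧
        ¬ (∀ w ∈ base z.1 z.2, eval (v2 w) P = 0)) →
      Z.card ≤ 2 * P.totalDegree ^ 2

/-! ## Class visits -/

/-- (class of `p`, class of `q`) takes at most `VV f` values over pairs with a given top line -/
def Vis : Prop := ∀ (t : ℕ) (f : Fin t → MvPolynomial (Fin 2) ℝ) (ℓ : Set Pt)
  (Z : Finset (Pt × Pt)),
  (∀ z ∈ Z, z.1 ≠ z.2 ∧ top z.1 z.2 = ℓ ∧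
    ∀ j, eval (v2 z.1) (f j) ≠ 0 ∧ eval (v2 z.2) (f j) ≠ 0) →
  (∀ z ∈ Z, ∀ w ∈ Z, sameCl f (v2 z.1) (v2 w.1) → sameCl f (v2 z.2) (v2 w.2) → z = w) →
  Z.card ≤ VV f

def Vis4 : Prop := ∀ (t : ℕ) (f : Fin t → MvPolynomial (Fin 4) ℝ) (x : Pt × Pt)
  (Z : Finset (Pt × Pt)),
  (∀ z ∈ Z, Rel x z ∧ ∀ j, eval (v4 z.1 z.2) (f j) ≠ 0) →
  (∀ z ∈ Z, ∀ w ∈ Z, sameCl f (v4 z.1 z.2) (v4 w.1 w.2) → z = w) →
  Z.card ≤ (8 * ∑ j, (f j).totalDegree + 2) ^ 2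

def Vis3 : Prop := ∀ (t : ℕ) (f : Fin t → MvPolynomial (Fin 3) ℝ) (h : ℝ) (x : Pt × Pt)
  (g : MvPolynomial (Fin 2) ℝ) (Z : Finset (Pt × Pt)), g ≠ 0 →
  (∀ z ∈ Z, Rel x z ∧ eval (v2 z.1) g = 0 ∧ ∀ j, eval (v3 z.1 (hh h z.2)) (f j) ≠ 0) →
  (∀ z ∈ Z, ∀ w ∈ Z, sameCl f (v3 z.1 (hh h z.2)) (v3 w.1 (hh h w.2)) → z = w) →
  Z.card ≤ 2 * g.totalDegree * (g.totalDegree + 8 * ∑ j, (f j).totalDegree + 2)

/-! ## The relation -/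

def K24 : Prop := ∀ x₁ x₂ : Pt × Pt, x₁ ≠ x₂ → ∀ Y : Finset (Pt × Pt),
  (∀ y ∈ Y, NRel x₁ y ∧ NRel x₂ y) → Y.card ≤ 3

def K42 : Prop := ∀ y₁ y₂ : Pt × Pt, y₁ ≠ y₂ → ∀ X : Finset (Pt × Pt),
  (∀ x ∈ X, NRel x y₁ ∧ NRel x y₂) → X.card ≤ 3

def TypeAB : Prop := ∀ (F : MvPolynomial (Fin 4) ℝ), F ≠ 0 → ∀ x : Pt × Pt,
  ∃ g : MvPolynomial (Fin 2) ℝ, g ≠ 0 ∧ g.totalDegree ≤ 4 * F.totalDegree ∧
    ∀ y : Pt × Pt, Rel x y → eval (v4 y.1 y.2) F = 0 → eval (v2 y.1) g = 0 ∨ TypeB F x y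

def TypeB4 : Prop := ∀ (F : MvPolynomial (Fin 4) ℝ) (y : Pt × Pt), ∀ X : Finset (Pt × Pt),
  (∀ x ∈ X, NRel x y ∧ TypeB F x y) → X.card ≤ 4

/-! ## Counting -/

open scoped Classical in
def KSTs : Prop := ∀ (α β : Type) (R : α → β → Prop) (X : Finset α) (Y : Finset β),
  (∀ y₁ ∈ Y, ∀ y₂ ∈ Y, y₁ ≠ y₂ → (X.filter (fun x => R x y₁ ∧ R x y₂)).card ≤ 3) →
  (((X ×ˢ Y).filter (fun z => R z.1 z.2)).card : ℝ) ≤ X.card + 2 * Real.sqrt X.card * Y.card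

open scoped Classical in
def ClassSum : Prop := ∀ (α β κ : Type) (R : α → β → Prop) (X : Finset α) (Y : Finset β)
  (cl : β → κ) (K : Finset κ) (V M : ℝ), 0 ≤ M → 0 ≤ V →
  (∀ y ∈ Y, cl y ∈ K) →
  (∀ y₁ ∈ Y, ∀ y₂ ∈ Y, y₁ ≠ y₂ → (X.filter (fun x => R x y₁ ∧ R x y₂)).card ≤ 3) →
  (∀ x ∈ X, (((Y.filter (fun y => R x y)).image cl).card : ℝ) ≤ V) →
  (∀ k ∈ K, ((Y.filter (fun y => cl y = k)).card : ℝ) ≤ M) →
  (((X ×ˢ Y).filter (fun z => R z.1 z.2)).card : ℝ) ≤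
    X.card * V + 2 * M * Real.sqrt (K.card * (X.card * V))

open scoped Classical in
/-- the incidence theorem for close pairs, at exponent `θ` -/
def IncTh (θ : ℝ) : Prop := ∃ C₀ : ℝ, 0 < C₀ ∧ ∀ (S : Finset Pt) (X : Finset (Pt × Pt)),
  (∀ x ∈ X, x.1 ∈ S ∧ x.2 ∈ S ∧ x.1 ≠ x.2) →
  (X.card : ℝ) ≤ 2 * (S.card : ℝ) ^ (2 - θ) →
  ∃ c : MvPolynomial (Fin 2) ℝ, c ≠ 0 ∧ (c.totalDegree : ℝ) ≤ C₀ * (S.card : ℝ) ^ (θ / 2) ∧
    (((X ×ˢ (X.filter (fun y => eval (v2 y.1) c ≠ 0))).filter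
      (fun z => NRel z.1 z.2)).card : ℝ) ≤ C₀ * (S.card : ℝ) ^ (2 : ℝ)

/-- Szemeredi-Trotter for rich lines -/
def ST : Prop := ∃ C₀ : ℝ, 0 < C₀ ∧ ∀ (S : Finset Pt) (L : Finset (Set Pt)) (k : ℝ), 2 ≤ k →
  (∀ ℓ ∈ L, IsLine ℓ ∧ k ≤ rich S ℓ) →
  (L.card : ℝ) ≤ C₀ * ((S.card : ℝ) ^ 2 / k ^ 3 + S.card / k)

def LineKST : Prop := ∀ (S : Finset Pt) (L : Finset (Set Pt)), (∀ ℓ ∈ L, IsLine ℓ) →
  (∑ ℓ ∈ L, (rich S ℓ : ℝ)) ≤ L.card * Real.sqrt S.card + S.card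

def VeryRich : Prop := ∀ (S : Finset Pt) (L : Finset (Set Pt)),
  (∀ ℓ ∈ L, IsLine ℓ ∧ 2 * Real.sqrt S.card ≤ rich S ℓ) →
  (∑ ℓ ∈ L, (rich S ℓ : ℝ)) ≤ 2 * S.card

def Sums : Prop := ∀ a : ℝ, 0 ≤ a → a < 3 → ∃ C₀ : ℝ, 0 < C₀ ∧
  ∀ (S : Finset Pt) (L : Finset (Set Pt)) (k₀ : ℝ), 2 ≤ k₀ →
  (∀ ℓ ∈ L, IsLine ℓ ∧ k₀ ≤ rich S ℓ ∧ (rich S ℓ : ℝ) ≤ 2 * Real.sqrt S.card) →
  (∑ ℓ ∈ L, (rich S ℓ : ℝ) ^ a) ≤ C₀ * (S.card : ℝ) ^ 2 * k₀ ^ (a - 3)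

/-- choice of the apex -/
def Tri : Prop := ∀ (S B : Finset Pt), B ⊆ S → uTri S ≤ tri B S + tri (S \ B) S

/-- triangles with both base points on a curve -/
def BadSum : Prop := ∃ C₀ : ℝ, 0 < C₀ ∧ ∀ (S B : Finset Pt) (P : MvPolynomial (Fin 2) ℝ)
  (k₀ : ℝ), 2 ≤ k₀ → B ⊆ S → P ≠ 0 → (∀ p ∈ B, eval (v2 p) P = 0) →
  (tri B S : ℝ) ≤ C₀ * (k₀ * (S.card : ℝ) ^ 2 +
    (P.totalDegree : ℝ) ^ 2 * (S.card : ℝ) ^ 2 / k₀ ^ 2 +
    (P.totalDegree : ℝ) ^ 2 * (S.card : ℝ) ^ ((3 : ℝ) / 2))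

open scoped Classical in
/-- collisions at one line -/
def Col : Prop := ∀ (t : ℕ) (f : Fin t → MvPolynomial (Fin 2) ℝ) (ℓ : Set Pt)
  (Z : Finset (Pt × Pt)) (κ : ℝ),
  (∀ z ∈ Z, z.1 ≠ z.2 ∧ top z.1 z.2 = ℓ ∧
    ∀ j, eval (v2 z.1) (f j) ≠ 0 ∧ eval (v2 z.2) (f j) ≠ 0) →
  (∀ z ∈ Z, ((Z.filter (fun w => w.1 ∈ base z.1 z.2)).card : ℝ) ≤ κ) →
  (Z.card : ℝ) ≤ 2 * κ * VV f ∨
  (Z.card : ℝ) ^ 2 ≤ 2 * VV f * ((Z ×ˢ Z).filter (fun s =>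
    sameCl f (v2 s.1.1) (v2 s.2.1) ∧ sameCl f (v2 s.1.2) (v2 s.2.2) ∧
    NRel (s.1.1, s.2.1) (s.1.2, s.2.2))).card

open scoped Classical in
/-- triangles with both base points good -/
def GoodSum : Prop := ∃ C₀ : ℝ, 0 < C₀ ∧ ∀ (S G : Finset Pt) (t : ℕ)
  (f : Fin t → MvPolynomial (Fin 2) ℝ) (k₀ I : ℝ), 2 ≤ k₀ → G ⊆ S →
  (∀ p ∈ G, ∀ j, eval (v2 p) (f j) ≠ 0) →
  (((closeP f G ×ˢ closeP f G).filter (fun z => NRel z.1 z.2)).card : ℝ) ≤ I →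
  (tri G S : ℝ) ≤ C₀ * (k₀ * (S.card : ℝ) ^ 2 + (VV f : ℝ) * (S.card : ℝ) ^ 2 / k₀ ^ 2 +
    (S.card : ℝ) * Real.sqrt ((VV f : ℝ) * I / k₀))

/-- the final theorem -/
def Main (θ : ℝ) : Prop := ∃ C₀ : ℝ, ∀ S : Finset Pt,
  (uTri S : ℝ) ≤ C₀ * (S.card : ℝ) ^ (2 + θ / 3)

end Stmts

end Pool.Agent.Work.MP_916cc8_co
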