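import Pool.Agent.Work.MP_916cc8_co.Stmts
import Pool.Agent.Work.MP_916cc8_co.Bd.B01

/-! The bound for a line that is not of asymptote type -/

set_option autoImplicit false

namespace Pool.Agent.Work.MP_916cc8_co

open MvPolynomial
open scoped Classical

namespace BLaw

/-- the point with coordinates `x`, `y` -/
noncomputable def pp (a b x y : ℝ) : Pt :=
  (b * x + a / (a ^ 2 + b ^ 2) * y, -a * x + b / (a ^ 2 + b ^ 2) * y)

/-- specialisation of the inner variable, real -/
noncomputable def sp (F : Polynomial (Polynomial ℝ)) (y : ℝ) : Polynomial ℝ :=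
  F.map (Polynomial.evalRingHom y)

/-- specialisation of the inner variable, complex -/
noncomputable def spC (F : Polynomial (Polynomial ℝ)) (y : ℝ) : Polynomial ℂ :=
  F.map ((Complex.ofRealHom).comp (Polynomial.evalRingHom y))

theorem spC_eq (F : Polynomial (Polynomial ℝ)) (y : ℝ) :
    spC F y = (sp F y).map Complex.ofRealHom := by
  unfold spC sp
  rw [Polynomial.map_map]

theorem aeval_sp (V : Fin 2 → Polynomial (Polynomial ℝ)) (x y : ℝ) (w : Fin 2 → ℝ)
    (hV : ∀ i, ((V i).map (Polynomial.evalRingHom y)).eval x = w i)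
    (P : MvPolynomial (Fin 2) ℝ) :
    ((MvPolynomial.aeval V P : Polynomial (Polynomial ℝ)).map (Polynomial.evalRingHom y)).eval x =
      eval w P := by
  induction P using MvPolynomial.induction_on with
  | C r => simp
  | add f g hf hg =>
    simp only [map_add, Polynomial.map_add, Polynomial.eval_add, hf, hg]
  | mul_X f i hf =>
    rw [map_mul, Polynomial.map_mul, Polynomial.eval_mul, hf, map_mul, MvPolynomial.aeval_X,
      MvPolynomial.eval_X, hV]

theorem sp_lineP_eval (P : MvPolynomial (Fin 2) ℝ) (a b x y : ℝ) :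
    (sp (lineP P a b) y).eval x = eval (v2 (pp a b x y)) P := by
  unfold sp lineP
  refine aeval_sp _ x y _ (fun i => ?_) P
  fin_cases i
  · simp [v2, pp]
  · simp [v2, pp]

theorem roots_bdd (F : Polynomial (Polynomial ℝ)) (c : ℝ) (hL : F.leadingCoeff.eval c ≠ 0) :
    ∃ B : ℝ, ∃ ε > 0, ∀ y : ℝ, dist y c < ε → F.leadingCoeff.eval y ≠ 0 ∧
      ∀ z : ℂ, (spC F y).IsRoot z → ‖z‖ ≤ B := by
  set h : ℝ → ℝ := fun y => (∑ i ∈ Finset.range F.natDegree, |(F.coeff i).eval y|) /
    |F.leadingCoeff.eval y| + 1 with hh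
  have hcont : ContinuousAt h c := by
    refine ContinuousAt.add (ContinuousAt.div ?_ ?_ (abs_ne_zero.mpr hL)) continuousAt_const
    · exact (continuous_finsetSum _ fun i _ =>
        (Polynomial.continuous _).abs).continuousAt
    · exact (Polynomial.continuous _).abs.continuousAt
  have h1 : ∀ᶠ y in nhds c, h y < h c + 1 :=
    hcont.eventually_lt_const (lt_add_one _)
  have h2 : ∀ᶠ y in nhds c, F.leadingCoeff.eval y ≠ 0 :=
    (Polynomial.continuous F.leadingCoeff).continuousAt.eventually_ne hL
  obtain ⟨ε, hε, hball⟩ := Metric.eventually_nhds_iff.mp (h1.and h2)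
  refine ⟨h c + 1, ε, hε, fun y hy => ?_⟩
  obtain ⟨h3, h4⟩ := hball hy
  refine ⟨h4, fun z hz => ?_⟩
  have hne : ((Complex.ofRealHom).comp (Polynomial.evalRingHom y)) F.leadingCoeff ≠ 0 := by
    simp only [RingHom.comp_apply, Polynomial.coe_evalRingHom, Complex.ofRealHom_eq_coe]
    exact_mod_cast h4
  have hnd : (spC F y).natDegree = F.natDegree :=
    Polynomial.natDegree_map_of_leadingCoeff_ne_zero _ hne
  have hlc : (spC F y).leadingCoeff = ((F.leadingCoeff.eval y : ℝ) : ℂ) := by
    unfold spC
    rw [Polynomial.leadingCoeff_map_of_leadingCoeff_ne_zero _ hne]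
    simp
  have hne0 : spC F y ≠ 0 := by
    intro h0
    rw [h0, Polynomial.leadingCoeff_zero] at hlc
    exact h4 (by exact_mod_cast hlc.symm)
  have h5 := Polynomial.IsRoot.norm_lt_cauchyBound hne0 hz
  have h6 : (Polynomial.cauchyBound (spC F y) : ℝ) ≤ h y := by
    unfold Polynomial.cauchyBound
    rw [hnd, hlc]
    push_cast
    simp only [hh]
    have h7 : ((((Finset.range F.natDegree).sup fun i => ‖(spC F y).coeff i‖₊) : NNReal) : ℝ) ≤
        ∑ i ∈ Finset.range F.natDegree, |(F.coeff i).eval y| := by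
      have h8 : ((Finset.range F.natDegree).sup fun i => ‖(spC F y).coeff i‖₊) ≤
          ∑ i ∈ Finset.range F.natDegree, ‖(spC F y).coeff i‖₊ :=
        Finset.sup_le fun i hi =>
          Finset.single_le_sum (f := fun i => ‖(spC F y).coeff i‖₊) (fun _ _ => bot_le) hi
      refine (NNReal.coe_le_coe.mpr h8).trans (le_of_eq ?_)
      rw [NNReal.coe_sum]
      refine Finset.sum_congr rfl fun i _ => ?_
      rw [coe_nnnorm]
      unfold spC
      rw [Polynomial.coeff_map]
      simp
    have h9 : ‖((F.leadingCoeff.eval y : ℝ) : ℂ)‖ = |F.leadingCoeff.eval y| := by simp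
    rw [h9]
    have h10 : 0 < |F.leadingCoeff.eval y| := abs_pos.mpr h4
    gcongr
  have h7 : ‖z‖ < (Polynomial.cauchyBound (spC F y) : ℝ) := by
    rw [← coe_nnnorm]
    exact_mod_cast h5
  linarith

theorem deg_zero {a b c : ℝ} {P G P1 Q Q1 : MvPolynomial (Fin 2) ℝ} {D : ℕ}
    (hc : ¬ Asym P a b c) (hPG : G * P1 = P) (hQG : G * Q1 = Q)
    (hQ : ∀ x y : ℝ, y ≠ c → eval (v2 (pp a b x y)) Q =
      (c - y) ^ D * eval (v2 (pp a b (x + 2 / (c - y)) y)) P) :
    (lineP G a b).natDegree = 0 := by
  by_contra hj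
  have hLP : (lineP P a b).leadingCoeff.eval c ≠ 0 := hc
  obtain ⟨B, ε, hε, hB⟩ := roots_bdd (lineP P a b) c hLP
  set δ : ℝ := min (ε / 2) (1 / (|B| + 1)) with hδ
  have hB1 : 0 < |B| + 1 := by positivity
  have hδ0 : 0 < δ := lt_min (by positivity) (by positivity)
  set y : ℝ := c - δ with hy
  have hdist : dist y c < ε := by
    rw [Real.dist_eq, hy]
    have : c - δ - c = -δ := by ring
    rw [this, abs_neg, abs_of_pos hδ0]
    have := min_le_left (ε / 2) (1 / (|B| + 1))
    linarith
  obtain ⟨h1, h2⟩ := hB y hdist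
  have hyc : y ≠ c := by
    rw [hy]; linarith
  have hmulP : lineP P a b = lineP G a b * lineP P1 a b := by
    rw [← hPG]
    unfold lineP
    rw [map_mul]
  have hmulQ : lineP Q a b = lineP G a b * lineP Q1 a b := by
    rw [← hQG]
    unfold lineP
    rw [map_mul]
  have hG : (lineP G a b).leadingCoeff.eval y ≠ 0 := by
    intro h0
    apply h1
    rw [hmulP, Polynomial.leadingCoeff_mul, Polynomial.eval_mul, h0, zero_mul]
  have hnd : (spC (lineP G a b) y).natDegree = (lineP G a b).natDegree := by
    refine Polynomial.natDegree_map_of_leadingCoeff_ne_zero _ ?_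
    simp only [RingHom.comp_apply, Polynomial.coe_evalRingHom, Complex.ofRealHom_eq_coe]
    exact_mod_cast hG
  obtain ⟨z, hz⟩ := IsAlgClosed.exists_root (spC (lineP G a b) y) (by
    intro h0
    rw [← hnd] at hj
    exact hj (Polynomial.natDegree_eq_of_degree_eq_some h0))
  have hzP : (spC (lineP P a b) y).IsRoot z := by
    rw [hmulP]
    unfold spC at hz ⊢
    rw [Polynomial.map_mul, Polynomial.IsRoot.def, Polynomial.eval_mul, hz.eq_zero, zero_mul]
  have hzQ : (spC (lineP Q a b) y).IsRoot z := by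
    rw [hmulQ]
    unfold spC at hz ⊢
    rw [Polynomial.map_mul, Polynomial.IsRoot.def, Polynomial.eval_mul, hz.eq_zero, zero_mul]
  have hident : sp (lineP Q a b) y = Polynomial.C ((c - y) ^ D) *
      (sp (lineP P a b) y).comp (Polynomial.X + Polynomial.C (2 / (c - y))) := by
    refine Polynomial.funext fun x => ?_
    rw [sp_lineP_eval, Polynomial.eval_mul, Polynomial.eval_C, Polynomial.eval_comp,
      sp_lineP_eval, hQ x y hyc]
    simp
  have hzP2 : (spC (lineP P a b) y).IsRoot (z + ((2 / (c - y) : ℝ) : ℂ)) := by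
    have h3 := hzQ.eq_zero
    rw [spC_eq, hident, Polynomial.map_mul, Polynomial.eval_mul, Polynomial.map_comp,
      Polynomial.eval_comp, ← spC_eq] at h3
    rcases mul_eq_zero.mp h3 with h4 | h4
    · exfalso
      rw [Polynomial.map_C, Polynomial.eval_C] at h4
      have h5 : (c - y) ^ D ≠ 0 := pow_ne_zero _ (sub_ne_zero.mpr (Ne.symm hyc))
      apply h5
      have h6 : (((c - y) ^ D : ℝ) : ℂ) = 0 := by
        simpa using h4
      exact_mod_cast h6
    · rw [Polynomial.IsRoot.def]
      rw [← h4]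
      congr 1
      simp
  have h3 := h2 z hzP
  have h4 := h2 _ hzP2
  have h5 : ‖((2 / (c - y) : ℝ) : ℂ)‖ ≤ B + B := by
    have h6 : ((2 / (c - y) : ℝ) : ℂ) = (z + ((2 / (c - y) : ℝ) : ℂ)) - z := by ring
    rw [h6]
    exact (norm_sub_le _ _).trans (add_le_add h4 h3)
  have h6 : c - y = δ := by rw [hy]; ring
  rw [h6, Complex.norm_real, Real.norm_eq_abs, abs_of_pos (by positivity)] at h5
  have h7 : δ ≤ 1 / (|B| + 1) := min_le_right _ _
  have h8 : 2 * (|B| + 1) ≤ 2 / δ := by
    rw [le_div_iff₀ hδ0]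
    rw [le_div_iff₀ hB1] at h7
    linarith
  have h9 := le_abs_self B
  linarith

end BLaw

open BLaw in
theorem BLa_proof (hb : Bez) (hc : Clr) : BLa := by
  intro P hP a b c hab hAs Z hZ
  have hN : a ^ 2 + b ^ 2 ≠ 0 := by rcases hab with h | h <;> positivity
  set D := P.totalDegree with hD
  set den : MvPolynomial (Fin 2) ℝ := C c - C a * X 0 - C b * X 1 with hden
  have hdeneval : ∀ p : Pt, eval (v2 p) den = c - a * p.1 - b * p.2 := by
    intro p
    simp [hden, v2]
  have hdendeg : den.totalDegree ≤ 1 := by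
    rw [hden]
    refine (totalDegree_sub _ _).trans (max_le ((totalDegree_sub _ _).trans (max_le ?_ ?_)) ?_)
    · simp
    · refine (totalDegree_mul _ _).trans ?_
      simp
    · refine (totalDegree_mul _ _).trans ?_
      simp
  set Nm : Fin 2 → MvPolynomial (Fin 2) ℝ := ![X 0 * den + C (2 * b), X 1 * den - C (2 * a)]
    with hNm
  have hNdeg : ∀ i, (Nm i).totalDegree ≤ 2 := by
    intro i
    fin_cases i
    · simp only [hNm, Fin.zero_eta, Matrix.cons_val_zero]
      refine (totalDegree_add _ _).trans (max_le ((totalDegree_mul _ _).trans ?_) ?_)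
      · have : (X 0 : MvPolynomial (Fin 2) ℝ).totalDegree = 1 := totalDegree_X _
        omega
      · exact (totalDegree_C _).le.trans (Nat.zero_le _)
    · simp only [hNm, Fin.mk_one, Matrix.cons_val_one]
      refine (totalDegree_sub _ _).trans (max_le ((totalDegree_mul _ _).trans ?_) ?_)
      · have : (X 1 : MvPolynomial (Fin 2) ℝ).totalDegree = 1 := totalDegree_X _
        omega
      · exact (totalDegree_C _).le.trans (Nat.zero_le _)
  obtain ⟨Q, hQdeg, hQ⟩ := hc 2 2 P Nm den 2 D hNdeg (hdendeg.trans (by norm_num)) le_rfl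
  have hQ' : ∀ p q : Pt, c - a * p.1 - b * p.2 ≠ 0 →
      q.1 - p.1 = 2 * b / (c - a * p.1 - b * p.2) →
      q.2 - p.2 = -(2 * a) / (c - a * p.1 - b * p.2) →
      eval (v2 p) Q = (c - a * p.1 - b * p.2) ^ D * eval (v2 q) P := by
    intro p q h0 h1 h2
    rw [hQ (v2 p) (by rw [hdeneval]; exact h0), hdeneval]
    congr 2
    have h3 : (fun i => eval (v2 p) (Nm i) / (c - a * p.1 - b * p.2)) = v2 q := by
      funext i
      fin_cases i
      · simp only [hNm, Fin.zero_eta, Matrix.cons_val_zero, map_add, map_mul, hdeneval, eval_X,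
          eval_C]
        simp only [v2, Matrix.cons_val_zero]
        rw [div_eq_iff h0]
        rw [eq_div_iff h0] at h1
        linarith
      · simp only [hNm, Fin.mk_one, Matrix.cons_val_one, Matrix.cons_val_zero, map_sub, map_mul,
          hdeneval, eval_X, eval_C]
        simp only [v2, Matrix.cons_val_one, Matrix.cons_val_zero]
        rw [div_eq_iff h0]
        rw [eq_div_iff h0] at h2
        linarith
    rw [h3]
  obtain ⟨P1, Q1, G, hrel, hPG, hQG⟩ := UniqueFactorizationMonoid.exists_reduced_factors P hP Q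
  have hG0 : G ≠ 0 := by
    rintro rfl
    rw [zero_mul] at hPG
    exact hP hPG.symm
  have hP10 : P1 ≠ 0 := by
    rintro rfl
    rw [mul_zero] at hPG
    exact hP hPG.symm
  have hP1deg : P1.totalDegree ≤ D := by
    rw [hD, ← hPG, totalDegree_mul_of_isDomain hG0 hP10]
    exact Nat.le_add_left _ _
  have hQ1deg : Q1.totalDegree ≤ 2 * D := by
    by_cases hQ10 : Q1 = 0
    · rw [hQ10, totalDegree_zero]
      exact Nat.zero_le _
    · refine le_trans ?_ hQdeg
      rw [← hQG, totalDegree_mul_of_isDomain hG0 hQ10]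
      exact Nat.le_add_left _ _
  have hdeg := deg_zero (D := D) hAs hPG hQG (by
    intro x y hy
    have h1 : c - a * (pp a b x y).1 - b * (pp a b x y).2 = c - y := by
      simp only [pp]
      field_simp
      ring
    have h2 : c - y ≠ 0 := sub_ne_zero.mpr (Ne.symm hy)
    have h3 := hQ' (pp a b x y) (pp a b (x + 2 / (c - y)) y) (by rw [h1]; exact h2)
      (by rw [h1]; simp only [pp]; ring) (by rw [h1]; simp only [pp]; ring)
    rw [h3, h1])
  -- the zero set of `G` consists of lines
  have hline : ∀ p w : Pt, a * w.1 + b * w.2 = a * p.1 + b * p.2 →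
      eval (v2 w) G = eval (v2 p) G := by
    have key : ∀ p : Pt, eval (v2 p) G = ((lineP G a b).coeff 0).eval (a * p.1 + b * p.2) := by
      intro p
      have h1 : p = pp a b ((b * p.1 - a * p.2) / (a ^ 2 + b ^ 2)) (a * p.1 + b * p.2) := by
        ext
        · simp only [pp]
          field_simp
          ring
        · simp only [pp]
          field_simp
          ring
      conv_lhs => rw [h1]
      rw [← sp_lineP_eval]
      rw [Polynomial.eq_C_of_natDegree_eq_zero hdeg]
      unfold sp
      simp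
    intro p w h
    rw [key w, key p, h]
  -- the points
  have hinj : Set.InjOn (fun z : Pt × Pt => v2 z.1) (Z : Set (Pt × Pt)) := by
    intro z hz w hw hzw
    have h1 : z.1 = w.1 := by
      simp only [v2] at hzw
      have h2 := congrFun hzw 0
      have h3 := congrFun hzw 1
      simp only [Matrix.cons_val_zero, Matrix.cons_val_one] at h2 h3
      exact Prod.ext h2 h3
    have h2 : z.2 = w.2 := by
      refine top_unique (p := z.1) (hZ z hz).1 ?_
      rw [(hZ z hz).2.1]
      conv_rhs => rw [h1]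
      rw [(hZ w hw).2.1]
    exact Prod.ext h1 h2
  have hcard := hb P1 Q1 hrel (Z.image fun z : Pt × Pt => v2 z.1) (by
    intro v hv
    obtain ⟨z, hz, rfl⟩ := Finset.mem_image.mp hv
    obtain ⟨hz1, hz2, hz3, hz4, hz5⟩ := hZ z hz
    obtain ⟨h1, h2, h3⟩ := (top_eq_iff (p := z.1) (q := z.2) hab).mp hz2
    have hGz : eval (v2 z.1) G ≠ 0 := by
      intro h0
      apply hz5
      intro w hw
      rw [mem_base] at hw
      simp only [cr, Prod.fst_sub, Prod.snd_sub] at hw
      rw [h2, h3] at hw
      have h4 : a * w.1 + b * w.2 = a * z.1.1 + b * z.1.2 := by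
        have h5 : 2 * b / (c - a * z.1.1 - b * z.1.2) * (w.2 - z.1.2) -
            -(2 * a) / (c - a * z.1.1 - b * z.1.2) * (w.1 - z.1.1) =
            2 * (a * w.1 + b * w.2 - (a * z.1.1 + b * z.1.2)) /
              (c - a * z.1.1 - b * z.1.2) := by ring
        rw [h5, div_eq_zero_iff] at hw
        rcases hw with hw | hw
        · linarith
        · exact absurd hw h1
      rw [← hPG, map_mul, hline z.1 w h4, h0, zero_mul]
    constructor
    · have h4 := hz3
      rw [← hPG, map_mul] at h4
      exact (mul_eq_zero.mp h4).resolve_left hGz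
    · have h4 := hQ' z.1 z.2 h1 h2 h3
      rw [hz4, mul_zero, ← hQG, map_mul] at h4
      exact (mul_eq_zero.mp h4).resolve_left hGz)
  rw [Finset.card_image_of_injOn hinj] at hcard
  calc Z.card ≤ P1.totalDegree * Q1.totalDegree := hcard
    _ ≤ D * (2 * D) := Nat.mul_le_mul hP1deg hQ1deg
    _ = 2 * D ^ 2 := by ring

end Pool.Agent.Work.MP_916cc8_co
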