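import Pool.Agent.Work.MP_916cc8_co.Bd.B01

/-!
# BLb: number of asymptote lines
-/

set_option autoImplicit false

namespace Pool.Agent.Work.MP_916cc8_co

open MvPolynomial

namespace BLbAux

open Polynomial in
/-- first coordinate -/
noncomputable def cA (a b : ℝ) : Polynomial (Polynomial ℝ) :=
  Polynomial.C (Polynomial.C b) * Polynomial.X +
    Polynomial.C (Polynomial.C (a / (a ^ 2 + b ^ 2)) * Polynomial.X)

/-- second coordinate -/
noncomputable def cB (a b : ℝ) : Polynomial (Polynomial ℝ) :=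
  -Polynomial.C (Polynomial.C a) * Polynomial.X +
    Polynomial.C (Polynomial.C (b / (a ^ 2 + b ^ 2)) * Polynomial.X)

theorem lineP_eq (P : MvPolynomial (Fin 2) ℝ) (a b : ℝ) :
    lineP P a b = ∑ m ∈ P.support, Polynomial.C (Polynomial.C (P.coeff m)) *
      (cA a b ^ (m 0) * cB a b ^ (m 1)) := by
  unfold lineP
  rw [MvPolynomial.aeval_def, MvPolynomial.eval₂_eq]
  apply Finset.sum_congr rfl
  intro m _
  have : ∏ i ∈ m.support, (![cA a b, cB a b] : Fin 2 → Polynomial (Polynomial ℝ)) i ^ (m i) =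
      cA a b ^ (m 0) * cB a b ^ (m 1) := by
    rw [Finset.prod_subset (Finset.subset_univ m.support), Fin.prod_univ_two]
    · rfl
    · intro i _ hi
      rw [Finsupp.notMem_support_iff.1 hi, pow_zero]
  exact congrArg₂ (· * ·) rfl this

theorem cA_deg (a b : ℝ) : (cA a b).natDegree ≤ 1 := Polynomial.natDegree_linear_le

theorem cB_deg (a b : ℝ) : (cB a b).natDegree ≤ 1 := by
  unfold cB
  rw [← Polynomial.C_neg]
  exact Polynomial.natDegree_linear_le

theorem cA_coeff (a b : ℝ) : (cA a b).coeff 1 = Polynomial.C b := by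
  unfold cA
  rw [Polynomial.coeff_add, Polynomial.coeff_C_mul_X, Polynomial.coeff_C]
  simp

theorem cB_coeff (a b : ℝ) : (cB a b).coeff 1 = Polynomial.C (-a) := by
  unfold cB
  rw [← Polynomial.C_neg, Polynomial.coeff_add, Polynomial.coeff_C_mul_X, Polynomial.coeff_C]
  simp

theorem mon_deg (a b : ℝ) (i j : ℕ) : (cA a b ^ i * cB a b ^ j).natDegree ≤ i + j := by
  refine Polynomial.natDegree_mul_le.trans (Nat.add_le_add ?_ ?_)
  · refine Polynomial.natDegree_pow_le.trans ?_
    have := Nat.mul_le_mul_left i (cA_deg a b)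
    omega
  · refine Polynomial.natDegree_pow_le.trans ?_
    have := Nat.mul_le_mul_left j (cB_deg a b)
    omega

theorem mon_coeff (a b : ℝ) (i j : ℕ) : (cA a b ^ i * cB a b ^ j).coeff (i + j) =
    Polynomial.C (b ^ i * (-a) ^ j) := by
  rw [Polynomial.coeff_mul_add_eq_of_natDegree_le]
  · have h1 := Polynomial.coeff_pow_of_natDegree_le (m := i) (n := 1) (cA_deg a b)
    have h2 := Polynomial.coeff_pow_of_natDegree_le (m := j) (n := 1) (cB_deg a b)
    rw [mul_one] at h1 h2
    rw [h1, h2, cA_coeff, cB_coeff, ← Polynomial.C_pow, ← Polynomial.C_pow, ← Polynomial.C_mul]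
  · refine Polynomial.natDegree_pow_le.trans ?_
    have := Nat.mul_le_mul_left i (cA_deg a b)
    omega
  · refine Polynomial.natDegree_pow_le.trans ?_
    have := Nat.mul_le_mul_left j (cB_deg a b)
    omega

theorem m_le {P : MvPolynomial (Fin 2) ℝ} {m : Fin 2 →₀ ℕ} (hm : m ∈ P.support) :
    m 0 + m 1 ≤ P.totalDegree := by
  have := MvPolynomial.le_totalDegree hm
  rw [Finsupp.sum_fintype _ _ (fun _ => rfl), Fin.sum_univ_two] at this
  exact this

theorem lineP_natDegree (P : MvPolynomial (Fin 2) ℝ) (a b : ℝ) :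
    (lineP P a b).natDegree ≤ P.totalDegree := by
  rw [lineP_eq]
  apply Polynomial.natDegree_sum_le_of_forall_le
  intro m hm
  refine (Polynomial.natDegree_C_mul_le _ _).trans ((mon_deg a b _ _).trans (m_le hm))

/-- the top form in the direction `(b,-a)` -/
noncomputable def dd (P : MvPolynomial (Fin 2) ℝ) (a b : ℝ) : ℝ :=
  ∑ m ∈ P.support with m 0 + m 1 = P.totalDegree, P.coeff m * (b ^ (m 0) * (-a) ^ (m 1))

theorem lineP_coeff (P : MvPolynomial (Fin 2) ℝ) (a b : ℝ) :
    (lineP P a b).coeff P.totalDegree = Polynomial.C (dd P a b) := by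
  rw [lineP_eq, Polynomial.finsetSum_coeff, dd, map_sum, Finset.sum_filter]
  apply Finset.sum_congr rfl
  intro m hm
  rw [Polynomial.coeff_C_mul]
  split_ifs with h
  · rw [← h, mon_coeff, ← Polynomial.C_mul]
  · rw [Polynomial.coeff_eq_zero_of_natDegree_lt, mul_zero]
    have := mon_deg a b (m 0) (m 1)
    have := m_le hm
    omega

theorem not_asym {P : MvPolynomial (Fin 2) ℝ} {a b : ℝ} (h : dd P a b ≠ 0) (c : ℝ) :
    ¬ Asym P a b c := by
  unfold Asym
  have h1 : (lineP P a b).coeff P.totalDegree ≠ 0 := by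
    rw [lineP_coeff]
    exact fun h' => h (Polynomial.C_eq_zero.1 h')
  have h2 : (lineP P a b).natDegree = P.totalDegree :=
    le_antisymm (lineP_natDegree P a b) (Polynomial.le_natDegree_of_ne_zero h1)
  rw [Polynomial.leadingCoeff, h2, lineP_coeff, Polynomial.eval_C]
  exact h

/-! inner degrees -/

/-- all coefficients have degree at most `n` -/
def IB (n : ℕ) (F : Polynomial (Polynomial ℝ)) : Prop := ∀ k, (F.coeff k).natDegree ≤ n

theorem IB_mul {n m : ℕ} {F G : Polynomial (Polynomial ℝ)} (hF : IB n F) (hG : IB m G) :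
    IB (n + m) (F * G) := by
  intro k
  rw [Polynomial.coeff_mul]
  apply Polynomial.natDegree_sum_le_of_forall_le
  intro x _
  exact Polynomial.natDegree_mul_le.trans (Nat.add_le_add (hF _) (hG _))

theorem IB_pow {n : ℕ} {F : Polynomial (Polynomial ℝ)} (hF : IB n F) (i : ℕ) :
    IB (i * n) (F ^ i) := by
  induction i with
  | zero =>
    intro k
    rw [pow_zero, Polynomial.coeff_one]
    split_ifs <;> simp
  | succ i ih =>
    rw [pow_succ, Nat.succ_mul]
    exact IB_mul ih hF

theorem IB_lin (u v : ℝ) : IB 1 (Polynomial.C (Polynomial.C u) * Polynomial.X +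
    Polynomial.C (Polynomial.C v * Polynomial.X)) := by
  intro k
  rw [Polynomial.coeff_add, Polynomial.coeff_C_mul_X, Polynomial.coeff_C]
  refine (Polynomial.natDegree_add_le _ _).trans (max_le ?_ ?_)
  · split_ifs
    · rw [Polynomial.natDegree_C]; norm_num
    · simp
  · split_ifs
    · exact (Polynomial.natDegree_C_mul_le _ _).trans Polynomial.natDegree_X_le
    · simp

theorem IB_cB (a b : ℝ) : IB 1 (cB a b) := by
  unfold cB
  rw [← Polynomial.C_neg, ← Polynomial.C_neg]
  exact IB_lin _ _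

theorem IB_lineP (P : MvPolynomial (Fin 2) ℝ) (a b : ℝ) : IB P.totalDegree (lineP P a b) := by
  intro k
  rw [lineP_eq, Polynomial.finsetSum_coeff]
  apply Polynomial.natDegree_sum_le_of_forall_le
  intro m hm
  rw [Polynomial.coeff_C_mul]
  refine (Polynomial.natDegree_C_mul_le _ _).trans ?_
  refine (IB_mul (IB_pow (IB_lin b _) (m 0)) (IB_pow (IB_cB a b) (m 1)) k).trans ?_
  have := m_le hm
  omega

/-! evaluation -/

theorem lineP_eval (P : MvPolynomial (Fin 2) ℝ) (a b x y : ℝ) :
    ((lineP P a b).eval (Polynomial.C x)).eval y =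
      eval ![b * x + a / (a ^ 2 + b ^ 2) * y, -a * x + b / (a ^ 2 + b ^ 2) * y] P := by
  unfold lineP
  induction P using MvPolynomial.induction_on with
  | C r => simp
  | add p q hp hq => rw [map_add, Polynomial.eval_add, Polynomial.eval_add, hp, hq, map_add]
  | mul_X p i hp =>
    rw [_root_.map_mul (MvPolynomial.aeval _), Polynomial.eval_mul, Polynomial.eval_mul, hp,
      _root_.map_mul (MvPolynomial.eval _), MvPolynomial.aeval_X, MvPolynomial.eval_X]
    congr 1
    fin_cases i <;> simp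

theorem lineP_ne {P : MvPolynomial (Fin 2) ℝ} (hP : P ≠ 0) {a b : ℝ} (hab : a ≠ 0 ∨ b ≠ 0) :
    lineP P a b ≠ 0 := by
  intro h
  apply hP
  apply MvPolynomial.funext
  intro p
  have hs : a ^ 2 + b ^ 2 ≠ 0 := by
    rcases hab with h | h <;> positivity
  have := lineP_eval P a b ((b * p 0 - a * p 1) / (a ^ 2 + b ^ 2)) (a * p 0 + b * p 1)
  rw [h, Polynomial.eval_zero, Polynomial.eval_zero] at this
  rw [map_zero]
  rw [this]
  congr 2
  funext i
  fin_cases i
  · show p 0 = b * ((b * p 0 - a * p 1) / (a ^ 2 + b ^ 2)) +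
      a / (a ^ 2 + b ^ 2) * (a * p 0 + b * p 1)
    field_simp
    ring
  · show p 1 = -a * ((b * p 0 - a * p 1) / (a ^ 2 + b ^ 2)) +
      b / (a ^ 2 + b ^ 2) * (a * p 0 + b * p 1)
    field_simp
    ring

/-- roots of the leading coefficient -/
noncomputable def rts (P : MvPolynomial (Fin 2) ℝ) (a b : ℝ) : Finset ℝ :=
  (lineP P a b).leadingCoeff.roots.toFinset

theorem rts_card (P : MvPolynomial (Fin 2) ℝ) (a b : ℝ) : (rts P a b).card ≤ P.totalDegree :=
  (Multiset.toFinset_card_le _).trans ((Polynomial.card_roots' _).trans (IB_lineP P a b _))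

theorem mem_rts {P : MvPolynomial (Fin 2) ℝ} (hP : P ≠ 0) {a b : ℝ} (hab : a ≠ 0 ∨ b ≠ 0)
    {c : ℝ} (h : Asym P a b c) : c ∈ rts P a b := by
  unfold rts
  rw [Multiset.mem_toFinset, Polynomial.mem_roots (Polynomial.leadingCoeff_ne_zero.2
    (lineP_ne hP hab))]
  exact h

/-! directions -/

/-- the direction polynomial -/
noncomputable def qq (P : MvPolynomial (Fin 2) ℝ) : Polynomial ℝ :=
  ∑ m ∈ P.support with m 0 + m 1 = P.totalDegree,
    Polynomial.C (P.coeff m * (-1) ^ (m 1)) * Polynomial.X ^ (m 0)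

theorem qq_eval (P : MvPolynomial (Fin 2) ℝ) (b : ℝ) : (qq P).eval b = dd P 1 b := by
  unfold qq dd
  rw [Polynomial.eval_finsetSum]
  apply Finset.sum_congr rfl
  intro m _
  rw [Polynomial.eval_mul, Polynomial.eval_C, Polynomial.eval_pow, Polynomial.eval_X]
  ring

theorem qq_coeff (P : MvPolynomial (Fin 2) ℝ) {m : Fin 2 →₀ ℕ} (hm : m ∈ P.support)
    (h : m 0 + m 1 = P.totalDegree) : (qq P).coeff (m 0) = P.coeff m * (-1) ^ (m 1) := by
  unfold qq
  rw [Polynomial.finsetSum_coeff, Finset.sum_eq_single m]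
  · rw [Polynomial.coeff_C_mul, Polynomial.coeff_X_pow, if_pos rfl, mul_one]
  · intro m' hm' hne
    rw [Polynomial.coeff_C_mul, Polynomial.coeff_X_pow, if_neg, mul_zero]
    intro h0
    apply hne
    have h1 := (Finset.mem_filter.1 hm').2
    ext i
    fin_cases i
    · exact h0.symm
    · show m' 1 = m 1
      omega
  · intro h'
    exact absurd (Finset.mem_filter.2 ⟨hm, h⟩) h'

theorem exists_top {P : MvPolynomial (Fin 2) ℝ} (hP : P ≠ 0) :
    ∃ m ∈ P.support, m 0 + m 1 = P.totalDegree := by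
  obtain ⟨m, hm, h⟩ := Finset.exists_mem_eq_sup P.support
    (MvPolynomial.support_nonempty.2 hP) (fun s => s.sum fun _ e => e)
  refine ⟨m, hm, ?_⟩
  have h2 : P.totalDegree = m.sum fun _ e => e := h
  rw [h2, Finsupp.sum_fintype _ _ (fun _ => rfl), Fin.sum_univ_two]

theorem qq_ne {P : MvPolynomial (Fin 2) ℝ} (hP : P ≠ 0) : qq P ≠ 0 := by
  obtain ⟨m, hm, h⟩ := exists_top hP
  intro h0
  have := qq_coeff P hm h
  rw [h0, Polynomial.coeff_zero] at this
  have h1 : P.coeff m ≠ 0 := MvPolynomial.mem_support_iff.1 hm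
  have h2 : ((-1 : ℝ)) ^ (m 1) ≠ 0 := pow_ne_zero _ (by norm_num)
  exact mul_ne_zero h1 h2 this.symm

theorem qq_deg (P : MvPolynomial (Fin 2) ℝ) : (qq P).natDegree ≤ P.totalDegree := by
  unfold qq
  apply Polynomial.natDegree_sum_le_of_forall_le
  intro m hm
  refine (Polynomial.natDegree_C_mul_X_pow_le _ _).trans ?_
  have := (Finset.mem_filter.1 hm).2
  omega

theorem qq_deg_lt {P : MvPolynomial (Fin 2) ℝ} (hP : P ≠ 0) (h : dd P 0 1 = 0) :
    (qq P).natDegree < P.totalDegree := by
  apply lt_of_le_of_ne (qq_deg P)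
  intro he
  have h1 : (qq P).coeff P.totalDegree ≠ 0 := by
    rw [← he]
    exact Polynomial.leadingCoeff_ne_zero.2 (qq_ne hP)
  apply h1
  unfold qq
  rw [Polynomial.finsetSum_coeff]
  unfold dd at h
  rw [← h]
  apply Finset.sum_congr rfl
  intro m hm
  have h2 := (Finset.mem_filter.1 hm).2
  rw [Polynomial.coeff_C_mul, Polynomial.coeff_X_pow]
  by_cases h3 : m 1 = 0
  · rw [if_pos (by omega), h3]
    simp
  · rw [if_neg (by omega), neg_zero, zero_pow h3]
    ring

end BLbAux

open BLbAux in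
theorem BLb_proof : BLb := by
  classical
  intro P hP
  set D := P.totalDegree with hD
  set A1 : Finset (Set Pt) := (qq P).roots.toFinset.biUnion
    (fun b => (rts P 1 b).image (fun c => {x : Pt | 1 * x.1 + b * x.2 = c})) with hA1
  set A2 : Finset (Set Pt) := if dd P 0 1 = 0 then
    (rts P 0 1).image (fun c => {x : Pt | 0 * x.1 + 1 * x.2 = c}) else ∅ with hA2
  refine ⟨A1 ∪ A2, ?_, ?_, ?_, ?_⟩
  · intro ℓ hℓ
    rcases Finset.mem_union.1 hℓ with h | h
    · obtain ⟨b, _, h1⟩ := Finset.mem_biUnion.1 h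
      obtain ⟨c, _, rfl⟩ := Finset.mem_image.1 h1
      exact ⟨1, b, c, Or.inl one_ne_zero, rfl⟩
    · rw [hA2] at h
      split_ifs at h
      · obtain ⟨c, _, rfl⟩ := Finset.mem_image.1 h
        exact ⟨0, 1, c, Or.inr one_ne_zero, rfl⟩
      · simp at h
  · have h1 : A1.card ≤ (qq P).natDegree * D := by
      refine Finset.card_biUnion_le.trans ?_
      refine (Finset.sum_le_card_nsmul _ _ D ?_).trans ?_
      · intro b _
        exact Finset.card_image_le.trans (rts_card P 1 b)
      · rw [smul_eq_mul]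
        exact Nat.mul_le_mul_right _ ((Multiset.toFinset_card_le _).trans
          (Polynomial.card_roots' _))
    have h3 := Finset.card_union_le A1 A2
    by_cases h : dd P 0 1 = 0
    · have h2 : A2.card ≤ D := by
        rw [hA2, if_pos h]
        exact Finset.card_image_le.trans (rts_card P 0 1)
      have h4 := qq_deg_lt hP h
      have h5 : (qq P).natDegree * D + D ≤ D ^ 2 := by
        have : ((qq P).natDegree + 1) * D ≤ D * D := Nat.mul_le_mul_right _ h4
        nlinarith
      omega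
    · have h2 : A2.card = 0 := by
        rw [hA2, if_neg h, Finset.card_empty]
      have h5 : (qq P).natDegree * D ≤ D ^ 2 := by
        rw [pow_two]
        exact Nat.mul_le_mul_right _ (qq_deg P)
      omega
  · intro b c h
    apply Finset.mem_union_left
    rw [hA1, Finset.mem_biUnion]
    refine ⟨b, ?_, Finset.mem_image_of_mem _ (mem_rts hP (Or.inl one_ne_zero) h)⟩
    rw [Multiset.mem_toFinset, Polynomial.mem_roots (qq_ne hP), Polynomial.IsRoot.def, qq_eval]
    by_contra h'
    exact not_asym h' c h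
  · intro c h
    apply Finset.mem_union_right
    rw [hA2, if_pos]
    · exact Finset.mem_image_of_mem _ (mem_rts hP (Or.inr one_ne_zero) h)
    · by_contra h'
      exact not_asym h' c h

end Pool.Agent.Work.MP_916cc8_co
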