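import Pool.Agent.Work.MP_916cc8_co.Bd.B01

/-! Assembly of the asymptote bound. -/

set_option autoImplicit false

namespace Pool.Agent.Work.MP_916cc8_co

open MvPolynomial

theorem BadLine_proof (ha : BLa) (hb : BLb) : BadLine := by
  intro P hP
  obtain ⟨A, hA1, hA2, hA3, hA4⟩ := hb P hP
  refine ⟨A, hA1, hA2, ?_⟩
  rintro ℓ ⟨a, b, c, hab, rfl⟩ hℓ Z hZ
  by_cases ha0 : a = 0
  · have hb0 : b ≠ 0 := by tauto
    have hset : {x : Pt | a * x.1 + b * x.2 = c} = {x : Pt | 0 * x.1 + 1 * x.2 = c / b} := by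
      ext x
      subst ha0
      simp only [Set.mem_ofPred_eq]
      rw [eq_div_iff hb0]
      constructor <;> intro h <;> linarith
    rw [hset] at hℓ hZ
    exact ha P hP 0 1 (c / b) (Or.inr one_ne_zero) (fun h => hℓ (hA4 _ h)) Z hZ
  · have hset : {x : Pt | a * x.1 + b * x.2 = c} =
        {x : Pt | 1 * x.1 + (b / a) * x.2 = c / a} := by
      ext x
      simp only [Set.mem_ofPred_eq]
      rw [eq_div_iff ha0]
      have h1 : (1 * x.1 + b / a * x.2) * a = a * x.1 + b * x.2 := by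
        field_simp
      rw [h1]
    rw [hset] at hℓ hZ
    exact ha P hP 1 (b / a) (c / a) (Or.inl one_ne_zero) (fun h => hℓ (hA3 _ _ h)) Z hZ

end Pool.Agent.Work.MP_916cc8_co
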