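import Pool.Agent.Work.MP_916cc8_co.Bd.B01

/-!
# MP_916cc8_co: triangles with both base points on a curve
-/

set_option autoImplicit false

namespace Pool.Agent.Work.MP_916cc8_co

open MvPolynomial

namespace BadSumAux

open scoped Classical

theorem rich_top_self (S : Finset Pt) (p : Pt) : rich S (top p p) = 0 := by
  unfold rich
  rw [Finset.card_eq_zero, Finset.filter_eq_empty_iff]
  intro x _ hx
  rw [mem_top, sub_self] at hx
  simp [cr] at hx

theorem tri_eq (B S : Finset Pt) :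
    tri B S = ∑ z ∈ B ×ˢ B, rich S (top z.1 z.2) := by
  unfold tri
  rw [Finset.sum_product, Finset.card_filter, Finset.sum_product]
  apply Finset.sum_congr rfl
  intro p _
  rw [Finset.sum_product]
  apply Finset.sum_congr rfl
  intro q _
  unfold rich
  rw [Finset.card_filter]
  rfl

theorem q_unique {p q q' r : Pt} (h : base p q = base p q') (h1 : r ∈ top p q)
    (h2 : r ∈ top p q') : q = q' := by
  have h3 : q' ∈ base p q := by
    rw [h, mem_base]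
    exact cr_self _
  rw [mem_base] at h3
  rw [mem_top] at h1 h2
  obtain ⟨p1, p2⟩ := p
  obtain ⟨q1, q2⟩ := q
  obtain ⟨q1', q2'⟩ := q'
  obtain ⟨r1, r2⟩ := r
  simp only [cr, Prod.fst_sub, Prod.snd_sub] at h1 h2 h3
  ext
  · simp only
    linear_combination ((q1 - p1) * h2 - (q1' - p1) * h1 + (r1 - p1) * h3) / (-2)
  · simp only
    linear_combination ((q2 - p2) * h2 - (q2' - p2) * h1 + (r2 - p2) * h3) / (-2)

/-- grouping by the top line -/
theorem sum_by_top (S : Finset Pt) (Q : Finset (Pt × Pt)) (L : Finset (Set Pt)) (K : ℝ)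
    (hQ : ∀ z ∈ Q, top z.1 z.2 ∈ L)
    (hK : ∀ ℓ ∈ L, ((Q.filter (fun z => top z.1 z.2 = ℓ)).card : ℝ) ≤ K) :
    ∑ z ∈ Q, (rich S (top z.1 z.2) : ℝ) ≤ K * ∑ ℓ ∈ L, (rich S ℓ : ℝ) := by
  rw [← Finset.sum_fiberwise_of_maps_to hQ, Finset.mul_sum]
  apply Finset.sum_le_sum
  intro ℓ hℓ
  have e : ∑ z ∈ Q.filter (fun z => top z.1 z.2 = ℓ), (rich S (top z.1 z.2) : ℝ)
      = ∑ z ∈ Q.filter (fun z => top z.1 z.2 = ℓ), (rich S ℓ : ℝ) := by
    apply Finset.sum_congr rfl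
    intro z hz
    rw [(Finset.mem_filter.1 hz).2]
  rw [e, Finset.sum_const, nsmul_eq_mul]
  exact mul_le_mul_of_nonneg_right (hK ℓ hℓ) (Nat.cast_nonneg _)

/-- triples over pairs with a given base line -/
theorem sum_base (S B : Finset Pt) (hBS : B ⊆ S) (Q : Finset (Pt × Pt))
    (hQ : ∀ z ∈ Q, z.1 ∈ B) (g : Set Pt) (hg : ∀ z ∈ Q, base z.1 z.2 = g) :
    ∑ z ∈ Q, rich S (top z.1 z.2) ≤ rich S g * S.card := by
  have e : ∑ z ∈ Q, rich S (top z.1 z.2)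
      = (Q.sigma (fun z => S.filter (fun x => x ∈ top z.1 z.2))).card := by
    rw [Finset.card_sigma]
    rfl
  rw [e]
  have e2 : rich S g * S.card = ((S.filter (fun x => x ∈ g)) ×ˢ S).card := by
    rw [Finset.card_product]
    rfl
  rw [e2]
  apply Finset.card_le_card_of_injOn (fun w => (w.1.1, w.2))
  · intro w hw
    have hw' := Finset.mem_sigma.1 (Finset.mem_coe.1 hw)
    rw [Finset.mem_coe, Finset.mem_product]
    refine ⟨Finset.mem_filter.2 ⟨hBS (hQ w.1 hw'.1), ?_⟩, (Finset.mem_filter.1 hw'.2).1⟩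
    have h1 := hg w.1 hw'.1
    rw [← h1, mem_base, sub_self]
    simp [cr]
  · rintro ⟨⟨p, q⟩, r⟩ hw ⟨⟨p', q'⟩, r'⟩ hw' h
    have h1 := Finset.mem_sigma.1 (Finset.mem_coe.1 hw)
    have h2 := Finset.mem_sigma.1 (Finset.mem_coe.1 hw')
    have hp : p = p' := congrArg Prod.fst h
    have hr : r = r' := congrArg Prod.snd h
    subst hp
    subst hr
    have h3 := hg _ h1.1
    have h4 := hg _ h2.1
    have h5 := (Finset.mem_filter.1 h1.2).2
    have h6 := (Finset.mem_filter.1 h2.2).2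
    have hq : q = q' := q_unique (h3.trans h4.symm) h5 h6
    subst hq
    rfl

end BadSumAux

open scoped Classical in
theorem BadSum_proof (hb : BadLine) (hl : LinesIn) (hk : LineKST) (hv : VeryRich) (hs : Sums) :
    BadSum := by
  obtain ⟨C, hC, hCs⟩ := hs 1 (by norm_num) (by norm_num)
  refine ⟨2 * C + 6, by positivity, ?_⟩
  intro S B P k₀ hk₀ hBS hP hB
  obtain ⟨𝓐, h𝓐1, h𝓐2, h𝓐3⟩ := hb P hP
  set n : ℝ := (S.card : ℝ) with hn
  set D : ℝ := (P.totalDegree : ℝ) with hD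
  have hn0 : 0 ≤ n := Nat.cast_nonneg _
  have hD0 : 0 ≤ D := Nat.cast_nonneg _
  have hBc : (B.card : ℝ) ≤ n := by
    rw [hn]
    exact_mod_cast Finset.card_le_card hBS
  -- the vanishing condition of the base line
  set Q := (B ×ˢ B).filter (fun z => z.1 ≠ z.2) with hQ
  have htri : (tri B S : ℝ) = ∑ z ∈ Q, (rich S (top z.1 z.2) : ℝ) := by
    rw [BadSumAux.tri_eq, Nat.cast_sum, hQ, Finset.sum_filter]
    apply Finset.sum_congr rfl
    intro z _
    by_cases h : z.1 = z.2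
    · rw [if_neg (by simpa using h), h, BadSumAux.rich_top_self, Nat.cast_zero]
    · rw [if_pos h]
  set Q1 := Q.filter (fun z => (rich S (top z.1 z.2) : ℝ) < k₀) with hQ1
  set Q2 := Q.filter (fun z => top z.1 z.2 ∈ 𝓐) with hQ2
  set Q3 := Q.filter (fun z => k₀ ≤ (rich S (top z.1 z.2) : ℝ) ∧ top z.1 z.2 ∉ 𝓐 ∧
    ¬ (∀ w ∈ base z.1 z.2, eval (v2 w) P = 0)) with hQ3
  set Q4 := Q.filter (fun z => ∀ w ∈ base z.1 z.2, eval (v2 w) P = 0) with hQ4
  have hmem : ∀ z ∈ Q, z.1 ∈ B ∧ z.2 ∈ B ∧ z.1 ≠ z.2 := by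
    intro z hz
    obtain ⟨h1, h2⟩ := Finset.mem_filter.1 hz
    obtain ⟨h3, h4⟩ := Finset.mem_product.1 h1
    exact ⟨h3, h4, h2⟩
  have hcover : ∑ z ∈ Q, (rich S (top z.1 z.2) : ℝ) ≤
      ∑ z ∈ Q1, (rich S (top z.1 z.2) : ℝ) + ∑ z ∈ Q2, (rich S (top z.1 z.2) : ℝ) +
      ∑ z ∈ Q3, (rich S (top z.1 z.2) : ℝ) + ∑ z ∈ Q4, (rich S (top z.1 z.2) : ℝ) := by
    have s1 : ∑ z ∈ Q1, (rich S (top z.1 z.2) : ℝ) = ∑ z ∈ Q,
        if (rich S (top z.1 z.2) : ℝ) < k₀ then (rich S (top z.1 z.2) : ℝ) else 0 :=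
      Finset.sum_filter _ _
    have s2 : ∑ z ∈ Q2, (rich S (top z.1 z.2) : ℝ) = ∑ z ∈ Q,
        if top z.1 z.2 ∈ 𝓐 then (rich S (top z.1 z.2) : ℝ) else 0 :=
      Finset.sum_filter _ _
    have s3 : ∑ z ∈ Q3, (rich S (top z.1 z.2) : ℝ) = ∑ z ∈ Q,
        if k₀ ≤ (rich S (top z.1 z.2) : ℝ) ∧ top z.1 z.2 ∉ 𝓐 ∧
          ¬ (∀ w ∈ base z.1 z.2, eval (v2 w) P = 0) then (rich S (top z.1 z.2) : ℝ) else 0 :=
      Finset.sum_filter _ _
    have s4 : ∑ z ∈ Q4, (rich S (top z.1 z.2) : ℝ) = ∑ z ∈ Q,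
        if ∀ w ∈ base z.1 z.2, eval (v2 w) P = 0 then (rich S (top z.1 z.2) : ℝ) else 0 :=
      Finset.sum_filter _ _
    rw [s1, s2, s3, s4, ← Finset.sum_add_distrib, ← Finset.sum_add_distrib,
      ← Finset.sum_add_distrib]
    apply Finset.sum_le_sum
    intro z _
    have h0 : (0 : ℝ) ≤ (rich S (top z.1 z.2) : ℝ) := Nat.cast_nonneg _
    by_cases c1 : (rich S (top z.1 z.2) : ℝ) < k₀
    · rw [if_pos c1]
      have a1 : (0 : ℝ) ≤ if top z.1 z.2 ∈ 𝓐 then (rich S (top z.1 z.2) : ℝ) else 0 := by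
        split_ifs <;> linarith
      have a2 : (0 : ℝ) ≤ if k₀ ≤ (rich S (top z.1 z.2) : ℝ) ∧ top z.1 z.2 ∉ 𝓐 ∧
          ¬ (∀ w ∈ base z.1 z.2, eval (v2 w) P = 0) then (rich S (top z.1 z.2) : ℝ) else 0 := by
        split_ifs <;> linarith
      have a3 : (0 : ℝ) ≤ if ∀ w ∈ base z.1 z.2, eval (v2 w) P = 0
          then (rich S (top z.1 z.2) : ℝ) else 0 := by
        split_ifs <;> linarith
      linarith
    · rw [if_neg c1]
      by_cases c2 : top z.1 z.2 ∈ 𝓐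
      · rw [if_pos c2]
        have a2 : (0 : ℝ) ≤ if k₀ ≤ (rich S (top z.1 z.2) : ℝ) ∧ top z.1 z.2 ∉ 𝓐 ∧
            ¬ (∀ w ∈ base z.1 z.2, eval (v2 w) P = 0) then (rich S (top z.1 z.2) : ℝ) else 0 := by
          split_ifs <;> linarith
        have a3 : (0 : ℝ) ≤ if ∀ w ∈ base z.1 z.2, eval (v2 w) P = 0
            then (rich S (top z.1 z.2) : ℝ) else 0 := by
          split_ifs <;> linarith
        linarith
      · rw [if_neg c2]
        by_cases c3 : ∀ w ∈ base z.1 z.2, eval (v2 w) P = 0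
        · rw [if_pos c3]
          have a2 : (0 : ℝ) ≤ if k₀ ≤ (rich S (top z.1 z.2) : ℝ) ∧ top z.1 z.2 ∉ 𝓐 ∧
              ¬ (∀ w ∈ base z.1 z.2, eval (v2 w) P = 0)
              then (rich S (top z.1 z.2) : ℝ) else 0 := by
            split_ifs <;> linarith
          linarith
        · rw [if_neg c3, if_pos ⟨not_lt.1 c1, c2, c3⟩]
          linarith
  -- part 1
  have e1 : ∑ z ∈ Q1, (rich S (top z.1 z.2) : ℝ) ≤ k₀ * n ^ 2 := by
    have h1 : ∑ z ∈ Q1, (rich S (top z.1 z.2) : ℝ) ≤ ∑ _z ∈ Q1, k₀ := by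
      apply Finset.sum_le_sum
      intro z hz
      exact (Finset.mem_filter.1 hz).2.le
    rw [Finset.sum_const, nsmul_eq_mul] at h1
    have h2 : Q1.card ≤ B.card * B.card := by
      rw [← Finset.card_product]
      exact Finset.card_le_card ((Finset.filter_subset _ _).trans (Finset.filter_subset _ _))
    have h3 : (Q1.card : ℝ) ≤ n * n := by
      have h4 : (Q1.card : ℝ) ≤ (B.card : ℝ) * B.card := by exact_mod_cast h2
      exact h4.trans (mul_le_mul hBc hBc (Nat.cast_nonneg _) hn0)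
    nlinarith
  -- injectivity for a given top line
  have hinj : ∀ (Q' : Finset (Pt × Pt)), Q' ⊆ Q → ∀ ℓ : Set Pt,
      ((Q'.filter (fun z => top z.1 z.2 = ℓ)).card : ℝ) ≤ n := by
    intro Q' hQ' ℓ
    have h1 : (Q'.filter (fun z => top z.1 z.2 = ℓ)).card ≤ B.card := by
      apply Finset.card_le_card_of_injOn Prod.fst
      · intro z hz
        exact (hmem z (hQ' (Finset.mem_filter.1 (Finset.mem_coe.1 hz)).1)).1
      · rintro ⟨p, q⟩ hz ⟨p', q'⟩ hz' h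
        have h1 := Finset.mem_filter.1 (Finset.mem_coe.1 hz)
        have h2 := Finset.mem_filter.1 (Finset.mem_coe.1 hz')
        have hp : p = p' := h
        subst hp
        have h3 := (hmem _ (hQ' h1.1)).2.2
        have h4 : q = q' := top_unique h3 (h1.2.trans h2.2.symm)
        rw [h4]
    exact (by exact_mod_cast h1 : ((Q'.filter (fun z => top z.1 z.2 = ℓ)).card : ℝ)
      ≤ (B.card : ℝ)).trans hBc
  -- part 2
  have e2 : ∑ z ∈ Q2, (rich S (top z.1 z.2) : ℝ) ≤ n * (D ^ 2 * Real.sqrt n + n) := by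
    have h1 := BadSumAux.sum_by_top S Q2 𝓐 n
      (fun z hz => (Finset.mem_filter.1 hz).2)
      (fun ℓ _ => hinj Q2 (Finset.filter_subset _ _) ℓ)
    have h2 := hk S 𝓐 h𝓐1
    have h3 : (𝓐.card : ℝ) ≤ D ^ 2 := by
      rw [hD]
      exact_mod_cast h𝓐2
    have h4 : (𝓐.card : ℝ) * Real.sqrt n ≤ D ^ 2 * Real.sqrt n :=
      mul_le_mul_of_nonneg_right h3 (Real.sqrt_nonneg _)
    have h5 : ∑ ℓ ∈ 𝓐, (rich S ℓ : ℝ) ≤ D ^ 2 * Real.sqrt n + n := by linarith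
    exact h1.trans (mul_le_mul_of_nonneg_left h5 hn0)
  -- part 3
  have e3 : ∑ z ∈ Q3, (rich S (top z.1 z.2) : ℝ) ≤ 2 * D ^ 2 * (C * (n ^ 2 / k₀ ^ 2) + 2 * n) := by
    set L3 := Q3.image (fun z => top z.1 z.2) with hL3
    have hL3line : ∀ ℓ ∈ L3, IsLine ℓ ∧ ℓ ∉ 𝓐 ∧ k₀ ≤ (rich S ℓ : ℝ) := by
      intro ℓ hℓ
      obtain ⟨z, hz, rfl⟩ := Finset.mem_image.1 hℓ
      obtain ⟨h1, h2, h3, -⟩ := Finset.mem_filter.1 hz
      exact ⟨isLine_top (hmem z h1).2.2, h3, h2⟩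
    have h1 := BadSumAux.sum_by_top S Q3 L3 (2 * D ^ 2)
      (fun z hz => Finset.mem_image_of_mem _ hz) (by
        intro ℓ hℓ
        obtain ⟨hl1, hl2, hl3⟩ := hL3line ℓ hℓ
        have h2 := h𝓐3 ℓ hl1 hl2 (Q3.filter (fun z => top z.1 z.2 = ℓ)) (by
          intro z hz
          obtain ⟨h3, h4⟩ := Finset.mem_filter.1 hz
          obtain ⟨h5, -, -, h6⟩ := Finset.mem_filter.1 h3
          obtain ⟨h7, h8, h9⟩ := hmem z h5
          exact ⟨h9, h4, hB _ h7, hB _ h8, h6⟩)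
        rw [hD]
        exact_mod_cast h2)
    have h2 : ∑ ℓ ∈ L3.filter (fun ℓ => (rich S ℓ : ℝ) ≤ 2 * Real.sqrt S.card), (rich S ℓ : ℝ)
        ≤ C * (n ^ 2 / k₀ ^ 2) := by
      have h3 := hCs S (L3.filter (fun ℓ => (rich S ℓ : ℝ) ≤ 2 * Real.sqrt S.card)) k₀ hk₀ (by
        intro ℓ hℓ
        obtain ⟨h4, h5⟩ := Finset.mem_filter.1 hℓ
        obtain ⟨h6, -, h7⟩ := hL3line ℓ h4
        exact ⟨h6, h7, h5⟩)
      simp only [Real.rpow_one] at h3
      refine h3.trans (le_of_eq ?_)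
      have h4 : (k₀ : ℝ) ^ ((1 : ℝ) - 3) = 1 / k₀ ^ 2 := by
        have h5 : (1 : ℝ) - 3 = -((2 : ℕ) : ℝ) := by norm_num
        rw [h5, Real.rpow_neg (by linarith), Real.rpow_natCast, one_div]
      rw [h4]
      ring
    have h3 : ∑ ℓ ∈ L3.filter (fun ℓ => ¬ (rich S ℓ : ℝ) ≤ 2 * Real.sqrt S.card), (rich S ℓ : ℝ)
        ≤ 2 * n := by
      apply hv
      intro ℓ hℓ
      obtain ⟨h4, h5⟩ := Finset.mem_filter.1 hℓ
      exact ⟨(hL3line ℓ h4).1, (not_le.1 h5).le⟩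
    have h4 : ∑ ℓ ∈ L3, (rich S ℓ : ℝ) ≤ C * (n ^ 2 / k₀ ^ 2) + 2 * n := by
      rw [← Finset.sum_filter_add_sum_filter_not L3
        (fun ℓ => (rich S ℓ : ℝ) ≤ 2 * Real.sqrt S.card)]
      linarith
    exact h1.trans (mul_le_mul_of_nonneg_left h4 (by positivity))
  -- part 4
  have e4 : ∑ z ∈ Q4, (rich S (top z.1 z.2) : ℝ) ≤ n * (D * Real.sqrt n + n) := by
    set L4 := Q4.image (fun z => base z.1 z.2) with hL4
    have hL4line : ∀ ℓ ∈ L4, IsLine ℓ ∧ ∀ w ∈ ℓ, eval (v2 w) P = 0 := by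
      intro ℓ hℓ
      obtain ⟨z, hz, rfl⟩ := Finset.mem_image.1 hℓ
      obtain ⟨h1, h2⟩ := Finset.mem_filter.1 hz
      exact ⟨isLine_base (hmem z h1).2.2, h2⟩
    have h1 : (L4.card : ℝ) ≤ D := by
      rw [hD]
      exact_mod_cast hl P hP L4 hL4line
    have h2 := hk S L4 (fun ℓ hℓ => (hL4line ℓ hℓ).1)
    have h3 : ∑ z ∈ Q4, (rich S (top z.1 z.2) : ℝ) ≤ ∑ g ∈ L4, (rich S g : ℝ) * n := by
      rw [← Finset.sum_fiberwise_of_maps_to (t := L4) (g := fun z => base z.1 z.2)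
        (fun z hz => Finset.mem_image_of_mem _ hz)]
      apply Finset.sum_le_sum
      intro g _
      have h4 := BadSumAux.sum_base S B hBS (Q4.filter (fun z => base z.1 z.2 = g)) (by
        intro z hz
        exact (hmem z (Finset.mem_filter.1 (Finset.mem_filter.1 hz).1).1).1) g (by
        intro z hz
        exact (Finset.mem_filter.1 hz).2)
      rw [hn]
      exact_mod_cast h4
    rw [← Finset.sum_mul] at h3
    have h4 : (L4.card : ℝ) * Real.sqrt n ≤ D * Real.sqrt n :=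
      mul_le_mul_of_nonneg_right h1 (Real.sqrt_nonneg _)
    have h5 : ∑ ℓ ∈ L4, (rich S ℓ : ℝ) ≤ D * Real.sqrt n + n := by linarith
    have h6 := mul_le_mul_of_nonneg_right h5 hn0
    linarith
  -- final
  have hr : n ^ ((3 : ℝ) / 2) = n * Real.sqrt n := by
    have h1 : (3 : ℝ) / 2 = 1 + 1 / 2 := by norm_num
    rw [h1, Real.rpow_add_of_nonneg hn0 (by norm_num) (by norm_num), Real.rpow_one,
      Real.sqrt_eq_rpow]
  rw [htri, hr]
  have f1 : n ^ 2 ≤ k₀ * n ^ 2 := by nlinarith [sq_nonneg n]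
  have f2 : n ≤ n * Real.sqrt n := by
    rcases Nat.eq_zero_or_pos S.card with h | h
    · have : n = 0 := by rw [hn, h, Nat.cast_zero]
      rw [this]; simp
    · have h1 : (1 : ℝ) ≤ n := by rw [hn]; exact_mod_cast h
      have h2 : 1 ≤ Real.sqrt n := by
        rw [Real.one_le_sqrt]; exact h1
      nlinarith
  have f3 : D ≤ D ^ 2 := by
    rcases Nat.eq_zero_or_pos P.totalDegree with h | h
    · have : D = 0 := by rw [hD, h, Nat.cast_zero]
      rw [this]; norm_num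
    · have h1 : (1 : ℝ) ≤ D := by rw [hD]; exact_mod_cast h
      nlinarith
  have g1 : D ^ 2 * n ≤ D ^ 2 * (n * Real.sqrt n) :=
    mul_le_mul_of_nonneg_left f2 (sq_nonneg D)
  have g2 : D * (n * Real.sqrt n) ≤ D ^ 2 * (n * Real.sqrt n) :=
    mul_le_mul_of_nonneg_right f3 (by positivity)
  have g3 : 0 ≤ D ^ 2 * (n * Real.sqrt n) := by positivity
  have g4 : 0 ≤ D ^ 2 * n ^ 2 / k₀ ^ 2 := by positivity
  have g5 : 0 ≤ k₀ * n ^ 2 := by positivity
  have g6 : D ^ 2 * (C * (n ^ 2 / k₀ ^ 2)) = C * (D ^ 2 * n ^ 2 / k₀ ^ 2) := by ring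
  have g7 : 0 ≤ C * (k₀ * n ^ 2) := by positivity
  have g8 : 0 ≤ C * (D ^ 2 * (n * Real.sqrt n)) := by positivity
  nlinarith [hcover, e1, e2, e3, e4]

end Pool.Agent.Work.MP_916cc8_co
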