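import Pool.Agent.Work.MP_916cc8_co.Bd.B01

/-! Collisions at one line. -/

set_option autoImplicit false

namespace Pool.Agent.Work.MP_916cc8_co

open MvPolynomial

/-- the sign vector -/
noncomputable def sgnV {d t : ℕ} (f : Fin t → MvPolynomial (Fin d) ℝ) (x : Fin d → ℝ) :
    Fin t → SignType := fun j => SignType.sign (eval x (f j))

theorem sign_eq_iff_mul_pos {a b : ℝ} (ha : a ≠ 0) (hb : b ≠ 0) :
    SignType.sign a = SignType.sign b ↔ 0 < a * b := by
  rcases lt_or_gt_of_ne ha with h | h <;> rcases lt_or_gt_of_ne hb with h' | h'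
  · rw [sign_neg h, sign_neg h']
    exact ⟨fun _ => mul_pos_of_neg_of_neg h h', fun _ => rfl⟩
  · rw [sign_neg h, sign_pos h']
    refine ⟨fun h0 => absurd h0 (by decide), fun h0 => ?_⟩
    exact absurd (mul_neg_of_neg_of_pos h h') (not_lt.2 h0.le)
  · rw [sign_pos h, sign_neg h']
    refine ⟨fun h0 => absurd h0 (by decide), fun h0 => ?_⟩
    exact absurd (mul_neg_of_pos_of_neg h h') (not_lt.2 h0.le)
  · rw [sign_pos h, sign_pos h']
    exact ⟨fun _ => mul_pos h h', fun _ => rfl⟩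

theorem sgnV_eq_iff {d t : ℕ} (f : Fin t → MvPolynomial (Fin d) ℝ) {x y : Fin d → ℝ}
    (hx : ∀ j, eval x (f j) ≠ 0) (hy : ∀ j, eval y (f j) ≠ 0) :
    sgnV f x = sgnV f y ↔ sameCl f x y := by
  constructor
  · intro h j
    exact (sign_eq_iff_mul_pos (hx j) (hy j)).1 (congrFun h j)
  · intro h
    funext j
    exact (sign_eq_iff_mul_pos (hx j) (hy j)).2 (h j)

theorem Col_proof (hv : Vis) : Col := by
  classical
  intro t f ℓ Z κ hZ hκ
  set cl : Pt × Pt → (Fin t → SignType) × (Fin t → SignType) :=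
    fun z => (sgnV f (v2 z.1), sgnV f (v2 z.2)) with hcl
  have hcliff : ∀ z ∈ Z, ∀ w ∈ Z, (cl w = cl z ↔
      sameCl f (v2 z.1) (v2 w.1) ∧ sameCl f (v2 z.2) (v2 w.2)) := by
    intro z hz w hw
    have h1 := sgnV_eq_iff f (fun j => ((hZ z hz).2.2 j).1) (fun j => ((hZ w hw).2.2 j).1)
    have h2 := sgnV_eq_iff f (fun j => ((hZ z hz).2.2 j).2) (fun j => ((hZ w hw).2.2 j).2)
    rw [← h1, ← h2, hcl]
    simp only [Prod.mk.injEq]
    exact ⟨fun h => ⟨h.1.symm, h.2.symm⟩, fun h => ⟨h.1.symm, h.2.symm⟩⟩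
  -- number of classes
  have hK : (Z.image cl).card ≤ VV f := by
    obtain ⟨u, hus, hinj, himg⟩ := Finset.exists_subset_injOn_image_eq_of_surjOn (f := cl)
      (↑Z : Set (Pt × Pt)) (Z.image cl) (by
        intro k hk
        simpa using hk)
    rw [← himg, Finset.card_image_of_injOn hinj]
    have hus' : u ⊆ Z := by exact_mod_cast hus
    apply hv t f ℓ u
    · intro z hz
      exact hZ z (hus' hz)
    · intro z hz w hw h1 h2
      exact hinj hz hw ((hcliff z (hus' hz) w (hus' hw)).2 ⟨h1, h2⟩).symm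
  -- the count
  set Nz : Pt × Pt → ℕ := fun z => (Z.filter (fun w =>
    sameCl f (v2 z.1) (v2 w.1) ∧ sameCl f (v2 z.2) (v2 w.2) ∧
      NRel (z.1, w.1) (z.2, w.2))).card with hNz
  have hN : (((Z ×ˢ Z).filter (fun s : (Pt × Pt) × (Pt × Pt) =>
    sameCl f (v2 s.1.1) (v2 s.2.1) ∧ sameCl f (v2 s.1.2) (v2 s.2.2) ∧
    NRel (s.1.1, s.2.1) (s.1.2, s.2.2))).card) = ∑ z ∈ Z, Nz z := by
    rw [Finset.card_filter, Finset.sum_product]
    apply Finset.sum_congr rfl
    intro z hz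
    rw [hNz]
    simp only
    rw [Finset.card_filter]
  have hz1 : ∀ z ∈ Z, ((Z.filter (fun w => cl w = cl z)).card : ℝ) ≤ Nz z + κ := by
    intro z hz
    have h1 : (Z.filter (fun w => cl w = cl z)) ⊆ (Z.filter (fun w =>
      sameCl f (v2 z.1) (v2 w.1) ∧ sameCl f (v2 z.2) (v2 w.2) ∧
      NRel (z.1, w.1) (z.2, w.2))) ∪ (Z.filter (fun w => w.1 ∈ base z.1 z.2)) := by
      intro w hw
      rw [Finset.mem_filter] at hw
      rw [Finset.mem_union, Finset.mem_filter, Finset.mem_filter]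
      by_cases hb : w.1 ∈ base z.1 z.2
      · exact Or.inr ⟨hw.1, hb⟩
      · left
        have h2 := (hcliff z hz w hw.1).1 hw.2
        refine ⟨hw.1, h2.1, h2.2, ⟨(hZ z hz).1, (hZ w hw.1).1, ?_⟩, ?_⟩
        · rw [(hZ z hz).2.1, (hZ w hw.1).2.1]
        · exact fun h0 => hb h0
    have h2 := (Finset.card_le_card h1).trans (Finset.card_union_le _ _)
    have h3 := hκ z hz
    have h4 : ((Z.filter (fun w => cl w = cl z)).card : ℝ) ≤ (Nz z : ℝ) +
        ((Z.filter (fun w => w.1 ∈ base z.1 z.2)).card : ℝ) := by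
      exact_mod_cast h2
    linarith
  have hsum : ∑ z ∈ Z, (Z.filter (fun w => cl w = cl z)).card =
      ∑ k ∈ Z.image cl, (Z.filter (fun w => cl w = k)).card ^ 2 := by
    rw [← Finset.sum_fiberwise_of_maps_to (s := Z) (t := Z.image cl) (g := cl)
      (fun z hz => Finset.mem_image_of_mem cl hz)]
    apply Finset.sum_congr rfl
    intro k hk
    rw [sq, ← smul_eq_mul, ← Finset.sum_const]
    apply Finset.sum_congr rfl
    intro z hz
    rw [(Finset.mem_filter.1 hz).2]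
  have hcs : ((Z.card : ℝ)) ^ 2 ≤ ((Z.image cl).card : ℝ) *
      ∑ k ∈ Z.image cl, ((Z.filter (fun w => cl w = k)).card : ℝ) ^ 2 := by
    have h1 : (Z.card : ℝ) = ∑ k ∈ Z.image cl, ((Z.filter (fun w => cl w = k)).card : ℝ) := by
      have := Finset.card_eq_sum_card_image cl Z
      exact_mod_cast this
    rw [h1]
    exact sq_sum_le_card_mul_sum_sq
  have hsum' : (∑ k ∈ Z.image cl, ((Z.filter (fun w => cl w = k)).card : ℝ) ^ 2) ≤
      (∑ z ∈ Z, (Nz z : ℝ)) + κ * Z.card := by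
    have h1 : (∑ k ∈ Z.image cl, ((Z.filter (fun w => cl w = k)).card : ℝ) ^ 2) =
        ∑ z ∈ Z, ((Z.filter (fun w => cl w = cl z)).card : ℝ) := by
      exact_mod_cast hsum.symm
    rw [h1]
    calc ∑ z ∈ Z, ((Z.filter (fun w => cl w = cl z)).card : ℝ)
        ≤ ∑ z ∈ Z, ((Nz z : ℝ) + κ) := Finset.sum_le_sum hz1
      _ = (∑ z ∈ Z, (Nz z : ℝ)) + κ * Z.card := by
          rw [Finset.sum_add_distrib, Finset.sum_const, nsmul_eq_mul]; ring
  rcases le_or_gt ((Z.card : ℝ)) (2 * κ * VV f) with h | h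
  · exact Or.inl h
  · right
    rw [hN]
    push_cast
    have hm0 : (0 : ℝ) ≤ Z.card := Nat.cast_nonneg _
    have hV0 : (0 : ℝ) ≤ VV f := Nat.cast_nonneg _
    have hKr : ((Z.image cl).card : ℝ) ≤ VV f := by exact_mod_cast hK
    have hS0 : (0 : ℝ) ≤ ∑ k ∈ Z.image cl, ((Z.filter (fun w => cl w = k)).card : ℝ) ^ 2 :=
      Finset.sum_nonneg (fun _ _ => by positivity)
    have h1 : ((Z.card : ℝ)) ^ 2 ≤ VV f * ((∑ z ∈ Z, (Nz z : ℝ)) + κ * Z.card) :=
      hcs.trans ((mul_le_mul_of_nonneg_right hKr hS0).trans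
        (mul_le_mul_of_nonneg_left hsum' hV0))
    have h2 : 2 * κ * VV f * Z.card ≤ (Z.card : ℝ) * Z.card :=
      mul_le_mul_of_nonneg_right h.le hm0
    nlinarith

end Pool.Agent.Work.MP_916cc8_co
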