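import Pool.Agent.Work.MP_916cc8_co.Stmts
import Pool.Agent.Work.MP_916cc8_co.Bd.B01

/-!
# Vis: class visits of a top line
-/

set_option autoImplicit false

namespace Pool.Agent.Work.MP_916cc8_co

open MvPolynomial

namespace VisAux

/-- the denominator -/
noncomputable def den (a b c : ℝ) : MvPolynomial (Fin 2) ℝ := C c - C a * X 0 - C b * X 1

theorem eval_den (a b c : ℝ) (p : Pt) : eval (v2 p) (den a b c) = c - a * p.1 - b * p.2 := by
  simp [den, v2]

theorem den_deg (a b c : ℝ) : (den a b c).totalDegree ≤ 1 := by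
  unfold den
  refine (totalDegree_sub _ _).trans (max_le ((totalDegree_sub _ _).trans (max_le ?_ ?_)) ?_)
  · rw [totalDegree_C]; exact Nat.zero_le _
  · refine (totalDegree_mul _ _).trans ?_
    rw [totalDegree_C, totalDegree_X]
  · refine (totalDegree_mul _ _).trans ?_
    rw [totalDegree_C, totalDegree_X]

/-- the numerators -/
noncomputable def num (a b c : ℝ) : Fin 2 → MvPolynomial (Fin 2) ℝ :=
  ![X 0 * den a b c + C (2 * b), X 1 * den a b c - C (2 * a)]

theorem num_deg (a b c : ℝ) (i : Fin 2) : (num a b c i).totalDegree ≤ 2 := by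
  have h1 : ∀ k : Fin 2, (X k * den a b c : MvPolynomial (Fin 2) ℝ).totalDegree ≤ 2 := by
    intro k
    refine (totalDegree_mul _ _).trans ?_
    have := den_deg a b c
    rw [totalDegree_X]
    omega
  fin_cases i
  · show (X 0 * den a b c + C (2 * b) : MvPolynomial (Fin 2) ℝ).totalDegree ≤ 2
    refine (totalDegree_add _ _).trans (max_le (h1 0) ?_)
    rw [totalDegree_C]; exact Nat.zero_le _
  · show (X 1 * den a b c - C (2 * a) : MvPolynomial (Fin 2) ℝ).totalDegree ≤ 2
    refine (totalDegree_sub _ _).trans (max_le (h1 1) ?_)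
    rw [totalDegree_C]; exact Nat.zero_le _

end VisAux

open VisAux in
theorem Vis_proof (hw : War) (hc : Clr) : Vis := by
  classical
  intro t f ℓ Z h1 h2
  rcases Z.eq_empty_or_nonempty with rfl | ⟨z₀, hz₀⟩
  · simp
  obtain ⟨a, b, c, hab, hl⟩ := isLine_top (h1 z₀ hz₀).1
  rw [(h1 z₀ hz₀).2.1] at hl
  have hden : ∀ z ∈ Z, c - a * z.1.1 - b * z.1.2 ≠ 0 ∧
      z.2.1 - z.1.1 = 2 * b / (c - a * z.1.1 - b * z.1.2) ∧
      z.2.2 - z.1.2 = -(2 * a) / (c - a * z.1.1 - b * z.1.2) := by
    intro z hz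
    exact (top_eq_iff hab).1 ((h1 z hz).2.1.trans hl)
  choose Q hQ1 hQ2 using fun j : Fin t => hc 2 2 (f j) (num a b c) (den a b c) 2
    (2 * (f j).totalDegree) (num_deg a b c) ((den_deg a b c).trans (by norm_num)) (by omega)
  have hQ : ∀ z ∈ Z, ∀ j, eval (v2 z.1) (Q j) =
      (c - a * z.1.1 - b * z.1.2) ^ (2 * (f j).totalDegree) * eval (v2 z.2) (f j) := by
    intro z hz j
    obtain ⟨e1, e2, e3⟩ := hden z hz
    rw [hQ2 j (v2 z.1) (by rw [eval_den]; exact e1), eval_den]
    congr 3
    funext i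
    fin_cases i
    · show eval (v2 z.1) (X 0 * den a b c + C (2 * b)) / _ = z.2.1
      rw [map_add, map_mul, eval_den, eval_X, eval_C, eq_comm]
      have : z.2.1 = z.1.1 + 2 * b / (c - a * z.1.1 - b * z.1.2) := by linarith
      rw [this]
      show z.1.1 + 2 * b / (c - a * z.1.1 - b * z.1.2) =
        (z.1.1 * (c - a * z.1.1 - b * z.1.2) + 2 * b) / (c - a * z.1.1 - b * z.1.2)
      rw [add_div, mul_div_cancel_right₀ _ e1]
    · show eval (v2 z.1) (X 1 * den a b c - C (2 * a)) / _ = z.2.2
      rw [map_sub, map_mul, eval_den, eval_X, eval_C, eq_comm]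
      have : z.2.2 = z.1.2 + -(2 * a) / (c - a * z.1.1 - b * z.1.2) := by linarith
      rw [this]
      show z.1.2 + -(2 * a) / (c - a * z.1.1 - b * z.1.2) =
        (z.1.2 * (c - a * z.1.1 - b * z.1.2) - 2 * a) / (c - a * z.1.1 - b * z.1.2)
      rw [sub_div, mul_div_cancel_right₀ _ e1, neg_div]
      exact (sub_eq_add_neg _ _).symm
  have hpos : ∀ z ∈ Z, ∀ j, 0 < (c - a * z.1.1 - b * z.1.2) ^ (2 * (f j).totalDegree) := by
    intro z hz j
    rw [pow_mul]
    exact pow_pos (by have := (hden z hz).1; positivity) _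
  set g : Fin (t + t) → MvPolynomial (Fin 2) ℝ := Fin.append f Q with hg
  have hinj : Set.InjOn (fun z : Pt × Pt => v2 z.1) Z := by
    intro z hz w hw' he
    have e1 : z.1 = w.1 := by
      have e0 := congrFun he 0
      have e1 := congrFun he 1
      simp only [v2, Matrix.cons_val_zero, Matrix.cons_val_one] at e0 e1
      exact Prod.ext e0 e1
    have e2 : z.2 = w.2 := by
      apply top_unique (h1 z hz).1
      rw [(h1 z hz).2.1, e1, (h1 w hw').2.1]
    exact Prod.ext e1 e2
  have key := hw (t + t) g (Z.image (fun z => v2 z.1)) ?_ ?_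
  · rw [Finset.card_image_of_injOn hinj] at key
    refine key.trans ?_
    unfold VV
    apply Nat.pow_le_pow_left
    rw [Fin.sum_univ_add]
    have e1 : ∑ i : Fin t, (g (Fin.castAdd t i)).totalDegree = ∑ i, (f i).totalDegree := by
      apply Finset.sum_congr rfl
      intro i _
      rw [hg, Fin.append_left]
    have e2 : ∑ i : Fin t, (g (Fin.natAdd t i)).totalDegree ≤ ∑ i, 4 * (f i).totalDegree := by
      apply Finset.sum_le_sum
      intro i _
      rw [hg, Fin.append_right]
      have := hQ1 i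
      omega
    rw [← Finset.mul_sum] at e2
    rw [e1]
    omega
  · intro x hx j
    obtain ⟨z, hz, rfl⟩ := Finset.mem_image.1 hx
    refine Fin.addCases (fun i => ?_) (fun i => ?_) j
    · rw [hg, Fin.append_left]
      exact ((h1 z hz).2.2 i).1
    · rw [hg, Fin.append_right, hQ z hz]
      exact mul_ne_zero (hpos z hz i).ne' ((h1 z hz).2.2 i).2
  · intro x hx y hy hs
    obtain ⟨z, hz, rfl⟩ := Finset.mem_image.1 hx
    obtain ⟨w, hw', rfl⟩ := Finset.mem_image.1 hy
    rw [h2 z hz w hw' ?_ ?_]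
    · intro j
      have := hs (Fin.castAdd t j)
      rwa [hg, Fin.append_left] at this
    · intro j
      have := hs (Fin.natAdd t j)
      rw [hg, Fin.append_right, hQ z hz, hQ w hw'] at this
      have e1 := hpos z hz j
      have e2 := hpos w hw' j
      have e3 := mul_pos e1 e2
      have e4 : (c - a * z.1.1 - b * z.1.2) ^ (2 * (f j).totalDegree) * eval (v2 z.2) (f j) *
          ((c - a * w.1.1 - b * w.1.2) ^ (2 * (f j).totalDegree) * eval (v2 w.2) (f j)) =
          ((c - a * z.1.1 - b * z.1.2) ^ (2 * (f j).totalDegree) *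
          (c - a * w.1.1 - b * w.1.2) ^ (2 * (f j).totalDegree)) *
          (eval (v2 z.2) (f j) * eval (v2 w.2) (f j)) := by ring
      rw [e4] at this
      exact (mul_pos_iff_of_pos_left e3).1 this

end Pool.Agent.Work.MP_916cc8_co
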