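import Pool.Agent.Work.MP_916cc8_co.Fin
import Pool.Agent.Work.MP_916cc8_co.Bd.B01
import Pool.Agent.Work.MP_916cc8_co.Bd.B02
import Pool.Agent.Work.MP_916cc8_co.Bd.B03
import Pool.Agent.Work.MP_916cc8_co.Bez
import Pool.Agent.Work.MP_916cc8_co.BLa
import Pool.Agent.Work.MP_916cc8_co.BLb
import Pool.Agent.Work.MP_916cc8_co.BadLine
import Pool.Agent.Work.MP_916cc8_co.Vis
import Pool.Agent.Work.MP_916cc8_co.BadSum
import Pool.Agent.Work.MP_916cc8_co.Col

/-! Assembly: everything except the incidence theorem `IncTh θ`. -/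

set_option autoImplicit false

namespace Pool.Agent.Work.MP_916cc8_co

theorem BU_final : BU := BU_proof (FANC_proof CAN_proof LOC_proof)

theorem Part_final (d : ℕ) (hd : 1 ≤ d) : Part d := Part_proof (HS_proof BU_final) d hd

theorem War_final : War := War_proof RPS_proof Bez_proof

theorem CW_final : CW := CW_proof RPS_proof Bez_proof

theorem ST_final : ST := ST_proof (Part_final 2 (by norm_num)) LinesIn_proof

theorem Sums_final : Sums := Sums_proof ST_final

theorem BadLine_final : BadLine := BadLine_proof (BLa_proof Bez_proof Clr_proof) BLb_proof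

theorem BadSum_final : BadSum :=
  BadSum_proof BadLine_final LinesIn_proof LineKST_proof VeryRich_proof Sums_final

theorem Col_final : Col := Col_proof (Vis_proof War_final Clr_proof)

theorem GoodSum_final : GoodSum :=
  GoodSum_proof Col_final Sums_final VeryRich_proof (GSa_proof VeryRich_proof) (GSb_proof Sums_final)

theorem Main_of_inc (θ : ℝ) (h0 : 0 < θ) (h1 : θ ≤ 3 / 4) (hi : IncTh θ) : Main θ :=
  Main_proof θ h0 h1 (Part_final 2 (by norm_num)) hi Tri_proof BadSum_final GoodSum_final

end Pool.Agent.Work.MP_916cc8_co
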