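import Pool.Agent.Work.MP_916cc8_co.Stmts

/-!
Summation of the KST bound over classes.
-/

set_option autoImplicit false

namespace Pool.Agent.Work.MP_916cc8_co

open scoped Classical in
theorem ClassSum_proof (h : KSTs) : ClassSum := by
  intro α β κ R X Y cl K V M hM hV hcl h3 hvis hK
  set Xk : κ → Finset α := fun k => X.filter (fun x => ∃ y ∈ Y, cl y = k ∧ R x y) with hXk
  set Yk : κ → Finset β := fun k => Y.filter (fun y => cl y = k) with hYk
  have hI : ((X ×ˢ Y).filter (fun z => R z.1 z.2)).card =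
      ∑ k ∈ K, ((Xk k ×ˢ Yk k).filter (fun z => R z.1 z.2)).card := by
    rw [Finset.card_eq_sum_card_fiberwise (f := fun z : α × β => cl z.2) (t := K)]
    · refine Finset.sum_congr rfl fun k _ => ?_
      congr 1
      ext ⟨x, y⟩
      simp only [Finset.mem_filter, Finset.mem_product, hXk, hYk]
      constructor
      · rintro ⟨⟨⟨hx, hy⟩, hR⟩, hc⟩
        exact ⟨⟨⟨hx, y, hy, hc, hR⟩, hy, hc⟩, hR⟩
      · rintro ⟨⟨⟨hx, -⟩, hy, hc⟩, hR⟩
        exact ⟨⟨⟨hx, hy⟩, hR⟩, hc⟩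
    · intro z hz
      rw [Finset.mem_coe, Finset.mem_filter, Finset.mem_product] at hz
      exact hcl z.2 hz.1.2
  have hk : ∀ k ∈ K, (((Xk k ×ˢ Yk k).filter (fun z => R z.1 z.2)).card : ℝ) ≤
      (Xk k).card + 2 * M * Real.sqrt (Xk k).card := by
    intro k hkK
    have h1 := h α β R (Xk k) (Yk k) (by
      intro y₁ hy₁ y₂ hy₂ hne
      refine le_trans (Finset.card_le_card ?_) (h3 y₁ (Finset.mem_filter.1 hy₁).1 y₂
        (Finset.mem_filter.1 hy₂).1 hne)
      exact Finset.filter_subset_filter _ (Finset.filter_subset _ _))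
    have h2 : (((Yk k).card : ℕ) : ℝ) ≤ M := hK k hkK
    have h4 : 0 ≤ Real.sqrt (Xk k).card := Real.sqrt_nonneg _
    nlinarith [mul_le_mul_of_nonneg_left h2 h4]
  have hX : (∑ k ∈ K, ((Xk k).card : ℝ)) ≤ X.card * V := by
    have h1 : (∑ k ∈ K, (Xk k).card) =
        ∑ x ∈ X, (K.filter (fun k => ∃ y ∈ Y, cl y = k ∧ R x y)).card := by
      have := Finset.sum_card_bipartiteAbove_eq_sum_card_bipartiteBelow
        (s := K) (t := X) (fun k x => ∃ y ∈ Y, cl y = k ∧ R x y)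
      exact this
    have h2 : (∑ k ∈ K, ((Xk k).card : ℝ)) =
        ∑ x ∈ X, ((K.filter (fun k => ∃ y ∈ Y, cl y = k ∧ R x y)).card : ℝ) := by
      exact_mod_cast h1
    rw [h2, ← nsmul_eq_mul]
    refine Finset.sum_le_card_nsmul _ _ _ fun x hx => ?_
    refine le_trans ?_ (hvis x hx)
    rw [Nat.cast_le]
    refine Finset.card_le_card fun k hk2 => ?_
    rw [Finset.mem_filter] at hk2
    obtain ⟨-, y, hy, hc, hR⟩ := hk2
    exact Finset.mem_image.2 ⟨y, Finset.mem_filter.2 ⟨hy, hR⟩, hc⟩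
  have hS : (∑ k ∈ K, Real.sqrt (Xk k).card) ≤ Real.sqrt (K.card * (X.card * V)) := by
    have h1 : (∑ k ∈ K, Real.sqrt (Xk k).card) ^ 2 ≤ K.card * (X.card * V) := by
      refine le_trans sq_sum_le_card_mul_sum_sq ?_
      refine mul_le_mul_of_nonneg_left ?_ (Nat.cast_nonneg _)
      refine le_trans (le_of_eq ?_) hX
      refine Finset.sum_congr rfl fun k _ => ?_
      exact Real.sq_sqrt (Nat.cast_nonneg _)
    exact le_trans (le_abs_self _) (Real.abs_le_sqrt h1)
  rw [hI, Nat.cast_sum]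
  refine le_trans (Finset.sum_le_sum hk) ?_
  rw [Finset.sum_add_distrib, ← Finset.mul_sum]
  have h5 := mul_le_mul_of_nonneg_left hS (by linarith : (0 : ℝ) ≤ 2 * M)
  linarith

end Pool.Agent.Work.MP_916cc8_co
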