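import Pool.Agent.Work.MP_916cc8_co.Bd.B01
import Pool.Agent.Work.MP_916cc8_co.Bd.B02
import Pool.Agent.Work.MP_916cc8_co.Bd.B03
import Pool.Agent.Work.MP_916cc8_co.Bez

set_option autoImplicit false

/-! # MP_916cc8_co: U(n) = O(n^{13/6}), without hypotheses -/

namespace Pool.Agent.Work.MP_916cc8_co

theorem hs_all : HS := HS_proof (BU_proof (FANC_proof CAN_proof LOC_proof))

theorem part2_all : Part 2 := Part_proof hs_all 2 (by norm_num)

theorem war_all : War := War_proof RPS_proof Bez_proof

theorem cw_all : CW := CW_proof RPS_proof Bez_proof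

theorem st_all : ST := ST_proof part2_all LinesIn_proof

theorem sums_all : Sums := Sums_proof st_all

theorem gsa_all : GSa := GSa_proof VeryRich_proof

theorem gsb_all : GSb := GSb_proof sums_all

theorem pb_all : PB := PB_proof Clr_proof

theorem cell_all : CELL := CELL_proof part2_all (PartG_proof hs_all MonG_proof) Bez_proof

theorem cross_all : CROSS := CROSS_proof (X22_proof war_all pb_all) (X12_proof cw_all pb_all)
  (X21_proof cw_all pb_all) (X11_proof cw_all Bez_proof pb_all)

theorem coll_all : COLL := COLL_proof (COLLa_proof cell_all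
  (COUNT1_proof DPB_proof cross_all PIG_proof) (COUNT2_proof DPB_proof K3_proof KSTs_proof))

theorem dy_all : DY := DY_proof DPB_proof coll_all st_all

theorem main13_all : Main13 := Main13_proof Tri_proof TSum_proof SHEAR_proof
  (FA_proof sums_all VeryRich_proof gsa_all gsb_all) (FB_proof dy_all)

end Pool.Agent.Work.MP_916cc8_co
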