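import Mathlib

/-!
# MP_916cc8_co: unit area triangles in cartesian products

`A × B` contains at most `85 n² (1 + log min(|A|, |B|))` ordered triples of given oriented area,
`n = |A| |B|`.  The number of triples with a given first point `p` is
`∑ r(κ) r(κ + c) ≤ ∑ r(κ)²`, `r(κ)` the number of `(a, b)` with `(a - p₁) (b - p₂) = κ`, and the
sum over `p` of the right side is the number of collinear triples of the grid.
-/

set_option autoImplicit false

namespace Pool.Agent.Work.MP_916cc8_co.Grid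

open Finset

/-! ### blocks of a finite set of reals -/

/-- the rank -/
noncomputable def rk (A : Finset ℝ) (a : ℝ) : ℕ := (A.filter (· < a)).card

lemma rk_mono (A : Finset ℝ) : Monotone (rk A) := by
  intro a b h
  refine card_le_card fun x hx => ?_
  rw [mem_filter] at hx ⊢
  exact ⟨hx.1, hx.2.trans_le h⟩

lemma rk_lt {A : Finset ℝ} {a b : ℝ} (ha : a ∈ A) (h : a < b) : rk A a < rk A b := by
  refine card_lt_card ⟨fun x hx => ?_, fun hs => ?_⟩
  · rw [mem_filter] at hx ⊢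
    exact ⟨hx.1, hx.2.trans h⟩
  · have h1 := hs (mem_filter.2 ⟨ha, h⟩)
    exact lt_irrefl a (mem_filter.1 h1).2

lemma rk_lt_card {A : Finset ℝ} {a : ℝ} (ha : a ∈ A) : rk A a < A.card := by
  refine card_lt_card ⟨filter_subset _ _, fun hs => ?_⟩
  exact lt_irrefl a (mem_filter.1 (hs ha)).2

lemma rk_inj {A : Finset ℝ} {a b : ℝ} (ha : a ∈ A) (hb : b ∈ A) (h : rk A a = rk A b) : a = b := by
  rcases lt_trichotomy a b with h1 | h1 | h1
  · exact absurd h (rk_lt ha h1).ne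
  · exact h1
  · exact absurd h (rk_lt hb h1).ne'

/-- the block of width `w` -/
noncomputable def bl (A : Finset ℝ) (w : ℕ) (a : ℝ) : ℕ := rk A a / w

lemma bl_mono (A : Finset ℝ) (w : ℕ) : Monotone (bl A w) := fun _ _ h =>
  Nat.div_le_div_right (rk_mono A h)

lemma bl_le {A : Finset ℝ} (w : ℕ) {a : ℝ} (ha : a ∈ A) : bl A w a ≤ A.card / w :=
  Nat.div_le_div_right (rk_lt_card ha).le

lemma card_block (A : Finset ℝ) {w : ℕ} (hw : 0 < w) (a : ℝ) :
    (A.filter (fun b => bl A w a = bl A w b)).card ≤ w := by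
  have h1 : (Ico (bl A w a * w) (bl A w a * w + w)).card = w := by
    rw [Nat.card_Ico]
    omega
  refine le_of_le_of_eq ?_ h1
  refine card_le_card_of_injOn (rk A) ?_ ?_
  · intro b hb
    rw [mem_coe, mem_filter] at hb
    rw [mem_coe, mem_Ico, hb.2]
    unfold bl
    exact ⟨Nat.div_mul_le_self _ _, Nat.lt_div_mul_add hw⟩
  · intro b hb b' hb' h
    rw [mem_coe, mem_filter] at hb hb'
    exact rk_inj hb.1 hb'.1 h

lemma card_same (A : Finset ℝ) {w : ℕ} (hw : 0 < w) :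
    ((A ×ˢ A).filter (fun z => bl A w z.1 = bl A w z.2)).card ≤ A.card * w := by
  rw [card_filter, sum_product, ← smul_eq_mul]
  refine sum_le_card_nsmul _ _ _ fun a _ => ?_
  rw [← card_filter]
  exact card_block A hw a

/-! ### chains of cells -/

lemma chain (S : Finset ℝ) (u v : ℝ → ℕ) (U V : ℕ) (hu : ∀ a ∈ S, ∀ b ∈ S, a ≤ b → u a ≤ u b)
    (hv : ∀ a ∈ S, ∀ b ∈ S, a ≤ b → v a ≤ v b) (hU : ∀ a ∈ S, u a ≤ U)
    (hV : ∀ a ∈ S, v a ≤ V) : (S.image (fun a => (u a, v a))).card ≤ U + V + 1 := by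
  have h0 : (range (U + V + 1)).card = U + V + 1 := card_range _
  rw [← h0]
  refine card_le_card_of_injOn (fun z => z.1 + z.2) ?_ ?_
  · intro z hz
    rw [mem_coe, mem_image] at hz
    obtain ⟨a, ha, rfl⟩ := hz
    rw [mem_coe, mem_range]
    have h1 := hU a ha
    have h2 := hV a ha
    show u a + v a < U + V + 1
    omega
  · intro z hz z' hz' h
    rw [mem_coe, mem_image] at hz hz'
    obtain ⟨a, ha, rfl⟩ := hz
    obtain ⟨b, hb, rfl⟩ := hz'
    have h' : u a + v a = u b + v b := h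
    rcases le_total a b with h1 | h1
    · have h2 := hu a ha b hb h1
      have h3 := hv a ha b hb h1
      exact Prod.ext (by show u a = u b; omega) (by show v a = v b; omega)
    · have h2 := hu b hb a ha h1
      have h3 := hv b hb a ha h1
      exact Prod.ext (by show u a = u b; omega) (by show v a = v b; omega)

lemma chain' (S : Finset ℝ) (u v : ℝ → ℕ) (U V : ℕ) (hu : ∀ a ∈ S, ∀ b ∈ S, a ≤ b → u a ≤ u b)
    (hv : ∀ a ∈ S, ∀ b ∈ S, a ≤ b → v b ≤ v a) (hU : ∀ a ∈ S, u a ≤ U)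
    (hV : ∀ a ∈ S, v a ≤ V) : (S.image (fun a => (u a, v a))).card ≤ U + V + 1 := by
  refine le_trans ?_ (chain S u (fun a => V - v a) U V hu
    (fun a ha b hb h => Nat.sub_le_sub_left (hv a ha b hb h) V) hU (fun a _ => Nat.sub_le _ _))
  refine card_le_card_of_injOn (fun z => (z.1, V - z.2)) ?_ ?_
  · intro z hz
    rw [mem_coe, mem_image] at hz
    obtain ⟨a, ha, rfl⟩ := hz
    exact mem_coe.2 (mem_image.2 ⟨a, ha, rfl⟩)
  · intro z hz z' hz' h
    rw [mem_coe, mem_image] at hz hz'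
    obtain ⟨a, ha, rfl⟩ := hz
    obtain ⟨b, hb, rfl⟩ := hz'
    have h1 : u a = u b := congrArg Prod.fst h
    have h2 : V - v a = V - v b := congrArg Prod.snd h
    have h3 := hV a ha
    have h4 := hV b hb
    exact Prod.ext h1 (by show v a = v b; omega)

/-- Cauchy-Schwarz for the fibres of a map. -/
lemma cs {α β : Type} [DecidableEq β] (S : Finset α) (g : α → β) (M : ℕ)
    (hM : (S.image g).card ≤ M) :
    S.card ^ 2 ≤ M * ((S ×ˢ S).filter (fun z => g z.1 = g z.2)).card := by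
  have h1 : S.card = ∑ y ∈ S.image g, (S.filter (fun a => g a = y)).card :=
    card_eq_sum_card_image g S
  have h2 : ((S ×ˢ S).filter (fun z => g z.1 = g z.2)).card =
      ∑ y ∈ S.image g, (S.filter (fun a => g a = y)).card ^ 2 := by
    rw [card_eq_sum_card_fiberwise (f := fun z : α × α => g z.1) (t := S.image g)]
    · refine sum_congr rfl fun y _ => ?_
      rw [sq, ← card_product]
      congr 1
      ext z
      simp only [mem_filter, mem_product]
      constructor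
      · rintro ⟨⟨⟨h3, h4⟩, h5⟩, h6⟩
        exact ⟨⟨h3, h6⟩, h4, by rw [← h5]; exact h6⟩
      · rintro ⟨⟨h3, h4⟩, h5, h6⟩
        exact ⟨⟨⟨h3, h5⟩, by rw [h4, h6]⟩, h4⟩
    · intro z hz
      rw [mem_coe, mem_filter, mem_product] at hz
      exact mem_coe.2 (mem_image_of_mem g hz.1.1)
  rw [h2]
  nth_rw 1 [h1]
  exact sq_sum_le_card_mul_sum_sq.trans (Nat.mul_le_mul_right _ hM)

/-! ### lines -/

/-- the abscissas of the points of the grid on the line `y = l.1 x + l.2` -/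
noncomputable def on (A B : Finset ℝ) (l : ℝ × ℝ) : Finset ℝ :=
  A.filter (fun a => l.1 * a + l.2 ∈ B)

lemma mem_on {A B : Finset ℝ} {l : ℝ × ℝ} {a : ℝ} :
    a ∈ on A B l ↔ a ∈ A ∧ l.1 * a + l.2 ∈ B := mem_filter

lemma card_on_left (A B : Finset ℝ) (l : ℝ × ℝ) : (on A B l).card ≤ A.card :=
  card_le_card (filter_subset _ _)

lemma card_on_right (A B : Finset ℝ) {l : ℝ × ℝ} (hl : l.1 ≠ 0) :
    (on A B l).card ≤ B.card := by
  refine card_le_card_of_injOn (fun a => l.1 * a + l.2) ?_ ?_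
  · intro a ha
    exact (mem_on.1 (mem_coe.1 ha)).2
  · intro a _ b _ h
    have h1 : l.1 * a + l.2 = l.1 * b + l.2 := h
    exact mul_left_cancel₀ hl (add_right_cancel h1)

/-- the line through two points -/
noncomputable def ln (x y : ℝ × ℝ) : ℝ × ℝ :=
  ((y.2 - x.2) / (y.1 - x.1), x.2 - (y.2 - x.2) / (y.1 - x.1) * x.1)

lemma ln_left (x y : ℝ × ℝ) : (ln x y).1 * x.1 + (ln x y).2 = x.2 := by
  unfold ln
  ring

lemma ln_right {x y : ℝ × ℝ} (h : x.1 ≠ y.1) : (ln x y).1 * y.1 + (ln x y).2 = y.2 := by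
  have h1 : y.1 - x.1 ≠ 0 := sub_ne_zero.2 h.symm
  unfold ln
  simp only
  field_simp
  ring

lemma ln_ne {x y : ℝ × ℝ} (h : x.1 ≠ y.1) (h2 : x.2 ≠ y.2) : (ln x y).1 ≠ 0 :=
  div_ne_zero (sub_ne_zero.2 h2.symm) (sub_ne_zero.2 h.symm)

lemma ln_pts {l : ℝ × ℝ} {a b : ℝ} (h : a ≠ b) : ln (a, l.1 * a + l.2) (b, l.1 * b + l.2) = l := by
  have h1 : b - a ≠ 0 := sub_ne_zero.2 h.symm
  have h2 : (l.1 * b + l.2 - (l.1 * a + l.2)) / (b - a) = l.1 := by
    rw [div_eq_iff h1]
    ring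
  unfold ln
  simp only [h2]
  exact Prod.ext rfl (by ring)

/-- the pairs of points of the grid with different abscissas and ordinates -/
noncomputable def NA (A B : Finset ℝ) : Finset ((ℝ × ℝ) × (ℝ × ℝ)) :=
  ((A ×ˢ B) ×ˢ (A ×ˢ B)).filter (fun z => z.1.1 ≠ z.2.1 ∧ z.1.2 ≠ z.2.2)

lemma mem_NA {A B : Finset ℝ} {z : (ℝ × ℝ) × (ℝ × ℝ)} : z ∈ NA A B ↔
    ((z.1.1 ∈ A ∧ z.1.2 ∈ B) ∧ z.2.1 ∈ A ∧ z.2.2 ∈ B) ∧ z.1.1 ≠ z.2.1 ∧ z.1.2 ≠ z.2.2 := by
  unfold NA
  rw [mem_filter, mem_product, mem_product, mem_product]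

/-- the pairs on lines with at least `k` points -/
noncomputable def EE (A B : Finset ℝ) (k : ℕ) : Finset ((ℝ × ℝ) × (ℝ × ℝ)) :=
  (NA A B).filter (fun z => k ≤ (on A B (ln z.1 z.2)).card)

/-- the pairs in the same cell -/
noncomputable def FF (A B : Finset ℝ) (w w' : ℕ) : Finset ((ℝ × ℝ) × (ℝ × ℝ)) :=
  (NA A B).filter (fun z => bl A w z.1.1 = bl A w z.2.1 ∧ bl B w' z.1.2 = bl B w' z.2.2)

lemma card_FF (A B : Finset ℝ) {w w' : ℕ} (hw : 0 < w) (hw' : 0 < w') :
    (FF A B w w').card ≤ (A.card * w) * (B.card * w') := by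
  refine le_trans ?_ (Nat.mul_le_mul (card_same A hw) (card_same B hw'))
  rw [← card_product]
  refine card_le_card_of_injOn (fun z => ((z.1.1, z.2.1), (z.1.2, z.2.2))) ?_ ?_
  · intro z hz
    rw [mem_coe, FF, mem_filter, mem_NA] at hz
    rw [mem_coe, mem_product, mem_filter, mem_filter, mem_product, mem_product]
    exact ⟨⟨⟨hz.1.1.1.1, hz.1.1.2.1⟩, hz.2.1⟩, ⟨hz.1.1.1.2, hz.1.1.2.2⟩, hz.2.2⟩
  · intro z _ z' _ h
    simp only [Prod.mk.injEq] at h
    exact Prod.ext (Prod.ext h.1.1 h.2.1) (Prod.ext h.1.2 h.2.2)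

lemma fiber_EE (A B : Finset ℝ) (k : ℕ) (l : ℝ × ℝ) :
    ((EE A B k).filter (fun z => ln z.1 z.2 = l)).card ≤ (on A B l).card ^ 2 := by
  rw [sq, ← card_product]
  refine card_le_card_of_injOn (fun z => (z.1.1, z.2.1)) ?_ ?_
  · intro z hz
    rw [mem_coe, mem_filter, EE, mem_filter, mem_NA] at hz
    obtain ⟨⟨⟨⟨⟨h1, h2⟩, h3, h4⟩, h5, _⟩, _⟩, h6⟩ := hz
    have h7 := ln_left z.1 z.2
    have h8 := ln_right h5
    rw [h6] at h7 h8
    rw [mem_coe, mem_product, mem_on, mem_on]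
    exact ⟨⟨h1, by rw [h7]; exact h2⟩, h3, by rw [h8]; exact h4⟩
  · intro z hz z' hz' h
    rw [mem_coe, mem_filter, EE, mem_filter, mem_NA] at hz hz'
    simp only [Prod.mk.injEq] at h
    have h1 := ln_left z.1 z.2
    have h2 := ln_right hz.1.1.2.1
    have h3 := ln_left z'.1 z'.2
    have h4 := ln_right hz'.1.1.2.1
    rw [hz.2] at h1 h2
    rw [hz'.2] at h3 h4
    exact Prod.ext (Prod.ext h.1 (by rw [← h1, ← h3, h.1]))
      (Prod.ext h.2 (by rw [← h2, ← h4, h.2]))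

/-- the pairs of different points of a line in the same cell -/
noncomputable def DD (A B : Finset ℝ) (w w' : ℕ) (l : ℝ × ℝ) : Finset (ℝ × ℝ) :=
  ((on A B l) ×ˢ (on A B l)).filter (fun z => z.1 ≠ z.2 ∧ bl A w z.1 = bl A w z.2 ∧
    bl B w' (l.1 * z.1 + l.2) = bl B w' (l.1 * z.2 + l.2))

lemma fiber_FF (A B : Finset ℝ) (w w' : ℕ) {l : ℝ × ℝ} (hl : l.1 ≠ 0) :
    (DD A B w w' l).card ≤ ((FF A B w w').filter (fun z => ln z.1 z.2 = l)).card := by
  refine card_le_card_of_injOn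
    (fun z => ((z.1, l.1 * z.1 + l.2), (z.2, l.1 * z.2 + l.2))) ?_ ?_
  · intro z hz
    rw [mem_coe, DD, mem_filter, mem_product, mem_on, mem_on] at hz
    obtain ⟨⟨⟨h1, h2⟩, h3, h4⟩, h5, h6, h7⟩ := hz
    rw [mem_coe, mem_filter, FF, mem_filter, mem_NA]
    refine ⟨⟨⟨⟨⟨h1, h2⟩, h3, h4⟩, h5, ?_⟩, h6, h7⟩, ln_pts h5⟩
    intro h
    exact h5 (mul_left_cancel₀ hl (add_right_cancel h))
  · intro z _ z' _ h
    simp only [Prod.mk.injEq] at h
    exact Prod.ext h.1.1 h.2.1

/-- a rich line has many pairs in the same cell -/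
lemma rich (A B : Finset ℝ) {w w' k : ℕ} {l : ℝ × ℝ} (hl : l.1 ≠ 0)
    (hk : 2 * (A.card / w + B.card / w' + 1) ≤ k) (hlk : k ≤ (on A B l).card) :
    (on A B l).card ^ 2 ≤ k * (DD A B w w' l).card := by
  obtain ⟨S, hS⟩ : ∃ S, S = on A B l := ⟨_, rfl⟩
  have hchain : (S.image (fun a => (bl A w a, bl B w' (l.1 * a + l.2)))).card ≤
      A.card / w + B.card / w' + 1 := by
    have hA : ∀ a ∈ S, bl A w a ≤ A.card / w := fun a ha => by
      rw [hS, mem_on] at ha
      exact bl_le w ha.1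
    have hB : ∀ a ∈ S, bl B w' (l.1 * a + l.2) ≤ B.card / w' := fun a ha => by
      rw [hS, mem_on] at ha
      exact bl_le w' ha.2
    rcases lt_or_gt_of_ne hl with h | h
    · refine chain' S (bl A w) (fun a => bl B w' (l.1 * a + l.2)) _ _
        (fun a _ b _ hab => bl_mono A w hab) (fun a _ b _ hab => bl_mono B w' ?_) hA hB
      have := mul_le_mul_of_nonpos_left hab h.le
      linarith
    · refine chain S (bl A w) (fun a => bl B w' (l.1 * a + l.2)) _ _
        (fun a _ b _ hab => bl_mono A w hab) (fun a _ b _ hab => bl_mono B w' ?_) hA hB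
      have := mul_le_mul_of_nonneg_left hab h.le
      linarith
  have h1 := cs S (fun a => (bl A w a, bl B w' (l.1 * a + l.2))) _ hchain
  have h2 : ((S ×ˢ S).filter (fun z => (bl A w z.1, bl B w' (l.1 * z.1 + l.2)) =
      (bl A w z.2, bl B w' (l.1 * z.2 + l.2)))).card ≤ (DD A B w w' l).card + S.card := by
    have h3 : S.card = (S.diag).card := (diag_card S).symm
    rw [h3]
    refine (card_le_card ?_).trans (card_union_le _ _)
    intro z hz
    rw [mem_filter, mem_product, Prod.mk.injEq] at hz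
    rw [mem_union, mem_diag, DD, mem_filter, mem_product, ← hS]
    by_cases hzz : z.1 = z.2
    · exact Or.inr ⟨hz.1.1, hzz⟩
    · exact Or.inl ⟨hz.1, hzz, hz.2⟩
  rw [← hS] at hlk ⊢
  have h4 : S.card ^ 2 ≤ (A.card / w + B.card / w' + 1) * ((DD A B w w' l).card + S.card) :=
    h1.trans (Nat.mul_le_mul_left _ h2)
  have h5 : 2 * S.card ^ 2 ≤ k * (DD A B w w' l).card + k * S.card := by
    calc 2 * S.card ^ 2 ≤ 2 * ((A.card / w + B.card / w' + 1) *
          ((DD A B w w' l).card + S.card)) := Nat.mul_le_mul_left _ h4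
      _ = (2 * (A.card / w + B.card / w' + 1)) * ((DD A B w w' l).card + S.card) := by ring
      _ ≤ k * ((DD A B w w' l).card + S.card) := Nat.mul_le_mul_right _ hk
      _ = k * (DD A B w w' l).card + k * S.card := by ring
  have h6 : k * S.card ≤ S.card ^ 2 := by
    rw [sq]
    exact Nat.mul_le_mul_right _ hlk
  omega

/-- the number of pairs on lines with at least `k` points -/
lemma card_EE_aux (A B : Finset ℝ) {w w' k : ℕ} (hw : 0 < w) (hw' : 0 < w')
    (hk : 2 * (A.card / w + B.card / w' + 1) ≤ k) :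
    (EE A B k).card ≤ k * ((A.card * w) * (B.card * w')) := by
  calc (EE A B k).card
      = ∑ l ∈ (EE A B k).image (fun z => ln z.1 z.2),
          ((EE A B k).filter (fun z => ln z.1 z.2 = l)).card := card_eq_sum_card_image _ _
    _ ≤ ∑ l ∈ (EE A B k).image (fun z => ln z.1 z.2),
          k * ((FF A B w w').filter (fun z => ln z.1 z.2 = l)).card := by
        refine sum_le_sum fun l hl => ?_
        rw [mem_image] at hl
        obtain ⟨z, hz, rfl⟩ := hl
        rw [EE, mem_filter, mem_NA] at hz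
        have hne := ln_ne hz.1.2.1 hz.1.2.2
        exact (fiber_EE A B k _).trans ((rich A B hne hk hz.2).trans
          (Nat.mul_le_mul_left _ (fiber_FF A B w w' hne)))
    _ = k * ∑ l ∈ (EE A B k).image (fun z => ln z.1 z.2),
          ((FF A B w w').filter (fun z => ln z.1 z.2 = l)).card := by rw [mul_sum]
    _ ≤ k * (FF A B w w').card := by
        refine Nat.mul_le_mul_left _ ?_
        rw [sum_card_fiberwise_eq_card_filter]
        exact card_le_card (filter_subset _ _)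
    _ ≤ k * ((A.card * w) * (B.card * w')) := Nat.mul_le_mul_left _ (card_FF A B hw hw')

lemma width {N k : ℕ} (hk : 1 ≤ k) (hN : k ≤ N) :
    (8 * N / k + 1) * k ≤ 9 * N ∧ 8 * (N / (8 * N / k + 1)) < k := by
  have h1 : 8 * N / k * k ≤ 8 * N := Nat.div_mul_le_self _ _
  have h2 : 8 * N < k * (8 * N / k + 1) := by
    have := Nat.lt_mul_div_succ (8 * N) (show 0 < k by omega)
    simpa using this
  refine ⟨by rw [add_mul, one_mul]; omega, ?_⟩
  obtain ⟨w, hw⟩ : ∃ w, w = 8 * N / k + 1 := ⟨_, rfl⟩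
  rw [← hw] at h2 ⊢
  have h3 : N / w * w ≤ N := Nat.div_mul_le_self _ _
  have h4 : 8 * (N / w) * w < k * w := by
    calc 8 * (N / w) * w = 8 * (N / w * w) := by ring
      _ ≤ 8 * N := Nat.mul_le_mul_left _ h3
      _ < k * w := h2
  exact lt_of_mul_lt_mul_right h4 (Nat.zero_le _)

lemma card_EE (A B : Finset ℝ) {k : ℕ} (hk : 1 ≤ k) (hA : k ≤ A.card) (hB : k ≤ B.card) :
    (EE A B k).card * k ≤ 81 * (A.card * B.card) ^ 2 := by
  by_cases hk4 : 4 ≤ k
  · obtain ⟨a1, a2⟩ := width hk hA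
    obtain ⟨b1, b2⟩ := width hk hB
    have h1 := card_EE_aux A B (w := 8 * A.card / k + 1) (w' := 8 * B.card / k + 1) (k := k)
      (Nat.succ_pos _) (Nat.succ_pos _) (by omega)
    calc (EE A B k).card * k
        ≤ (k * ((A.card * (8 * A.card / k + 1)) * (B.card * (8 * B.card / k + 1)))) * k :=
          Nat.mul_le_mul_right _ h1
      _ = (A.card * B.card) * (((8 * A.card / k + 1) * k) * ((8 * B.card / k + 1) * k)) := by ring
      _ ≤ (A.card * B.card) * ((9 * A.card) * (9 * B.card)) :=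
          Nat.mul_le_mul_left _ (Nat.mul_le_mul a1 b1)
      _ = 81 * (A.card * B.card) ^ 2 := by ring
  · have h1 : (EE A B k).card ≤ (A.card * B.card) ^ 2 := by
      have h2 : (EE A B k) ⊆ (A ×ˢ B) ×ˢ (A ×ˢ B) :=
        (filter_subset _ _).trans (filter_subset _ _)
      have h3 := card_le_card h2
      rw [card_product, card_product, ← sq] at h3
      exact h3
    calc (EE A B k).card * k ≤ (A.card * B.card) ^ 2 * 81 := Nat.mul_le_mul h1 (by omega)
      _ = 81 * (A.card * B.card) ^ 2 := by ring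

/-! ### collinear triples -/

/-- collinear triples of the grid, on lines which are not parallel to the axes -/
lemma collinear (A B : Finset ℝ) :
    ((∑ z ∈ NA A B, (on A B (ln z.1 z.2)).card : ℕ) : ℝ) ≤
      81 * ((A.card : ℝ) * B.card) ^ 2 * (1 + Real.log (min A.card B.card : ℕ)) := by
  obtain ⟨m, hm⟩ : ∃ m, m = min A.card B.card := ⟨_, rfl⟩
  have h1 : ∑ z ∈ NA A B, (on A B (ln z.1 z.2)).card = ∑ k ∈ Icc 1 m, (EE A B k).card := by
    have h2 : ∀ z ∈ NA A B, (on A B (ln z.1 z.2)).card =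
        ∑ k ∈ Icc 1 m, if k ≤ (on A B (ln z.1 z.2)).card then 1 else 0 := by
      intro z hz
      rw [mem_NA] at hz
      rw [← card_filter]
      have h3 : (Icc 1 m).filter (fun k => k ≤ (on A B (ln z.1 z.2)).card) =
          Icc 1 (on A B (ln z.1 z.2)).card := by
        ext k
        rw [mem_filter, mem_Icc, mem_Icc]
        have h4 : (on A B (ln z.1 z.2)).card ≤ m := by
          rw [hm]
          exact le_min (card_on_left A B _) (card_on_right A B (ln_ne hz.2.1 hz.2.2))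
        exact ⟨fun h => ⟨h.1.1, h.2⟩, fun h => ⟨⟨h.1, h.2.trans h4⟩, h.2⟩⟩
      rw [h3, Nat.card_Icc]
      omega
    rw [sum_congr rfl h2, sum_comm]
    refine sum_congr rfl fun k _ => ?_
    rw [← card_filter]
    rfl
  have h5 : ∀ k ∈ Icc 1 m, ((EE A B k).card : ℝ) ≤
      81 * ((A.card : ℝ) * B.card) ^ 2 * ((k : ℝ))⁻¹ := by
    intro k hk
    rw [mem_Icc] at hk
    have h6 := card_EE A B hk.1 (hk.2.trans (hm ▸ min_le_left _ _))
      (hk.2.trans (hm ▸ min_le_right _ _))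
    have hk0 : (0 : ℝ) < k := by exact_mod_cast hk.1
    rw [← div_eq_mul_inv, le_div_iff₀ hk0]
    exact_mod_cast h6
  have h7 : (∑ k ∈ Icc 1 m, ((k : ℝ))⁻¹) ≤ 1 + Real.log m := by
    have h8 := harmonic_le_one_add_log m
    rw [harmonic_eq_sum_Icc] at h8
    push_cast at h8
    exact h8
  rw [h1, ← hm]
  push_cast
  refine (sum_le_sum h5).trans ?_
  rw [← mul_sum]
  exact mul_le_mul_of_nonneg_left h7 (by positivity)

/-! ### the number of triples of given area -/

/-- shifted coincidences are at most as many as coincidences -/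
lemma shift {α : Type} (S : Finset α) (g : α → ℝ) (c : ℝ) :
    ((S ×ˢ S).filter (fun z => g z.1 = g z.2 + c)).card ≤
      ((S ×ˢ S).filter (fun z => g z.1 = g z.2)).card := by
  classical
  obtain ⟨R, hR⟩ : ∃ R : ℝ → ℕ, ∀ y, R y = (S.filter (fun a => g a = y)).card :=
    ⟨fun y => (S.filter (fun a => g a = y)).card, fun _ => rfl⟩
  have h1 : ∀ d : ℝ, ((S ×ˢ S).filter (fun z => g z.1 = g z.2 + d)).card =
      ∑ y ∈ S.image g, R (y + d) * R y := by
    intro d
    rw [card_eq_sum_card_fiberwise (f := fun z : α × α => g z.2) (t := S.image g)]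
    · refine sum_congr rfl fun y _ => ?_
      rw [hR, hR, ← card_product]
      congr 1
      ext z
      simp only [mem_filter, mem_product]
      constructor
      · rintro ⟨⟨⟨h3, h4⟩, h5⟩, h6⟩
        exact ⟨⟨h3, by rw [h5, h6]⟩, h4, h6⟩
      · rintro ⟨⟨h3, h4⟩, h5, h6⟩
        exact ⟨⟨⟨h3, h5⟩, by rw [h4, h6]⟩, h6⟩
    · intro z hz
      rw [mem_coe, mem_filter, mem_product] at hz
      exact mem_coe.2 (mem_image_of_mem g hz.1.2)
  have h2 := h1 0
  simp only [add_zero] at h2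
  rw [h1 c, h2]
  have h3 : ∑ y ∈ S.image g, R (y + c) ^ 2 ≤ ∑ y ∈ S.image g, R y ^ 2 := by
    have h4 : ∑ y ∈ S.image g, R (y + c) ^ 2 = ∑ y ∈ (S.image g).image (· + c), R y ^ 2 :=
      (sum_image (f := fun y => R y ^ 2) (g := (· + c)) fun a _ b _ h => add_right_cancel h).symm
    rw [h4]
    refine sum_le_sum_of_ne_zero fun y _ hy => ?_
    have h5 : R y ≠ 0 := fun h => hy (by rw [h]; rfl)
    rw [hR, card_ne_zero] at h5
    obtain ⟨a, ha⟩ := h5
    rw [mem_filter] at ha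
    rw [mem_image]
    exact ⟨a, ha.1, ha.2⟩
  have h6 : 2 * ∑ y ∈ S.image g, R (y + c) * R y ≤
      ∑ y ∈ S.image g, R (y + c) ^ 2 + ∑ y ∈ S.image g, R y ^ 2 := by
    rw [mul_sum, ← sum_add_distrib]
    refine sum_le_sum fun y _ => ?_
    rw [← mul_assoc]
    exact two_mul_le_add_sq _ _
  have h7 : ∑ y ∈ S.image g, R y * R y = ∑ y ∈ S.image g, R y ^ 2 :=
    sum_congr rfl fun y _ => (sq _).symm
  rw [h7]
  omega

/-- the product of the coordinates relative to `p` -/
def gg (p u : ℝ × ℝ) : ℝ := (u.1 - p.1) * (u.2 - p.2)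

lemma card_gg_zero {A B : Finset ℝ} {p : ℝ × ℝ} :
    ((A ×ˢ B).filter (fun u => gg p u = 0)).card ≤ A.card + B.card := by
  have h1 : (A ×ˢ B).filter (fun u => gg p u = 0) ⊆
      (A.image (fun a => (a, p.2))) ∪ (B.image (fun b => (p.1, b))) := by
    intro u hu
    rw [mem_filter, mem_product, gg, mul_eq_zero, sub_eq_zero, sub_eq_zero] at hu
    rw [mem_union, mem_image, mem_image]
    rcases hu.2 with h | h
    · exact Or.inr ⟨u.2, hu.1.2, Prod.ext h.symm rfl⟩
    · exact Or.inl ⟨u.1, hu.1.1, Prod.ext rfl h.symm⟩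
  exact (card_le_card h1).trans ((card_union_le _ _).trans
    (Nat.add_le_add card_image_le card_image_le))

lemma card_gg_ne {A B : Finset ℝ} {p : ℝ × ℝ} {c : ℝ} (hc : c ≠ 0) :
    ((A ×ˢ B).filter (fun u => gg p u = c)).card ≤ min A.card B.card := by
  refine le_min ?_ ?_
  · refine card_le_card_of_injOn Prod.fst (fun u hu => ?_) (fun u hu v hv h => ?_)
    · rw [mem_coe, mem_filter, mem_product] at hu
      exact hu.1.1
    · rw [mem_coe, mem_filter] at hu hv
      have h1 : (u.1 - p.1) * (u.2 - p.2) = (u.1 - p.1) * (v.2 - p.2) := by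
        have h2 : (v.1 - p.1) * (v.2 - p.2) = c := hv.2
        have h3 : (u.1 - p.1) * (u.2 - p.2) = c := hu.2
        rw [h3, ← h2, h]
      have h4 : u.1 - p.1 ≠ 0 := by
        intro h5
        have h3 : (u.1 - p.1) * (u.2 - p.2) = c := hu.2
        rw [h5, zero_mul] at h3
        exact hc h3.symm
      have h6 := mul_left_cancel₀ h4 h1
      exact Prod.ext h (by linarith)
  · refine card_le_card_of_injOn Prod.snd (fun u hu => ?_) (fun u hu v hv h => ?_)
    · rw [mem_coe, mem_filter, mem_product] at hu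
      exact hu.1.2
    · rw [mem_coe, mem_filter] at hu hv
      have h1 : (u.1 - p.1) * (u.2 - p.2) = (v.1 - p.1) * (u.2 - p.2) := by
        have h2 : (v.1 - p.1) * (v.2 - p.2) = c := hv.2
        have h3 : (u.1 - p.1) * (u.2 - p.2) = c := hu.2
        rw [h3, ← h2, h]
      have h4 : u.2 - p.2 ≠ 0 := by
        intro h5
        have h3 : (u.1 - p.1) * (u.2 - p.2) = c := hu.2
        rw [h5, mul_zero] at h3
        exact hc h3.symm
      have h6 := mul_right_cancel₀ h4 h1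
      exact Prod.ext (by linarith) h

/-- the determinant -/
def dt (p q r : ℝ × ℝ) : ℝ := (q.1 - p.1) * (r.2 - p.2) - (q.2 - p.2) * (r.1 - p.1)

/-- the pairs which form a triangle of given area with `p` -/
lemma card_pair (A B : Finset ℝ) (p : ℝ × ℝ) {c : ℝ} (hc : c ≠ 0) :
    (((A ×ˢ B) ×ˢ (A ×ˢ B)).filter (fun z => dt p z.1 z.2 = c)).card ≤
      4 * (A.card * B.card) +
        (((A ×ˢ B) ×ˢ (A ×ˢ B)).filter (fun z => gg p z.1 = gg p z.2 ∧ gg p z.1 ≠ 0)).card := by
  obtain ⟨G, hG⟩ : ∃ G, G = A ×ˢ B := ⟨_, rfl⟩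
  have h1 : ((G ×ˢ G).filter (fun z => dt p z.1 z.2 = c)).card ≤
      ((G ×ˢ G).filter (fun z => gg p z.1 = gg p z.2 + c)).card := by
    refine card_le_card_of_injOn (fun z => ((z.1.1, z.2.2), (z.2.1, z.1.2))) ?_ ?_
    · intro z hz
      rw [mem_coe, mem_filter, mem_product, hG, mem_product, mem_product] at hz
      rw [mem_coe, mem_filter, mem_product, hG, mem_product, mem_product]
      refine ⟨⟨⟨hz.1.1.1, hz.1.2.2⟩, hz.1.2.1, hz.1.1.2⟩, ?_⟩
      have h2 := hz.2
      unfold dt at h2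
      unfold gg
      simp only
      linarith
    · intro z _ z' _ h
      simp only [Prod.mk.injEq] at h
      exact Prod.ext (Prod.ext h.1.1 h.2.2) (Prod.ext h.2.1 h.1.2)
  have h2 : ((G ×ˢ G).filter (fun z => gg p z.1 = gg p z.2 + c)) ⊆
      ((G.filter (fun u => gg p u = 0)) ×ˢ (G.filter (fun u => gg p u = -c))) ∪
      ((G.filter (fun u => gg p u = c)) ×ˢ (G.filter (fun u => gg p u = 0))) ∪
      (((G.filter (fun u => gg p u ≠ 0)) ×ˢ (G.filter (fun u => gg p u ≠ 0))).filter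
        (fun z => gg p z.1 = gg p z.2 + c)) := by
    intro z hz
    rw [mem_filter, mem_product] at hz
    rw [mem_union, mem_union, mem_product, mem_product, mem_filter, mem_filter, mem_filter,
      mem_filter, mem_filter, mem_product, mem_filter, mem_filter]
    by_cases h3 : gg p z.1 = 0
    · exact Or.inl (Or.inl ⟨⟨hz.1.1, h3⟩, hz.1.2, by linarith [hz.2]⟩)
    · by_cases h4 : gg p z.2 = 0
      · exact Or.inl (Or.inr ⟨⟨hz.1.1, by linarith [hz.2]⟩, hz.1.2, h4⟩)
      · exact Or.inr ⟨⟨⟨hz.1.1, h3⟩, hz.1.2, h4⟩, hz.2⟩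
  have h3 : (A.card + B.card) * min A.card B.card ≤ 2 * (A.card * B.card) := by
    rcases le_total A.card B.card with h | h
    · rw [min_eq_left h]
      nlinarith
    · rw [min_eq_right h]
      nlinarith
  have h4 : ((G.filter (fun u => gg p u = 0)) ×ˢ (G.filter (fun u => gg p u = -c))).card ≤
      2 * (A.card * B.card) := by
    rw [card_product, hG]
    exact (Nat.mul_le_mul card_gg_zero (card_gg_ne (neg_ne_zero.2 hc))).trans h3
  have h5 : ((G.filter (fun u => gg p u = c)) ×ˢ (G.filter (fun u => gg p u = 0))).card ≤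
      2 * (A.card * B.card) := by
    rw [card_product, hG, mul_comm]
    exact (Nat.mul_le_mul card_gg_zero (card_gg_ne hc)).trans h3
  have h6 := shift (G.filter (fun u => gg p u ≠ 0)) (gg p) c
  have h7 : (((G.filter (fun u => gg p u ≠ 0)) ×ˢ (G.filter (fun u => gg p u ≠ 0))).filter
        (fun z => gg p z.1 = gg p z.2)).card ≤
      ((G ×ˢ G).filter (fun z => gg p z.1 = gg p z.2 ∧ gg p z.1 ≠ 0)).card := by
    refine card_le_card fun z hz => ?_
    rw [mem_filter, mem_product, mem_filter, mem_filter] at hz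
    rw [mem_filter, mem_product]
    exact ⟨⟨hz.1.1.1, hz.1.2.1⟩, hz.2, hz.1.1.2⟩
  rw [← hG]
  have h8 := card_le_card h2
  have h9 := card_union_le
    (((G.filter (fun u => gg p u = 0)) ×ˢ (G.filter (fun u => gg p u = -c))) ∪
      ((G.filter (fun u => gg p u = c)) ×ˢ (G.filter (fun u => gg p u = 0))))
    (((G.filter (fun u => gg p u ≠ 0)) ×ˢ (G.filter (fun u => gg p u ≠ 0))).filter
        (fun z => gg p z.1 = gg p z.2 + c))
  have h10 := card_union_le
    ((G.filter (fun u => gg p u = 0)) ×ˢ (G.filter (fun u => gg p u = -c)))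
    ((G.filter (fun u => gg p u = c)) ×ˢ (G.filter (fun u => gg p u = 0)))
  omega

/-- coincidences are collinear triples -/
lemma sum_gg (A B : Finset ℝ) :
    ∑ p ∈ A ×ˢ B, (((A ×ˢ B) ×ˢ (A ×ˢ B)).filter
      (fun z => gg p z.1 = gg p z.2 ∧ gg p z.1 ≠ 0)).card ≤
      ∑ z ∈ NA A B, (on A B (ln z.1 z.2)).card := by
  rw [← card_sigma, ← card_sigma]
  refine card_le_card_of_injOn
    (fun x : (_ : ℝ × ℝ) × ((ℝ × ℝ) × (ℝ × ℝ)) =>
      (⟨(x.1, (x.2.1.1, x.2.2.2)), x.2.2.1⟩ : (_ : (ℝ × ℝ) × (ℝ × ℝ)) × ℝ)) ?_ ?_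
  · rintro ⟨p, u, v⟩ hx
    rw [mem_coe, mem_sigma, mem_filter, mem_product, mem_product, mem_product, mem_product] at hx
    obtain ⟨⟨h1, h2⟩, ⟨⟨h3, h4⟩, h5, h6⟩, h7, h8⟩ := hx
    simp only at h1 h2 h3 h4 h5 h6 h7 h8
    have h9 : u.1 ≠ p.1 ∧ u.2 ≠ p.2 := by
      rw [gg, mul_ne_zero_iff, sub_ne_zero, sub_ne_zero] at h8
      exact h8
    have h10 : v.1 ≠ p.1 ∧ v.2 ≠ p.2 := by
      rw [h7, gg, mul_ne_zero_iff, sub_ne_zero, sub_ne_zero] at h8
      exact h8
    rw [mem_coe, mem_sigma, mem_NA, mem_on]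
    refine ⟨⟨⟨⟨h1, h2⟩, h3, h6⟩, h9.1.symm, h10.2.symm⟩, h5, ?_⟩
    have h11 : (ln p (u.1, v.2)).1 * v.1 + (ln p (u.1, v.2)).2 = u.2 := by
      have h12 : u.1 - p.1 ≠ 0 := sub_ne_zero.2 h9.1
      unfold gg at h7
      unfold ln
      simp only
      field_simp
      linarith
    show (ln p (u.1, v.2)).1 * v.1 + (ln p (u.1, v.2)).2 ∈ B
    rw [h11]
    exact h4
  · rintro ⟨p, u, v⟩ hx ⟨p', u', v'⟩ hx' h
    rw [mem_coe, mem_sigma, mem_filter, mem_product, mem_product, mem_product, mem_product] at hx hx'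
    obtain ⟨⟨h1, h2⟩, ⟨⟨h3, h4⟩, h5, h6⟩, h7, h8⟩ := hx
    obtain ⟨⟨h1', h2'⟩, ⟨⟨h3', h4'⟩, h5', h6'⟩, h7', h8'⟩ := hx'
    simp only [Sigma.mk.injEq, Prod.mk.injEq, heq_eq_eq] at h
    obtain ⟨⟨e1, e2, e3⟩, e4⟩ := h
    simp only at h7 h8 h7' h8'
    subst e1
    have h9 : u.1 - p.1 ≠ 0 := by
      rw [gg, mul_ne_zero_iff] at h8
      exact h8.1
    have h10 : (u.1 - p.1) * (u.2 - p.2) = (u.1 - p.1) * (u'.2 - p.2) := by
      unfold gg at h7 h7'
      rw [h7, e3, e4, ← h7', e2]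
    have h11 := mul_left_cancel₀ h9 h10
    have h12 : u = u' := Prod.ext e2 (by linarith)
    have h13 : v = v' := Prod.ext e4 e3
    rw [h12, h13]

/-- the number of ordered triples of the grid with given determinant -/
theorem grid_bound (A B : Finset ℝ) {c : ℝ} (hc : c ≠ 0) :
    ((((A ×ˢ B) ×ˢ ((A ×ˢ B) ×ˢ (A ×ˢ B))).filter
      (fun z => dt z.1 z.2.1 z.2.2 = c)).card : ℝ) ≤
      85 * ((A.card : ℝ) * B.card) ^ 2 * (1 + Real.log (min A.card B.card : ℕ)) := by
  have h1 : (((A ×ˢ B) ×ˢ ((A ×ˢ B) ×ˢ (A ×ˢ B))).filter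
      (fun z => dt z.1 z.2.1 z.2.2 = c)).card ≤
      4 * (A.card * B.card) ^ 2 + ∑ z ∈ NA A B, (on A B (ln z.1 z.2)).card := by
    have h2 : (((A ×ˢ B) ×ˢ ((A ×ˢ B) ×ˢ (A ×ˢ B))).filter
        (fun z => dt z.1 z.2.1 z.2.2 = c)).card = ∑ p ∈ A ×ˢ B,
        (((A ×ˢ B) ×ˢ (A ×ˢ B)).filter (fun z => dt p z.1 z.2 = c)).card := by
      rw [card_filter, sum_product]
      exact sum_congr rfl fun p _ => (card_filter _ _).symm
    rw [h2]
    refine (sum_le_sum fun p _ => card_pair A B p hc).trans ?_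
    rw [sum_add_distrib, sum_const, card_product, smul_eq_mul]
    refine Nat.add_le_add (le_of_eq ?_) (sum_gg A B)
    ring
  have h3 := collinear A B
  have h4 : 0 ≤ Real.log (min A.card B.card : ℕ) := Real.log_natCast_nonneg _
  have h5 : 0 ≤ ((A.card : ℝ) * B.card) ^ 2 := by positivity
  have h6 : (((((A ×ˢ B) ×ˢ ((A ×ˢ B) ×ˢ (A ×ˢ B))).filter
      (fun z => dt z.1 z.2.1 z.2.2 = c)).card : ℕ) : ℝ) ≤
      4 * ((A.card : ℝ) * B.card) ^ 2 + ((∑ z ∈ NA A B, (on A B (ln z.1 z.2)).card : ℕ) : ℝ) := by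
    exact_mod_cast h1
  have h7 : 4 * ((A.card : ℝ) * B.card) ^ 2 ≤
      4 * ((A.card : ℝ) * B.card) ^ 2 * (1 + Real.log (min A.card B.card : ℕ)) :=
    le_mul_of_one_le_right (by positivity) (by linarith)
  linarith

end Pool.Agent.Work.MP_916cc8_co.Grid
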