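import Pool.Agent.Work.MP_916cc8_co.Bd.B01

set_option autoImplicit false

/-! Type B incidences (helper59) -/

namespace Pool.Agent.Work.MP_916cc8_co

open scoped Classical in
theorem IncB_proof (h : TypeB4) : IncB := by
  intro X F
  refine Finset.card_le_mul_card_image_of_maps_to (f := Prod.snd) (t := X) ?_ 4 ?_
  · intro a ha
    exact (Finset.mem_product.mp (Finset.mem_filter.mp ha).1).2
  · intro y hy
    set s := ((X ×ˢ X).filter (fun z => NRel z.1 z.2 ∧ TypeB F z.1 z.2)).filter
      (fun a => a.2 = y) with hs
    have h1 : (s.image Prod.fst).card = s.card := by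
      refine Finset.card_image_of_injOn ?_
      intro a ha b hb hab
      have ha2 := (Finset.mem_filter.mp (Finset.mem_coe.mp ha)).2
      have hb2 := (Finset.mem_filter.mp (Finset.mem_coe.mp hb)).2
      exact Prod.ext hab (ha2.trans hb2.symm)
    rw [← h1]
    refine h F y _ fun x hx => ?_
    obtain ⟨a, ha, rfl⟩ := Finset.mem_image.mp hx
    have ha1 := Finset.mem_filter.mp ha
    have ha2 := (Finset.mem_filter.mp ha1.1).2
    rw [ha1.2] at ha2
    exact ha2

end Pool.Agent.Work.MP_916cc8_co
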