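import Pool.Agent.Work.MP_916cc8_co.Bd.B01

/-!
# MP_916cc8_co: incidences on curves, outside the zero set of the partition polynomials
-/

set_option autoImplicit false

namespace Pool.Agent.Work.MP_916cc8_co

open MvPolynomial

namespace IncCAux

open scoped Classical

/-- the sign vector -/
noncomputable def sgv {d t : ℕ} (f : Fin t → MvPolynomial (Fin d) ℝ) (v : Fin d → ℝ) :
    Fin t → Bool := fun j => decide (0 < eval v (f j))

theorem sgv_eq_of_sameCl {d t : ℕ} {f : Fin t → MvPolynomial (Fin d) ℝ} {v w : Fin d → ℝ}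
    (h : sameCl f v w) : sgv f v = sgv f w := by
  funext j
  unfold sgv
  rw [decide_eq_decide]
  rcases mul_pos_iff.1 (h j) with ⟨h1, h2⟩ | ⟨h1, h2⟩
  · exact ⟨fun _ => h2, fun _ => h1⟩
  · exact ⟨fun h3 => absurd h3 (not_lt.2 h1.le), fun h3 => absurd h3 (not_lt.2 h2.le)⟩

theorem sameCl_of_sgv {d t : ℕ} {f : Fin t → MvPolynomial (Fin d) ℝ} {v w : Fin d → ℝ}
    (h : sgv f v = sgv f w) (hv : ∀ j, eval v (f j) ≠ 0) (hw : ∀ j, eval w (f j) ≠ 0) :
    sameCl f v w := by
  intro j
  have hj := congrFun h j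
  unfold sgv at hj
  rw [decide_eq_decide] at hj
  rcases lt_or_gt_of_ne (hv j) with h1 | h1
  · rcases lt_or_gt_of_ne (hw j) with h2 | h2
    · exact mul_pos_of_neg_of_neg h1 h2
    · exact absurd (hj.2 h2) (not_lt.2 h1.le)
  · exact mul_pos h1 (hj.1 h1)

end IncCAux

open IncCAux in
theorem IncC_proof (hv : Vis3) (hk : K42) (hs : ClassSum) : IncC := by
  classical
  intro X t f h a g V hV hg hcl
  set Y : Finset (Pt × Pt) := X.filter (fun y => ∀ j, eval (v3 y.1 (hh h y.2)) (f j) ≠ 0)
    with hY
  have hV0 : 0 ≤ V := by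
    rw [hV]
    positivity
  have key := hs (Pt × Pt) (Pt × Pt) (Fin t → Bool)
    (fun x y => NRel x y ∧ eval (v2 y.1) (g x) = 0) X Y
    (fun y => sgv f (v3 y.1 (hh h y.2))) Finset.univ V (X.card / 2 ^ t) (by positivity) hV0
    (fun y _ => Finset.mem_univ _) ?_ ?_ ?_
  · have hcard : ((Finset.univ : Finset (Fin t → Bool)).card : ℝ) = 2 ^ t := by
      rw [Finset.card_univ, Fintype.card_fun, Fintype.card_bool, Fintype.card_fin]
      push_cast
      rfl
    rw [hcard] at key
    refine le_trans (le_of_eq ?_) key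
    congr 2
    ext z
    simp only [Finset.mem_filter, Finset.mem_product, hY]
    tauto
  · intro y₁ _ y₂ _ hy
    have h1 : (X.filter (fun x => (NRel x y₁ ∧ eval (v2 y₁.1) (g x) = 0) ∧
        (NRel x y₂ ∧ eval (v2 y₂.1) (g x) = 0))).card ≤ 3 := by
      refine hk y₁ y₂ hy _ fun x hx => ?_
      rw [Finset.mem_filter] at hx
      exact ⟨hx.2.1.1, hx.2.2.1⟩
    refine (le_of_eq ?_).trans (h1.trans (le_of_eq ?_))
    all_goals congr
  · intro x hx
    set s := Y.filter (fun y => NRel x y ∧ eval (v2 y.1) (g x) = 0) with hsdef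
    set c : Pt × Pt → (Fin t → Bool) := fun y => sgv f (v3 y.1 (hh h y.2)) with hc
    obtain ⟨u, hus, huinj, huim⟩ := Finset.exists_subset_injOn_image_eq_of_surjOn
      (f := c) (s : Set (Pt × Pt)) (s.image c) (by intro b hb; simpa using hb)
    have hcu : (s.image c).card = u.card := by
      rw [← huim, Finset.card_image_of_injOn huinj]
    have h1 := hv t f h x (g x) u (hg x hx).1 ?_ ?_
    · have h2 : ((s.image c).card : ℝ) ≤ V := by
        rw [hcu, hV]
        have h3 : (u.card : ℝ) ≤ ((2 * (g x).totalDegree *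
            ((g x).totalDegree + 8 * ∑ j, (f j).totalDegree + 2) : ℕ) : ℝ) := by
          exact_mod_cast h1
        have h4 : (2 * (g x).totalDegree *
            ((g x).totalDegree + 8 * ∑ j, (f j).totalDegree + 2) : ℕ) ≤
            2 * a * (a + 8 * ∑ j, (f j).totalDegree + 2) := by
          have := (hg x hx).2
          gcongr
        refine h3.trans ?_
        have h5 : ((2 * (g x).totalDegree *
            ((g x).totalDegree + 8 * ∑ j, (f j).totalDegree + 2) : ℕ) : ℝ) ≤
            ((2 * a * (a + 8 * ∑ j, (f j).totalDegree + 2) : ℕ) : ℝ) := by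
          exact_mod_cast h4
        refine h5.trans (le_of_eq ?_)
        push_cast
        ring
      refine (le_of_eq ?_).trans h2
      congr
      exact Subsingleton.elim _ _
    · intro z hz
      have := hus hz
      rw [Finset.mem_coe, hsdef, Finset.mem_filter, hY, Finset.mem_filter] at this
      exact ⟨this.2.1.1, this.2.2, this.1.2⟩
    · intro z hz w hw hzw
      exact huinj hz hw (sgv_eq_of_sameCl hzw)
  · intro k _
    have h4 : ((Y.filter (fun y => sgv f (v3 y.1 (hh h y.2)) = k)).card : ℝ) ≤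
        X.card / 2 ^ t := ?_
    · refine (le_of_eq ?_).trans h4
      congr
    rcases (Y.filter (fun y => sgv f (v3 y.1 (hh h y.2)) = k)).eq_empty_or_nonempty with
      h0 | ⟨y0, hy0⟩
    · rw [h0, Finset.card_empty]
      push_cast
      positivity
    · rw [le_div_iff₀ (by positivity)]
      have h1 := hcl (v3 y0.1 (hh h y0.2))
      have h2 : (Y.filter (fun y => sgv f (v3 y.1 (hh h y.2)) = k)).card ≤
          (X.filter (fun y => sameCl f (v3 y0.1 (hh h y0.2)) (v3 y.1 (hh h y.2)))).card := by
        refine Finset.card_le_card fun y hy => ?_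
        rw [Finset.mem_filter, hY, Finset.mem_filter] at hy hy0
        rw [Finset.mem_filter]
        exact ⟨hy.1.1, sameCl_of_sgv (hy0.2.trans hy.2.symm) hy0.1.2 hy.1.2⟩
      have h3 : (Y.filter (fun y => sgv f (v3 y.1 (hh h y.2)) = k)).card * 2 ^ t ≤ X.card := by
        calc (Y.filter (fun y => sgv f (v3 y.1 (hh h y.2)) = k)).card * 2 ^ t
            ≤ (X.filter (fun y => sameCl f (v3 y0.1 (hh h y0.2))
              (v3 y.1 (hh h y.2)))).card * 2 ^ t := Nat.mul_le_mul_right _ h2
          _ = 2 ^ t * (X.filter (fun y => sameCl f (v3 y0.1 (hh h y0.2))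
              (v3 y.1 (hh h y.2)))).card := mul_comm _ _
          _ ≤ X.card := by
            refine (le_of_eq ?_).trans h1
            congr
      exact_mod_cast h3

end Pool.Agent.Work.MP_916cc8_co
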