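import Pool.Agent.Work.MP_916cc8_co.Bd.B01

set_option autoImplicit false

namespace Pool.Agent.Work.MP_916cc8_co

open MvPolynomial

theorem IncD_proof (hz : ZeroR3) (hk : K42) (hs : KSTs) : IncD := by
  classical
  intro S X h G hG hX hinj
  obtain ⟨c, hc0, hcd, hc⟩ := hz G hG
  refine ⟨c, hc0, hcd, ?_⟩
  set Y : Finset (Pt × Pt) := X.filter (fun y => eval (v2 y.1) c ≠ 0 ∧
    eval (v3 y.1 (hh h y.2)) G = 0) with hY
  -- size of `Y`
  have hYc : Y.card ≤ S.card * G.totalDegree := by
    have h1 : Y.card ≤ ∑ p ∈ S, (Y.filter (fun y => y.1 = p)).card := by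
      rw [← Finset.card_eq_sum_card_fiberwise (f := fun y : Pt × Pt => y.1) (t := S)]
      intro y hy
      exact (hX y (Finset.mem_filter.1 hy).1).1
    refine h1.trans ?_
    rw [← smul_eq_mul]
    refine Finset.sum_le_card_nsmul _ _ _ fun p hp => ?_
    by_cases hcp : eval (v2 p) c = 0
    · have h2 : Y.filter (fun y => y.1 = p) = ∅ := by
        refine Finset.filter_eq_empty_iff.2 fun y hy hyp => ?_
        rw [hY, Finset.mem_filter] at hy
        rw [hyp] at hy
        exact hy.2.1 hcp
      rw [h2, Finset.card_empty]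
      exact Nat.zero_le _
    · have h2 : (Y.filter (fun y => y.1 = p)).card =
          ((Y.filter (fun y => y.1 = p)).image (fun y => hh h y.2)).card := by
        rw [Finset.card_image_of_injOn]
        intro y hy y' hy' hyy
        have h3 := Finset.mem_filter.1 (Finset.mem_coe.1 hy)
        have h4 := Finset.mem_filter.1 (Finset.mem_coe.1 hy')
        have h5 := hX y (Finset.mem_filter.1 h3.1).1
        have h6 := hX y' (Finset.mem_filter.1 h4.1).1
        exact Prod.ext (h3.2.trans h4.2.symm) (hinj _ h5.2 _ h6.2 hyy)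
      rw [h2]
      refine hc p _ hcp fun t ht => ?_
      obtain ⟨y, hy, rfl⟩ := Finset.mem_image.1 ht
      have h3 := Finset.mem_filter.1 hy
      have h4 := (Finset.mem_filter.1 h3.1).2.2
      rw [h3.2] at h4
      exact h4
  have h1 := hs (Pt × Pt) (Pt × Pt) NRel X Y (fun y₁ _ y₂ _ hne =>
    hk y₁ y₂ hne _ fun x hx => (Finset.mem_filter.1 hx).2)
  have h2 : ((X ×ˢ X).filter (fun z => NRel z.1 z.2 ∧ eval (v2 z.2.1) c ≠ 0 ∧
      eval (v3 z.2.1 (hh h z.2.2)) G = 0)) = (X ×ˢ Y).filter (fun z => NRel z.1 z.2) := by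
    ext z
    simp only [Finset.mem_filter, Finset.mem_product, hY]
    tauto
  rw [h2]
  refine h1.trans ?_
  have h3 : (Y.card : ℝ) ≤ S.card * G.totalDegree := by exact_mod_cast hYc
  have h4 : 0 ≤ 2 * Real.sqrt (X.card : ℝ) := by positivity
  have h5 := mul_le_mul_of_nonneg_left h3 h4
  linarith

end Pool.Agent.Work.MP_916cc8_co
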