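import Pool.Agent.Work.MP_916cc8_co.Bd.B01

/-! The incidence theorem for close pairs at the exponent 6/11. -/

set_option autoImplicit false

namespace Pool.Agent.Work.MP_916cc8_co

open MvPolynomial

namespace IncFin

theorem real1 {x V P K U : ℝ} (hx0 : 0 ≤ x) (hP : 0 < P) (hxP : x / P ≤ K) (hU : 0 ≤ U)
    (hs : P * (x * V) ≤ U ^ 2) :
    x * V + 2 * (x / P) * Real.sqrt (P * (x * V)) ≤ x * V + 2 * K * U := by
  have h1 : Real.sqrt (P * (x * V)) ≤ U := by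
    rw [← Real.sqrt_sq hU]
    exact Real.sqrt_le_sqrt hs
  have h2 : 0 ≤ x / P := div_nonneg hx0 hP.le
  have h3 : x / P * Real.sqrt (P * (x * V)) ≤ K * U :=
    mul_le_mul hxP h1 (Real.sqrt_nonneg _) (h2.trans hxP)
  linarith

theorem realA {x D L C P V : ℝ} (hx0 : 0 ≤ x) (hx : x ≤ 2 * L ^ 16) (hD0 : 0 ≤ D)
    (hD : D ≤ C * L ^ 2) (hL : 1 ≤ L) (hC : 1 ≤ C) (hP0 : 0 < P) (hP : P ≤ L ^ 8)
    (hP' : L ^ 8 < 2 * P) (hV : V = (8 * D + 2) ^ 2) :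
    x * V + 2 * (x / P) * Real.sqrt (P * (x * V)) ≤ 320 * C ^ 2 * L ^ 22 := by
  have hL0 : 0 < L := by linarith
  have hC0 : 0 < C := by linarith
  have h1 : 1 ≤ C * L ^ 2 := one_le_mul_of_one_le_of_one_le hC (one_le_pow₀ hL)
  have hV1 : V ≤ 100 * C ^ 2 * L ^ 4 := by
    rw [hV]
    have h2 : 8 * D + 2 ≤ 10 * (C * L ^ 2) := by linarith
    calc (8 * D + 2) ^ 2 ≤ (10 * (C * L ^ 2)) ^ 2 := pow_le_pow_left₀ (by linarith) h2 2
      _ = 100 * C ^ 2 * L ^ 4 := by ring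
  have hV0 : 0 ≤ V := by rw [hV]; positivity
  have hxV : x * V ≤ 200 * C ^ 2 * L ^ 20 := by
    calc x * V ≤ (2 * L ^ 16) * (100 * C ^ 2 * L ^ 4) := mul_le_mul hx hV1 hV0 (by positivity)
      _ = 200 * C ^ 2 * L ^ 20 := by ring
  have hxP : x / P ≤ 4 * L ^ 8 := by
    rw [div_le_iff₀ hP0]
    calc x ≤ 2 * L ^ 16 := hx
      _ = 2 * L ^ 8 * L ^ 8 := by ring
      _ ≤ 2 * L ^ 8 * (2 * P) := mul_le_mul_of_nonneg_left hP'.le (by positivity)
      _ = 4 * L ^ 8 * P := by ring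
  have hs : P * (x * V) ≤ (15 * C * L ^ 14) ^ 2 := by
    calc P * (x * V) ≤ L ^ 8 * (200 * C ^ 2 * L ^ 20) :=
          mul_le_mul hP hxV (mul_nonneg hx0 hV0) (by positivity)
      _ = 200 * (C ^ 2 * L ^ 28) := by ring
      _ ≤ 225 * (C ^ 2 * L ^ 28) := by
          have : 0 ≤ C ^ 2 * L ^ 28 := by positivity
          linarith
      _ = (15 * C * L ^ 14) ^ 2 := by ring
  refine (real1 hx0 hP0 hxP (by positivity) hs).trans ?_
  have e1 : (200 : ℝ) * C ^ 2 * L ^ 20 ≤ 200 * C ^ 2 * L ^ 22 :=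
    mul_le_mul_of_nonneg_left (pow_le_pow_right₀ hL (by norm_num)) (by positivity)
  have e2 : 2 * (4 * L ^ 8) * (15 * C * L ^ 14) ≤ 120 * C ^ 2 * L ^ 22 := by
    have : C * L ^ 22 ≤ C ^ 2 * L ^ 22 := by
      refine mul_le_mul_of_nonneg_right ?_ (by positivity)
      nlinarith
    calc 2 * (4 * L ^ 8) * (15 * C * L ^ 14) = 120 * (C * L ^ 22) := by ring
      _ ≤ 120 * (C ^ 2 * L ^ 22) := by linarith
      _ = 120 * C ^ 2 * L ^ 22 := by ring
  linarith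

theorem realC {x D D' L C P V : ℝ} (hx0 : 0 ≤ x) (hx : x ≤ 2 * L ^ 16) (hD0 : 0 ≤ D)
    (hD : D ≤ C * L ^ 2) (hD0' : 0 ≤ D') (hD' : D' ≤ C * L ^ 3) (hL : 1 ≤ L) (hC : 1 ≤ C)
    (hP0 : 0 < P) (hP : P ≤ L ^ 9)
    (hP' : L ^ 9 < 2 * P) (hV : V = 2 * (4 * D) * (4 * D + 8 * D' + 2)) :
    x * V + 2 * (x / P) * Real.sqrt (P * (x * V)) ≤ 344 * C ^ 2 * L ^ 22 := by
  have hL0 : 0 < L := by linarith
  have hC0 : 0 < C := by linarith
  have h1 : 1 ≤ C * L ^ 3 := one_le_mul_of_one_le_of_one_le hC (one_le_pow₀ hL)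
  have h23 : C * L ^ 2 ≤ C * L ^ 3 :=
    mul_le_mul_of_nonneg_left (pow_le_pow_right₀ hL (by norm_num)) hC0.le
  have hV1 : V ≤ 112 * C ^ 2 * L ^ 5 := by
    rw [hV]
    have h2 : 4 * D + 8 * D' + 2 ≤ 14 * (C * L ^ 3) := by linarith
    calc 2 * (4 * D) * (4 * D + 8 * D' + 2) ≤ (8 * (C * L ^ 2)) * (14 * (C * L ^ 3)) :=
          mul_le_mul (by linarith) h2 (by positivity) (by positivity)
      _ = 112 * C ^ 2 * L ^ 5 := by ring
  have hV0 : 0 ≤ V := by rw [hV]; positivity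
  have hxV : x * V ≤ 224 * C ^ 2 * L ^ 21 := by
    calc x * V ≤ (2 * L ^ 16) * (112 * C ^ 2 * L ^ 5) := mul_le_mul hx hV1 hV0 (by positivity)
      _ = 224 * C ^ 2 * L ^ 21 := by ring
  have hxP : x / P ≤ 4 * L ^ 7 := by
    rw [div_le_iff₀ hP0]
    calc x ≤ 2 * L ^ 16 := hx
      _ = 2 * L ^ 7 * L ^ 9 := by ring
      _ ≤ 2 * L ^ 7 * (2 * P) := mul_le_mul_of_nonneg_left hP'.le (by positivity)
      _ = 4 * L ^ 7 * P := by ring
  have hs : P * (x * V) ≤ (15 * C * L ^ 15) ^ 2 := by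
    calc P * (x * V) ≤ L ^ 9 * (224 * C ^ 2 * L ^ 21) :=
          mul_le_mul hP hxV (mul_nonneg hx0 hV0) (by positivity)
      _ = 224 * (C ^ 2 * L ^ 30) := by ring
      _ ≤ 225 * (C ^ 2 * L ^ 30) := by
          have : 0 ≤ C ^ 2 * L ^ 30 := by positivity
          linarith
      _ = (15 * C * L ^ 15) ^ 2 := by ring
  refine (real1 hx0 hP0 hxP (by positivity) hs).trans ?_
  have e1 : (224 : ℝ) * C ^ 2 * L ^ 21 ≤ 224 * C ^ 2 * L ^ 22 :=
    mul_le_mul_of_nonneg_left (pow_le_pow_right₀ hL (by norm_num)) (by positivity)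
  have e2 : 2 * (4 * L ^ 7) * (15 * C * L ^ 15) ≤ 120 * C ^ 2 * L ^ 22 := by
    have : C * L ^ 22 ≤ C ^ 2 * L ^ 22 := by
      refine mul_le_mul_of_nonneg_right ?_ (by positivity)
      nlinarith
    calc 2 * (4 * L ^ 7) * (15 * C * L ^ 15) = 120 * (C * L ^ 22) := by ring
      _ ≤ 120 * (C ^ 2 * L ^ 22) := by linarith
      _ = 120 * C ^ 2 * L ^ 22 := by ring
  linarith

theorem realD {x D' L C : ℝ} (hx0 : 0 ≤ x) (hx : x ≤ 2 * L ^ 16)
    (hD0' : 0 ≤ D') (hD' : D' ≤ C * L ^ 3) (hL : 1 ≤ L) (hC : 1 ≤ C) :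
    x + 2 * Real.sqrt x * (L ^ 11 * D') ≤ 6 * C ^ 2 * L ^ 22 := by
  have hL0 : 0 < L := by linarith
  have hC0 : 0 < C := by linarith
  have h1 : Real.sqrt x ≤ 2 * L ^ 8 := by
    rw [← Real.sqrt_sq (by positivity : (0 : ℝ) ≤ 2 * L ^ 8)]
    refine Real.sqrt_le_sqrt (hx.trans ?_)
    have : 0 ≤ L ^ 16 := by positivity
    calc 2 * L ^ 16 ≤ 4 * L ^ 16 := by linarith
      _ = (2 * L ^ 8) ^ 2 := by ring
  have h2 : L ^ 11 * D' ≤ L ^ 11 * (C * L ^ 3) := mul_le_mul_of_nonneg_left hD' (by positivity)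
  have h3 : 2 * Real.sqrt x * (L ^ 11 * D') ≤ 2 * (2 * L ^ 8) * (L ^ 11 * (C * L ^ 3)) :=
    mul_le_mul (by linarith) h2 (by positivity) (by positivity)
  have h4 : C * L ^ 22 ≤ C ^ 2 * L ^ 22 := by
    refine mul_le_mul_of_nonneg_right ?_ (by positivity)
    nlinarith
  have h5 : L ^ 16 ≤ C ^ 2 * L ^ 22 := by
    calc L ^ 16 ≤ 1 * L ^ 22 := by
          rw [one_mul]
          exact pow_le_pow_right₀ hL (by norm_num)
      _ ≤ C ^ 2 * L ^ 22 := mul_le_mul_of_nonneg_right (one_le_pow₀ hC) (by positivity)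
  calc x + 2 * Real.sqrt x * (L ^ 11 * D') ≤
      2 * L ^ 16 + 2 * (2 * L ^ 8) * (L ^ 11 * (C * L ^ 3)) := by linarith
    _ = 2 * L ^ 16 + 4 * (C * L ^ 22) := by ring
    _ ≤ 2 * (C ^ 2 * L ^ 22) + 4 * (C ^ 2 * L ^ 22) := by linarith
    _ = 6 * C ^ 2 * L ^ 22 := by ring

theorem rp {t d M : ℕ} {L : ℝ} (hL : 0 ≤ L) (hd : d ≠ 0) (h : (2 : ℝ) ^ t ≤ L ^ (M * d)) :
    (2 : ℝ) ^ ((t : ℝ) / d) ≤ L ^ M := by
  have h1 : ((2 : ℝ) ^ ((t : ℝ) / d)) ^ d = (2 : ℝ) ^ t := by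
    rw [← Real.rpow_natCast, ← Real.rpow_mul (by norm_num), div_mul_cancel₀ _
      (Nat.cast_ne_zero.2 hd), Real.rpow_natCast]
  rw [← pow_le_pow_iff_left₀ (by positivity) (by positivity) hd, h1, ← pow_mul]
  exact h

theorem rpn {n : ℝ} (hn : 0 ≤ n) (k : ℕ) (r : ℝ) (hr : r = (1 : ℝ) / 11 * k) :
    n ^ r = (n ^ ((1 : ℝ) / 11)) ^ k := by
  rw [← Real.rpow_natCast, ← Real.rpow_mul hn, hr]

theorem card_four {α : Type} (s a b c d : Finset α)
    (h : ∀ z ∈ s, z ∈ a ∨ z ∈ b ∨ z ∈ c ∨ z ∈ d) :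
    s.card ≤ a.card + b.card + c.card + d.card := by
  classical
  have hsub : s ⊆ ((a ∪ b) ∪ c) ∪ d := by
    intro z hz
    simp only [Finset.mem_union]
    rcases h z hz with h | h | h | h <;> simp [h]
  have h1 := Finset.card_le_card hsub
  have h2 := Finset.card_union_le ((a ∪ b) ∪ c) d
  have h3 := Finset.card_union_le (a ∪ b) c
  have h4 := Finset.card_union_le a b
  omega

end IncFin

open scoped Classical in
theorem IncFin_proof (h3 : Part 3) (h4 : Part 4) (hi : HInj) (hab : TypeAB) (ha : IncA)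
    (hb : IncB) (hc : IncC) (hd : IncD) : IncTh (6 / 11) := by
  obtain ⟨C3, hC3, hP3⟩ := h3
  obtain ⟨C4, hC4, hP4⟩ := h4
  set K : ℝ := 1 + C3 + C4 with hK
  have hK1 : 1 ≤ K := by linarith
  have hK3 : C3 ≤ K := by linarith
  have hK4 : C4 ≤ K := by linarith
  have hK0 : 0 < K := by linarith
  refine ⟨678 * K ^ 2, by positivity, fun S X hX hcard => ?_⟩
  rcases Nat.eq_zero_or_pos S.card with hS | hS
  · -- no points
    have hXe : X = ∅ := by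
      rw [Finset.eq_empty_iff_forall_notMem]
      intro x hx
      have := (hX x hx).1
      rw [Finset.card_eq_zero.1 hS] at this
      exact absurd this (Finset.notMem_empty _)
    refine ⟨1, one_ne_zero, ?_, ?_⟩
    · rw [totalDegree_one, Nat.cast_zero]
      positivity
    · rw [hXe]
      simp only [Finset.empty_product, Finset.filter_empty, Finset.card_empty, Nat.cast_zero]
      positivity
  set n : ℝ := (S.card : ℝ) with hn
  have hn1 : 1 ≤ n := by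
    rw [hn]
    exact_mod_cast hS
  have hn0 : 0 ≤ n := by linarith
  set L : ℝ := n ^ ((1 : ℝ) / 11) with hLdef
  have hL1 : 1 ≤ L := Real.one_le_rpow hn1 (by norm_num)
  have hL0 : 0 ≤ L := by linarith
  have e16 : n ^ (2 - (6 / 11) : ℝ) = L ^ 16 := IncFin.rpn hn0 16 _ (by norm_num)
  have e3 : n ^ (6 / 11 / 2 : ℝ) = L ^ 3 := IncFin.rpn hn0 3 _ (by norm_num)
  have e22 : n ^ (2 : ℝ) = L ^ 22 := IncFin.rpn hn0 22 _ (by norm_num)
  have e11 : n = L ^ 11 := by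
    have := IncFin.rpn hn0 11 1 (by norm_num)
    rwa [Real.rpow_one] at this
  rw [e16] at hcard
  rw [e3, e22]
  have hx0 : (0 : ℝ) ≤ (X.card : ℝ) := Nat.cast_nonneg _
  obtain ⟨t1, ht1, ht1'⟩ := exists_nat_pow_near (one_le_pow₀ hL1 : (1 : ℝ) ≤ L ^ 8)
    (by norm_num : (1 : ℝ) < 2)
  obtain ⟨t2, ht2, ht2'⟩ := exists_nat_pow_near (one_le_pow₀ hL1 : (1 : ℝ) ≤ L ^ 9)
    (by norm_num : (1 : ℝ) < 2)
  obtain ⟨h, hinj⟩ := hi S
  obtain ⟨f, hf0, hfd, hfp⟩ := hP4 (Pt × Pt) X (fun y => v4 y.1 y.2) t1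
  obtain ⟨g, hg0, hgd, hgp⟩ := hP3 (Pt × Pt) X (fun y => v3 y.1 (hh h y.2)) t2
  set D1 : ℕ := ∑ j, (f j).totalDegree with hD1
  set D2 : ℕ := ∑ j, (g j).totalDegree with hD2
  have hD1' : (D1 : ℝ) ≤ K * L ^ 2 := by
    refine hfd.trans (mul_le_mul hK4 (IncFin.rp hL0 (by norm_num) ?_) (by positivity) hK0.le)
    exact ht1
  have hD2' : (D2 : ℝ) ≤ K * L ^ 3 := by
    refine hgd.trans (mul_le_mul hK3 (IncFin.rp hL0 (by norm_num) ?_) (by positivity) hK0.le)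
    exact ht2
  set F : MvPolynomial (Fin 4) ℝ := ∏ j, f j with hF
  set G : MvPolynomial (Fin 3) ℝ := ∏ j, g j with hG
  have hF0 : F ≠ 0 := Finset.prod_ne_zero_iff.2 fun j _ => hf0 j
  have hG0 : G ≠ 0 := Finset.prod_ne_zero_iff.2 fun j _ => hg0 j
  have hFd : F.totalDegree ≤ D1 := totalDegree_finsetProd _ _
  have hGd : G.totalDegree ≤ D2 := totalDegree_finsetProd _ _
  choose γ hγ0 hγd hγ using hab F hF0
  obtain ⟨c, hc0, hcd, hcI⟩ := hd S X h G hG0 (fun x hx => ⟨(hX x hx).1, (hX x hx).2.1⟩) hinj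
  have hA := ha X t1 f _ rfl hfp
  have hB := hb X F
  have hC := hc X t2 g h (4 * D1) γ _ rfl
    (fun x _ => ⟨hγ0 x, (hγd x).trans (Nat.mul_le_mul_left _ hFd)⟩) hgp
  have hP1pos : (0 : ℝ) < 2 ^ t1 := by positivity
  have hP2pos : (0 : ℝ) < 2 ^ t2 := by positivity
  have hA' := hA.trans (IncFin.realA hx0 hcard (Nat.cast_nonneg D1) hD1' hL1 hK1 hP1pos ht1
    (by rw [pow_succ (2 : ℝ) t1] at ht1'; linarith) (by rw [← hD1]))
  have hC' := hC.trans (IncFin.realC hx0 hcard (Nat.cast_nonneg D1) hD1' (Nat.cast_nonneg D2)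
    hD2' hL1 hK1 hP2pos ht2 (by rw [pow_succ (2 : ℝ) t2] at ht2'; linarith)
    (by rw [← hD2]; push_cast; ring))
  have hGd' : (G.totalDegree : ℝ) ≤ K * L ^ 3 := (Nat.cast_le.2 hGd).trans hD2'
  have hDr := IncFin.realD hx0 hcard (Nat.cast_nonneg G.totalDegree) hGd' hL1 hK1
  rw [← e11] at hDr
  have hD' := hcI.trans hDr
  have hB' : ((((X ×ˢ X).filter (fun z => NRel z.1 z.2 ∧ TypeB F z.1 z.2)).card : ℕ) : ℝ) ≤
      8 * K ^ 2 * L ^ 22 := by
    refine (Nat.cast_le.2 hB).trans ?_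
    push_cast
    have h5 : L ^ 16 ≤ K ^ 2 * L ^ 22 := by
      calc L ^ 16 ≤ 1 * L ^ 22 := by
            rw [one_mul]
            exact pow_le_pow_right₀ hL1 (by norm_num)
        _ ≤ K ^ 2 * L ^ 22 := mul_le_mul_of_nonneg_right (one_le_pow₀ hK1) (pow_nonneg hL0 _)
    linarith
  refine ⟨c, hc0, ?_, ?_⟩
  · refine (Nat.cast_le.2 hcd).trans (hGd'.trans ?_)
    refine mul_le_mul_of_nonneg_right ?_ (pow_nonneg hL0 _)
    nlinarith
  · have h4c := IncFin.card_four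
      ((X ×ˢ (X.filter (fun y => eval (v2 y.1) c ≠ 0))).filter (fun z => NRel z.1 z.2))
      ((X ×ˢ X).filter (fun z => NRel z.1 z.2 ∧ ∀ j, eval (v4 z.2.1 z.2.2) (f j) ≠ 0))
      ((X ×ˢ X).filter (fun z => NRel z.1 z.2 ∧ TypeB F z.1 z.2))
      ((X ×ˢ X).filter (fun z => NRel z.1 z.2 ∧ eval (v2 z.2.1) (γ z.1) = 0 ∧
        ∀ j, eval (v3 z.2.1 (hh h z.2.2)) (g j) ≠ 0))
      ((X ×ˢ X).filter (fun z => NRel z.1 z.2 ∧ eval (v2 z.2.1) c ≠ 0 ∧
        eval (v3 z.2.1 (hh h z.2.2)) G = 0)) (by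
        intro z hz
        rw [Finset.mem_filter, Finset.mem_product, Finset.mem_filter] at hz
        obtain ⟨⟨hz1, hz2, hzc⟩, hN⟩ := hz
        have hzp : z ∈ X ×ˢ X := Finset.mem_product.2 ⟨hz1, hz2⟩
        simp only [Finset.mem_filter]
        by_cases hf : ∀ j, eval (v4 z.2.1 z.2.2) (f j) ≠ 0
        · exact Or.inl ⟨hzp, hN, hf⟩
        · push Not at hf
          obtain ⟨j, hj⟩ := hf
          have hFz : eval (v4 z.2.1 z.2.2) F = 0 := by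
            rw [hF, map_prod]
            exact Finset.prod_eq_zero (Finset.mem_univ j) hj
          rcases hγ z.1 z.2 hN.1 hFz with h6 | h6
          · by_cases hgg : ∀ j, eval (v3 z.2.1 (hh h z.2.2)) (g j) ≠ 0
            · exact Or.inr (Or.inr (Or.inl ⟨hzp, hN, h6, hgg⟩))
            · push Not at hgg
              obtain ⟨i, hi'⟩ := hgg
              have hGz : eval (v3 z.2.1 (hh h z.2.2)) G = 0 := by
                rw [hG, map_prod]
                exact Finset.prod_eq_zero (Finset.mem_univ i) hi'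
              exact Or.inr (Or.inr (Or.inr ⟨hzp, hN, hzc, hGz⟩))
          · exact Or.inr (Or.inl ⟨hzp, hN, h6⟩))
    have h4c' := (Nat.cast_le (α := ℝ)).2 h4c
    push_cast at h4c'
    linarith

end Pool.Agent.Work.MP_916cc8_co
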