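import Pool.Agent.Work.MP_916cc8_co.Bd.B01

set_option autoImplicit false

/-! At most 4 surfaces through a point with a given tangent hyperplane (helper59) -/

namespace Pool.Agent.Work.MP_916cc8_co

namespace TAlg

/-- `z × v`, `z = q - q'`, `v = (q' - p') / 2` -/
noncomputable def TT (y x : Pt × Pt) : ℝ :=
  ((y.1.1 - y.2.1) * (y.2.2 - x.2.2) - (y.1.2 - y.2.2) * (y.2.1 - x.2.1)) / 2

/-- `z · v` -/
noncomputable def SS (y x : Pt × Pt) : ℝ :=
  ((y.1.1 - y.2.1) * (y.2.1 - x.2.1) + (y.1.2 - y.2.2) * (y.2.2 - x.2.2)) / 2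

/-- `β · v` -/
noncomputable def MM (β : Pt) (y x : Pt × Pt) : ℝ :=
  (β.1 * (y.2.1 - x.2.1) + β.2 * (y.2.2 - x.2.2)) / 2

/-- `|z|^2` -/
noncomputable def NN (y : Pt × Pt) : ℝ := (y.1.1 - y.2.1) ^ 2 + (y.1.2 - y.2.2) ^ 2

/-- component along `z` -/
noncomputable def c1 (y : Pt × Pt) (α : Pt) : ℝ :=
  α.1 * (y.1.1 - y.2.1) + α.2 * (y.1.2 - y.2.2)

/-- component along `J z` -/
noncomputable def c2 (y : Pt × Pt) (α : Pt) : ℝ :=
  -α.1 * (y.1.2 - y.2.2) + α.2 * (y.1.1 - y.2.1)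

theorem key {x y : Pt × Pt} {α β : Pt} (h : NRel x y) (ht : TanEq α β x y) :
    TT y x ≠ 0 ∧ (∃ b, b * (1 + TT y x) = 1 ∧ y.1.1 - x.1.1 = b * (y.2.1 - x.2.1) ∧
      y.1.2 - x.1.2 = b * (y.2.2 - x.2.2)) ∧
    c1 y α + (1 + TT y x) * c1 y β = 2 * TT y x ^ 2 * MM β y x ∧
    c2 y α + (1 + TT y x) * c2 y β +
      MM β y x * ((1 + TT y x) * NN y + 2 * TT y x * SS y x) = 0 := by
  obtain ⟨hR, hN⟩ := h
  obtain ⟨h1, h2, h3, h4⟩ := rel_iff.1 hR
  obtain ⟨⟨p1, p2⟩, ⟨r1, r2⟩⟩ := x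
  obtain ⟨⟨q1, q2⟩, ⟨s1, s2⟩⟩ := y
  obtain ⟨a1, a2⟩ := α
  obtain ⟨b1, b2⟩ := β
  have t1 := ht (q1 - s1, q2 - s2)
  have t2 := ht (-(q2 - s2), q1 - s1)
  simp only [TT, SS, MM, NN, c1, c2, cr, Prod.fst_sub, Prod.snd_sub] at hN h3 h4 t1 t2 ⊢
  clear h1 h2 hR ht
  set b := 1 + ((q1 - p1) * (p2 - r2) - (q2 - p2) * (p1 - r1)) / 2 with hb
  have e1 : q1 - p1 = b * (s1 - r1) := by rw [hb]; linarith
  have e2 : q2 - p2 = b * (s2 - r2) := by rw [hb]; linarith
  have hp1 : p1 = q1 - b * (s1 - r1) := by linarith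
  have hp2 : p2 = q2 - b * (s2 - r2) := by linarith
  clear_value b
  set T := ((q1 - s1) * (s2 - r2) - (q2 - s2) * (s1 - r1)) / 2 with hT
  have hbT : b * (1 + T) = 1 := by
    rw [hp1, hp2] at hb
    rw [hT]
    linear_combination hb
  have hN' : T ≠ 0 := by
    intro h0
    apply hN
    rw [hp1, hp2]
    have h5 : (q1 - (q1 - b * (s1 - r1))) * (r2 - (q2 - b * (s2 - r2))) -
        (q2 - (q2 - b * (s2 - r2))) * (r1 - (q1 - b * (s1 - r1))) = 2 * b * T := by
      rw [hT]; ring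
    rw [h5, h0, mul_zero]
  refine ⟨hN', ⟨b, hbT, e1, e2⟩, ?_, ?_⟩
  · rw [hp1, hp2] at t1
    linear_combination (1 + T) * t1 - (a1 * (q1 - s1) + a2 * (q2 - s2) +
      2 * ((b1 * (s1 - r1) + b2 * (s2 - r2)) / 2) * T) * hbT -
      (2 * ((b1 * (s1 - r1) + b2 * (s2 - r2)) / 2) * (1 - b) * (1 + T)) * hT
  · rw [hp1, hp2] at t2
    linear_combination (1 + T) * t2 - (-a1 * (q2 - s2) + a2 * (q1 - s1) -
      2 * ((b1 * (s1 - r1) + b2 * (s2 - r2)) / 2) *
        (((q1 - s1) * (s1 - r1) + (q2 - s2) * (s2 - r2)) / 2)) * hbT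

theorem NM_eq (β : Pt) (y x : Pt × Pt) :
    NN y * MM β y x = SS y x * c1 y β + TT y x * c2 y β := by
  simp only [NN, MM, SS, TT, c1, c2]
  ring

theorem NN_pos {y x : Pt × Pt} (h : TT y x ≠ 0) : 0 < NN y := by
  have h1 : 0 ≤ NN y := by unfold NN; positivity
  refine lt_of_le_of_ne h1 fun h0 => h ?_
  have h2 : (y.1.1 - y.2.1) ^ 2 + (y.1.2 - y.2.2) ^ 2 = 0 := h0.symm
  have h3 : y.1.1 - y.2.1 = 0 := by nlinarith [sq_nonneg (y.1.1 - y.2.1), sq_nonneg (y.1.2 - y.2.2)]
  have h4 : y.1.2 - y.2.2 = 0 := by nlinarith [sq_nonneg (y.1.1 - y.2.1), sq_nonneg (y.1.2 - y.2.2)]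
  simp [TT, h3, h4]

/-- `x` is determined by `T` and `S` -/
theorem inj {x x' y : Pt × Pt} {α β : Pt} (h : NRel x y) (ht : TanEq α β x y)
    (h' : NRel x' y) (ht' : TanEq α β x' y) (hT : TT y x = TT y x') (hS : SS y x = SS y x') :
    x = x' := by
  obtain ⟨k0, ⟨b, hb, k1, k2⟩, -, -⟩ := key h ht
  obtain ⟨-, ⟨b', hb', k1', k2'⟩, -, -⟩ := key h' ht'
  have hN := NN_pos k0
  have e1 : NN y * (x.2.1 - x'.2.1) = 0 := by
    simp only [NN, TT, SS] at hT hS ⊢
    linear_combination -2 * (y.1.1 - y.2.1) * hS + 2 * (y.1.2 - y.2.2) * hT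
  have e2 : NN y * (x.2.2 - x'.2.2) = 0 := by
    simp only [NN, TT, SS] at hT hS ⊢
    linear_combination -2 * (y.1.2 - y.2.2) * hS - 2 * (y.1.1 - y.2.1) * hT
  have f1 : x.2.1 = x'.2.1 := by
    have := (mul_eq_zero.1 e1).resolve_left hN.ne'
    linarith
  have f2 : x.2.2 = x'.2.2 := by
    have := (mul_eq_zero.1 e2).resolve_left hN.ne'
    linarith
  have hbb : b = b' := by
    have h1 : 1 + TT y x ≠ 0 := by
      intro h0
      rw [h0, mul_zero] at hb
      exact zero_ne_one hb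
    rw [← hT] at hb'
    exact mul_right_cancel₀ h1 (hb.trans hb'.symm)
  subst hbb
  rw [f1] at k1
  rw [f2] at k2
  refine Prod.ext (Prod.ext ?_ ?_) (Prod.ext f1 f2)
  · linarith
  · linarith

theorem cubic {x y : Pt × Pt} {α β : Pt} (h : NRel x y) (ht : TanEq α β x y) :
    (2 * c1 y β * (c2 y α + c2 y β) + NN y * c1 y β ^ 2 - 2 * c2 y β * (c1 y α + c1 y β)) *
        TT y x ^ 3 +
      (NN y * c1 y β * (c1 y α + c1 y β) + 2 * NN y * c1 y β ^ 2) * TT y x ^ 2 +
      3 * NN y * (c1 y α + c1 y β) * c1 y β * TT y x + NN y * (c1 y α + c1 y β) ^ 2 = 0 := by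
  obtain ⟨k0, -, E1, E2⟩ := key h ht
  have E3 := NM_eq β y x
  set T := TT y x
  set S := SS y x
  set m := MM β y x
  set N := NN y
  set A1 := c1 y α
  set A2 := c2 y α
  set B1 := c1 y β
  set B2 := c2 y β
  -- A := A1 + (1+T) B1 = 2 T^2 m
  linear_combination 2 * T ^ 3 * B1 * E2 + 4 * T ^ 4 * m * E3 +
    (T * (1 + T) * N * B1 + N * (A1 + (1 + T) * B1) + N * (2 * T ^ 2 * m) -
      2 * T ^ 3 * B2) * E1

theorem coeffs (a b c d : ℝ) :
    (Polynomial.C a * Polynomial.X ^ 3 + Polynomial.C b * Polynomial.X ^ 2 +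
      Polynomial.C c * Polynomial.X + Polynomial.C d).coeff 0 = d ∧
    (Polynomial.C a * Polynomial.X ^ 3 + Polynomial.C b * Polynomial.X ^ 2 +
      Polynomial.C c * Polynomial.X + Polynomial.C d).coeff 2 = b := by
  constructor <;> simp [Polynomial.coeff_X, Polynomial.coeff_C]

end TAlg

open TAlg in
theorem TanAlg_proof : TanAlg := by
  classical
  intro y α β hab X hX
  rcases X.eq_empty_or_nonempty with rfl | ⟨x0, hx0⟩
  · simp
  have hN : 0 < NN y := NN_pos (key (hX x0 hx0).1 (hX x0 hx0).2).1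
  by_cases hB : c1 y β = 0
  · -- one point
    have hB2 : c2 y β ≠ 0 := by
      intro h0
      obtain ⟨k0, -, E1, E2⟩ := key (hX x0 hx0).1 (hX x0 hx0).2
      have E3 := NM_eq β y x0
      rw [hB, h0, mul_zero, mul_zero, add_zero] at E3
      have hm := (mul_eq_zero.1 E3).resolve_left hN.ne'
      rw [hB, hm, mul_zero, mul_zero, add_zero] at E1
      rw [h0, hm, mul_zero, zero_mul, add_zero, add_zero] at E2
      have hz : ∀ γ : Pt, c1 y γ = 0 → c2 y γ = 0 → γ = 0 := by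
        intro γ g1 g2
        have f1 : NN y * γ.1 = 0 := by
          simp only [c1, c2, NN] at g1 g2 ⊢
          linear_combination (y.1.1 - y.2.1) * g1 - (y.1.2 - y.2.2) * g2
        have f2 : NN y * γ.2 = 0 := by
          simp only [c1, c2, NN] at g1 g2 ⊢
          linear_combination (y.1.2 - y.2.2) * g1 + (y.1.1 - y.2.1) * g2
        exact Prod.ext ((mul_eq_zero.1 f1).resolve_left hN.ne')
          ((mul_eq_zero.1 f2).resolve_left hN.ne')
      rcases hab with h | h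
      · exact h (hz α E1 E2)
      · exact h (hz β hB h0)
    have hone : X.card ≤ 1 := by
      rw [Finset.card_le_one]
      intro x hx x' hx'
      obtain ⟨k0, -, E1, E2⟩ := key (hX x hx).1 (hX x hx).2
      obtain ⟨k0', -, E1', E2'⟩ := key (hX x' hx').1 (hX x' hx').2
      have E3 := NM_eq β y x
      have E3' := NM_eq β y x'
      rw [hB, mul_zero, zero_add] at E3 E3'
      rw [hB, mul_zero, add_zero] at E1 E1'
      have hc : TT y x ^ 3 = TT y x' ^ 3 := by
        have h1 : c2 y β * TT y x ^ 3 = c2 y β * TT y x' ^ 3 := by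
          linear_combination (NN y / 2) * (E1' - E1) - TT y x ^ 2 * E3 + TT y x' ^ 2 * E3'
        exact mul_left_cancel₀ hB2 h1
      have hT : TT y x = TT y x' := (Odd.strictMono_pow (by decide : Odd 3)).injective hc
      have hm : MM β y x = MM β y x' := by
        rw [hT] at E3
        exact mul_left_cancel₀ hN.ne' (E3.trans E3'.symm)
      have hm0 : MM β y x ≠ 0 := by
        intro h0
        rw [h0, mul_zero] at E3
        exact mul_ne_zero k0 hB2 E3.symm
      refine inj (hX x hx).1 (hX x hx).2 (hX x' hx').1 (hX x' hx').2 hT ?_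
      rw [← hT, ← hm] at E2'
      have h2 : (2 * MM β y x * TT y x) * SS y x = (2 * MM β y x * TT y x) * SS y x' := by
        linear_combination E2 - E2'
      exact mul_left_cancel₀ (mul_ne_zero (mul_ne_zero two_ne_zero hm0) k0) h2
    omega
  · -- at most 3 points
    set P : Polynomial ℝ :=
      Polynomial.C (2 * c1 y β * (c2 y α + c2 y β) + NN y * c1 y β ^ 2 -
          2 * c2 y β * (c1 y α + c1 y β)) * Polynomial.X ^ 3 +
        Polynomial.C (NN y * c1 y β * (c1 y α + c1 y β) + 2 * NN y * c1 y β ^ 2) *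
          Polynomial.X ^ 2 +
        Polynomial.C (3 * NN y * (c1 y α + c1 y β) * c1 y β) * Polynomial.X +
        Polynomial.C (NN y * (c1 y α + c1 y β) ^ 2) with hP
    have hdeg : P.natDegree ≤ 3 := Polynomial.natDegree_cubic_le
    have hP0 : P ≠ 0 := by
      intro h0
      have g0 : P.coeff 0 = 0 := by rw [h0]; simp
      have g2 : P.coeff 2 = 0 := by rw [h0]; simp
      have c0 : P.coeff 0 = NN y * (c1 y α + c1 y β) ^ 2 := by
        rw [hP]; exact (coeffs _ _ _ _).1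
      have c2' : P.coeff 2 = NN y * c1 y β * (c1 y α + c1 y β) + 2 * NN y * c1 y β ^ 2 := by
        rw [hP]; exact (coeffs _ _ _ _).2
      rw [c0] at g0
      have ha : c1 y α + c1 y β = 0 := by
        have := (mul_eq_zero.1 g0).resolve_left hN.ne'
        exact pow_eq_zero_iff (two_ne_zero) |>.1 this
      rw [c2', ha, mul_zero, zero_add] at g2
      have : 2 * NN y * c1 y β ^ 2 ≠ 0 :=
        mul_ne_zero (mul_ne_zero two_ne_zero hN.ne') (pow_ne_zero 2 hB)
      exact this g2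
    have hinj : Set.InjOn (fun x => TT y x) (X : Set (Pt × Pt)) := by
      intro x hx x' hx' hT
      obtain ⟨k0, -, E1, E2⟩ := key (hX x hx).1 (hX x hx).2
      obtain ⟨k0', -, E1', E2'⟩ := key (hX x' hx').1 (hX x' hx').2
      have E3 := NM_eq β y x
      have E3' := NM_eq β y x'
      have hT' : TT y x = TT y x' := hT
      rw [← hT'] at E1' E3'
      have hm : MM β y x = MM β y x' := by
        have h2 : 2 * TT y x ^ 2 ≠ 0 := mul_ne_zero two_ne_zero (pow_ne_zero 2 k0)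
        exact mul_left_cancel₀ h2 (E1.symm.trans E1')
      refine inj (hX x hx).1 (hX x hx).2 (hX x' hx').1 (hX x' hx').2 hT' ?_
      rw [← hm] at E3'
      have h3 : SS y x * c1 y β = SS y x' * c1 y β := by linear_combination E3' - E3
      exact mul_right_cancel₀ hB h3
    have hcard : (X.image fun x => TT y x).card = X.card := Finset.card_image_of_injOn hinj
    have hsub : (X.image fun x => TT y x) ⊆ P.roots.toFinset := by
      intro t ht
      obtain ⟨x, hx, rfl⟩ := Finset.mem_image.mp ht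
      rw [Multiset.mem_toFinset, Polynomial.mem_roots hP0, Polynomial.IsRoot.def, hP]
      have := cubic (hX x hx).1 (hX x hx).2
      simp only [Polynomial.eval_add, Polynomial.eval_mul, Polynomial.eval_C,
        Polynomial.eval_pow, Polynomial.eval_X]
      exact this
    have h1 := Finset.card_le_card hsub
    have h2 := Multiset.toFinset_card_le P.roots
    have h3 := Polynomial.card_roots' P
    omega

end Pool.Agent.Work.MP_916cc8_co
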