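import Pool.Agent.Work.MP_916cc8_co.Bd.B01

/-! Derivative along the surface. -/

set_option autoImplicit false

namespace Pool.Agent.Work.MP_916cc8_co

open MvPolynomial

/-- derivative of a polynomial along a curve -/
theorem hasDerivAt_eval_curve {n : ℕ} (K : MvPolynomial (Fin n) ℝ) (u : ℝ → Fin n → ℝ)
    (u' : Fin n → ℝ) (t₀ : ℝ) (hu : ∀ i, HasDerivAt (fun t => u t i) (u' i) t₀) :
    HasDerivAt (fun t => eval (u t) K) (∑ i, u' i * eval (u t₀) (pderiv i K)) t₀ := by
  induction K using MvPolynomial.induction_on with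
  | C a => simpa using hasDerivAt_const t₀ a
  | add p q hp hq =>
    have h := hp.add hq
    have h1 : (fun t => eval (u t) (p + q)) =
        (fun t => eval (u t) p) + (fun t => eval (u t) q) := by
      ext t; simp
    rw [h1]
    refine h.congr_deriv ?_
    rw [← Finset.sum_add_distrib]
    apply Finset.sum_congr rfl
    intro i _
    simp only [map_add]
    ring
  | mul_X p j hp =>
    have h := hp.mul (hu j)
    have h1 : (fun t => eval (u t) (p * X j)) =
        (fun t => eval (u t) p) * (fun t => u t j) := by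
      ext t; simp
    rw [h1]
    refine h.congr_deriv ?_
    have h2 : ∀ i, u' i * eval (u t₀) (pderiv i (p * X j)) =
        u' i * eval (u t₀) (pderiv i p) * u t₀ j +
          (if i = j then eval (u t₀) p * u' j else 0) := by
      intro i
      rw [Derivation.leibniz]
      by_cases hij : i = j
      · subst hij
        simp only [pderiv_X_self, smul_eq_mul, map_add, map_mul, eval_X, if_true, map_one]
        ring
      · rw [pderiv_X_of_ne (Ne.symm hij)]
        simp only [smul_eq_mul, map_add, map_mul, eval_X, if_neg hij, map_zero]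
        ring
    rw [Finset.sum_congr rfl (fun i _ => h2 i), Finset.sum_add_distrib, ← Finset.sum_mul]
    simp

theorem TanDer_proof : TanDer := by
  intro K x y hxy hK δ
  obtain ⟨p, p'⟩ := x
  obtain ⟨q, q'⟩ := y
  have hs := rel_den hxy
  have hne := hxy.1
  have e1 := rel_fst hxy
  have e2 := rel_snd hxy
  simp only at hs hne e1 e2
  set s₀ := 2 + cr (q - p) (p - p') with hs0
  set d := cr δ (p - p') with hd
  -- the curve
  let qt : ℝ → Pt := fun t => (q.1 + t * δ.1, q.2 + t * δ.2)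
  let st : ℝ → ℝ := fun t => s₀ + t * d
  have hst : ∀ t, 2 + cr (qt t - p) (p - p') = st t := by
    intro t
    simp only [qt, st, hs0, hd, cr, Prod.fst_sub, Prod.snd_sub]
    ring
  let u : ℝ → Fin 4 → ℝ := fun t =>
    v4 (qt t) (p'.1 + 2 * ((qt t).1 - p.1) / st t, p'.2 + 2 * ((qt t).2 - p.2) / st t)
  let u' : Fin 4 → ℝ := ![δ.1, δ.2,
    (2 * δ.1 * s₀ - 2 * (q.1 - p.1) * d) / s₀ ^ 2, (2 * δ.2 * s₀ - 2 * (q.2 - p.2) * d) / s₀ ^ 2]
  have hlin : ∀ a b : ℝ, HasDerivAt (fun t : ℝ => a + t * b) b 0 := by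
    intro a b
    have := ((hasDerivAt_id (0 : ℝ)).mul_const b).const_add a
    simpa using this
  have hst' : HasDerivAt st d 0 := hlin s₀ d
  have hst0 : st 0 = s₀ := by simp [st]
  have hcomp : ∀ a b c e : ℝ, HasDerivAt (fun t : ℝ => c + 2 * ((a + t * b) - e) / st t)
      ((2 * b * s₀ - 2 * (a - e) * d) / s₀ ^ 2) 0 := by
    intro a b c e
    have h1 : HasDerivAt (fun t : ℝ => 2 * ((a + t * b) - e)) (2 * b) 0 :=
      ((hlin a b).sub_const e).const_mul 2
    have h2 := (h1.div hst' (by rw [hst0]; exact hs)).const_add c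
    refine h2.congr_deriv ?_
    rw [hst0]
    simp
  have hu : ∀ i, HasDerivAt (fun t => u t i) (u' i) 0 := by
    intro i
    fin_cases i
    · exact hlin q.1 δ.1
    · exact hlin q.2 δ.2
    · exact hcomp q.1 δ.1 p'.1 p.1
    · exact hcomp q.2 δ.2 p'.2 p.2
  have hder := hasDerivAt_eval_curve K u u' 0 hu
  -- the polynomial vanishes along the curve, near `0`
  have hzero : ∀ᶠ t in nhds (0 : ℝ), eval (u t) K = 0 := by
    have hc1 : ∀ᶠ t in nhds (0 : ℝ), st t ≠ 0 :=
      hst'.continuousAt.eventually_ne (by rw [hst0]; exact hs)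
    have hq0 : qt 0 = q := by simp [qt]
    have hqc : Continuous qt := by
      simp only [qt]
      fun_prop
    have hc2 : ∀ᶠ t in nhds (0 : ℝ), qt t ≠ p :=
      hqc.continuousAt.eventually_ne (by rw [hq0]; exact hne.symm)
    filter_upwards [hc1, hc2] with t h1 h2
    have h3 := rel_mk (x := (p, p')) (q := qt t) (fun h => h2 h.symm) (by
      simp only
      rw [hst]; exact h1)
    have h4 := hK _ h3
    simp only at h4
    rw [hst] at h4
    exact h4
  have hder0 : HasDerivAt (fun t => eval (u t) K) 0 0 := by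
    have h1 : (fun t => eval (u t) K) =ᶠ[nhds 0] fun _ => (0 : ℝ) := hzero
    exact (hasDerivAt_const (0 : ℝ) (0 : ℝ)).congr_of_eventuallyEq h1
  have hfin := hder.unique hder0
  have hu0 : u 0 = v4 q q' := by
    have h1 : qt 0 = q := by simp [qt]
    simp only [u, h1, hst0]
    congr 1
    ext
    · exact e1.symm
    · exact e2.symm
  rw [hu0, Fin.sum_univ_four] at hfin
  simp only [u', Matrix.cons_val_zero, Matrix.cons_val_one, Matrix.cons_val] at hfin
  simp only [TanEq]
  set α1 := eval (v4 q q') (pderiv 0 K)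
  set α2 := eval (v4 q q') (pderiv 1 K)
  set β1 := eval (v4 q q') (pderiv 2 K)
  set β2 := eval (v4 q q') (pderiv 3 K)
  have e3 : q'.1 - p'.1 = 2 * (q.1 - p.1) / s₀ := by rw [e1]; ring
  have e4 : q'.2 - p'.2 = 2 * (q.2 - p.2) / s₀ := by rw [e2]; ring
  have e5 : 1 + cr (q - p) (p - p') / 2 = s₀ / 2 := by rw [hs0]; ring
  rw [e3, e4, e5]
  have e6 : s₀ / 2 * (α1 * δ.1 + α2 * δ.2) + (β1 * δ.1 + β2 * δ.2) -
      (β1 * (2 * (q.1 - p.1) / s₀) + β2 * (2 * (q.2 - p.2) / s₀)) * d / 2 =
      s₀ / 2 * (δ.1 * α1 + δ.2 * α2 + (2 * δ.1 * s₀ - 2 * (q.1 - p.1) * d) / s₀ ^ 2 * β1 +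
        (2 * δ.2 * s₀ - 2 * (q.2 - p.2) * d) / s₀ ^ 2 * β2) := by
    field_simp
    ring
  rw [e6, hfin, mul_zero]

end Pool.Agent.Work.MP_916cc8_co
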