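import Pool.Agent.Work.MP_916cc8_co.Bd.B01

set_option autoImplicit false

/-! The derivative trick: curve or type B (helper59) -/

namespace Pool.Agent.Work.MP_916cc8_co

open MvPolynomial

namespace TAB

theorem pd_deg (i : Fin 4) (F : MvPolynomial (Fin 4) ℝ) (h : pderiv i F ≠ 0) :
    (pderiv i F).totalDegree < F.totalDegree := by
  obtain ⟨m, hm, hd⟩ : ∃ m ∈ (pderiv i F).support,
      (pderiv i F).totalDegree = m.sum fun _ e => e := by
    have h1 : (pderiv i F).support.Nonempty := support_nonempty.mpr h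
    exact Finset.exists_mem_eq_sup _ h1 (fun m => m.sum fun _ e => e)
  have h2 : m + Finsupp.single i 1 ∈ F.support := by
    rw [mem_support_iff] at hm ⊢
    rw [coeff_pderiv] at hm
    exact left_ne_zero_of_mul hm
  have h3 := le_totalDegree h2
  rw [Finsupp.sum_add_index' (fun _ => rfl) (fun _ _ _ => rfl), Finsupp.sum_single_index rfl] at h3
  omega

theorem pd_deg_le (i : Fin 4) (F : MvPolynomial (Fin 4) ℝ) :
    (pderiv i F).totalDegree ≤ F.totalDegree := by
  by_cases h : pderiv i F = 0
  · rw [h, totalDegree_zero]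
    exact Nat.zero_le _
  · exact (pd_deg i F h).le

theorem der_deg (l : List (Fin 4)) (F : MvPolynomial (Fin 4) ℝ) :
    (der l F).totalDegree ≤ F.totalDegree := by
  induction l with
  | nil => exact le_rfl
  | cons i l ih => exact (pd_deg_le i (der l F)).trans ih

theorem der_append (l : List (Fin 4)) (i : Fin 4) (F : MvPolynomial (Fin 4) ℝ) :
    der (l ++ [i]) F = der l (pderiv i F) := by
  simp [der, List.foldr_append]

theorem exists_der : ∀ (k : ℕ) (F : MvPolynomial (Fin 4) ℝ), F.totalDegree ≤ k → F ≠ 0 →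
    ∃ (l : List (Fin 4)) (c : ℝ), c ≠ 0 ∧ der l F = C c := by
  intro k
  induction k with
  | zero =>
    intro F hk hF
    have h1 : F = C (coeff 0 F) := by
      rw [← totalDegree_eq_zero_iff_eq_C]
      omega
    refine ⟨[], coeff 0 F, ?_, h1⟩
    intro h2
    rw [h2, C_0] at h1
    exact hF h1
  | succ k ih =>
    intro F hk hF
    by_cases h0 : F.totalDegree = 0
    · exact ih F (by omega) hF
    · obtain ⟨m, hm, hd⟩ : ∃ m ∈ F.support, F.totalDegree = m.sum fun _ e => e := by
        have h1 : F.support.Nonempty := support_nonempty.mpr hF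
        exact Finset.exists_mem_eq_sup _ h1 (fun m => m.sum fun _ e => e)
      obtain ⟨i, hi⟩ : ∃ i, m i ≠ 0 := by
        by_contra hc
        push Not at hc
        have h2 : m = 0 := by
          ext i
          exact hc i
        rw [h2, Finsupp.sum_zero_index] at hd
        exact h0 hd
      have h3 : m - Finsupp.single i 1 + Finsupp.single i 1 = m := by
        ext j
        by_cases hj : i = j
        · subst hj
          simp
          omega
        · simp [Finsupp.single_apply, hj]
      have h4 : coeff (m - Finsupp.single i 1) (pderiv i F) ≠ 0 := by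
        rw [coeff_pderiv, h3]
        refine mul_ne_zero (mem_support_iff.mp hm) ?_
        positivity
      have h5 : pderiv i F ≠ 0 := by
        intro h6
        rw [h6, coeff_zero] at h4
        exact h4 rfl
      obtain ⟨l, c, hc, hl⟩ := ih (pderiv i F) (by have := pd_deg i F h5; omega) h5
      exact ⟨l ++ [i], c, hc, by rw [der_append, hl]⟩

/-- every point has a related point -/
theorem exists_rel (x : Pt × Pt) : ∃ z, Rel x z := by
  have key : ∃ v : Pt, v ≠ 0 ∧ 2 + cr v (x.1 - x.2) ≠ 0 := by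
    by_cases h : 2 + cr (1, 0) (x.1 - x.2) = 0
    · refine ⟨(-1, 0), ?_, ?_⟩
      · intro h1
        have := congrArg Prod.fst h1
        norm_num at this
      · simp only [cr] at h ⊢
        intro h1
        linarith
    · refine ⟨(1, 0), ?_, h⟩
      intro h1
      have := congrArg Prod.fst h1
      norm_num at this
  obtain ⟨v, hv, hd⟩ := key
  have h1 : x.1 ≠ x.1 + v := by
    intro h2
    apply hv
    have : x.1 + 0 = x.1 + v := by rw [add_zero]; exact h2
    exact (add_left_cancel this).symm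
  have h2 : 2 + cr (x.1 + v - x.1) (x.1 - x.2) ≠ 0 := by
    rw [add_sub_cancel_left]
    exact hd
  exact ⟨_, rel_mk h1 h2⟩

/-- denominator of the rational map -/
noncomputable def den (x : Pt × Pt) : MvPolynomial (Fin 2) ℝ :=
  C 2 + ((X 0 - C x.1.1) * C (x.1.2 - x.2.2) - (X 1 - C x.1.2) * C (x.1.1 - x.2.1))

/-- numerators -/
noncomputable def num (x : Pt × Pt) : Fin 4 → MvPolynomial (Fin 2) ℝ :=
  ![X 0 * den x, X 1 * den x, C x.2.1 * den x + C 2 * (X 0 - C x.1.1),
    C x.2.2 * den x + C 2 * (X 1 - C x.1.2)]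

theorem eval_den (x : Pt × Pt) (q : Pt) :
    eval (v2 q) (den x) = 2 + cr (q - x.1) (x.1 - x.2) := by
  simp [den, v2, cr]

theorem deg_den (x : Pt × Pt) : (den x).totalDegree ≤ 1 := by
  unfold den
  have hC : ∀ c : ℝ, (C c : MvPolynomial (Fin 2) ℝ).totalDegree = 0 := totalDegree_C
  have hX : ∀ (i : Fin 2) (c : ℝ), (X i - C c : MvPolynomial (Fin 2) ℝ).totalDegree ≤ 1 := by
    intro i c
    refine (totalDegree_sub _ _).trans ?_
    rw [hC, totalDegree_X]
    simp
  refine (totalDegree_add _ _).trans (max_le (by rw [hC]; simp) ?_)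
  refine (totalDegree_sub _ _).trans (max_le ?_ ?_)
  · refine (totalDegree_mul _ _).trans ?_
    rw [hC]
    exact hX _ _
  · refine (totalDegree_mul _ _).trans ?_
    rw [hC]
    exact hX _ _

theorem deg_num (x : Pt × Pt) (i : Fin 4) : (num x i).totalDegree ≤ 2 := by
  have hC : ∀ c : ℝ, (C c : MvPolynomial (Fin 2) ℝ).totalDegree = 0 := totalDegree_C
  have hX : ∀ (i : Fin 2) (c : ℝ), (X i - C c : MvPolynomial (Fin 2) ℝ).totalDegree ≤ 1 := by
    intro i c
    refine (totalDegree_sub _ _).trans ?_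
    rw [hC, totalDegree_X]
    simp
  have hd := deg_den x
  have h1 : ∀ j : Fin 2, (X j * den x : MvPolynomial (Fin 2) ℝ).totalDegree ≤ 2 := by
    intro j
    refine (totalDegree_mul _ _).trans ?_
    rw [totalDegree_X]
    omega
  have h2 : ∀ (j : Fin 2) (b c : ℝ),
      (C b * den x + C 2 * (X j - C c) : MvPolynomial (Fin 2) ℝ).totalDegree ≤ 2 := by
    intro j b c
    refine (totalDegree_add _ _).trans (max_le ?_ ?_)
    · refine (totalDegree_mul _ _).trans ?_
      rw [hC]
      omega
    · refine (totalDegree_mul _ _).trans ?_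
      rw [hC]
      have := hX j c
      omega
  fin_cases i
  · exact h1 0
  · exact h1 1
  · exact h2 0 _ _
  · exact h2 1 _ _

theorem eval_num {x y : Pt × Pt} (h : Rel x y) :
    (fun i => eval (v2 y.1) (num x i) / eval (v2 y.1) (den x)) = v4 y.1 y.2 := by
  have h0 := rel_den h
  have e1 := rel_fst h
  have e2 := rel_snd h
  rw [← eval_den x y.1] at h0 e1 e2
  set D := eval (v2 y.1) (den x) with hD
  funext i
  fin_cases i
  · show eval (v2 y.1) (X 0 * den x) / D = y.1.1
    rw [eval_mul, eval_X, ← hD]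
    show y.1.1 * D / D = y.1.1
    field_simp
  · show eval (v2 y.1) (X 1 * den x) / D = y.1.2
    rw [eval_mul, eval_X, ← hD]
    show y.1.2 * D / D = y.1.2
    field_simp
  · show eval (v2 y.1) (C x.2.1 * den x + C 2 * (X 0 - C x.1.1)) / D = y.2.1
    rw [eval_add, eval_mul, eval_mul, eval_C, eval_C, eval_sub, eval_X, eval_C, ← hD, e1]
    show (x.2.1 * D + 2 * (y.1.1 - x.1.1)) / D = _
    field_simp
  · show eval (v2 y.1) (C x.2.2 * den x + C 2 * (X 1 - C x.1.2)) / D = y.2.2
    rw [eval_add, eval_mul, eval_mul, eval_C, eval_C, eval_sub, eval_X, eval_C, ← hD, e2]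
    show (x.2.2 * D + 2 * (y.1.2 - x.1.2)) / D = _
    field_simp

end TAB

open TAB in
theorem TypeAB_proof (hc : Clr) : TypeAB := by
  classical
  intro F hF x
  have hex : ∃ k, ∃ l : List (Fin 4), l.length = k ∧ ∃ z, Rel x z ∧
      eval (v4 z.1 z.2) (der l F) ≠ 0 := by
    obtain ⟨l, c, hc0, hl⟩ := exists_der _ F le_rfl hF
    obtain ⟨z, hz⟩ := exists_rel x
    refine ⟨l.length, l, rfl, z, hz, ?_⟩
    rw [hl, eval_C]
    exact hc0
  obtain ⟨l, hl, z₀, hz₀, hne⟩ := Nat.find_spec hex
  have hmin : ∀ l' : List (Fin 4), l'.length < l.length → ∀ z : Pt × Pt, Rel x z →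
      eval (v4 z.1 z.2) (der l' F) = 0 := by
    intro l' hl' z hz
    by_contra hcon
    rw [hl] at hl'
    exact Nat.find_min hex hl' ⟨l', rfl, z, hz, hcon⟩
  obtain ⟨g, hg, hev⟩ := hc 2 4 (der l F) (num x) (den x) 2 F.totalDegree (deg_num x)
    ((deg_den x).trans (by norm_num)) (der_deg l F)
  have hval : ∀ y, Rel x y → eval (v2 y.1) g =
      (eval (v2 y.1) (den x)) ^ F.totalDegree * eval (v4 y.1 y.2) (der l F) := by
    intro y hy
    have h1 : eval (v2 y.1) (den x) ≠ 0 := by
      rw [eval_den]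
      exact rel_den hy
    rw [hev _ h1, eval_num hy]
  refine ⟨g, ?_, hg.trans (by omega), ?_⟩
  · intro h0
    have h1 := hval z₀ hz₀
    rw [h0, map_zero] at h1
    have h2 : eval (v2 z₀.1) (den x) ≠ 0 := by
      rw [eval_den]
      exact rel_den hz₀
    exact mul_ne_zero (pow_ne_zero _ h2) hne h1.symm
  · intro y hy hFy
    by_cases h0 : eval (v2 y.1) g = 0
    · exact Or.inl h0
    · right
      have h1 : eval (v4 y.1 y.2) (der l F) ≠ 0 := by
        intro h2
        rw [hval y hy, h2, mul_zero] at h0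
        exact h0 rfl
      refine ⟨l, ?_, h1, hmin⟩
      rintro rfl
      exact h1 hFy

end Pool.Agent.Work.MP_916cc8_co
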