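import Pool.Agent.Work.MP_916cc8_co.Bd.B01

/-!
Item TypeB4: at most 4 surfaces of type B through a point.
-/

set_option autoImplicit false

namespace Pool.Agent.Work.MP_916cc8_co

open MvPolynomial

theorem TypeB4_proof (ht : TanDer) (ha : TanAlg) : TypeB4 := by
  intro F y X hX
  rcases X.eq_empty_or_nonempty with rfl | ⟨x0, hx0⟩
  · simp
  obtain ⟨hn0, l0, hl0, he0, hv0⟩ := hX x0 hx0
  obtain ⟨i, l', rfl⟩ : ∃ i l', l0 = i :: l' := by
    cases l0 with
    | nil => exact absurd rfl hl0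
    | cons i l' => exact ⟨i, l', rfl⟩
  set K := der l' F with hK
  have hder : der (i :: l') F = pderiv i K := rfl
  rw [hder] at he0
  have hT : ∀ x ∈ X, NRel x y ∧ TanEq
      (eval (v4 y.1 y.2) (pderiv 0 K), eval (v4 y.1 y.2) (pderiv 1 K))
      (eval (v4 y.1 y.2) (pderiv 2 K), eval (v4 y.1 y.2) (pderiv 3 K)) x y := by
    intro x hx
    obtain ⟨hn, l, hl, he, hv⟩ := hX x hx
    refine ⟨hn, ht K x y hn.1 fun z hz => ?_⟩
    have h1 : ¬ (i :: l').length < l.length := fun h => he0 (hv (i :: l') h y hn.1)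
    have h2 : ¬ l.length < (i :: l').length := fun h => he (hv0 l h y hn0.1)
    refine hv l' ?_ z hz
    rw [List.length_cons] at h1 h2
    omega
  refine ha y _ _ ?_ X hT
  by_contra hc
  push Not at hc
  obtain ⟨h1, h2⟩ := hc
  apply he0
  fin_cases i
  · exact congrArg Prod.fst h1
  · exact congrArg Prod.snd h1
  · exact congrArg Prod.fst h2
  · exact congrArg Prod.snd h2

end Pool.Agent.Work.MP_916cc8_co
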