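import Pool.Agent.Work.MP_916cc8_co.VisAux

/-!
Item Vis3: class visits of a curve in `ℝ^3`.
-/

set_option autoImplicit false

namespace Pool.Agent.Work.MP_916cc8_co

open MvPolynomial

theorem Vis3_proof (hw : CW) (hc : Clr) : Vis3 := by
  classical
  intro t f h x g Z hg hZ hcl
  set N : Fin 3 → MvPolynomial (Fin 2) ℝ :=
    ![X 0 * Vis.dn x, X 1 * Vis.dn x, C (hh h x.2) * Vis.dn x +
      (C 2 * (X 0 - C x.1.1) + C (2 * h) * (X 1 - C x.1.2))] with hN
  have hdeg : ∀ i, (N i).totalDegree ≤ 2 := by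
    intro i
    fin_cases i
    · exact Vis.deg_Xdn 0 x
    · exact Vis.deg_Xdn 1 x
    · refine (totalDegree_add _ _).trans (max_le ?_ ?_)
      · exact (Vis.deg_Cdn _ x).trans (by norm_num)
      · refine (totalDegree_add _ _).trans (max_le ?_ ?_)
        · exact (Vis.deg_Clin _ _ _).trans (by norm_num)
        · exact (Vis.deg_Clin _ _ _).trans (by norm_num)
  have hu : ∀ z, Rel x z → ∀ i, eval (v2 z.1) (N i) / eval (v2 z.1) (Vis.dn x) =
      v3 z.1 (hh h z.2) i := by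
    intro z hz i
    have hd := rel_den hz
    have e1 := rel_fst hz
    have e2 := rel_snd hz
    fin_cases i
    · show eval (v2 z.1) (X 0 * Vis.dn x) / eval (v2 z.1) (Vis.dn x) = z.1.1
      rw [map_mul, Vis.eval_dn, mul_div_assoc, div_self hd, mul_one, eval_X]
      rfl
    · show eval (v2 z.1) (X 1 * Vis.dn x) / eval (v2 z.1) (Vis.dn x) = z.1.2
      rw [map_mul, Vis.eval_dn, mul_div_assoc, div_self hd, mul_one, eval_X]
      rfl
    · show eval (v2 z.1) (C (hh h x.2) * Vis.dn x +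
        (C 2 * (X 0 - C x.1.1) + C (2 * h) * (X 1 - C x.1.2))) /
        eval (v2 z.1) (Vis.dn x) = hh h z.2
      rw [map_add, map_add, map_mul, map_mul, map_mul, map_sub, map_sub, Vis.eval_dn, eval_X,
        eval_X, eval_C, eval_C, eval_C, eval_C, eval_C]
      unfold hh
      rw [e1, e2]
      show ((x.2.1 + h * x.2.2) * (2 + cr (z.1 - x.1) (x.1 - x.2)) +
        (2 * (z.1.1 - x.1.1) + 2 * h * (z.1.2 - x.1.2))) /
          (2 + cr (z.1 - x.1) (x.1 - x.2)) = _
      field_simp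
      ring
  choose Q hQd hQ using fun j => Vis.pull hc x N (fun z => v3 z.1 (hh h z.2)) hdeg hu (f j)
  have hinj : Set.InjOn (fun z : Pt × Pt => v2 z.1) (Z : Set (Pt × Pt)) := by
    intro z hz w hw' h
    exact rel_unique (hZ z hz).1 (hZ w hw').1 (Vis.v2_inj h)
  have h1 := hw g t Q (Z.image (fun z : Pt × Pt => v2 z.1)) hg (by
    intro v hv
    obtain ⟨z, hz, rfl⟩ := Finset.mem_image.1 hv
    refine ⟨(hZ z hz).2.1, fun j => ?_⟩
    obtain ⟨c, hc', h2⟩ := hQ j z (hZ z hz).1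
    rw [h2]
    exact mul_ne_zero hc'.ne' ((hZ z hz).2.2 j)) (by
    intro v hv v' hv' hs
    obtain ⟨z, hz, rfl⟩ := Finset.mem_image.1 hv
    obtain ⟨w, hw', rfl⟩ := Finset.mem_image.1 hv'
    rw [hcl z hz w hw' (Vis.sameCl_pull (u := fun z => v3 z.1 (hh h z.2)) hQ (hZ z hz).1
      (hZ w hw').1 hs)])
  rw [Finset.card_image_of_injOn hinj] at h1
  refine h1.trans (Nat.mul_le_mul_left _ ?_)
  have h2 : ∑ j, (Q j).totalDegree ≤ 4 * ∑ j, (f j).totalDegree := by
    rw [Finset.mul_sum]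
    exact Finset.sum_le_sum fun j _ => hQd j
  omega

end Pool.Agent.Work.MP_916cc8_co
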