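import Pool.Agent.Work.MP_916cc8_co.Stmts

/-!
# ZeroR3: zeros in the last variable
-/

set_option autoImplicit false

namespace Pool.Agent.Work.MP_916cc8_co

open MvPolynomial

namespace ZeroR3aux

/-- the cyclic shift of the three variables -/
def sg : Fin 3 ≃ Fin 3 where
  toFun := ![1, 2, 0]
  invFun := ![2, 0, 1]
  left_inv := by decide
  right_inv := by decide

theorem eval_sg (G : MvPolynomial (Fin 3) ℝ) (p : Pt) (t : ℝ) :
    eval (v3 p t) G = Polynomial.eval t (Polynomial.map (eval (v2 p))
      (finSuccEquiv ℝ 2 (rename sg G))) := by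
  rw [← MvPolynomial.eval_eq_eval_mv_eval', eval_rename]
  congr 2
  funext i
  fin_cases i <;> simp [v3, v2, sg] <;> rfl

end ZeroR3aux

open ZeroR3aux in
theorem ZeroR3_proof : ZeroR3 := by
  intro G hG
  set Φ := finSuccEquiv ℝ 2 (rename sg G) with hΦ
  have hr : rename sg G ≠ 0 := by
    intro h
    exact hG (rename_injective sg sg.injective (by rw [h, map_zero]))
  have hΦ0 : Φ ≠ 0 := by
    intro h
    exact hr ((finSuccEquiv ℝ 2).injective (by rw [← hΦ, h, map_zero]))
  have hdeg : (rename sg G).totalDegree ≤ G.totalDegree := totalDegree_rename_le _ _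
  refine ⟨Φ.leadingCoeff, Polynomial.leadingCoeff_ne_zero.2 hΦ0, ?_, ?_⟩
  · have := totalDegree_coeff_finSuccEquiv_add_le (rename sg G) Φ.natDegree
      (Polynomial.leadingCoeff_ne_zero.2 hΦ0)
    have h2 : (Φ.leadingCoeff).totalDegree + Φ.natDegree ≤ (rename sg G).totalDegree := this
    omega
  · intro p T hp hT
    set u := Polynomial.map (eval (v2 p)) Φ with hu
    have hu0 : u ≠ 0 := by
      intro h
      have h1 : u.coeff Φ.natDegree = eval (v2 p) Φ.leadingCoeff := by
        rw [hu, Polynomial.coeff_map]
        rfl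
      rw [h, Polynomial.coeff_zero] at h1
      exact hp h1.symm
    have h1 : T.val ⊆ u.roots := by
      intro t ht
      rw [Polynomial.mem_roots hu0, Polynomial.IsRoot.def, ← eval_sg]
      exact hT t ht
    have h2 := Polynomial.card_le_degree_of_subset_roots h1
    have h3 : u.natDegree ≤ Φ.natDegree := Polynomial.natDegree_map_le
    have h4 : Φ.natDegree = (rename sg G).degreeOf 0 := natDegree_finSuccEquiv _
    have h5 := degreeOf_le_totalDegree (rename sg G) 0
    omega

end Pool.Agent.Work.MP_916cc8_co
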