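import Pool.Agent.Work.MP_916cc8_co.Assemble
import Pool.Agent.Work.MP_916cc8_co.Bd.B02
import Pool.Agent.Work.MP_916cc8_co.Bd.B01
import Pool.Agent.Work.MP_916cc8_co.ClassSum
import Pool.Agent.Work.MP_916cc8_co.Vis3
import Pool.Agent.Work.MP_916cc8_co.Vis4
import Pool.Agent.Work.MP_916cc8_co.TypeAB
import Pool.Agent.Work.MP_916cc8_co.TanDer
import Pool.Agent.Work.MP_916cc8_co.TanAlg
import Pool.Agent.Work.MP_916cc8_co.TypeB4
import Pool.Agent.Work.MP_916cc8_co.ZeroR3
import Pool.Agent.Work.MP_916cc8_co.IncA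
import Pool.Agent.Work.MP_916cc8_co.IncB
import Pool.Agent.Work.MP_916cc8_co.IncC
import Pool.Agent.Work.MP_916cc8_co.IncD
import Pool.Agent.Work.MP_916cc8_co.IncFin

/-! `IncTh (6/11)` and hence the bound with exponent 24/11. -/

set_option autoImplicit false

namespace Pool.Agent.Work.MP_916cc8_co

theorem K42_final : K42 := K42_proof K24_proof

theorem ClassSum_final : ClassSum := ClassSum_proof KSTs_proof

theorem TypeB4_final : TypeB4 := TypeB4_proof TanDer_proof TanAlg_proof

theorem Inc611_final : IncTh (6 / 11) :=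
  IncFin_proof (Part_final 3 (by norm_num)) (Part_final 4 (by norm_num)) HInj_proof
    (TypeAB_proof Clr_proof)
    (IncA_proof (Vis4_proof War_final Clr_proof) K42_final ClassSum_final)
    (IncB_proof TypeB4_final)
    (IncC_proof (Vis3_proof CW_final Clr_proof) K42_final ClassSum_final)
    (IncD_proof ZeroR3_proof K42_final KSTs_proof)

theorem Main611 : Main (6 / 11) := Main_of_inc (6 / 11) (by norm_num) (by norm_num) Inc611_final

end Pool.Agent.Work.MP_916cc8_co
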