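import Pool.Agent.Work.MP_916cc8_co.Bd.B01

set_option autoImplicit false

namespace Pool.Agent.Work.MP_916cc8_co

open MvPolynomial

/-- representatives of the values of a function on a finite set -/
theorem IncA_reps {α β : Type} [DecidableEq α] [DecidableEq β] (f : α → β) (A : Finset α) :
    ∃ Z ⊆ A, Set.InjOn f (Z : Set α) ∧ Z.image f = A.image f := by
  have h : Set.SurjOn f (A : Set α) ((A.image f : Finset β) : Set β) := by
    intro b hb
    obtain ⟨a, ha, rfl⟩ := Finset.mem_image.1 (Finset.mem_coe.1 hb)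
    exact ⟨a, Finset.mem_coe.2 ha, rfl⟩
  obtain ⟨u, hu, hf, himg⟩ := Finset.exists_subset_injOn_image_eq_of_surjOn _ _ h
  exact ⟨u, by exact_mod_cast hu, hf, himg⟩

theorem IncA_same {d t : ℕ} (f : Fin t → MvPolynomial (Fin d) ℝ) (x y : Fin d → ℝ)
    (hx : ∀ j, eval x (f j) ≠ 0) (hy : ∀ j, eval y (f j) ≠ 0) :
    (fun j => decide (0 < eval x (f j))) = (fun j => decide (0 < eval y (f j))) ↔
      sameCl f x y := by
  constructor
  · intro h j
    have h1 := congrFun h j
    simp only [decide_eq_decide] at h1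
    rcases lt_or_gt_of_ne (hx j) with h2 | h2
    · have h3 : ¬ 0 < eval y (f j) := fun h4 => absurd (h1.2 h4) (not_lt.2 h2.le)
      have h4 : eval y (f j) < 0 := lt_of_le_of_ne (not_lt.1 h3) (hy j)
      exact mul_pos_of_neg_of_neg h2 h4
    · exact mul_pos h2 (h1.1 h2)
  · intro h
    funext j
    have h1 := h j
    rw [decide_eq_decide]
    constructor
    · intro h2
      exact (mul_pos_iff_of_pos_left h2).1 h1
    · intro h2
      exact (mul_pos_iff_of_pos_right h2).1 h1

theorem IncA_proof (hv : Vis4) (hk : K42) (hs : ClassSum) : IncA := by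
  classical
  intro X t f V hV hcl
  set Y : Finset (Pt × Pt) := X.filter (fun y => ∀ j, eval (v4 y.1 y.2) (f j) ≠ 0) with hY
  set cl : Pt × Pt → (Fin t → Bool) := fun y j => decide (0 < eval (v4 y.1 y.2) (f j)) with hcld
  have hV0 : 0 ≤ V := by
    rw [hV]
    positivity
  have h2 : ((X ×ˢ X).filter (fun z => NRel z.1 z.2 ∧
      ∀ j, eval (v4 z.2.1 z.2.2) (f j) ≠ 0)) = (X ×ˢ Y).filter (fun z => NRel z.1 z.2) := by
    ext z
    simp only [Finset.mem_filter, Finset.mem_product, hY]
    tauto
  have hKc : ((Finset.univ : Finset (Fin t → Bool)).card : ℝ) = 2 ^ t := by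
    rw [Finset.card_univ, Fintype.card_fun, Fintype.card_bool, Fintype.card_fin]
    norm_num
  have h1 := hs (Pt × Pt) (Pt × Pt) (Fin t → Bool) NRel X Y cl Finset.univ V (X.card / 2 ^ t)
    (by positivity) hV0 (fun y _ => Finset.mem_univ _) (fun y₁ _ y₂ _ hne =>
    hk y₁ y₂ hne _ fun x hx => (Finset.mem_filter.1 hx).2) ?_ ?_
  · rw [h2]
    rw [hKc] at h1
    exact h1
  · intro x hx
    obtain ⟨Z, hZ, hZi, hZe⟩ := IncA_reps cl (Y.filter (fun y => NRel x y))
    have h3 := hv t f x Z (fun z hz => by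
      have h4 := Finset.mem_filter.1 (hZ hz)
      exact ⟨h4.2.1, (Finset.mem_filter.1 h4.1).2⟩) (fun z hz w hw hzw => by
      have h4 := (Finset.mem_filter.1 (Finset.mem_filter.1 (hZ hz)).1).2
      have h5 := (Finset.mem_filter.1 (Finset.mem_filter.1 (hZ hw)).1).2
      exact hZi (Finset.mem_coe.2 hz) (Finset.mem_coe.2 hw) ((IncA_same f _ _ h4 h5).2 hzw))
    have h9 : (((Y.filter (fun y => NRel x y)).image cl).card : ℝ) ≤ V := by
      rw [← hZe, Finset.card_image_of_injOn hZi, hV]
      exact_mod_cast h3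
    refine (le_of_eq ?_).trans h9
    congr
    exact Subsingleton.elim _ _
  · intro k _
    have h9 : ((Y.filter (fun y => cl y = k)).card : ℝ) ≤ X.card / 2 ^ t := by
      rcases (Y.filter (fun y => cl y = k)).eq_empty_or_nonempty with h3 | ⟨y0, hy0⟩
      · rw [h3, Finset.card_empty, Nat.cast_zero]
        positivity
      · have h4 := Finset.mem_filter.1 hy0
        have h5 := hcl (v4 y0.1 y0.2)
        have h6 : (Y.filter (fun y => cl y = k)).card ≤
            (X.filter (fun a => sameCl f (v4 y0.1 y0.2) (v4 a.1 a.2))).card := by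
          refine Finset.card_le_card fun y hy => ?_
          have h7 := Finset.mem_filter.1 hy
          have h8 := Finset.mem_filter.1 h7.1
          refine Finset.mem_filter.2 ⟨h8.1, ?_⟩
          exact (IncA_same f _ _ (Finset.mem_filter.1 h4.1).2 h8.2).1 (h4.2.trans h7.2.symm)
        have h7 : 2 ^ t * (Y.filter (fun y => cl y = k)).card ≤ X.card :=
          (Nat.mul_le_mul_left _ h6).trans h5
        rw [le_div_iff₀ (by positivity)]
        have h8 : ((2 ^ t * (Y.filter (fun y => cl y = k)).card : ℕ) : ℝ) ≤ X.card := by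
          exact_mod_cast h7
        push_cast at h8
        linarith
    refine (le_of_eq ?_).trans h9
    congr

end Pool.Agent.Work.MP_916cc8_co
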