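import Pool.Agent.Work.MP_916cc8_co.Stmts3
import Pool.Agent.Work.MP_916cc8_co.IncA

/-! Solymosi-Tao induction for the incidences (helper19). -/

set_option autoImplicit false

namespace Pool.Agent.Work.MP_916cc8_co

open MvPolynomial

/-! ### Abstract counting -/

theorem IncST_holder {κ : Type} (K : Finset κ) (a : κ → ℝ) (ha : ∀ k ∈ K, 0 ≤ a k) (p : ℝ)
    (hp0 : 0 < p) (hp1 : p ≤ 1) :
    ∑ k ∈ K, (a k) ^ p ≤ (K.card : ℝ) ^ (1 - p) * (∑ k ∈ K, a k) ^ p := by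
  have hq : 1 ≤ 1 / p := by rw [le_div_iff₀ hp0]; linarith
  have h := Real.rpow_sum_le_const_mul_sum_rpow_of_nonneg K (f := fun k => (a k) ^ p) hq
    (fun k hk => Real.rpow_nonneg (ha k hk) p)
  have e1 : ∑ k ∈ K, ((a k) ^ p) ^ (1 / p) = ∑ k ∈ K, a k := by
    refine Finset.sum_congr rfl fun k hk => ?_
    rw [← Real.rpow_mul (ha k hk), mul_one_div_cancel hp0.ne', Real.rpow_one]
  rw [e1] at h
  have hs0 : 0 ≤ ∑ k ∈ K, (a k) ^ p := Finset.sum_nonneg fun k hk => Real.rpow_nonneg (ha k hk) p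
  have hs1 : 0 ≤ ∑ k ∈ K, a k := Finset.sum_nonneg ha
  have h2 := Real.rpow_le_rpow (Real.rpow_nonneg hs0 _) h hp0.le
  rw [← Real.rpow_mul hs0, one_div_mul_cancel hp0.ne', Real.rpow_one,
    Real.mul_rpow (Real.rpow_nonneg (Nat.cast_nonneg _) _) hs1,
    ← Real.rpow_mul (Nat.cast_nonneg _)] at h2
  have e2 : (1 / p - 1) * p = 1 - p := by
    field_simp
  rwa [e2] at h2

open scoped Classical in
theorem IncST_cells {α β κ : Type} [DecidableEq κ] (R : α → β → Prop) (X : Finset α) (Y : Finset β)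
    (cl : β → κ) (K : Finset κ) (V : ℝ) (hcl : ∀ y ∈ Y, cl y ∈ K)
    (hvis : ∀ x ∈ X, (((Y.filter (fun y => R x y)).image cl).card : ℝ) ≤ V) :
    ∃ Xk : κ → Finset α,
      ((X ×ˢ Y).filter (fun z => R z.1 z.2)).card =
        ∑ k ∈ K, ((Xk k ×ˢ Y.filter (fun y => cl y = k)).filter (fun z => R z.1 z.2)).card ∧
      (∑ k ∈ K, ((Xk k).card : ℝ)) ≤ X.card * V ∧
      (∑ k ∈ K, ((Y.filter (fun y => cl y = k)).card : ℝ)) = Y.card := by
  refine ⟨fun k => X.filter (fun x => ∃ y ∈ Y, cl y = k ∧ R x y), ?_, ?_, ?_⟩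
  · rw [Finset.card_eq_sum_card_fiberwise (f := fun z : α × β => cl z.2) (t := K)]
    · refine Finset.sum_congr rfl fun k _ => ?_
      congr 1
      ext ⟨x, y⟩
      simp only [Finset.mem_filter, Finset.mem_product]
      constructor
      · rintro ⟨⟨⟨hx, hy⟩, hR⟩, hc⟩
        exact ⟨⟨⟨hx, y, hy, hc, hR⟩, hy, hc⟩, hR⟩
      · rintro ⟨⟨⟨hx, -⟩, hy, hc⟩, hR⟩
        exact ⟨⟨⟨hx, hy⟩, hR⟩, hc⟩
    · intro z hz
      rw [Finset.mem_coe, Finset.mem_filter, Finset.mem_product] at hz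
      exact hcl z.2 hz.1.2
  · have h1 : (∑ k ∈ K, (X.filter (fun x => ∃ y ∈ Y, cl y = k ∧ R x y)).card) =
        ∑ x ∈ X, (K.filter (fun k => ∃ y ∈ Y, cl y = k ∧ R x y)).card := by
      have := Finset.sum_card_bipartiteAbove_eq_sum_card_bipartiteBelow
        (s := K) (t := X) (fun k x => ∃ y ∈ Y, cl y = k ∧ R x y)
      exact this
    have h2 : (∑ k ∈ K, ((X.filter (fun x => ∃ y ∈ Y, cl y = k ∧ R x y)).card : ℝ)) =
        ∑ x ∈ X, ((K.filter (fun k => ∃ y ∈ Y, cl y = k ∧ R x y)).card : ℝ) := by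
      exact_mod_cast h1
    rw [h2, ← nsmul_eq_mul]
    refine Finset.sum_le_card_nsmul _ _ _ fun x hx => ?_
    refine le_trans ?_ (hvis x hx)
    rw [Nat.cast_le]
    refine Finset.card_le_card fun k hk2 => ?_
    rw [Finset.mem_filter] at hk2
    obtain ⟨-, y, hy, hc, hR⟩ := hk2
    exact Finset.mem_image.2 ⟨y, Finset.mem_filter.2 ⟨hy, hR⟩, hc⟩
  · have h1 := Finset.card_eq_sum_card_fiberwise (f := cl) (s := Y) (t := K)
      (fun y hy => hcl y hy)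
    exact_mod_cast h1.symm

theorem IncST_sum {κ : Type} (K : Finset κ) (I x y : κ → ℝ) (A p M XV Y' : ℝ) (hp0 : 0 < p)
    (hp1 : p ≤ 1) (hA : 0 ≤ A)
    (hx : ∀ k ∈ K, 0 ≤ x k) (hy : ∀ k ∈ K, 0 ≤ y k) (hyM : ∀ k ∈ K, y k ≤ M)
    (hI : ∀ k ∈ K, I k ≤ A * (x k ^ p * y k ^ ((2 : ℝ) / 3) + x k + y k))
    (hXs : ∑ k ∈ K, x k ≤ XV) (hYs : ∑ k ∈ K, y k = Y') (hM : 0 ≤ M) :
    ∑ k ∈ K, I k ≤
      A * (M ^ ((2 : ℝ) / 3) * ((K.card : ℝ) ^ (1 - p) * XV ^ p) + XV + Y') := by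
  refine (Finset.sum_le_sum hI).trans ?_
  rw [← Finset.mul_sum]
  refine mul_le_mul_of_nonneg_left ?_ hA
  rw [Finset.sum_add_distrib, Finset.sum_add_distrib, hYs]
  have h1 : ∑ k ∈ K, x k ^ p * y k ^ ((2 : ℝ) / 3) ≤ ∑ k ∈ K, M ^ ((2 : ℝ) / 3) * x k ^ p := by
    refine Finset.sum_le_sum fun k hk => ?_
    rw [mul_comm]
    exact mul_le_mul_of_nonneg_right
      (Real.rpow_le_rpow (hy k hk) (hyM k hk) (by norm_num)) (Real.rpow_nonneg (hx k hk) p)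
  rw [← Finset.mul_sum] at h1
  have h2 := IncST_holder K x hx p hp0 hp1
  have h3 : (∑ k ∈ K, x k) ^ p ≤ XV ^ p :=
    Real.rpow_le_rpow (Finset.sum_nonneg hx) hXs hp0.le
  have h4 : (K.card : ℝ) ^ (1 - p) * (∑ k ∈ K, x k) ^ p ≤ (K.card : ℝ) ^ (1 - p) * XV ^ p :=
    mul_le_mul_of_nonneg_left h3 (Real.rpow_nonneg (Nat.cast_nonneg _) _)
  have h5 := mul_le_mul_of_nonneg_left (h2.trans h4)
    (Real.rpow_nonneg hM ((2 : ℝ) / 3))
  linarith

/-! ### Geometry -/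

open scoped Classical in
theorem IncST_typeB (h : TypeB4) (X Y : Finset (Pt × Pt)) (F : MvPolynomial (Fin 4) ℝ) :
    ((X ×ˢ Y).filter (fun z => NRel z.1 z.2 ∧ TypeB F z.1 z.2)).card ≤ 4 * Y.card := by
  refine Finset.card_le_mul_card_image_of_maps_to (f := Prod.snd) (t := Y) ?_ 4 ?_
  · intro a ha
    exact (Finset.mem_product.mp (Finset.mem_filter.mp ha).1).2
  · intro y hy
    set s := ((X ×ˢ Y).filter (fun z => NRel z.1 z.2 ∧ TypeB F z.1 z.2)).filter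
      (fun a => a.2 = y) with hs
    have h1 : (s.image Prod.fst).card = s.card := by
      refine Finset.card_image_of_injOn ?_
      intro a ha b hb hab
      have ha2 := (Finset.mem_filter.mp (Finset.mem_coe.mp ha)).2
      have hb2 := (Finset.mem_filter.mp (Finset.mem_coe.mp hb)).2
      exact Prod.ext hab (ha2.trans hb2.symm)
    rw [← h1]
    refine h F y _ fun x hx => ?_
    obtain ⟨a, ha, rfl⟩ := Finset.mem_image.mp hx
    have ha1 := Finset.mem_filter.mp ha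
    have ha2 := (Finset.mem_filter.mp ha1.1).2
    rw [ha1.2] at ha2
    exact ha2

open scoped Classical in
theorem IncST_zero (hab : TypeAB) (hb : TypeB4) (a : ℕ) (Ca : ℝ)
    (hCa : ∀ (X Y : Finset (Pt × Pt)) (g : Pt × Pt → MvPolynomial (Fin 2) ℝ),
      (∀ x ∈ X, g x ≠ 0 ∧ (g x).totalDegree ≤ a) →
      (((X ×ˢ Y).filter (fun z => NRel z.1 z.2 ∧ eval (v2 z.2.1) (g z.1) = 0)).card : ℝ) ≤
      Ca * ((X.card : ℝ) ^ ((2 : ℝ) / 3) * (Y.card : ℝ) ^ ((2 : ℝ) / 3) + X.card + Y.card))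
    (t : ℕ) (f : Fin t → MvPolynomial (Fin 4) ℝ) (hf : ∀ j, f j ≠ 0)
    (hdeg : 4 * ∑ j, (f j).totalDegree ≤ a) (X Y : Finset (Pt × Pt))
    (hY : ∀ y ∈ Y, ∃ j, eval (v4 y.1 y.2) (f j) = 0) :
    (((X ×ˢ Y).filter (fun z => NRel z.1 z.2)).card : ℝ) ≤
      Ca * ((X.card : ℝ) ^ ((2 : ℝ) / 3) * (Y.card : ℝ) ^ ((2 : ℝ) / 3) + X.card + Y.card) +
        4 * Y.card := by
  have hF : (∏ j, f j) ≠ 0 := Finset.prod_ne_zero_iff.2 fun j _ => hf j
  have hFd : (∏ j, f j).totalDegree ≤ ∑ j, (f j).totalDegree := totalDegree_finsetProd _ _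
  have hg := hab (∏ j, f j) hF
  choose g hg0 hgd hgy using hg
  have h1 := hCa X Y g fun x _ => ⟨hg0 x, (hgd x).trans ((Nat.mul_le_mul_left 4 hFd).trans hdeg)⟩
  have h2 := IncST_typeB hb X Y (∏ j, f j)
  have h3 : ((X ×ˢ Y).filter (fun z => NRel z.1 z.2)).card ≤
      ((X ×ˢ Y).filter (fun z => NRel z.1 z.2 ∧ eval (v2 z.2.1) (g z.1) = 0)).card +
      ((X ×ˢ Y).filter (fun z => NRel z.1 z.2 ∧ TypeB (∏ j, f j) z.1 z.2)).card := by
    refine le_trans (Finset.card_le_card ?_) (Finset.card_union_le _ _)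
    intro z hz
    obtain ⟨hz1, hz2⟩ := Finset.mem_filter.1 hz
    obtain ⟨j, hj⟩ := hY z.2 (Finset.mem_product.1 hz1).2
    have hF0 : eval (v4 z.2.1 z.2.2) (∏ j, f j) = 0 := by
      rw [map_prod]
      exact Finset.prod_eq_zero (Finset.mem_univ j) hj
    rcases hgy z.1 z.2 hz2.1 hF0 with h | h
    · exact Finset.mem_union_left _ (Finset.mem_filter.2 ⟨hz1, hz2, h⟩)
    · exact Finset.mem_union_right _ (Finset.mem_filter.2 ⟨hz1, hz2, h⟩)
  have h3' : (((X ×ˢ Y).filter (fun z => NRel z.1 z.2)).card : ℝ) ≤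
      ((X ×ˢ Y).filter (fun z => NRel z.1 z.2 ∧ eval (v2 z.2.1) (g z.1) = 0)).card +
      ((X ×ˢ Y).filter (fun z => NRel z.1 z.2 ∧ TypeB (∏ j, f j) z.1 z.2)).card := by
    exact_mod_cast h3
  have h2' : (((X ×ˢ Y).filter (fun z => NRel z.1 z.2 ∧
      TypeB (∏ j, f j) z.1 z.2)).card : ℝ) ≤ 4 * Y.card := by
    exact_mod_cast h2
  linarith

open scoped Classical in
theorem IncST_vis (hv : Vis4) (t : ℕ) (f : Fin t → MvPolynomial (Fin 4) ℝ)
    (Y : Finset (Pt × Pt)) (hY : ∀ y ∈ Y, ∀ j, eval (v4 y.1 y.2) (f j) ≠ 0) (x : Pt × Pt) :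
    (((Y.filter (fun y => NRel x y)).image
      (fun y (j : Fin t) => decide (0 < eval (v4 y.1 y.2) (f j)))).card : ℝ) ≤
      (8 * (∑ j, (f j).totalDegree : ℕ) + 2) ^ 2 := by
  obtain ⟨Z, hZ, hZi, hZe⟩ := IncA_reps
    (fun (y : Pt × Pt) (j : Fin t) => decide (0 < eval (v4 y.1 y.2) (f j)))
    (Y.filter (fun y => NRel x y))
  have h3 := hv t f x Z (fun z hz => by
    have h4 := Finset.mem_filter.1 (hZ hz)
    exact ⟨h4.2.1, hY z h4.1⟩) (fun z hz w hw hzw => by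
    have h4 := hY z (Finset.mem_filter.1 (hZ hz)).1
    have h5 := hY w (Finset.mem_filter.1 (hZ hw)).1
    exact hZi (Finset.mem_coe.2 hz) (Finset.mem_coe.2 hw) ((IncA_same f _ _ h4 h5).2 hzw))
  have e : (Y.filter (fun y => NRel x y)).image
      (fun y (j : Fin t) => decide (0 < eval (v4 y.1 y.2) (f j))) = Z.image
      (fun y (j : Fin t) => decide (0 < eval (v4 y.1 y.2) (f j))) := hZe.symm
  rw [e, Finset.card_image_of_injOn hZi]
  exact_mod_cast h3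

/-! ### Constants -/

/-- choice of the number of partition polynomials -/
theorem IncST_t (ε c : ℝ) (hε : 0 < ε) (hc : 0 < c) :
    ∃ t : ℕ, 1 ≤ t ∧ c * ((2 : ℝ) ^ t) ^ (-(ε / 2)) ≤ 1 / 4 := by
  have hb1 : (2 : ℝ) ^ (-(ε / 2)) < 1 := Real.rpow_lt_one_of_one_lt_of_neg (by norm_num) (by linarith)
  have hb0 : (0 : ℝ) < (2 : ℝ) ^ (-(ε / 2)) := Real.rpow_pos_of_pos (by norm_num) _
  obtain ⟨n, hn⟩ := exists_pow_lt_of_lt_one (x := 1 / (4 * c)) (by positivity) hb1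
  refine ⟨n + 1, by omega, ?_⟩
  have e : ((2 : ℝ) ^ (n + 1)) ^ (-(ε / 2)) = ((2 : ℝ) ^ (-(ε / 2))) ^ (n + 1) := by
    rw [← Real.rpow_natCast, ← Real.rpow_natCast, ← Real.rpow_mul (by norm_num),
      ← Real.rpow_mul (by norm_num), mul_comm]
  rw [e]
  have h1 : ((2 : ℝ) ^ (-(ε / 2))) ^ (n + 1) ≤ 1 / (4 * c) := by
    rw [pow_succ]
    have h2 : ((2 : ℝ) ^ (-(ε / 2))) ^ n * (2 : ℝ) ^ (-(ε / 2)) ≤
        ((2 : ℝ) ^ (-(ε / 2))) ^ n * 1 :=
      mul_le_mul_of_nonneg_left hb1.le (by positivity)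
    linarith
  have h3 := mul_le_mul_of_nonneg_left h1 hc.le
  have e2 : c * (1 / (4 * c)) = 1 / 4 := by field_simp
  linarith

/-- choice of the bound below which the estimate is trivial -/
theorem IncST_M (ε c : ℝ) (hε : 0 < ε) (hc : 0 < c) :
    ∃ M : ℝ, 1 ≤ M ∧ ∀ y : ℝ, M ≤ y → c * y ^ (-(2 * ε)) ≤ 1 / 4 := by
  have h := (tendsto_rpow_neg_atTop (y := 2 * ε) (by linarith)).eventually
    (gt_mem_nhds (show (0 : ℝ) < 1 / (4 * c) by positivity))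
  obtain ⟨M, hM⟩ := Filter.eventually_atTop.1 h
  refine ⟨max M 1, le_max_right _ _, fun y hy => ?_⟩
  have h1 := hM y ((le_max_left _ _).trans hy)
  have h3 := mul_le_mul_of_nonneg_left h1.le hc.le
  have e2 : c * (1 / (4 * c)) = 1 / 4 := by field_simp
  linarith

/-- the main term -/
theorem IncST_T1 (ε C₁ R V x y : ℝ) (hε : 0 < ε) (hC : 0 ≤ C₁) (hR : 1 ≤ R)
    (hV0 : 0 ≤ V) (hx : 0 ≤ x) (hy : 0 ≤ y) (hV : V ≤ C₁ * R ^ ((1 : ℝ) / 2))
    (hsmall : C₁ ^ (2 / 3 + ε) * R ^ (-(ε / 2)) ≤ 1 / 4) :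
    (y / R) ^ ((2 : ℝ) / 3) * (R ^ (1 - (2 / 3 + ε)) * (x * V) ^ (2 / 3 + ε)) ≤
      1 / 4 * (x ^ (2 / 3 + ε) * y ^ ((2 : ℝ) / 3)) := by
  have hR0 : 0 < R := by linarith
  have hp0 : 0 < 2 / 3 + ε := by linarith
  rw [Real.div_rpow hy hR0.le, Real.mul_rpow hx hV0]
  have h1 : V ^ (2 / 3 + ε) ≤ C₁ ^ (2 / 3 + ε) * R ^ ((1 : ℝ) / 2 * (2 / 3 + ε)) := by
    rw [Real.rpow_mul hR0.le, ← Real.mul_rpow hC (Real.rpow_nonneg hR0.le _)]
    exact Real.rpow_le_rpow hV0 hV hp0.le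
  have e1 : R ^ (1 - (2 / 3 + ε)) * R ^ ((1 : ℝ) / 2 * (2 / 3 + ε)) / R ^ ((2 : ℝ) / 3) =
      R ^ (-(ε / 2)) := by
    rw [← Real.rpow_add hR0, ← Real.rpow_sub hR0]
    congr 1
    ring
  have hxy : 0 ≤ x ^ (2 / 3 + ε) * y ^ ((2 : ℝ) / 3) :=
    mul_nonneg (Real.rpow_nonneg hx _) (Real.rpow_nonneg hy _)
  have hRR : 0 ≤ R ^ (1 - (2 / 3 + ε)) / R ^ ((2 : ℝ) / 3) :=
    div_nonneg (Real.rpow_nonneg hR0.le _) (Real.rpow_nonneg hR0.le _)
  calc y ^ ((2 : ℝ) / 3) / R ^ ((2 : ℝ) / 3) *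
      (R ^ (1 - (2 / 3 + ε)) * (x ^ (2 / 3 + ε) * V ^ (2 / 3 + ε)))
      = (x ^ (2 / 3 + ε) * y ^ ((2 : ℝ) / 3)) *
        (R ^ (1 - (2 / 3 + ε)) / R ^ ((2 : ℝ) / 3) * V ^ (2 / 3 + ε)) := by ring
    _ ≤ (x ^ (2 / 3 + ε) * y ^ ((2 : ℝ) / 3)) *
        (R ^ (1 - (2 / 3 + ε)) / R ^ ((2 : ℝ) / 3) *
          (C₁ ^ (2 / 3 + ε) * R ^ ((1 : ℝ) / 2 * (2 / 3 + ε)))) := by
        refine mul_le_mul_of_nonneg_left (mul_le_mul_of_nonneg_left h1 hRR) hxy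
    _ = (x ^ (2 / 3 + ε) * y ^ ((2 : ℝ) / 3)) * (C₁ ^ (2 / 3 + ε) * R ^ (-(ε / 2))) := by
        rw [← e1]; ring
    _ ≤ (x ^ (2 / 3 + ε) * y ^ ((2 : ℝ) / 3)) * (1 / 4) :=
        mul_le_mul_of_nonneg_left hsmall hxy
    _ = _ := by ring

/-- the second term -/
theorem IncST_T2 (ε V C₂ x y : ℝ) (hε : 0 < ε) (hε1 : ε < 1 / 3) (hV : V ≤ C₂)
    (hx : 1 ≤ x) (hy : 1 ≤ y) (hxy : x ≤ y ^ 2) (hsmall : C₂ * y ^ (-(2 * ε)) ≤ 1 / 4) :
    x * V ≤ 1 / 4 * (x ^ (2 / 3 + ε) * y ^ ((2 : ℝ) / 3)) := by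
  have hx0 : 0 < x := by linarith
  have hy0 : 0 < y := by linarith
  have e1 : x = x ^ (2 / 3 + ε) * x ^ (1 / 3 - ε) := by
    rw [← Real.rpow_add hx0]
    have : (2 / 3 + ε) + (1 / 3 - ε) = (1 : ℝ) := by ring
    rw [this, Real.rpow_one]
  have h1 : x ^ (1 / 3 - ε) ≤ y ^ ((2 : ℝ) / 3) * y ^ (-(2 * ε)) := by
    rw [← Real.rpow_add hy0]
    have e2 : (2 : ℝ) / 3 + -(2 * ε) = ((2 : ℕ) : ℝ) * (1 / 3 - ε) := by push_cast; ring
    rw [e2, Real.rpow_mul hy0.le, Real.rpow_natCast]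
    exact Real.rpow_le_rpow hx0.le hxy (by linarith)
  have hxp : 0 ≤ x ^ (2 / 3 + ε) := Real.rpow_nonneg hx0.le _
  have hyp : 0 ≤ y ^ ((2 : ℝ) / 3) := Real.rpow_nonneg hy0.le _
  have hyq : 0 ≤ y ^ (-(2 * ε)) := Real.rpow_nonneg hy0.le _
  have h2 : x ≤ x ^ (2 / 3 + ε) * (y ^ ((2 : ℝ) / 3) * y ^ (-(2 * ε))) := by
    calc x = x ^ (2 / 3 + ε) * x ^ (1 / 3 - ε) := e1
      _ ≤ _ := mul_le_mul_of_nonneg_left h1 hxp
  by_cases hV0 : 0 ≤ V
  · calc x * V ≤ (x ^ (2 / 3 + ε) * (y ^ ((2 : ℝ) / 3) * y ^ (-(2 * ε)))) * V :=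
          mul_le_mul_of_nonneg_right h2 hV0
      _ = (x ^ (2 / 3 + ε) * y ^ ((2 : ℝ) / 3)) * (V * y ^ (-(2 * ε))) := by ring
      _ ≤ (x ^ (2 / 3 + ε) * y ^ ((2 : ℝ) / 3)) * (C₂ * y ^ (-(2 * ε))) :=
          mul_le_mul_of_nonneg_left (mul_le_mul_of_nonneg_right hV hyq) (mul_nonneg hxp hyp)
      _ ≤ (x ^ (2 / 3 + ε) * y ^ ((2 : ℝ) / 3)) * (1 / 4) :=
          mul_le_mul_of_nonneg_left hsmall (mul_nonneg hxp hyp)
      _ = _ := by ring
  · have h3 : x * V ≤ 0 := mul_nonpos_of_nonneg_of_nonpos hx0.le (not_le.1 hV0).le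
    have h4 : 0 ≤ 1 / 4 * (x ^ (2 / 3 + ε) * y ^ ((2 : ℝ) / 3)) := by positivity
    linarith

/-- exponents `2/3` and `2/3 + ε` of natural numbers -/
theorem IncST_exp (ε : ℝ) (hε : 0 < ε) (n : ℕ) :
    (n : ℝ) ^ ((2 : ℝ) / 3) ≤ (n : ℝ) ^ (2 / 3 + ε) := by
  rcases Nat.eq_zero_or_pos n with h | h
  · rw [h, Nat.cast_zero, Real.zero_rpow (by norm_num), Real.zero_rpow (by linarith)]
  · exact Real.rpow_le_rpow_of_exponent_le (by exact_mod_cast h) (by linarith)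

/-- `V` is at most `C₁ R^(1/2)` -/
theorem IncST_V (C D : ℝ) (t : ℕ) (hD0 : 0 ≤ D)
    (hD : D ≤ C * (2 : ℝ) ^ ((t : ℝ) / (4 : ℕ))) :
    (8 * D + 2) ^ 2 ≤ (8 * C + 2) ^ 2 * ((2 : ℝ) ^ t) ^ ((1 : ℝ) / 2) := by
  have h1 : (1 : ℝ) ≤ (2 : ℝ) ^ ((t : ℝ) / (4 : ℕ)) := Real.one_le_rpow (by norm_num) (by positivity)
  have e : ((2 : ℝ) ^ t) ^ ((1 : ℝ) / 2) = ((2 : ℝ) ^ ((t : ℝ) / (4 : ℕ))) ^ 2 := by
    rw [← Real.rpow_natCast, ← Real.rpow_natCast, ← Real.rpow_mul (by norm_num),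
      ← Real.rpow_mul (by norm_num)]
    congr 1
    push_cast
    ring
  rw [e, ← mul_pow]
  refine pow_le_pow_left₀ (by positivity) ?_ 2
  nlinarith

open scoped Classical in
theorem IncST_proof (h4 : Part 4) (hab : TypeAB) (hb : TypeB4) (hv : Vis4) (hk : K42)
    (hs : KSTs) (hp : LemP) : IncST := by
  intro ε hε hε1
  obtain ⟨C, hC, hpart⟩ := h4
  obtain ⟨t, ht1, ht⟩ := IncST_t ε (((8 * C + 2) ^ 2) ^ (2 / 3 + ε)) hε (by positivity)
  obtain ⟨M₀, hM1, hM⟩ := IncST_M ε ((8 * C + 2) ^ 2 * ((2 : ℝ) ^ t) ^ ((1 : ℝ) / 2)) hε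
    (by positivity)
  obtain ⟨Ca, hCa0, hCa⟩ := hp (4 * ⌊C * (2 : ℝ) ^ ((t : ℝ) / (4 : ℕ))⌋₊)
  set A : ℝ := 4 * Ca + 4 + M₀ + 3 with hA
  have hA0 : 0 < A := by positivity
  refine ⟨A, hA0, ?_⟩
  have main : ∀ n : ℕ, ∀ Y : Finset (Pt × Pt), Y.card = n → ∀ X : Finset (Pt × Pt),
      (((X ×ˢ Y).filter (fun z => NRel z.1 z.2)).card : ℝ) ≤
      A * ((X.card : ℝ) ^ (2 / 3 + ε) * (Y.card : ℝ) ^ ((2 : ℝ) / 3) + X.card + Y.card) := by
    intro n
    induction n using Nat.strong_induction_on with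
    | _ n ih =>
    intro Y hYn X
    have hx0 : (0 : ℝ) ≤ X.card := Nat.cast_nonneg _
    have hy0 : (0 : ℝ) ≤ Y.card := Nat.cast_nonneg _
    have hm0 : 0 ≤ (X.card : ℝ) ^ (2 / 3 + ε) * (Y.card : ℝ) ^ ((2 : ℝ) / 3) :=
      mul_nonneg (Real.rpow_nonneg hx0 _) (Real.rpow_nonneg hy0 _)
    -- (1) few points
    by_cases hc1 : (Y.card : ℝ) ^ 2 ≤ X.card
    · have h1 := hs (Pt × Pt) (Pt × Pt) NRel X Y (fun y₁ _ y₂ _ hne =>
        hk y₁ y₂ hne _ fun x hx => (Finset.mem_filter.1 hx).2)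
      have h2 : (Y.card : ℝ) ≤ Real.sqrt X.card := Real.le_sqrt_of_sq_le hc1
      have h3 : Real.sqrt X.card * Real.sqrt X.card = X.card := Real.mul_self_sqrt hx0
      have h5 : 2 * Real.sqrt X.card * Y.card ≤ 2 * X.card := by
        have := mul_le_mul_of_nonneg_left h2 (Real.sqrt_nonneg (X.card : ℝ))
        nlinarith
      have h6 : (3 : ℝ) * X.card ≤ A * X.card := by
        refine mul_le_mul_of_nonneg_right ?_ hx0
        rw [hA]; linarith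
      have h7 : 0 ≤ A * ((X.card : ℝ) ^ (2 / 3 + ε) * (Y.card : ℝ) ^ ((2 : ℝ) / 3)) :=
        mul_nonneg hA0.le hm0
      have h8 : 0 ≤ A * (Y.card : ℝ) := mul_nonneg hA0.le hy0
      nlinarith
    push Not at hc1
    -- (2) small case
    by_cases hc2 : (Y.card : ℝ) < M₀
    · have h1 : (((X ×ˢ Y).filter (fun z => NRel z.1 z.2)).card : ℝ) ≤ X.card * Y.card := by
        have := Finset.card_filter_le (X ×ˢ Y) (fun z => NRel z.1 z.2)
        rw [Finset.card_product] at this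
        exact_mod_cast this
      have h2 : (X.card : ℝ) * Y.card ≤ X.card * M₀ := mul_le_mul_of_nonneg_left hc2.le hx0
      have h6 : M₀ * X.card ≤ A * X.card := by
        refine mul_le_mul_of_nonneg_right ?_ hx0
        rw [hA]; linarith
      have h7 : 0 ≤ A * ((X.card : ℝ) ^ (2 / 3 + ε) * (Y.card : ℝ) ^ ((2 : ℝ) / 3)) :=
        mul_nonneg hA0.le hm0
      have h8 : 0 ≤ A * (Y.card : ℝ) := mul_nonneg hA0.le hy0
      nlinarith
    push Not at hc2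
    -- the case of empty `X`
    rcases X.eq_empty_or_nonempty with hX | hX
    · rw [hX, Finset.empty_product, Finset.filter_empty]
      simp only [Finset.card_empty, Nat.cast_zero]
      have h8 : 0 ≤ A * (Y.card : ℝ) := mul_nonneg hA0.le hy0
      have h9 : 0 ≤ A * ((0 : ℝ) ^ (2 / 3 + ε) * (Y.card : ℝ) ^ ((2 : ℝ) / 3)) :=
        mul_nonneg hA0.le (mul_nonneg (Real.rpow_nonneg le_rfl _) (Real.rpow_nonneg hy0 _))
      nlinarith
    have hx1 : (1 : ℝ) ≤ X.card := by exact_mod_cast hX.card_pos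
    have hy1 : (1 : ℝ) ≤ Y.card := hM1.trans hc2
    -- (3) partition
    obtain ⟨f, hf0, hfd, hfc⟩ := hpart (Pt × Pt) Y (fun y => v4 y.1 y.2) t
    set Y₁ : Finset (Pt × Pt) := Y.filter (fun y => ∀ j, eval (v4 y.1 y.2) (f j) ≠ 0) with hY₁
    set Y₀ : Finset (Pt × Pt) := Y.filter (fun y => ¬ ∀ j, eval (v4 y.1 y.2) (f j) ≠ 0) with hY₀
    set cl : Pt × Pt → (Fin t → Bool) := fun y j => decide (0 < eval (v4 y.1 y.2) (f j)) with hcl
    set D : ℕ := ∑ j, (f j).totalDegree with hD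
    set V : ℝ := (8 * (D : ℝ) + 2) ^ 2 with hVd
    have hV0 : 0 ≤ V := by positivity
    have hV : V ≤ (8 * C + 2) ^ 2 * ((2 : ℝ) ^ t) ^ ((1 : ℝ) / 2) :=
      IncST_V C D t (Nat.cast_nonneg _) hfd
    have hYY : (Y₁.card : ℝ) + Y₀.card = Y.card := by
      have := Finset.card_filter_add_card_filter_not (s := Y)
        (fun y => ∀ j, eval (v4 y.1 y.2) (f j) ≠ 0)
      exact_mod_cast this
    have hsplit : ((X ×ˢ Y).filter (fun z => NRel z.1 z.2)).card ≤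
        ((X ×ˢ Y₁).filter (fun z => NRel z.1 z.2)).card +
        ((X ×ˢ Y₀).filter (fun z => NRel z.1 z.2)).card := by
      refine le_trans (Finset.card_le_card ?_) (Finset.card_union_le _ _)
      intro z hz
      obtain ⟨hz1, hz2⟩ := Finset.mem_filter.1 hz
      obtain ⟨hz3, hz4⟩ := Finset.mem_product.1 hz1
      by_cases h : ∀ j, eval (v4 z.2.1 z.2.2) (f j) ≠ 0
      · exact Finset.mem_union_left _ (Finset.mem_filter.2 ⟨Finset.mem_product.2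
          ⟨hz3, Finset.mem_filter.2 ⟨hz4, h⟩⟩, hz2⟩)
      · exact Finset.mem_union_right _ (Finset.mem_filter.2 ⟨Finset.mem_product.2
          ⟨hz3, Finset.mem_filter.2 ⟨hz4, h⟩⟩, hz2⟩)
    -- the zero set
    have hzero := IncST_zero hab hb _ Ca hCa t f hf0
      (Nat.mul_le_mul_left 4 (Nat.le_floor hfd)) X Y₀ (fun y hy => by
        have := (Finset.mem_filter.1 hy).2
        push Not at this
        exact this)
    -- the cells
    obtain ⟨Xk, hk1, hk2, hk3⟩ := IncST_cells NRel X Y₁ cl Finset.univ V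
      (fun y _ => Finset.mem_univ _)
      (fun x _ => IncST_vis hv t f Y₁ (fun y hy => (Finset.mem_filter.1 hy).2) x)
    have hcell : ∀ k : Fin t → Bool,
        ((Y₁.filter (fun y => cl y = k)).card : ℝ) ≤ Y.card / 2 ^ t := by
      intro k
      rcases (Y₁.filter (fun y => cl y = k)).eq_empty_or_nonempty with h3 | ⟨y0, hy0'⟩
      · rw [h3, Finset.card_empty, Nat.cast_zero]
        positivity
      · have h4 := Finset.mem_filter.1 hy0'
        have h5 := hfc (v4 y0.1 y0.2)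
        have h6 : (Y₁.filter (fun y => cl y = k)).card ≤
            (Y.filter (fun a => sameCl f (v4 y0.1 y0.2) (v4 a.1 a.2))).card := by
          refine Finset.card_le_card fun y hy => ?_
          have h7 := Finset.mem_filter.1 hy
          have h8 := Finset.mem_filter.1 h7.1
          refine Finset.mem_filter.2 ⟨h8.1, ?_⟩
          exact (IncA_same f _ _ (Finset.mem_filter.1 h4.1).2 h8.2).1 (h4.2.trans h7.2.symm)
        have h7 : 2 ^ t * (Y₁.filter (fun y => cl y = k)).card ≤ Y.card :=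
          (Nat.mul_le_mul_left _ h6).trans h5
        rw [le_div_iff₀ (by positivity)]
        have h8 : ((2 ^ t * (Y₁.filter (fun y => cl y = k)).card : ℕ) : ℝ) ≤ Y.card := by
          exact_mod_cast h7
        push_cast at h8
        linarith
    have hR2 : (2 : ℝ) ≤ 2 ^ t := by
      calc (2 : ℝ) = 2 ^ 1 := by norm_num
        _ ≤ 2 ^ t := pow_le_pow_right₀ (by norm_num) ht1
    have hlt : ∀ k : Fin t → Bool, (Y₁.filter (fun y => cl y = k)).card < n := by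
      intro k
      have h1 := hcell k
      have h2 : (Y.card : ℝ) / 2 ^ t ≤ Y.card / 2 :=
        div_le_div_of_nonneg_left hy0 (by norm_num) hR2
      have h3 : ((Y₁.filter (fun y => cl y = k)).card : ℝ) < Y.card := by linarith
      rw [← hYn]
      exact_mod_cast h3
    have hsum := IncST_sum (Finset.univ : Finset (Fin t → Bool))
      (fun k => (((Xk k ×ˢ Y₁.filter (fun y => cl y = k)).filter
        (fun z => NRel z.1 z.2)).card : ℝ))
      (fun k => ((Xk k).card : ℝ)) (fun k => ((Y₁.filter (fun y => cl y = k)).card : ℝ))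
      A (2 / 3 + ε) (Y.card / 2 ^ t) (X.card * V) Y₁.card (by linarith) (by linarith) hA0.le
      (fun k _ => Nat.cast_nonneg _) (fun k _ => Nat.cast_nonneg _) (fun k _ => hcell k)
      (fun k _ => ih _ (hlt k) _ rfl (Xk k)) hk2 hk3 (by positivity)
    have hKc : ((Finset.univ : Finset (Fin t → Bool)).card : ℝ) = 2 ^ t := by
      rw [Finset.card_univ, Fintype.card_fun, Fintype.card_bool, Fintype.card_fin]
      norm_num
    rw [hKc] at hsum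
    have hT1 := IncST_T1 ε ((8 * C + 2) ^ 2) (2 ^ t) V X.card Y.card hε (by positivity)
      (by linarith) hV0 hx0 hy0 hV ht
    have hT2 := IncST_T2 ε V _ X.card Y.card hε hε1 hV hx1 hy1 hc1.le (hM _ hc2)
    have hk1' : (((X ×ˢ Y₁).filter (fun z => NRel z.1 z.2)).card : ℝ) =
        ∑ k : Fin t → Bool, (((Xk k ×ˢ Y₁.filter (fun y => cl y = k)).filter
        (fun z => NRel z.1 z.2)).card : ℝ) := by
      exact_mod_cast hk1
    have hsplit' : (((X ×ˢ Y).filter (fun z => NRel z.1 z.2)).card : ℝ) ≤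
        ((X ×ˢ Y₁).filter (fun z => NRel z.1 z.2)).card +
        ((X ×ˢ Y₀).filter (fun z => NRel z.1 z.2)).card := by
      exact_mod_cast hsplit
    have hY₀le : (Y₀.card : ℝ) ≤ Y.card := by
      exact_mod_cast Finset.card_le_card (Finset.filter_subset _ _)
    have hm1 : (X.card : ℝ) ^ ((2 : ℝ) / 3) * (Y₀.card : ℝ) ^ ((2 : ℝ) / 3) ≤
        (X.card : ℝ) ^ (2 / 3 + ε) * (Y.card : ℝ) ^ ((2 : ℝ) / 3) :=
      mul_le_mul (IncST_exp ε hε X.card)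
        (Real.rpow_le_rpow (Nat.cast_nonneg _) hY₀le (by norm_num))
        (Real.rpow_nonneg (Nat.cast_nonneg _) _) (Real.rpow_nonneg hx0 _)
    set m : ℝ := (X.card : ℝ) ^ (2 / 3 + ε) * (Y.card : ℝ) ^ ((2 : ℝ) / 3) with hm
    have hI1 : (((X ×ˢ Y₁).filter (fun z => NRel z.1 z.2)).card : ℝ) ≤
        A * (1 / 2 * m + Y₁.card) := by
      rw [hk1']
      refine hsum.trans (mul_le_mul_of_nonneg_left ?_ hA0.le)
      linarith
    have hI0 : (((X ×ˢ Y₀).filter (fun z => NRel z.1 z.2)).card : ℝ) ≤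
        Ca * (m + X.card + Y₀.card) + 4 * Y₀.card := by
      refine hzero.trans ?_
      have := mul_le_mul_of_nonneg_left hm1 hCa0.le
      nlinarith
    have hy00 : (0 : ℝ) ≤ Y₀.card := Nat.cast_nonneg _
    have g1 : Ca * m ≤ A * (1 / 2 * m) := by
      have : Ca ≤ A * (1 / 2) := by rw [hA]; linarith
      have := mul_le_mul_of_nonneg_right this hm0
      linarith
    have g2 : Ca * X.card ≤ A * X.card :=
      mul_le_mul_of_nonneg_right (by rw [hA]; linarith) hx0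
    have g3 : (Ca + 4) * Y₀.card ≤ A * Y₀.card :=
      mul_le_mul_of_nonneg_right (by rw [hA]; linarith) hy00
    rw [← hYY]
    linarith
  exact fun X Y => main _ Y rfl X

end Pool.Agent.Work.MP_916cc8_co
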