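import Pool.Agent.Work.MP_916cc8_co.Stmts3

/-! `IncTh θ` for `1/2 < θ ≤ 3/4` from `IncST`. -/

set_option autoImplicit false

namespace Pool.Agent.Work.MP_916cc8_co

open MvPolynomial

theorem IncTheta_proof (h : IncST) (θ : ℝ) (h1 : 1 / 2 < θ) (h2 : θ ≤ 3 / 4) : IncTh θ := by
  classical
  have hd : 0 < 2 - θ := by linarith
  set p : ℝ := 2 / (2 - θ) with hp
  have hp1 : 4 / 3 < p := by
    rw [hp, lt_div_iff₀ hd]
    linarith
  have hp2 : p ≤ 8 / 5 := by
    rw [hp, div_le_iff₀ hd]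
    linarith
  obtain ⟨A, hA, hinc⟩ := h (p - 4 / 3) (by linarith) (by linarith)
  refine ⟨8 * A, by linarith, fun S X hX hc => ⟨1, one_ne_zero, ?_, ?_⟩⟩
  · rw [totalDegree_one, Nat.cast_zero]
    positivity
  · have hfil : X.filter (fun y => eval (v2 y.1) (1 : MvPolynomial (Fin 2) ℝ) ≠ 0) = X := by
      refine Finset.filter_true_of_mem fun y _ => ?_
      rw [map_one]
      exact one_ne_zero
    rw [hfil]
    refine (hinc X X).trans ?_
    rcases Finset.eq_empty_or_nonempty X with rfl | ⟨x, hx⟩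
    · have hz : (0 : ℝ) ^ (2 / 3 + (p - 4 / 3)) = 0 := Real.zero_rpow (by linarith)
      simp only [Finset.card_empty, Nat.cast_zero, hz, zero_mul, add_zero, mul_zero]
      positivity
    have hN : (0 : ℝ) < X.card := by exact_mod_cast Finset.card_pos.mpr ⟨x, hx⟩
    have hn1 : (1 : ℝ) ≤ S.card := by
      exact_mod_cast Finset.card_pos.mpr ⟨x.1, (hX x hx).1⟩
    have hn0 : (0 : ℝ) ≤ S.card := by linarith
    have e1 : (X.card : ℝ) ^ (2 / 3 + (p - 4 / 3)) * (X.card : ℝ) ^ ((2 : ℝ) / 3) =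
        (X.card : ℝ) ^ p := by
      rw [← Real.rpow_add hN]
      congr 1
      ring
    have e2 : (X.card : ℝ) ^ p ≤ 4 * (S.card : ℝ) ^ (2 : ℝ) := by
      calc (X.card : ℝ) ^ p ≤ (2 * (S.card : ℝ) ^ (2 - θ)) ^ p :=
            Real.rpow_le_rpow hN.le hc (by linarith)
        _ = 2 ^ p * (S.card : ℝ) ^ (2 : ℝ) := by
            rw [Real.mul_rpow (by norm_num) (by positivity), ← Real.rpow_mul hn0]
            congr 2
            rw [hp]
            field_simp
        _ ≤ 4 * (S.card : ℝ) ^ (2 : ℝ) := by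
            refine mul_le_mul_of_nonneg_right ?_ (by positivity)
            calc (2 : ℝ) ^ p ≤ 2 ^ (2 : ℝ) :=
                  Real.rpow_le_rpow_of_exponent_le (by norm_num) (by linarith)
              _ = 4 := by norm_num
    have e3 : (X.card : ℝ) ≤ 2 * (S.card : ℝ) ^ (2 : ℝ) := by
      refine hc.trans ?_
      refine mul_le_mul_of_nonneg_left ?_ (by norm_num)
      exact Real.rpow_le_rpow_of_exponent_le hn1 (by linarith)
    rw [e1]
    nlinarith

end Pool.Agent.Work.MP_916cc8_co
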