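import Pool.Agent.Work.MP_916cc8_co.Stmts3

/-!
# MP_916cc8_co: Szemeredi-Trotter type bound for incidences on curves of bounded degree
-/

set_option autoImplicit false

namespace Pool.Agent.Work.MP_916cc8_co

open MvPolynomial

namespace LemPAux

lemma real_P {x y P γ T Ca : ℝ} (hx : 0 < x) (hy : 0 < y) (hP : 0 < P) (hP3 : P ^ 3 = x ^ 2 * y ^ 2)
    (hγ : γ = P / x) (hT : 0 < T) (hT2 : γ ^ 2 < 2 * T) (hCa : 0 ≤ Ca) :
    2 * (y / T) * Real.sqrt (T * (Ca * P)) ≤ (8 * Ca + 1) * P := by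
  have h0 : 0 ≤ T * (Ca * P) := by positivity
  refine abs_le_of_sq_le_sq' ?_ (by positivity) |>.2
  rw [mul_pow, Real.sq_sqrt h0]
  have hγ2 : γ ^ 2 * x ^ 2 = P ^ 2 := by
    rw [hγ]
    field_simp
  -- y^2 P / T <= 2 P^2
  have h1 : y ^ 2 * P ≤ 2 * P ^ 2 * T := by
    have h2 : γ ^ 2 * (P ^ 2) = y ^ 2 * P := by
      have h3 : γ ^ 2 * (P ^ 2) * x ^ 2 = y ^ 2 * P * x ^ 2 := by
        calc γ ^ 2 * (P ^ 2) * x ^ 2 = (γ ^ 2 * x ^ 2) * P ^ 2 := by ring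
          _ = P ^ 2 * P ^ 2 := by rw [hγ2]
          _ = P ^ 3 * P := by ring
          _ = y ^ 2 * P * x ^ 2 := by rw [hP3]; ring
      exact mul_right_cancel₀ (by positivity) h3
    rw [← h2]
    nlinarith [sq_nonneg P, pow_pos hP 2]
  have h4 : (2 * (y / T)) ^ 2 * (T * (Ca * P)) = 4 * Ca * (y ^ 2 * P) / T := by
    field_simp
    ring
  rw [h4, div_le_iff₀ hT]
  have h5 : 4 * Ca * (y ^ 2 * P) ≤ 4 * Ca * (2 * P ^ 2 * T) :=
    mul_le_mul_of_nonneg_left h1 (by positivity)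
  refine h5.trans ?_
  have h6 : 0 ≤ P ^ 2 * T := by positivity
  nlinarith [sq_nonneg Ca, mul_nonneg h6 (sq_nonneg Ca), mul_nonneg h6 hCa]

lemma card_le6 {α : Type*} [DecidableEq α] (S A0 A1 A2 A3 A4 A5 : Finset α)
    (h : ∀ z ∈ S, z ∈ A0 ∨ z ∈ A1 ∨ z ∈ A2 ∨ z ∈ A3 ∨ z ∈ A4 ∨ z ∈ A5) :
    (S.card : ℝ) ≤ A0.card + (A1.card + (A2.card + (A3.card + (A4.card + A5.card)))) := by
  have hsub : S ⊆ A0 ∪ (A1 ∪ (A2 ∪ (A3 ∪ (A4 ∪ A5)))) := by
    intro z hz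
    simpa only [Finset.mem_union] using h z hz
  have h0 := Finset.card_le_card hsub
  have h1 := Finset.card_union_le A0 (A1 ∪ (A2 ∪ (A3 ∪ (A4 ∪ A5))))
  have h2 := Finset.card_union_le A1 (A2 ∪ (A3 ∪ (A4 ∪ A5)))
  have h3 := Finset.card_union_le A2 (A3 ∪ (A4 ∪ A5))
  have h4 := Finset.card_union_le A3 (A4 ∪ A5)
  have h5 := Finset.card_union_le A4 A5
  have h6 : S.card ≤ A0.card + (A1.card + (A2.card + (A3.card + (A4.card + A5.card)))) := by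
    omega
  exact_mod_cast h6

end LemPAux

open LemPAux

open scoped Classical in
/-- one projection -/
lemma LemP_step (h2 : Part 2) (ha : PA) (a : ℕ) : ∃ C Ca : ℝ, 0 < C ∧ 0 ≤ Ca ∧
    ∀ (X Y Y' : Finset (Pt × Pt)) (g : Pt × Pt → MvPolynomial (Fin 2) ℝ) (i : Fin 4) (P γ : ℝ),
    (∀ x ∈ X, g x ≠ 0 ∧ (g x).totalDegree ≤ a) → Y' ⊆ Y → 0 < X.card → 0 < Y.card → 0 < P →
    P ^ 3 = (X.card : ℝ) ^ 2 * (Y.card : ℝ) ^ 2 → γ = P / X.card → 1 ≤ γ →
    ∃ G : MvPolynomial (Fin 2) ℝ, G ≠ 0 ∧ (G.totalDegree : ℝ) ≤ C * γ ∧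
      (((X ×ˢ Y').filter (fun z => NRel z.1 z.2 ∧ eval (v2 z.2.1) (g z.1) = 0 ∧
        eval (v2 (prj i z.2)) G ≠ 0)).card : ℝ) ≤ (9 * Ca + 1) * P := by
  obtain ⟨C, hC, hpart⟩ := h2
  refine ⟨C, 2 * a * (a + 8 * C + 2), hC, by positivity, ?_⟩
  intro X Y Y' g i P γ hg hYY hX0 hY0 hP hP3 hγ hγ1
  set Ca : ℝ := 2 * a * (a + 8 * C + 2) with hCa
  have hCa0 : 0 ≤ Ca := by positivity
  have hx : (0 : ℝ) < X.card := by exact_mod_cast hX0
  have hy : (0 : ℝ) < Y.card := by exact_mod_cast hY0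
  obtain ⟨t, ht1, ht2⟩ := exists_nat_pow_near (x := γ ^ 2) (y := (2 : ℝ))
    (one_le_pow₀ hγ1) (by norm_num)
  obtain ⟨f, hf0, hfd, hfc⟩ := hpart (Pt × Pt) Y' (fun y => v2 (prj i y)) t
  have hγ0 : 0 < γ := by linarith
  have hroot : (2 : ℝ) ^ ((t : ℝ) / ((2 : ℕ) : ℝ)) ≤ γ := by
    have h3 : ((2 : ℝ) ^ ((t : ℝ) / ((2 : ℕ) : ℝ))) ^ 2 = 2 ^ t := by
      rw [← Real.rpow_natCast, ← Real.rpow_mul (by norm_num)]
      rw [show (t : ℝ) / ((2 : ℕ) : ℝ) * ((2 : ℕ) : ℝ) = (t : ℝ) by push_cast; ring,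
        Real.rpow_natCast]
    refine abs_le_of_sq_le_sq' ?_ hγ0.le |>.2
    rw [h3]
    exact ht1
  have hdeg : ((∑ j, (f j).totalDegree : ℕ) : ℝ) ≤ C * γ :=
    hfd.trans (mul_le_mul_of_nonneg_left hroot hC.le)
  refine ⟨∏ j, f j, Finset.prod_ne_zero_iff.2 fun j _ => hf0 j, ?_, ?_⟩
  · refine le_trans ?_ hdeg
    exact_mod_cast totalDegree_finsetProd _ _
  set V : ℝ := 2 * a * (a + 8 * (∑ j, (f j).totalDegree : ℕ) + 2) with hV
  have hpa := ha X Y' t f i a g V hV hg (fun v => by convert hfc v)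
  have hev : ∀ z : Pt × Pt, eval (v2 (prj i z)) (∏ j, f j) ≠ 0 ↔
      ∀ j, eval (v2 (prj i z)) (f j) ≠ 0 := by
    intro z
    rw [map_prod, Finset.prod_ne_zero_iff]
    exact ⟨fun h j => h j (Finset.mem_univ j), fun h j _ => h j⟩
  have hV0 : 0 ≤ V := by positivity
  have hVle : V ≤ Ca * γ := by
    rw [hV, hCa]
    have h1 : (a : ℝ) + 8 * ((∑ j, (f j).totalDegree : ℕ) : ℝ) + 2 ≤ (a + 8 * C + 2) * γ := by
      have h2 : (a : ℝ) + 2 ≤ (a + 2) * γ := le_mul_of_one_le_right (by positivity) hγ1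
      nlinarith
    calc 2 * (a : ℝ) * (a + 8 * ((∑ j, (f j).totalDegree : ℕ) : ℝ) + 2)
        ≤ 2 * a * ((a + 8 * C + 2) * γ) := mul_le_mul_of_nonneg_left h1 (by positivity)
      _ = _ := by ring
  have hxV : (X.card : ℝ) * V ≤ Ca * P := by
    calc (X.card : ℝ) * V ≤ X.card * (Ca * γ) := mul_le_mul_of_nonneg_left hVle hx.le
      _ = Ca * P := by rw [hγ]; field_simp
  have hT : (0 : ℝ) < 2 ^ t := by positivity
  have hT2 : γ ^ 2 < 2 * 2 ^ t := by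
    have e2 : (2 : ℝ) ^ (t + 1) = 2 * 2 ^ t := by rw [pow_succ]; ring
    rw [← e2]
    exact ht2
  have hY' : (Y'.card : ℝ) ≤ Y.card := by exact_mod_cast Finset.card_le_card hYY
  have hb1 : 2 * ((Y'.card : ℝ) / 2 ^ t) * Real.sqrt (2 ^ t * (X.card * V)) ≤
      2 * ((Y.card : ℝ) / 2 ^ t) * Real.sqrt (2 ^ t * (Ca * P)) := by
    have h3 : Real.sqrt (2 ^ t * (X.card * V)) ≤ Real.sqrt (2 ^ t * (Ca * P)) :=
      Real.sqrt_le_sqrt (mul_le_mul_of_nonneg_left hxV hT.le)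
    have h4 : (Y'.card : ℝ) / 2 ^ t ≤ (Y.card : ℝ) / 2 ^ t := div_le_div_of_nonneg_right hY' hT.le
    have h5 : 0 ≤ (Y'.card : ℝ) / 2 ^ t := by positivity
    gcongr
  have hb2 := real_P hx hy hP hP3 hγ hT hT2 hCa0
  have e : (X ×ˢ Y').filter (fun z => NRel z.1 z.2 ∧ eval (v2 z.2.1) (g z.1) = 0 ∧
        eval (v2 (prj i z.2)) (∏ j, f j) ≠ 0) =
      (X ×ˢ Y').filter (fun z => NRel z.1 z.2 ∧ eval (v2 z.2.1) (g z.1) = 0 ∧
        ∀ j, eval (v2 (prj i z.2)) (f j) ≠ 0) := by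
    ext z
    simp only [Finset.mem_filter, hev z.2]
  rw [e]
  have hpa' : (((X ×ˢ Y').filter (fun z => NRel z.1 z.2 ∧ eval (v2 z.2.1) (g z.1) = 0 ∧
        ∀ j, eval (v2 (prj i z.2)) (f j) ≠ 0)).card : ℝ) ≤
      X.card * V + 2 * (Y'.card / 2 ^ t) * Real.sqrt (2 ^ t * (X.card * V)) := by
    convert hpa
  refine hpa'.trans ?_
  have : X.card * V + 2 * ((Y'.card : ℝ) / 2 ^ t) * Real.sqrt (2 ^ t * (X.card * V)) ≤
      Ca * P + (8 * Ca + 1) * P := add_le_add hxV (hb1.trans hb2)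
  refine this.trans (le_of_eq (by ring))

set_option maxHeartbeats 4000000 in
theorem LemP_proof (h2 : Part 2) (ha : PA) (hz : PZ) (h4 : TypeC4) (hk : K42) (hs : KSTs) :
    LemP := by
  classical
  intro a
  obtain ⟨C, Ca, hC, hCa, hstep⟩ := LemP_step h2 ha a
  refine ⟨4 * (9 * Ca + 1) + 4 + (8 * a * C + a ^ 2) + 3, by positivity, ?_⟩
  intro X Y g hg
  set C₀ : ℝ := 4 * (9 * Ca + 1) + 4 + (8 * a * C + a ^ 2) + 3 with hC₀
  have hC₀3 : 3 ≤ C₀ := by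
    rw [hC₀]
    have : 0 ≤ 8 * (a : ℝ) * C + a ^ 2 := by positivity
    linarith
  set P : ℝ := (X.card : ℝ) ^ ((2 : ℝ) / 3) * (Y.card : ℝ) ^ ((2 : ℝ) / 3) with hPdef
  have hP0 : 0 ≤ P := by positivity
  have hkst : (((X ×ˢ Y).filter (fun z => NRel z.1 z.2 ∧ eval (v2 z.2.1) (g z.1) = 0)).card : ℝ) ≤
      X.card + 2 * Real.sqrt X.card * Y.card := by
    have := hs (Pt × Pt) (Pt × Pt) (fun x y => NRel x y ∧ eval (v2 y.1) (g x) = 0) X Y
      (fun y₁ _ y₂ _ hy => by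
        have h1 : (X.filter (fun x => (NRel x y₁ ∧ eval (v2 y₁.1) (g x) = 0) ∧
            (NRel x y₂ ∧ eval (v2 y₂.1) (g x) = 0))).card ≤ 3 := by
          refine hk y₁ y₂ hy _ fun x hx => ?_
          rw [Finset.mem_filter] at hx
          exact ⟨hx.2.1.1, hx.2.2.1⟩
        convert h1)
    convert this
  by_cases hcase : (Y.card : ℝ) ^ 2 < X.card
  · have h5 : (Y.card : ℝ) ≤ Real.sqrt X.card := by
      refine Real.le_sqrt_of_sq_le hcase.le
    have h6 : Real.sqrt (X.card : ℝ) * Y.card ≤ X.card := by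
      calc Real.sqrt (X.card : ℝ) * Y.card ≤ Real.sqrt X.card * Real.sqrt X.card :=
            mul_le_mul_of_nonneg_left h5 (Real.sqrt_nonneg _)
        _ = X.card := Real.mul_self_sqrt (Nat.cast_nonneg _)
    have h7 : (((X ×ˢ Y).filter (fun z => NRel z.1 z.2 ∧ eval (v2 z.2.1) (g z.1) = 0)).card : ℝ) ≤
        3 * X.card := hkst.trans (by linarith)
    have h8 : (0 : ℝ) ≤ X.card := Nat.cast_nonneg _
    have h9 : (0 : ℝ) ≤ Y.card := Nat.cast_nonneg _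
    have h10 : 3 * (X.card : ℝ) ≤ C₀ * (P + X.card + Y.card) := by nlinarith
    refine le_trans ?_ h10
    convert h7
  rw [not_lt] at hcase
  rcases Nat.eq_zero_or_pos X.card with hX0 | hX0
  · have : ((X ×ˢ Y).filter (fun z => NRel z.1 z.2 ∧ eval (v2 z.2.1) (g z.1) = 0)).card = 0 := by
      rw [Finset.card_eq_zero.1 hX0]
      simp
    have h11 : (0 : ℝ) ≤ C₀ * (P + X.card + Y.card) := by positivity
    refine le_trans (le_of_eq ?_) h11
    have h12 : (((X ×ˢ Y).filter (fun z => NRel z.1 z.2 ∧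
        eval (v2 z.2.1) (g z.1) = 0)).card : ℝ) = 0 := by exact_mod_cast this
    convert h12
  have hxpos : (0 : ℝ) < X.card := by exact_mod_cast hX0
  have hY0 : 0 < Y.card := by
    rcases Nat.eq_zero_or_pos Y.card with h | h
    · rw [h] at hcase
      norm_num at hcase
      rw [hcase] at hX0
      simp at hX0
    · exact h
  have hypos : (0 : ℝ) < Y.card := by exact_mod_cast hY0
  have hP : 0 < P := by positivity
  have hP3 : P ^ 3 = (X.card : ℝ) ^ 2 * (Y.card : ℝ) ^ 2 := by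
    rw [hPdef, mul_pow, ← Real.rpow_natCast, ← Real.rpow_natCast, ← Real.rpow_mul hxpos.le,
      ← Real.rpow_mul hypos.le]
    norm_num
  set γ : ℝ := P / X.card with hγ
  have hγ1 : 1 ≤ γ := by
    rw [hγ, one_le_div hxpos]
    by_contra hcon
    push Not at hcon
    have h13 : P ^ 3 < (X.card : ℝ) ^ 3 := pow_lt_pow_left₀ hcon hP.le (by norm_num)
    rw [hP3] at h13
    nlinarith [pow_pos hxpos 2]
  -- the four projections
  obtain ⟨G0, hG0, hd0, hn0⟩ := hstep X Y Y g 0 P γ hg (Finset.Subset.refl _) hX0 hY0 hP hP3 hγ hγ1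
  set Y1 := Y.filter (fun y => eval (v2 (prj 0 y)) G0 = 0) with hY1
  have hs1 : Y1 ⊆ Y := Finset.filter_subset _ _
  obtain ⟨G1, hG1, hd1, hn1⟩ := hstep X Y Y1 g 1 P γ hg hs1 hX0 hY0 hP hP3 hγ hγ1
  set Y2 := Y1.filter (fun y => eval (v2 (prj 1 y)) G1 = 0) with hY2
  have hs2 : Y2 ⊆ Y := (Finset.filter_subset _ _).trans hs1
  obtain ⟨G2, hG2, hd2, hn2⟩ := hstep X Y Y2 g 2 P γ hg hs2 hX0 hY0 hP hP3 hγ hγ1
  set Y3 := Y2.filter (fun y => eval (v2 (prj 2 y)) G2 = 0) with hY3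
  have hs3 : Y3 ⊆ Y := (Finset.filter_subset _ _).trans hs2
  obtain ⟨G3, hG3, hd3, hn3⟩ := hstep X Y Y3 g 3 P γ hg hs3 hX0 hY0 hP hP3 hγ hγ1
  set Y4 := Y3.filter (fun y => eval (v2 (prj 3 y)) G3 = 0) with hY4
  have hs4 : Y4 ⊆ Y := (Finset.filter_subset _ _).trans hs3
  set G : Fin 4 → MvPolynomial (Fin 2) ℝ := ![G0, G1, G2, G3] with hG
  have hGne : ∀ i, G i ≠ 0 := by
    intro i
    fin_cases i
    · exact hG0
    · exact hG1
    · exact hG2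
    · exact hG3
  have hGz : ∀ y ∈ Y4, ∀ i, eval (v2 (prj i y)) (G i) = 0 := by
    intro y hy i
    have h14 := Finset.mem_filter.1 hy
    have h15 := Finset.mem_filter.1 h14.1
    have h16 := Finset.mem_filter.1 h15.1
    have h17 := Finset.mem_filter.1 h16.1
    fin_cases i
    · exact h17.2
    · exact h16.2
    · exact h15.2
    · exact h14.2
  have hGd : ∀ i, (G i).totalDegree ≤ ⌊C * γ⌋₊ := by
    intro i
    fin_cases i
    · exact Nat.le_floor hd0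
    · exact Nat.le_floor hd1
    · exact Nat.le_floor hd2
    · exact Nat.le_floor hd3
  -- the common zero set, type C
  have hcC : (((X ×ˢ Y4).filter (fun z => NRel z.1 z.2 ∧ TypeC G z.1 z.2)).card : ℝ) ≤
      4 * Y.card := by
    have h18 : ((X ×ˢ Y4).filter (fun z => NRel z.1 z.2 ∧ TypeC G z.1 z.2)).card ≤
        ∑ y ∈ Y4, 4 := by
      have h19 : ((X ×ˢ Y4).filter (fun z => NRel z.1 z.2 ∧ TypeC G z.1 z.2)).card =
          ∑ y ∈ Y4, (((X ×ˢ Y4).filter (fun z => NRel z.1 z.2 ∧ TypeC G z.1 z.2)).filter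
            (fun z => z.2 = y)).card :=
        Finset.card_eq_sum_card_fiberwise (fun z hz =>
          (Finset.mem_product.1 (Finset.mem_filter.1 hz).1).2)
      rw [h19]
      refine Finset.sum_le_sum fun y hy => ?_
      rw [← Finset.card_image_of_injOn (f := fun z : (Pt × Pt) × (Pt × Pt) => z.1)]
      · refine h4 G y hGne (hGz y hy) _ fun x hx => ?_
        obtain ⟨z, hz, rfl⟩ := Finset.mem_image.1 hx
        rw [Finset.mem_filter, Finset.mem_filter] at hz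
        rw [← hz.2]
        exact hz.1.2
      · intro z hz w hw hzw
        rw [Finset.mem_coe, Finset.mem_filter] at hz hw
        exact Prod.ext hzw (hz.2.trans hw.2.symm)
    rw [Finset.sum_const, smul_eq_mul] at h18
    have h20 : Y4.card * 4 ≤ 4 * Y.card := by
      have := Finset.card_le_card hs4
      omega
    exact_mod_cast h18.trans h20
  -- the common zero set, not type C
  have hcN : (((X ×ˢ Y4).filter (fun z => NRel z.1 z.2 ∧ eval (v2 z.2.1) (g z.1) = 0 ∧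
      ¬ TypeC G z.1 z.2)).card : ℝ) ≤ (8 * a * C + a ^ 2) * P := by
    have h18 : ((X ×ˢ Y4).filter (fun z => NRel z.1 z.2 ∧ eval (v2 z.2.1) (g z.1) = 0 ∧
        ¬ TypeC G z.1 z.2)).card ≤ ∑ x ∈ X, (8 * a * ⌊C * γ⌋₊ + a ^ 2) := by
      have h19 : ((X ×ˢ Y4).filter (fun z => NRel z.1 z.2 ∧ eval (v2 z.2.1) (g z.1) = 0 ∧
          ¬ TypeC G z.1 z.2)).card =
          ∑ x ∈ X, (((X ×ˢ Y4).filter (fun z => NRel z.1 z.2 ∧ eval (v2 z.2.1) (g z.1) = 0 ∧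
            ¬ TypeC G z.1 z.2)).filter (fun z => z.1 = x)).card :=
        Finset.card_eq_sum_card_fiberwise (fun z hz =>
          (Finset.mem_product.1 (Finset.mem_filter.1 hz).1).1)
      rw [h19]
      refine Finset.sum_le_sum fun x hx => ?_
      rw [← Finset.card_image_of_injOn (f := fun z : (Pt × Pt) × (Pt × Pt) => z.2)]
      · have h21 := hz G ⌊C * γ⌋₊ x (g x) ((((X ×ˢ Y4).filter (fun z => NRel z.1 z.2 ∧
          eval (v2 z.2.1) (g z.1) = 0 ∧ ¬ TypeC G z.1 z.2)).filter (fun z => z.1 = x)).image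
            (fun z : (Pt × Pt) × (Pt × Pt) => z.2)) hGne hGd (hg x hx).1 (fun y hy => by
            obtain ⟨z, hz, rfl⟩ := Finset.mem_image.1 hy
            rw [Finset.mem_filter, Finset.mem_filter] at hz
            obtain ⟨⟨hz1, hz2, hz3, hz4⟩, rfl⟩ := hz
            exact ⟨hz2, hz3, hGz z.2 (Finset.mem_product.1 hz1).2, hz4⟩)
        refine h21.trans ?_
        have h22 := (hg x hx).2
        gcongr
      · intro z hz w hw hzw
        rw [Finset.mem_coe, Finset.mem_filter] at hz hw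
        exact Prod.ext (hz.2.trans hw.2.symm) hzw
    rw [Finset.sum_const, smul_eq_mul] at h18
    have h20 : (((X ×ˢ Y4).filter (fun z => NRel z.1 z.2 ∧ eval (v2 z.2.1) (g z.1) = 0 ∧
        ¬ TypeC G z.1 z.2)).card : ℝ) ≤ X.card * (8 * a * (⌊C * γ⌋₊ : ℝ) + a ^ 2) := by
      exact_mod_cast h18
    refine h20.trans ?_
    have h23 : ((⌊C * γ⌋₊ : ℕ) : ℝ) ≤ C * γ := Nat.floor_le (by positivity)
    have h24 : (X.card : ℝ) * γ = P := by rw [hγ]; field_simp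
    calc (X.card : ℝ) * (8 * a * (⌊C * γ⌋₊ : ℝ) + a ^ 2)
        ≤ X.card * (8 * a * (C * γ) + a ^ 2 * γ) := by
          refine mul_le_mul_of_nonneg_left (add_le_add ?_ ?_) hxpos.le
          · exact mul_le_mul_of_nonneg_left h23 (by positivity)
          · exact le_mul_of_one_le_right (by positivity) hγ1
      _ = (8 * a * C + a ^ 2) * (X.card * γ) := by ring
      _ = (8 * a * C + a ^ 2) * P := by rw [h24]
  -- the decomposition
  have hcardR := card_le6 ((X ×ˢ Y).filter (fun z => NRel z.1 z.2 ∧ eval (v2 z.2.1) (g z.1) = 0))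
    ((X ×ˢ Y).filter (fun z => NRel z.1 z.2 ∧ eval (v2 z.2.1) (g z.1) = 0 ∧
        eval (v2 (prj 0 z.2)) G0 ≠ 0))
    ((X ×ˢ Y1).filter (fun z => NRel z.1 z.2 ∧ eval (v2 z.2.1) (g z.1) = 0 ∧
        eval (v2 (prj 1 z.2)) G1 ≠ 0))
    ((X ×ˢ Y2).filter (fun z => NRel z.1 z.2 ∧ eval (v2 z.2.1) (g z.1) = 0 ∧
        eval (v2 (prj 2 z.2)) G2 ≠ 0))
    ((X ×ˢ Y3).filter (fun z => NRel z.1 z.2 ∧ eval (v2 z.2.1) (g z.1) = 0 ∧
        eval (v2 (prj 3 z.2)) G3 ≠ 0))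
    ((X ×ˢ Y4).filter (fun z => NRel z.1 z.2 ∧ TypeC G z.1 z.2))
    ((X ×ˢ Y4).filter (fun z => NRel z.1 z.2 ∧ eval (v2 z.2.1) (g z.1) = 0 ∧
        ¬ TypeC G z.1 z.2)) (by
    intro z hz
    rw [Finset.mem_filter, Finset.mem_product] at hz
    obtain ⟨⟨hzX, hzY⟩, hz1, hz2⟩ := hz
    simp only [Finset.mem_filter, Finset.mem_product]
    by_cases c0 : eval (v2 (prj 0 z.2)) G0 = 0
    · have m1 : z.2 ∈ Y1 := Finset.mem_filter.2 ⟨hzY, c0⟩
      by_cases c1 : eval (v2 (prj 1 z.2)) G1 = 0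
      · have m2 : z.2 ∈ Y2 := Finset.mem_filter.2 ⟨m1, c1⟩
        by_cases c2 : eval (v2 (prj 2 z.2)) G2 = 0
        · have m3 : z.2 ∈ Y3 := Finset.mem_filter.2 ⟨m2, c2⟩
          by_cases c3 : eval (v2 (prj 3 z.2)) G3 = 0
          · have m4 : z.2 ∈ Y4 := Finset.mem_filter.2 ⟨m3, c3⟩
            by_cases cC : TypeC G z.1 z.2
            · exact Or.inr (Or.inr (Or.inr (Or.inr (Or.inl ⟨⟨hzX, m4⟩, hz1, cC⟩))))
            · exact Or.inr (Or.inr (Or.inr (Or.inr (Or.inr ⟨⟨hzX, m4⟩, hz1, hz2, cC⟩))))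
          · exact Or.inr (Or.inr (Or.inr (Or.inl ⟨⟨hzX, m3⟩, hz1, hz2, c3⟩)))
        · exact Or.inr (Or.inr (Or.inl ⟨⟨hzX, m2⟩, hz1, hz2, c2⟩))
      · exact Or.inr (Or.inl ⟨⟨hzX, m1⟩, hz1, hz2, c1⟩)
    · exact Or.inl ⟨⟨hzX, hzY⟩, hz1, hz2, c0⟩)
  have hfin : 4 * ((9 * Ca + 1) * P) + 4 * (Y.card : ℝ) + (8 * a * C + a ^ 2) * P ≤
      C₀ * (P + X.card + Y.card) := by
    have h26 : 0 ≤ 8 * (a : ℝ) * C + a ^ 2 := by positivity
    have h27 : 4 ≤ C₀ := by rw [hC₀]; linarith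
    have h28 : 4 * (9 * Ca + 1) + (8 * a * C + a ^ 2) ≤ C₀ := by rw [hC₀]; linarith
    have h29 : (4 * (9 * Ca + 1) + (8 * a * C + a ^ 2)) * P ≤ C₀ * P :=
      mul_le_mul_of_nonneg_right h28 hP.le
    have h30 : 4 * (Y.card : ℝ) ≤ C₀ * Y.card := mul_le_mul_of_nonneg_right h27 hypos.le
    have h31 : 0 ≤ C₀ * (X.card : ℝ) := by positivity
    calc 4 * ((9 * Ca + 1) * P) + 4 * (Y.card : ℝ) + (8 * a * C + a ^ 2) * P
        = (4 * (9 * Ca + 1) + (8 * a * C + a ^ 2)) * P + 4 * Y.card := by ring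
      _ ≤ C₀ * P + C₀ * Y.card := add_le_add h29 h30
      _ ≤ C₀ * (P + X.card + Y.card) := by nlinarith
  have hfin2 : (((X ×ˢ Y).filter (fun z => NRel z.1 z.2 ∧
      eval (v2 z.2.1) (g z.1) = 0)).card : ℝ) ≤ C₀ * (P + X.card + Y.card) := by
    linarith [hcardR, hn0, hn1, hn2, hn3, hcC, hcN, hfin]
  exact hfin2

end Pool.Agent.Work.MP_916cc8_co
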