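import Pool.Agent.Work.MP_916cc8_co.Bd.B01

/-!
Auxiliary lemmas for the items Vis3, Vis4: the surface of `x` as a graph of a rational map.
-/

set_option autoImplicit false

namespace Pool.Agent.Work.MP_916cc8_co

open MvPolynomial

namespace Vis

/-- the denominator -/
noncomputable def dn (x : Pt × Pt) : MvPolynomial (Fin 2) ℝ :=
  C 2 + ((X 0 - C x.1.1) * C (x.1 - x.2).2 - (X 1 - C x.1.2) * C (x.1 - x.2).1)

theorem eval_dn (x : Pt × Pt) (q : Pt) :
    eval (v2 q) (dn x) = 2 + cr (q - x.1) (x.1 - x.2) := by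
  simp [dn, v2, cr]

theorem deg_lin (i : Fin 2) (c : ℝ) : (X i - C c : MvPolynomial (Fin 2) ℝ).totalDegree ≤ 1 := by
  refine (totalDegree_sub _ _).trans ?_
  simp

theorem deg_linC (i : Fin 2) (c d : ℝ) :
    ((X i - C c) * C d : MvPolynomial (Fin 2) ℝ).totalDegree ≤ 1 := by
  refine (totalDegree_mul _ _).trans ?_
  have := deg_lin i c
  simpa using this

theorem deg_Clin (i : Fin 2) (c d : ℝ) :
    (C d * (X i - C c) : MvPolynomial (Fin 2) ℝ).totalDegree ≤ 1 := by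
  rw [mul_comm]
  exact deg_linC i c d

theorem deg_dn (x : Pt × Pt) : (dn x).totalDegree ≤ 1 := by
  unfold dn
  refine (totalDegree_add _ _).trans (max_le (by simp) ?_)
  refine (totalDegree_sub _ _).trans (max_le ?_ ?_)
  · exact deg_linC _ _ _
  · exact deg_linC _ _ _

theorem deg_Xdn (i : Fin 2) (x : Pt × Pt) :
    (X i * dn x : MvPolynomial (Fin 2) ℝ).totalDegree ≤ 2 := by
  refine (totalDegree_mul _ _).trans ?_
  have := deg_dn x
  have h2 : (X i : MvPolynomial (Fin 2) ℝ).totalDegree ≤ 1 := by simp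
  omega

theorem deg_Cdn (c : ℝ) (x : Pt × Pt) :
    (C c * dn x : MvPolynomial (Fin 2) ℝ).totalDegree ≤ 1 := by
  refine (totalDegree_mul _ _).trans ?_
  have := deg_dn x
  simpa using this

/-- composition of a polynomial with the graph -/
theorem pull (hc : Clr) {m : ℕ} (x : Pt × Pt) (N : Fin m → MvPolynomial (Fin 2) ℝ)
    (u : Pt × Pt → Fin m → ℝ) (hN : ∀ i, (N i).totalDegree ≤ 2)
    (hu : ∀ z, Rel x z → ∀ i, eval (v2 z.1) (N i) / eval (v2 z.1) (dn x) = u z i)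
    (P : MvPolynomial (Fin m) ℝ) :
    ∃ Q : MvPolynomial (Fin 2) ℝ, Q.totalDegree ≤ 4 * P.totalDegree ∧
      ∀ z, Rel x z → ∃ c : ℝ, 0 < c ∧ eval (v2 z.1) Q = c * eval (u z) P := by
  obtain ⟨Q, hQ, hev⟩ := hc 2 m P N (dn x) 2 (2 * P.totalDegree) hN
    ((deg_dn x).trans (by norm_num)) (by omega)
  refine ⟨Q, hQ.trans (by omega), fun z hz => ?_⟩
  have hd : eval (v2 z.1) (dn x) ≠ 0 := by
    rw [eval_dn]
    exact rel_den hz
  refine ⟨eval (v2 z.1) (dn x) ^ (2 * P.totalDegree), ?_, ?_⟩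
  · rw [pow_mul]
    positivity
  · rw [hev _ hd]
    have h5 : (fun i => eval (v2 z.1) (N i) / eval (v2 z.1) (dn x)) = u z := by
      funext i
      exact hu z hz i
    rw [h5]

theorem v2_inj {p q : Pt} (h : v2 p = v2 q) : p = q := by
  have h0 := congrFun h 0
  have h1 := congrFun h 1
  simp only [v2, Matrix.cons_val_zero, Matrix.cons_val_one] at h0 h1
  exact Prod.ext h0 h1

theorem sameCl_pull {m t : ℕ} {f : Fin t → MvPolynomial (Fin m) ℝ}
    {Q : Fin t → MvPolynomial (Fin 2) ℝ} {x : Pt × Pt} {u : Pt × Pt → Fin m → ℝ}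
    (hQ : ∀ j, ∀ z, Rel x z → ∃ c : ℝ, 0 < c ∧ eval (v2 z.1) (Q j) = c * eval (u z) (f j))
    {z w : Pt × Pt} (hz : Rel x z) (hw : Rel x w) (h : sameCl Q (v2 z.1) (v2 w.1)) :
    sameCl f (u z) (u w) := by
  intro j
  obtain ⟨c, hc, h1⟩ := hQ j z hz
  obtain ⟨d, hd, h2⟩ := hQ j w hw
  have h3 := h j
  rw [h1, h2] at h3
  have h4 : c * eval (u z) (f j) * (d * eval (u w) (f j)) =
      (c * d) * (eval (u z) (f j) * eval (u w) (f j)) := by ring
  rw [h4] at h3
  exact pos_of_mul_pos_right h3 (by positivity)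

end Vis

end Pool.Agent.Work.MP_916cc8_co
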