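import Pool.Agent.Work.MP_916cc8_co.Stmts3
import Pool.Agent.Work.MP_916cc8_co.VisAux
import Pool.Agent.Work.MP_916cc8_co.TanDer

/-!
Item PZ: on the curve of `x`, few points of the common zero set are not of type C (helper50).
-/

set_option autoImplicit false

namespace Pool.Agent.Work.MP_916cc8_co

open MvPolynomial

namespace PZA

theorem pd_deg (i : Fin 2) (F : MvPolynomial (Fin 2) ℝ) (h : pderiv i F ≠ 0) :
    (pderiv i F).totalDegree < F.totalDegree := by
  obtain ⟨m, hm, hd⟩ : ∃ m ∈ (pderiv i F).support,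
      (pderiv i F).totalDegree = m.sum fun _ e => e := by
    have h1 : (pderiv i F).support.Nonempty := support_nonempty.mpr h
    exact Finset.exists_mem_eq_sup _ h1 (fun m => m.sum fun _ e => e)
  have h2 : m + Finsupp.single i 1 ∈ F.support := by
    rw [mem_support_iff] at hm ⊢
    rw [coeff_pderiv] at hm
    exact left_ne_zero_of_mul hm
  have h3 := le_totalDegree h2
  rw [Finsupp.sum_add_index' (fun _ => rfl) (fun _ _ _ => rfl), Finsupp.sum_single_index rfl] at h3
  omega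

theorem pd_deg_le (i : Fin 2) (F : MvPolynomial (Fin 2) ℝ) :
    (pderiv i F).totalDegree ≤ F.totalDegree := by
  by_cases h : pderiv i F = 0
  · rw [h, totalDegree_zero]
    exact Nat.zero_le _
  · exact (pd_deg i F h).le

theorem der_deg (l : List (Fin 2)) (F : MvPolynomial (Fin 2) ℝ) :
    (der2 l F).totalDegree ≤ F.totalDegree := by
  induction l with
  | nil => exact le_rfl
  | cons i l ih => exact (pd_deg_le i (der2 l F)).trans ih

theorem der_append (l : List (Fin 2)) (i : Fin 2) (F : MvPolynomial (Fin 2) ℝ) :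
    der2 (l ++ [i]) F = der2 l (pderiv i F) := by
  simp [der2, List.foldr_append]

theorem exists_pd (F : MvPolynomial (Fin 2) ℝ) (h0 : F.totalDegree ≠ 0) :
    ∃ i, pderiv i F ≠ 0 := by
  have hF : F ≠ 0 := by
    rintro rfl
    exact h0 totalDegree_zero
  obtain ⟨m, hm, hd⟩ : ∃ m ∈ F.support, F.totalDegree = m.sum fun _ e => e := by
    have h1 : F.support.Nonempty := support_nonempty.mpr hF
    exact Finset.exists_mem_eq_sup _ h1 (fun m => m.sum fun _ e => e)
  obtain ⟨i, hi⟩ : ∃ i, m i ≠ 0 := by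
    by_contra hc
    push Not at hc
    have h2 : m = 0 := by
      ext i
      exact hc i
    rw [h2, Finsupp.sum_zero_index] at hd
    exact h0 hd
  have h3 : m - Finsupp.single i 1 + Finsupp.single i 1 = m := by
    ext j
    by_cases hj : i = j
    · subst hj
      simp
      omega
    · simp [hj]
  have h4 : coeff (m - Finsupp.single i 1) (pderiv i F) ≠ 0 := by
    rw [coeff_pderiv, h3]
    refine mul_ne_zero (mem_support_iff.mp hm) ?_
    positivity
  refine ⟨i, fun h6 => ?_⟩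
  rw [h6, coeff_zero] at h4
  exact h4 rfl

theorem exists_der : ∀ (k : ℕ) (F : MvPolynomial (Fin 2) ℝ), F.totalDegree ≤ k → F ≠ 0 →
    ∃ (l : List (Fin 2)) (c : ℝ), c ≠ 0 ∧ der2 l F = C c := by
  intro k
  induction k with
  | zero =>
    intro F hk hF
    have h1 : F = C (coeff 0 F) := by
      rw [← totalDegree_eq_zero_iff_eq_C]
      omega
    refine ⟨[], coeff 0 F, ?_, h1⟩
    intro h2
    rw [h2, C_0] at h1
    exact hF h1
  | succ k ih =>
    intro F hk hF
    by_cases h0 : F.totalDegree = 0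
    · exact ih F (by omega) hF
    · obtain ⟨i, h5⟩ := exists_pd F h0
      obtain ⟨l, c, hc, hl⟩ := ih (pderiv i F) (by have := pd_deg i F h5; omega) h5
      exact ⟨l ++ [i], c, hc, by rw [der_append, hl]⟩

/-- the map of `x` -/
noncomputable def psi (x : Pt × Pt) (q : Pt) : Pt :=
  (x.2.1 + 2 * (q.1 - x.1.1) / (2 + cr (q - x.1) (x.1 - x.2)),
    x.2.2 + 2 * (q.2 - x.1.2) / (2 + cr (q - x.1) (x.1 - x.2)))

theorem rel_psi {x y : Pt × Pt} (h : Rel x y) : y = (y.1, psi x y.1) :=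
  Prod.ext rfl (Prod.ext (rel_fst h) (rel_snd h))

noncomputable def ps1 (x : Pt × Pt) : MvPolynomial (Fin 2) ℝ :=
  C x.2.1 * Vis.dn x + C 2 * (X 0 - C x.1.1)

noncomputable def ps2 (x : Pt × Pt) : MvPolynomial (Fin 2) ℝ :=
  C x.2.2 * Vis.dn x + C 2 * (X 1 - C x.1.2)

/-- numerators of the projections -/
noncomputable def Nm (x : Pt × Pt) (i : Fin 4) : Fin 2 → MvPolynomial (Fin 2) ℝ :=
  ![![X 0 * Vis.dn x, X 1 * Vis.dn x], ![ps1 x, ps2 x],
    ![X 0 * Vis.dn x + ps1 x, X 1 * Vis.dn x + ps2 x],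
    ![X 0 * Vis.dn x - ps2 x, X 1 * Vis.dn x + ps1 x]] i

theorem deg_ps1 (x : Pt × Pt) : (ps1 x).totalDegree ≤ 2 :=
  (totalDegree_add _ _).trans (max_le ((Vis.deg_Cdn _ x).trans (by norm_num))
    ((Vis.deg_Clin _ _ _).trans (by norm_num)))

theorem deg_ps2 (x : Pt × Pt) : (ps2 x).totalDegree ≤ 2 :=
  (totalDegree_add _ _).trans (max_le ((Vis.deg_Cdn _ x).trans (by norm_num))
    ((Vis.deg_Clin _ _ _).trans (by norm_num)))

theorem deg_Nm (x : Pt × Pt) (i : Fin 4) (j : Fin 2) : (Nm x i j).totalDegree ≤ 2 := by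
  have h0 := Vis.deg_Xdn 0 x
  have h1 := Vis.deg_Xdn 1 x
  have h2 := deg_ps1 x
  have h3 := deg_ps2 x
  fin_cases i <;> fin_cases j
  · exact h0
  · exact h1
  · exact h2
  · exact h3
  · exact (totalDegree_add _ _).trans (max_le h0 h2)
  · exact (totalDegree_add _ _).trans (max_le h1 h3)
  · exact (totalDegree_sub _ _).trans (max_le h0 h3)
  · exact (totalDegree_add _ _).trans (max_le h1 h2)

theorem eval_Nm (x : Pt × Pt) (i : Fin 4) (j : Fin 2) (q : Pt)
    (hq : 2 + cr (q - x.1) (x.1 - x.2) ≠ 0) :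
    eval (v2 q) (Nm x i j) / eval (v2 q) (Vis.dn x) = v2 (prj i (q, psi x q)) j := by
  have hd := hq
  rw [Vis.eval_dn]
  set s := 2 + cr (q - x.1) (x.1 - x.2) with hs
  have e0 : eval (v2 q) (X 0 * Vis.dn x) = q.1 * s := by
    rw [map_mul, Vis.eval_dn, eval_X]; rfl
  have e1 : eval (v2 q) (X 1 * Vis.dn x) = q.2 * s := by
    rw [map_mul, Vis.eval_dn, eval_X]; rfl
  have e2 : eval (v2 q) (ps1 x) = (psi x q).1 * s := by
    simp only [ps1, psi, map_add, map_mul, map_sub, Vis.eval_dn, eval_X, eval_C]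
    rw [← hs]
    show x.2.1 * s + 2 * (q.1 - x.1.1) = _
    field_simp
  have e3 : eval (v2 q) (ps2 x) = (psi x q).2 * s := by
    simp only [ps2, psi, map_add, map_mul, map_sub, Vis.eval_dn, eval_X, eval_C]
    rw [← hs]
    show x.2.2 * s + 2 * (q.2 - x.1.2) = _
    field_simp
  rw [div_eq_iff hd]
  fin_cases i <;> fin_cases j
  · exact e0
  · exact e1
  · exact e2
  · exact e3
  · show eval (v2 q) (X 0 * Vis.dn x + ps1 x) = (q.1 + (psi x q).1) * s
    rw [map_add, e0, e2]; ring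
  · show eval (v2 q) (X 1 * Vis.dn x + ps2 x) = (q.2 + (psi x q).2) * s
    rw [map_add, e1, e3]; ring
  · show eval (v2 q) (X 0 * Vis.dn x - ps2 x) = (q.1 + -(psi x q).2) * s
    rw [map_sub, e0, e3]; ring
  · show eval (v2 q) (X 1 * Vis.dn x + ps1 x) = (q.2 + (psi x q).1) * s
    rw [map_add, e1, e2]; ring

theorem pull (hc : Clr) (x : Pt × Pt) (D : ℕ) (i : Fin 4) (H : MvPolynomial (Fin 2) ℝ)
    (hH : H.totalDegree ≤ D) : ∃ Q : MvPolynomial (Fin 2) ℝ, Q.totalDegree ≤ 2 * D ∧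
      ∀ q : Pt, 2 + cr (q - x.1) (x.1 - x.2) ≠ 0 →
        eval (v2 q) Q = (2 + cr (q - x.1) (x.1 - x.2)) ^ D *
          eval (v2 (prj i (q, psi x q))) H := by
  obtain ⟨Q, hQ, hev⟩ := hc 2 2 H (Nm x i) (Vis.dn x) 2 D (deg_Nm x i)
    ((Vis.deg_dn x).trans (by norm_num)) hH
  refine ⟨Q, hQ, fun q hq => ?_⟩
  rw [hev (v2 q) (by rw [Vis.eval_dn]; exact hq)]
  have h5 : (fun j => eval (v2 q) (Nm x i j) / eval (v2 q) (Vis.dn x)) =
      v2 (prj i (q, psi x q)) := by
    funext j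
    exact eval_Nm x i j q hq
  rw [h5, Vis.eval_dn]

theorem hasDerivAt_lin (a b : ℝ) : HasDerivAt (fun t : ℝ => a + t * b) b 0 := by
  have := ((hasDerivAt_id (0 : ℝ)).mul_const b).const_add a
  simpa using this

/-- derivative of the projections of the surface -/
theorem hasDerivAt_prj {x y : Pt × Pt} (hxy : Rel x y) {δ δ' : Pt} (hA : AxEq x y δ δ')
    (i : Fin 4) (j : Fin 2) :
    HasDerivAt (fun t : ℝ => v2 (prj i ((y.1.1 + t * δ.1, y.1.2 + t * δ.2),
      psi x (y.1.1 + t * δ.1, y.1.2 + t * δ.2))) j) (v2 (prj i (δ, δ')) j) 0 := by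
  have hs := rel_den hxy
  have e1 := rel_fst hxy
  have e2 := rel_snd hxy
  set s₀ := 2 + cr (y.1 - x.1) (x.1 - x.2) with hs0
  set d := cr δ (x.1 - x.2) with hd
  have hst : ∀ t : ℝ, 2 + cr (((y.1.1 + t * δ.1, y.1.2 + t * δ.2) : Pt) - x.1) (x.1 - x.2) =
      s₀ + t * d := by
    intro t
    simp only [hs0, hd, cr, Prod.fst_sub, Prod.snd_sub]
    ring
  have hcomp : ∀ a b c e : ℝ, HasDerivAt (fun t : ℝ => c + 2 * ((a + t * b) - e) / (s₀ + t * d))
      ((2 * b * s₀ - 2 * (a - e) * d) / s₀ ^ 2) 0 := by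
    intro a b c e
    have h1 : HasDerivAt (fun t : ℝ => 2 * ((a + t * b) - e)) (2 * b) 0 :=
      ((hasDerivAt_lin a b).sub_const e).const_mul 2
    have h2 := (h1.div (hasDerivAt_lin s₀ d) (by simpa using hs)).const_add c
    refine h2.congr_deriv ?_
    simp
  obtain ⟨hA1, hA2⟩ := hA
  have e5 : 1 + cr (y.1 - x.1) (x.1 - x.2) / 2 = s₀ / 2 := by rw [hs0]; ring
  rw [e5, ← hd] at hA1 hA2
  have e3 : y.2.1 - x.2.1 = 2 * (y.1.1 - x.1.1) / s₀ := by rw [e1]; ring
  have e4 : y.2.2 - x.2.2 = 2 * (y.1.2 - x.1.2) / s₀ := by rw [e2]; ring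
  rw [e3] at hA1
  rw [e4] at hA2
  have f1 : (2 * δ.1 * s₀ - 2 * (y.1.1 - x.1.1) * d) / s₀ ^ 2 = δ'.1 := by
    field_simp at hA1 ⊢
    linarith
  have f2 : (2 * δ.2 * s₀ - 2 * (y.1.2 - x.1.2) * d) / s₀ ^ 2 = δ'.2 := by
    field_simp at hA2 ⊢
    linarith
  have p1 : HasDerivAt (fun t : ℝ => (psi x (y.1.1 + t * δ.1, y.1.2 + t * δ.2)).1) δ'.1 0 := by
    have h := hcomp y.1.1 δ.1 x.2.1 x.1.1
    rw [f1] at h
    refine h.congr_of_eventuallyEq (Filter.Eventually.of_forall fun t => ?_)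
    simp only [psi]
    rw [hst]
  have p2 : HasDerivAt (fun t : ℝ => (psi x (y.1.1 + t * δ.1, y.1.2 + t * δ.2)).2) δ'.2 0 := by
    have h := hcomp y.1.2 δ.2 x.2.2 x.1.2
    rw [f2] at h
    refine h.congr_of_eventuallyEq (Filter.Eventually.of_forall fun t => ?_)
    simp only [psi]
    rw [hst]
  have q1 := hasDerivAt_lin y.1.1 δ.1
  have q2 := hasDerivAt_lin y.1.2 δ.2
  fin_cases i <;> fin_cases j
  · exact q1
  · exact q2
  · exact p1
  · exact p2
  · exact q1.add p1
  · exact q2.add p2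
  · exact q1.add p2.neg
  · exact q2.add p1

theorem not_dvd_small {k P : MvPolynomial (Fin 2) ℝ} (hP : P ≠ 0)
    (h : P.totalDegree < k.totalDegree) : ¬ k ∣ P := by
  rintro ⟨m, rfl⟩
  have hk : k ≠ 0 := left_ne_zero_of_mul hP
  have hm : m ≠ 0 := right_ne_zero_of_mul hP
  rw [totalDegree_mul_of_isDomain hk hm] at h
  omega

theorem bez' (hb : Bez) {x : Pt × Pt} {k P : MvPolynomial (Fin 2) ℝ} (hk : Irreducible k)
    (hP : ¬ k ∣ P) (Z : Finset (Pt × Pt))
    (hZ : ∀ y ∈ Z, Rel x y ∧ eval (v2 y.1) k = 0 ∧ eval (v2 y.1) P = 0) :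
    Z.card ≤ k.totalDegree * P.totalDegree := by
  classical
  have hinj : Set.InjOn (fun z : Pt × Pt => v2 z.1) (Z : Set (Pt × Pt)) := by
    intro z hz w hw' h
    exact rel_unique (hZ z hz).1 (hZ w hw').1 (Vis.v2_inj h)
  rw [← Finset.card_image_of_injOn hinj]
  refine hb k P (hk.isRelPrime_iff_not_dvd.2 hP) _ ?_
  intro z hz
  obtain ⟨y, hy, rfl⟩ := Finset.mem_image.1 hz
  exact (hZ y hy).2

theorem irr_case (hb : Bez) (hc : Clr) (G : Fin 4 → MvPolynomial (Fin 2) ℝ) (D : ℕ)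
    (x : Pt × Pt) (k : MvPolynomial (Fin 2) ℝ) (hk : Irreducible k) (hG : ∀ i, G i ≠ 0)
    (hD : ∀ i, (G i).totalDegree ≤ D) (Z : Finset (Pt × Pt))
    (hZ : ∀ y ∈ Z, NRel x y ∧ eval (v2 y.1) k = 0 ∧ (∀ i, eval (v2 (prj i y)) (G i) = 0) ∧
      ¬ TypeC G x y) : Z.card ≤ 8 * k.totalDegree * D + k.totalDegree ^ 2 := by
  classical
  rcases Z.eq_empty_or_nonempty with rfl | ⟨y0, hy0⟩
  · simp
  choose Q hQd hQ using fun (i : Fin 4) (l : List (Fin 2)) =>
    pull hc x D i (der2 l (G i)) ((der_deg l (G i)).trans (hD i))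
  have hQ' : ∀ i l y, Rel x y → eval (v2 y.1) (Q i l) =
      (2 + cr (y.1 - x.1) (x.1 - x.2)) ^ D * eval (v2 (prj i y)) (der2 l (G i)) := by
    intro i l y hy
    rw [hQ i l y.1 (rel_den hy), ← rel_psi hy]
  have hex : ∀ i, ∃ n, ∃ l : List (Fin 2), l.length = n ∧ ¬ k ∣ Q i l := by
    intro i
    obtain ⟨l, c, hc0, hl⟩ := exists_der _ (G i) le_rfl (hG i)
    refine ⟨_, l, rfl, ?_⟩
    rintro ⟨m, hm⟩
    have h1 := hQ' i l y0 (hZ y0 hy0).1.1
    rw [hm, map_mul, (hZ y0 hy0).2.1, zero_mul, hl, eval_C] at h1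
    exact mul_ne_zero (pow_ne_zero _ (rel_den (hZ y0 hy0).1.1)) hc0 h1.symm
  choose l hl hkl using fun i => Nat.find_spec (hex i)
  have hmin : ∀ i l', l'.length < (l i).length → k ∣ Q i l' := by
    intro i l' h
    rw [hl i] at h
    by_contra hc
    exact Nat.find_min (hex i) h ⟨l', rfl, hc⟩
  have hdk : k.totalDegree ≠ 0 := by
    intro h
    have h1 := totalDegree_eq_zero_iff_eq_C.1 h
    apply hk.not_isUnit
    rw [h1]
    refine (isUnit_iff_ne_zero.2 ?_).map C
    intro h2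
    rw [h2, C_0] at h1
    exact hk.ne_zero h1
  obtain ⟨j, hj⟩ := exists_pd k hdk
  have hdj := pd_deg j k hj
  -- the covering
  have hcov : Z ⊆ (Finset.univ.biUnion fun i =>
      Z.filter (fun y => eval (v2 y.1) (Q i (l i)) = 0)) ∪
      Z.filter (fun y => eval (v2 y.1) (pderiv j k) = 0) := by
    intro y hy
    by_contra hnot
    simp only [Finset.mem_union, Finset.mem_biUnion, Finset.mem_univ, true_and,
      Finset.mem_filter, not_or, not_exists, not_and] at hnot
    obtain ⟨hn1, hn2⟩ := hnot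
    have hn1' : ∀ i, eval (v2 y.1) (Q i (l i)) ≠ 0 := fun i => hn1 i hy
    have hn2' := hn2 hy
    obtain ⟨hyN, hyk, hyG, hyC⟩ := hZ y hy
    have hR := hyN.1
    have hs := rel_den hR
    apply hyC
    set δ : Pt := (-eval (v2 y.1) (pderiv 1 k), eval (v2 y.1) (pderiv 0 k)) with hδ
    set s : ℝ := 1 + cr (y.1 - x.1) (x.1 - x.2) / 2 with hsdef
    have hs' : s ≠ 0 := by
      intro h0
      apply hs
      rw [hsdef] at h0
      linarith
    set δ' : Pt := ((δ.1 - (y.2.1 - x.2.1) * cr δ (x.1 - x.2) / 2) / s,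
      (δ.2 - (y.2.2 - x.2.2) * cr δ (x.1 - x.2) / 2) / s) with hδ'
    have hA : AxEq x y δ δ' := by
      constructor
      · exact mul_div_cancel₀ _ hs'
      · exact mul_div_cancel₀ _ hs'
    have hδ0 : δ ≠ 0 := by
      intro h0
      apply hn2'
      have a1 := congrArg Prod.fst h0
      have a2 := congrArg Prod.snd h0
      simp only [hδ, Prod.fst_zero, Prod.snd_zero, neg_eq_zero] at a1 a2
      fin_cases j
      · exact a2
      · exact a1
    refine ⟨δ, δ', hδ0, hA, fun i l' hall => ?_⟩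
    have hlen : l'.length < (l i).length := by
      by_contra hge
      push Not at hge
      apply hn1' i
      rw [hQ' i (l i) y hR, hall (l i) hge, mul_zero]
    obtain ⟨m, hm⟩ := hmin i l' hlen
    set H := der2 l' (G i) with hH
    have hH0 : eval (v2 (prj i y)) H = 0 := hall l' le_rfl
    -- the curve
    let q : ℝ → Pt := fun t => (y.1.1 + t * δ.1, y.1.2 + t * δ.2)
    have hq0 : q 0 = y.1 := by simp [q]
    have hv : ∀ i, HasDerivAt (fun t => v2 (q t) i) (v2 δ i) 0 := by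
      intro i
      fin_cases i
      · exact hasDerivAt_lin y.1.1 δ.1
      · exact hasDerivAt_lin y.1.2 δ.2
    -- first computation of the derivative
    have d1 := hasDerivAt_eval_curve (Q i l') (fun t => v2 (q t)) (v2 δ) 0 hv
    have z1 : ∑ i', v2 δ i' * eval (v2 (q 0)) (pderiv i' (Q i l')) = 0 := by
      rw [hq0, hm]
      have hL : ∀ i' : Fin 2, eval (v2 y.1) (pderiv i' (k * m)) =
          eval (v2 y.1) m * eval (v2 y.1) (pderiv i' k) := by
        intro i'
        rw [Derivation.leibniz]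
        simp only [smul_eq_mul, map_add, map_mul, hyk, zero_mul, zero_add]
      rw [Fin.sum_univ_two, hL, hL]
      show -eval (v2 y.1) (pderiv 1 k) * _ + eval (v2 y.1) (pderiv 0 k) * _ = 0
      ring
    rw [z1] at d1
    -- second computation
    have hpr := fun j => hasDerivAt_prj hR hA i j
    have d2 := hasDerivAt_eval_curve H (fun t => v2 (prj i (q t, psi x (q t))))
      (v2 (prj i (δ, δ'))) 0 hpr
    have hden : HasDerivAt (fun t => 2 + cr (q t - x.1) (x.1 - x.2))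
        (cr δ (x.1 - x.2)) 0 := by
      have h := hasDerivAt_lin (2 + cr (y.1 - x.1) (x.1 - x.2)) (cr δ (x.1 - x.2))
      refine h.congr_of_eventuallyEq (Filter.Eventually.of_forall fun t => ?_)
      simp only [q, cr, Prod.fst_sub, Prod.snd_sub]
      ring
    have d3 := (hden.pow D).mul d2
    have hFt : eval (v2 (prj i (q 0, psi x (q 0)))) H = 0 := by
      rw [hq0, ← rel_psi hR]
      exact hH0
    have heq : (fun t => eval (v2 (q t)) (Q i l')) =ᶠ[nhds 0]
        ((fun t => 2 + cr (q t - x.1) (x.1 - x.2)) ^ D *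
          fun t => eval (v2 (prj i (q t, psi x (q t)))) H) := by
      have hne : ∀ᶠ t in nhds (0 : ℝ), 2 + cr (q t - x.1) (x.1 - x.2) ≠ 0 :=
        hden.continuousAt.eventually_ne (by rw [hq0]; exact hs)
      filter_upwards [hne] with t ht
      rw [hQ i l' (q t) ht]
      rfl
    have d4 := d1.congr_of_eventuallyEq heq.symm
    have h5 := d4.unique d3
    rw [hFt, mul_zero, zero_add] at h5
    have h6 : ((fun t => 2 + cr (q t - x.1) (x.1 - x.2)) ^ D) 0 ≠ 0 := by
      show (2 + cr (q 0 - x.1) (x.1 - x.2)) ^ D ≠ 0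
      rw [hq0]
      exact pow_ne_zero _ hs
    have h7 := (mul_eq_zero.1 h5.symm).resolve_left h6
    rw [Fin.sum_univ_two, hq0, ← rel_psi hR] at h7
    have h8 : v2 (prj i (δ, δ')) 0 = (prj i (δ, δ')).1 := rfl
    have h9 : v2 (prj i (δ, δ')) 1 = (prj i (δ, δ')).2 := rfl
    rw [h8, h9] at h7
    linarith
  have c1 : ∀ i, (Z.filter (fun y => eval (v2 y.1) (Q i (l i)) = 0)).card ≤
      k.totalDegree * (2 * D) := by
    intro i
    refine (bez' (x := x) hb hk (hkl i) _ ?_).trans (Nat.mul_le_mul_left _ (hQd i (l i)))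
    intro y hy
    obtain ⟨h1, h2⟩ := Finset.mem_filter.1 hy
    exact ⟨(hZ y h1).1.1, (hZ y h1).2.1, h2⟩
  have c2 : (Z.filter (fun y => eval (v2 y.1) (pderiv j k) = 0)).card ≤
      k.totalDegree * k.totalDegree := by
    refine (bez' (x := x) hb hk (not_dvd_small hj hdj) _ ?_).trans
      (Nat.mul_le_mul_left _ hdj.le)
    intro y hy
    obtain ⟨h1, h2⟩ := Finset.mem_filter.1 hy
    exact ⟨(hZ y h1).1.1, (hZ y h1).2.1, h2⟩
  have c3 := (Finset.card_le_card hcov).trans (Finset.card_union_le _ _)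
  have c4 : (Finset.univ.biUnion fun i =>
      Z.filter (fun y => eval (v2 y.1) (Q i (l i)) = 0)).card ≤
      ∑ _i : Fin 4, k.totalDegree * (2 * D) :=
    Finset.card_biUnion_le.trans (Finset.sum_le_sum fun i _ => c1 i)
  rw [Finset.sum_const, Finset.card_univ, Fintype.card_fin, smul_eq_mul] at c4
  nlinarith

end PZA

theorem PZ_proof (hb : Bez) (hc : Clr) : PZ := by
  classical
  intro G D x g
  induction g using WfDvdMonoid.induction_on_irreducible with
  | zero => intro Z _ _ h; exact absurd rfl h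
  | unit u hu =>
    intro Z hG hD hg hZ
    obtain ⟨c, hc0, rfl⟩ := (MvPolynomial.isUnit_iff_eq_C_of_isReduced).1 hu
    have : Z = ∅ := by
      rw [Finset.eq_empty_iff_forall_notMem]
      intro y hy
      have h := (hZ y hy).2.1
      rw [eval_C] at h
      exact hc0.ne_zero h
    rw [this]
    simp
  | mul a k ha hk ih =>
    intro Z hG hD hg hZ
    set Z1 := Z.filter (fun y => eval (v2 y.1) k = 0)
    set Z2 := Z.filter (fun y => eval (v2 y.1) a = 0)
    have h1 : Z1.card ≤ _ := PZA.irr_case hb hc G D x k hk hG hD Z1 (by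
      intro y hy
      obtain ⟨h1, h2⟩ := Finset.mem_filter.1 hy
      have h3 := hZ y h1
      exact ⟨h3.1, h2, h3.2.2.1, h3.2.2.2⟩)
    have h2 : Z2.card ≤ _ := ih Z2 hG hD ha (by
      intro y hy
      obtain ⟨h1, h2⟩ := Finset.mem_filter.1 hy
      have h3 := hZ y h1
      exact ⟨h3.1, h2, h3.2.2.1, h3.2.2.2⟩)
    have hcov : Z ⊆ Z1 ∪ Z2 := by
      intro y hy
      have h := (hZ y hy).2.1
      rw [map_mul] at h
      rcases mul_eq_zero.1 h with h | h
      · exact Finset.mem_union_left _ (Finset.mem_filter.2 ⟨hy, h⟩)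
      · exact Finset.mem_union_right _ (Finset.mem_filter.2 ⟨hy, h⟩)
    have h3 := (Finset.card_le_card hcov).trans (Finset.card_union_le _ _)
    rw [totalDegree_mul_of_isDomain hk.ne_zero ha]
    nlinarith

end Pool.Agent.Work.MP_916cc8_co
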