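import Pool.Agent.Work.MP_916cc8_co.Bd.B01

/-! Upgrade to the exponent 13/6 + ε: Solymosi-Tao induction with constant degree partitions;
incidences on curves of bounded degree by four planar projections. -/

set_option autoImplicit false

namespace Pool.Agent.Work.MP_916cc8_co

open MvPolynomial

section Proj

/-- four planar projections of `ℝ^4`: `q`, `q'`, `q + q'`, `q + J q'` (`J` = rotation by a
right angle).  They are linear in `y`. -/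
def prj (i : Fin 4) (y : Pt × Pt) : Pt :=
  ![y.1, y.2, y.1 + y.2, y.1 + (-y.2.2, y.2.1)] i

noncomputable def der2 (l : List (Fin 2)) (G : MvPolynomial (Fin 2) ℝ) :
    MvPolynomial (Fin 2) ℝ :=
  l.foldr (fun i H => pderiv i H) G

/-- the derivative of the map of `x` at `y.1` sends `δ` to `δ'` -/
def AxEq (x y : Pt × Pt) (δ δ' : Pt) : Prop :=
  (1 + cr (y.1 - x.1) (x.1 - x.2) / 2) * δ'.1 =
    δ.1 - (y.2.1 - x.2.1) * cr δ (x.1 - x.2) / 2 ∧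
  (1 + cr (y.1 - x.1) (x.1 - x.2) / 2) * δ'.2 =
    δ.2 - (y.2.2 - x.2.2) * cr δ (x.1 - x.2) / 2

/-- some non-zero tangent vector `(δ,δ')` of the surface of `x` at `y` is killed by all the
lowest order differentials of the four polynomials `G i` at the projections of `y` -/
def TypeC (G : Fin 4 → MvPolynomial (Fin 2) ℝ) (x y : Pt × Pt) : Prop :=
  ∃ δ δ' : Pt, δ ≠ 0 ∧ AxEq x y δ δ' ∧ ∀ (i : Fin 4) (l : List (Fin 2)),
    (∀ l' : List (Fin 2), l'.length ≤ l.length →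
      eval (v2 (prj i y)) (der2 l' (G i)) = 0) →
    eval (v2 (prj i y)) (pderiv 0 (der2 l (G i))) * (prj i (δ, δ')).1 +
      eval (v2 (prj i y)) (pderiv 1 (der2 l (G i))) * (prj i (δ, δ')).2 = 0

def VisP : Prop := ∀ (t : ℕ) (f : Fin t → MvPolynomial (Fin 2) ℝ) (i : Fin 4) (x : Pt × Pt)
  (g : MvPolynomial (Fin 2) ℝ) (Z : Finset (Pt × Pt)), g ≠ 0 →
  (∀ z ∈ Z, Rel x z ∧ eval (v2 z.1) g = 0 ∧ ∀ j, eval (v2 (prj i z)) (f j) ≠ 0) →
  (∀ z ∈ Z, ∀ w ∈ Z, sameCl f (v2 (prj i z)) (v2 (prj i w)) → z = w) →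
  Z.card ≤ 2 * g.totalDegree * (g.totalDegree + 8 * ∑ j, (f j).totalDegree + 2)

open scoped Classical in
/-- incidences on curves outside the zero set of the partition polynomials of one projection -/
def PA : Prop := ∀ (X Y : Finset (Pt × Pt)) (t : ℕ) (f : Fin t → MvPolynomial (Fin 2) ℝ)
  (i : Fin 4) (a : ℕ) (g : Pt × Pt → MvPolynomial (Fin 2) ℝ) (V : ℝ),
  V = 2 * a * (a + 8 * (∑ j, (f j).totalDegree : ℕ) + 2) →
  (∀ x ∈ X, g x ≠ 0 ∧ (g x).totalDegree ≤ a) →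
  (∀ v : Fin 2 → ℝ,
    2 ^ t * (Y.filter (fun y => sameCl f v (v2 (prj i y)))).card ≤ Y.card) →
  (((X ×ˢ Y).filter (fun z => NRel z.1 z.2 ∧ eval (v2 z.2.1) (g z.1) = 0 ∧
    ∀ j, eval (v2 (prj i z.2)) (f j) ≠ 0)).card : ℝ) ≤
    X.card * V + 2 * (Y.card / 2 ^ t) * Real.sqrt (2 ^ t * (X.card * V))

/-- at most 4 surfaces through `y` whose tangent plane contains `(δ,δ')` -/
def TanAlg2 : Prop := ∀ (y : Pt × Pt) (δ δ' : Pt), δ ≠ 0 → ∀ X : Finset (Pt × Pt),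
  (∀ x ∈ X, NRel x y ∧ AxEq x y δ δ') → X.card ≤ 4

/-- at most 4 surfaces of type C through a point of the common zero set -/
def TypeC4 : Prop := ∀ (G : Fin 4 → MvPolynomial (Fin 2) ℝ) (y : Pt × Pt), (∀ i, G i ≠ 0) →
  (∀ i, eval (v2 (prj i y)) (G i) = 0) → ∀ X : Finset (Pt × Pt),
  (∀ x ∈ X, NRel x y ∧ TypeC G x y) → X.card ≤ 4

/-- on the curve of `x`, few points of the common zero set are not of type C -/
def PZ : Prop := ∀ (G : Fin 4 → MvPolynomial (Fin 2) ℝ) (D : ℕ) (x : Pt × Pt)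
  (g : MvPolynomial (Fin 2) ℝ) (Z : Finset (Pt × Pt)), (∀ i, G i ≠ 0) →
  (∀ i, (G i).totalDegree ≤ D) → g ≠ 0 →
  (∀ y ∈ Z, NRel x y ∧ eval (v2 y.1) g = 0 ∧ (∀ i, eval (v2 (prj i y)) (G i) = 0) ∧
    ¬ TypeC G x y) →
  Z.card ≤ 8 * g.totalDegree * D + g.totalDegree ^ 2

open scoped Classical in
/-- Szemeredi-Trotter type bound for incidences on curves of bounded degree -/
def LemP : Prop := ∀ a : ℕ, ∃ C₀ : ℝ, 0 < C₀ ∧ ∀ (X Y : Finset (Pt × Pt))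
  (g : Pt × Pt → MvPolynomial (Fin 2) ℝ),
  (∀ x ∈ X, g x ≠ 0 ∧ (g x).totalDegree ≤ a) →
  (((X ×ˢ Y).filter (fun z => NRel z.1 z.2 ∧ eval (v2 z.2.1) (g z.1) = 0)).card : ℝ) ≤
    C₀ * ((X.card : ℝ) ^ ((2 : ℝ) / 3) * (Y.card : ℝ) ^ ((2 : ℝ) / 3) + X.card + Y.card)

open scoped Classical in
/-- the incidence theorem with exponent 4/3 + ε -/
def IncST : Prop := ∀ ε : ℝ, 0 < ε → ε < 1 / 3 → ∃ A : ℝ, 0 < A ∧
  ∀ (X Y : Finset (Pt × Pt)),
  (((X ×ˢ Y).filter (fun z => NRel z.1 z.2)).card : ℝ) ≤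
    A * ((X.card : ℝ) ^ (2 / 3 + ε) * (Y.card : ℝ) ^ ((2 : ℝ) / 3) + X.card + Y.card)

end Proj

end Pool.Agent.Work.MP_916cc8_co
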