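import Pool.Agent.Work.MP_916cc8_co.Stmts3
import Pool.Agent.Work.MP_916cc8_co.Bd.B01
import Pool.Agent.Work.MP_916cc8_co.TanAlg

set_option autoImplicit false

/-! At most 4 surfaces through a point with a given tangent vector -/

namespace Pool.Agent.Work.MP_916cc8_co

namespace TAlg2

open TAlg

theorem key {x y : Pt × Pt} {δ δ' : Pt} (h : NRel x y) (ht : AxEq x y δ δ') :
    TT y x ≠ 0 ∧ (∃ b, b * (1 + TT y x) = 1 ∧ y.1.1 - x.1.1 = b * (y.2.1 - x.2.1) ∧
      y.1.2 - x.1.2 = b * (y.2.2 - x.2.2)) ∧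
    NN y * c1 y δ' = NN y * (1 + TT y x) * c1 y δ + SS y x * (NN y * (1 + TT y x) * c2 y δ -
      2 * TT y x * (c1 y δ * TT y x - c2 y δ * SS y x)) ∧
    NN y * c2 y δ' = NN y * (1 + TT y x) * c2 y δ + TT y x * (NN y * (1 + TT y x) * c2 y δ -
      2 * TT y x * (c1 y δ * TT y x - c2 y δ * SS y x)) := by
  obtain ⟨hR, hN⟩ := h
  obtain ⟨h1, h2, h3, h4⟩ := rel_iff.1 hR
  obtain ⟨⟨p1, p2⟩, ⟨r1, r2⟩⟩ := x
  obtain ⟨⟨q1, q2⟩, ⟨s1, s2⟩⟩ := y
  obtain ⟨a1, a2⟩ := δ
  obtain ⟨b1, b2⟩ := δ'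
  obtain ⟨t1, t2⟩ := ht
  simp only [TT, SS, NN, c1, c2, cr, Prod.fst_sub, Prod.snd_sub] at hN h3 h4 t1 t2 ⊢
  clear h1 h2 hR
  set b := 1 + ((q1 - p1) * (p2 - r2) - (q2 - p2) * (p1 - r1)) / 2 with hb
  have e1 : q1 - p1 = b * (s1 - r1) := by rw [hb]; linarith
  have e2 : q2 - p2 = b * (s2 - r2) := by rw [hb]; linarith
  have hp1 : p1 = q1 - b * (s1 - r1) := by linarith
  have hp2 : p2 = q2 - b * (s2 - r2) := by linarith
  clear_value b
  have hbT : b * (1 + ((q1 - s1) * (s2 - r2) - (q2 - s2) * (s1 - r1)) / 2) = 1 := by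
    rw [hp1, hp2] at hb
    linear_combination hb
  have hN' : ((q1 - s1) * (s2 - r2) - (q2 - s2) * (s1 - r1)) / 2 ≠ 0 := by
    intro h0
    apply hN
    rw [hp1, hp2]
    have h5 : (q1 - (q1 - b * (s1 - r1))) * (r2 - (q2 - b * (s2 - r2))) -
        (q2 - (q2 - b * (s2 - r2))) * (r1 - (q1 - b * (s1 - r1))) =
        2 * b * (((q1 - s1) * (s2 - r2) - (q2 - s2) * (s1 - r1)) / 2) := by
      ring
    rw [h5, h0, mul_zero]
  refine ⟨hN', ⟨b, hbT, e1, e2⟩, ?_, ?_⟩
  · rw [hp1, hp2] at t1 t2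
    linear_combination
      (((q1 - s1) ^ 2 + (q2 - s2) ^ 2) *
        (1 + ((q1 - s1) * (s2 - r2) - (q2 - s2) * (s1 - r1)) / 2)) *
          ((q1 - s1) * t1 + (q2 - s2) * t2) +
      (2 * (((q1 - s1) * (s1 - r1) + (q2 - s2) * (s2 - r2)) / 2) *
          ((a1 * (q1 - s1) + a2 * (q2 - s2)) *
              (((q1 - s1) * (s2 - r2) - (q2 - s2) * (s1 - r1)) / 2) -
            (-a1 * (q2 - s2) + a2 * (q1 - s1)) *
              (((q1 - s1) * (s1 - r1) + (q2 - s2) * (s2 - r2)) / 2)) -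
        ((q1 - s1) ^ 2 + (q2 - s2) ^ 2) * (b1 * (q1 - s1) + b2 * (q2 - s2))) * hbT
  · rw [hp1, hp2] at t1 t2
    linear_combination
      (((q1 - s1) ^ 2 + (q2 - s2) ^ 2) *
        (1 + ((q1 - s1) * (s2 - r2) - (q2 - s2) * (s1 - r1)) / 2)) *
          (-(q2 - s2) * t1 + (q1 - s1) * t2) +
      (2 * (((q1 - s1) * (s2 - r2) - (q2 - s2) * (s1 - r1)) / 2) *
          ((a1 * (q1 - s1) + a2 * (q2 - s2)) *
              (((q1 - s1) * (s2 - r2) - (q2 - s2) * (s1 - r1)) / 2) -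
            (-a1 * (q2 - s2) + a2 * (q1 - s1)) *
              (((q1 - s1) * (s1 - r1) + (q2 - s2) * (s2 - r2)) / 2)) -
        ((q1 - s1) ^ 2 + (q2 - s2) ^ 2) * (-b1 * (q2 - s2) + b2 * (q1 - s1))) * hbT

/-- `x` is determined by `T` and `S` -/
theorem inj {x x' y : Pt × Pt} {δ δ' : Pt} (h : NRel x y) (ht : AxEq x y δ δ')
    (h' : NRel x' y) (ht' : AxEq x' y δ δ') (hT : TT y x = TT y x') (hS : SS y x = SS y x') :
    x = x' := by
  obtain ⟨k0, ⟨b, hb, k1, k2⟩, -, -⟩ := key h ht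
  obtain ⟨-, ⟨b', hb', k1', k2'⟩, -, -⟩ := key h' ht'
  have hN := NN_pos k0
  have e1 : NN y * (x.2.1 - x'.2.1) = 0 := by
    simp only [NN, TT, SS] at hT hS ⊢
    linear_combination -2 * (y.1.1 - y.2.1) * hS + 2 * (y.1.2 - y.2.2) * hT
  have e2 : NN y * (x.2.2 - x'.2.2) = 0 := by
    simp only [NN, TT, SS] at hT hS ⊢
    linear_combination -2 * (y.1.2 - y.2.2) * hS - 2 * (y.1.1 - y.2.1) * hT
  have f1 : x.2.1 = x'.2.1 := by
    have := (mul_eq_zero.1 e1).resolve_left hN.ne'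
    linarith
  have f2 : x.2.2 = x'.2.2 := by
    have := (mul_eq_zero.1 e2).resolve_left hN.ne'
    linarith
  have hbb : b = b' := by
    have h1 : 1 + TT y x ≠ 0 := by
      intro h0
      rw [h0, mul_zero] at hb
      exact zero_ne_one hb
    rw [← hT] at hb'
    exact mul_right_cancel₀ h1 (hb.trans hb'.symm)
  subst hbb
  rw [f1] at k1
  rw [f2] at k2
  refine Prod.ext (Prod.ext ?_ ?_) (Prod.ext f1 f2)
  · linarith
  · linarith

/-- the component of the tangent vector along `J z` is not zero: `S` is a function of `T` -/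
theorem SofT {x y : Pt × Pt} {δ δ' : Pt} (h : NRel x y) (ht : AxEq x y δ δ') :
    2 * TT y x ^ 2 * c2 y δ * SS y x =
      NN y * (c2 y δ' - (1 + TT y x) ^ 2 * c2 y δ) + 2 * TT y x ^ 3 * c1 y δ := by
  obtain ⟨k0, -, E1, E2⟩ := key h ht
  linear_combination -E2

theorem cubic {x y : Pt × Pt} {δ δ' : Pt} (h : NRel x y) (ht : AxEq x y δ δ') :
    NN y * ((NN y * c2 y δ ^ 2 + 2 * (c1 y δ * c2 y δ' - c2 y δ * c1 y δ')) * TT y x ^ 3 +
      (NN y * (2 * c2 y δ ^ 2 - (c2 y δ' - c2 y δ) * c2 y δ)) * TT y x ^ 2 +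
      (-3 * NN y * (c2 y δ' - c2 y δ) * c2 y δ) * TT y x +
      NN y * (c2 y δ' - c2 y δ) ^ 2) = 0 := by
  obtain ⟨k0, -, E1, E2⟩ := key h ht
  set T := TT y x
  set S := SS y x
  set N := NN y
  set A := c1 y δ
  set B := c2 y δ
  set A' := c1 y δ'
  set B' := c2 y δ'
  linear_combination (-2 * T ^ 3 * B) * E1 +
    (N * (B' - (1 + T) * B) + 2 * T ^ 2 * B * S) * E2

theorem coeffs (a b c d : ℝ) :
    (Polynomial.C a * Polynomial.X ^ 3 + Polynomial.C b * Polynomial.X ^ 2 +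
      Polynomial.C c * Polynomial.X + Polynomial.C d).coeff 0 = d ∧
    (Polynomial.C a * Polynomial.X ^ 3 + Polynomial.C b * Polynomial.X ^ 2 +
      Polynomial.C c * Polynomial.X + Polynomial.C d).coeff 2 = b := by
  constructor <;> simp [Polynomial.coeff_X, Polynomial.coeff_C]

end TAlg2

open TAlg in
theorem TanAlg2_proof : TanAlg2 := by
  classical
  intro y δ δ' hδ X hX
  rcases X.eq_empty_or_nonempty with rfl | ⟨x0, hx0⟩
  · simp
  have hN : 0 < NN y := NN_pos (TAlg2.key (hX x0 hx0).1 (hX x0 hx0).2).1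
  by_cases hB : c2 y δ = 0
  · -- one point
    have hA : c1 y δ ≠ 0 := by
      intro hA
      have f1 : NN y * δ.1 = 0 := by
        simp only [c1, c2, NN] at hA hB ⊢
        linear_combination (y.1.1 - y.2.1) * hA - (y.1.2 - y.2.2) * hB
      have f2 : NN y * δ.2 = 0 := by
        simp only [c1, c2, NN] at hA hB ⊢
        linear_combination (y.1.2 - y.2.2) * hA + (y.1.1 - y.2.1) * hB
      exact hδ (Prod.ext ((mul_eq_zero.1 f1).resolve_left hN.ne')
        ((mul_eq_zero.1 f2).resolve_left hN.ne'))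
    have hone : X.card ≤ 1 := by
      rw [Finset.card_le_one]
      intro x hx x' hx'
      obtain ⟨k0, -, E1, E2⟩ := TAlg2.key (hX x hx).1 (hX x hx).2
      obtain ⟨k0', -, E1', E2'⟩ := TAlg2.key (hX x' hx').1 (hX x' hx').2
      rw [hB] at E1 E2 E1' E2'
      have hc : TT y x ^ 3 = TT y x' ^ 3 := by
        have h1 : c1 y δ * TT y x ^ 3 = c1 y δ * TT y x' ^ 3 := by
          linear_combination (1 / 2) * (E2 - E2')
        exact mul_left_cancel₀ hA h1
      have hT : TT y x = TT y x' := (Odd.strictMono_pow (by decide : Odd 3)).injective hc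
      refine TAlg2.inj (hX x hx).1 (hX x hx).2 (hX x' hx').1 (hX x' hx').2 hT ?_
      rw [← hT] at E1'
      have h2 : (2 * c1 y δ * TT y x ^ 2) * SS y x = (2 * c1 y δ * TT y x ^ 2) * SS y x' := by
        linear_combination E1 - E1'
      exact mul_left_cancel₀ (mul_ne_zero (mul_ne_zero two_ne_zero hA) (pow_ne_zero 2 k0)) h2
    omega
  · -- at most 3 points
    set P : Polynomial ℝ :=
      Polynomial.C (NN y * c2 y δ ^ 2 + 2 * (c1 y δ * c2 y δ' - c2 y δ * c1 y δ')) *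
          Polynomial.X ^ 3 +
        Polynomial.C (NN y * (2 * c2 y δ ^ 2 - (c2 y δ' - c2 y δ) * c2 y δ)) *
          Polynomial.X ^ 2 +
        Polynomial.C (-3 * NN y * (c2 y δ' - c2 y δ) * c2 y δ) * Polynomial.X +
        Polynomial.C (NN y * (c2 y δ' - c2 y δ) ^ 2) with hP
    have hdeg : P.natDegree ≤ 3 := Polynomial.natDegree_cubic_le
    have hP0 : P ≠ 0 := by
      intro h0
      have g0 : P.coeff 0 = 0 := by rw [h0]; simp
      have g2 : P.coeff 2 = 0 := by rw [h0]; simp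
      have c0 : P.coeff 0 = NN y * (c2 y δ' - c2 y δ) ^ 2 := by
        rw [hP]; exact (TAlg2.coeffs _ _ _ _).1
      have c2' : P.coeff 2 = NN y * (2 * c2 y δ ^ 2 - (c2 y δ' - c2 y δ) * c2 y δ) := by
        rw [hP]; exact (TAlg2.coeffs _ _ _ _).2
      rw [c0] at g0
      have ha : c2 y δ' - c2 y δ = 0 := by
        have := (mul_eq_zero.1 g0).resolve_left hN.ne'
        exact pow_eq_zero_iff (two_ne_zero) |>.1 this
      rw [c2', ha, zero_mul, sub_zero] at g2
      exact mul_ne_zero hN.ne' (mul_ne_zero two_ne_zero (pow_ne_zero 2 hB)) g2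
    have hinj : Set.InjOn (fun x => TT y x) (X : Set (Pt × Pt)) := by
      intro x hx x' hx' hT
      obtain ⟨k0, -, -, -⟩ := TAlg2.key (hX x hx).1 (hX x hx).2
      have E := TAlg2.SofT (hX x hx).1 (hX x hx).2
      have E' := TAlg2.SofT (hX x' hx').1 (hX x' hx').2
      have hT' : TT y x = TT y x' := hT
      rw [← hT'] at E'
      refine TAlg2.inj (hX x hx).1 (hX x hx).2 (hX x' hx').1 (hX x' hx').2 hT' ?_
      exact mul_left_cancel₀ (mul_ne_zero (mul_ne_zero two_ne_zero (pow_ne_zero 2 k0)) hB)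
        (E.trans E'.symm)
    have hcard : (X.image fun x => TT y x).card = X.card := Finset.card_image_of_injOn hinj
    have hsub : (X.image fun x => TT y x) ⊆ P.roots.toFinset := by
      intro t ht
      obtain ⟨x, hx, rfl⟩ := Finset.mem_image.mp ht
      rw [Multiset.mem_toFinset, Polynomial.mem_roots hP0, Polynomial.IsRoot.def, hP]
      have := TAlg2.cubic (hX x hx).1 (hX x hx).2
      simp only [Polynomial.eval_add, Polynomial.eval_mul, Polynomial.eval_C,
        Polynomial.eval_pow, Polynomial.eval_X]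
      exact (mul_eq_zero.1 this).resolve_left hN.ne'
    have h1 := Finset.card_le_card hsub
    have h2 := Multiset.toFinset_card_le P.roots
    have h3 := Polynomial.card_roots' P
    omega

end Pool.Agent.Work.MP_916cc8_co
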