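import Pool.Agent.Work.MP_916cc8_co.Stmts3
import Pool.Agent.Work.MP_916cc8_co.Bd.B01

/-! Item TypeC4: at most 4 surfaces of type C through a point of the common zero set. -/

set_option autoImplicit false

namespace Pool.Agent.Work.MP_916cc8_co

open MvPolynomial

namespace TC4

theorem pd_deg (i : Fin 2) (F : MvPolynomial (Fin 2) ℝ) (h : pderiv i F ≠ 0) :
    (pderiv i F).totalDegree < F.totalDegree := by
  obtain ⟨m, hm, hd⟩ : ∃ m ∈ (pderiv i F).support,
      (pderiv i F).totalDegree = m.sum fun _ e => e := by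
    have h1 : (pderiv i F).support.Nonempty := support_nonempty.mpr h
    exact Finset.exists_mem_eq_sup _ h1 (fun m => m.sum fun _ e => e)
  have h2 : m + Finsupp.single i 1 ∈ F.support := by
    rw [mem_support_iff] at hm ⊢
    rw [coeff_pderiv] at hm
    exact left_ne_zero_of_mul hm
  have h3 := le_totalDegree h2
  rw [Finsupp.sum_add_index' (fun _ => rfl) (fun _ _ _ => rfl), Finsupp.sum_single_index rfl] at h3
  omega

theorem der_append (l : List (Fin 2)) (i : Fin 2) (F : MvPolynomial (Fin 2) ℝ) :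
    der2 (l ++ [i]) F = der2 l (pderiv i F) := by
  simp [der2, List.foldr_append]

theorem exists_der : ∀ (k : ℕ) (F : MvPolynomial (Fin 2) ℝ), F.totalDegree ≤ k → F ≠ 0 →
    ∃ (l : List (Fin 2)) (c : ℝ), c ≠ 0 ∧ der2 l F = C c := by
  intro k
  induction k with
  | zero =>
    intro F hk hF
    have h1 : F = C (coeff 0 F) := by
      rw [← totalDegree_eq_zero_iff_eq_C]
      omega
    refine ⟨[], coeff 0 F, ?_, h1⟩
    intro h2
    rw [h2, C_0] at h1
    exact hF h1
  | succ k ih =>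
    intro F hk hF
    by_cases h0 : F.totalDegree = 0
    · exact ih F (by omega) hF
    · obtain ⟨m, hm, hd⟩ : ∃ m ∈ F.support, F.totalDegree = m.sum fun _ e => e := by
        have h1 : F.support.Nonempty := support_nonempty.mpr hF
        exact Finset.exists_mem_eq_sup _ h1 (fun m => m.sum fun _ e => e)
      obtain ⟨i, hi⟩ : ∃ i, m i ≠ 0 := by
        by_contra hc
        push Not at hc
        have h2 : m = 0 := by
          ext i
          exact hc i
        rw [h2, Finsupp.sum_zero_index] at hd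
        exact h0 hd
      have h3 : m - Finsupp.single i 1 + Finsupp.single i 1 = m := by
        ext j
        by_cases hj : i = j
        · subst hj
          simp
          omega
        · simp [hj]
      have h4 : coeff (m - Finsupp.single i 1) (pderiv i F) ≠ 0 := by
        rw [coeff_pderiv, h3]
        refine mul_ne_zero (mem_support_iff.mp hm) ?_
        positivity
      have h5 : pderiv i F ≠ 0 := by
        intro h6
        rw [h6, coeff_zero] at h4
        exact h4 rfl
      obtain ⟨l, c, hc, hl⟩ := ih (pderiv i F) (by have := pd_deg i F h5; omega) h5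
      exact ⟨l ++ [i], c, hc, by rw [der_append, hl]⟩

/-- lowest order differential -/
theorem exists_low (F : MvPolynomial (Fin 2) ℝ) (hF : F ≠ 0) (z : Fin 2 → ℝ)
    (hz : eval z F = 0) : ∃ l : List (Fin 2),
      (∀ l' : List (Fin 2), l'.length ≤ l.length → eval z (der2 l' F) = 0) ∧
      (eval z (pderiv 0 (der2 l F)), eval z (pderiv 1 (der2 l F))) ≠ ((0, 0) : ℝ × ℝ) := by
  classical
  have hex : ∃ k, ∃ l : List (Fin 2), l.length = k ∧ eval z (der2 l F) ≠ 0 := by
    obtain ⟨l, c, hc0, hl⟩ := exists_der _ F le_rfl hF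
    refine ⟨l.length, l, rfl, ?_⟩
    rw [hl, eval_C]
    exact hc0
  obtain ⟨l, hl, hne⟩ := Nat.find_spec hex
  have hmin : ∀ l' : List (Fin 2), l'.length < l.length → eval z (der2 l' F) = 0 := by
    intro l' hl'
    by_contra hcon
    rw [hl] at hl'
    exact Nat.find_min hex hl' ⟨l', rfl, hcon⟩
  cases l with
  | nil => exact absurd hz hne
  | cons k l =>
    refine ⟨l, fun l' hl' => hmin l' (by rw [List.length_cons]; omega), ?_⟩
    intro h0
    apply hne
    show eval z (pderiv k (der2 l F)) = 0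
    rw [Prod.mk.injEq] at h0
    fin_cases k
    · exact h0.1
    · exact h0.2

theorem pt_ne {u : Pt} (h : u ≠ 0) : u.1 ≠ 0 ∨ u.2 ≠ 0 := by
  by_contra hc
  push Not at hc
  exact h (Prod.ext hc.1 hc.2)

/-- two vectors perpendicular to a non-zero vector are parallel -/
theorem par {a u v : Pt} (ha : a ≠ 0) (hu : u ≠ 0) (h1 : a.1 * u.1 + a.2 * u.2 = 0)
    (h2 : a.1 * v.1 + a.2 * v.2 = 0) : ∃ c : ℝ, v.1 = c * u.1 ∧ v.2 = c * u.2 := by
  have h3 : u.1 * v.2 = u.2 * v.1 := by
    rcases pt_ne ha with h | h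
    · have : a.1 * (u.1 * v.2 - u.2 * v.1) = 0 := by linear_combination v.2 * h1 - u.2 * h2
      have := (mul_eq_zero.1 this).resolve_left h
      linarith
    · have : a.2 * (u.1 * v.2 - u.2 * v.1) = 0 := by linear_combination u.1 * h2 - v.1 * h1
      have := (mul_eq_zero.1 this).resolve_left h
      linarith
  rcases pt_ne hu with h | h
  · refine ⟨v.1 / u.1, ?_, ?_⟩
    · field_simp
    · field_simp
      linarith
  · refine ⟨v.2 / u.2, ?_, ?_⟩
    · field_simp
      linarith
    · field_simp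

end TC4

open TC4 in
theorem TypeC4_proof (h : TanAlg2) : TypeC4 := by
  classical
  intro G y hG hz X hX
  rcases X.eq_empty_or_nonempty with rfl | ⟨x0, hx0⟩
  · simp
  have hex := fun i => exists_low (G i) (hG i) (v2 (prj i y)) (hz i)
  choose l hl hne using hex
  -- the four covectors
  set om : Fin 4 → Pt := fun i => (eval (v2 (prj i y)) (pderiv 0 (der2 (l i) (G i))),
    eval (v2 (prj i y)) (pderiv 1 (der2 (l i) (G i)))) with hom
  have hom0 : ∀ i, om i ≠ 0 := fun i => hne i
  obtain ⟨hn0, ε, ε', hε, hax0, hC0⟩ := hX x0 hx0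
  have hE : ∀ i, (om i).1 * (prj i (ε, ε')).1 + (om i).2 * (prj i (ε, ε')).2 = 0 :=
    fun i => hC0 i (l i) (hl i)
  refine h y ε ε' hε X (fun x hx => ?_)
  obtain ⟨hn, δ, δ', hδ, hax, hC⟩ := hX x hx
  refine ⟨hn, ?_⟩
  have hD : ∀ i, (om i).1 * (prj i (δ, δ')).1 + (om i).2 * (prj i (δ, δ')).2 = 0 :=
    fun i => hC i (l i) (hl i)
  have e0 : (om 0).1 * ε.1 + (om 0).2 * ε.2 = 0 := hE 0
  have e1 : (om 1).1 * ε'.1 + (om 1).2 * ε'.2 = 0 := hE 1
  have e2 : (om 2).1 * (ε.1 + ε'.1) + (om 2).2 * (ε.2 + ε'.2) = 0 := hE 2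
  have e3 : (om 3).1 * (ε.1 + -ε'.2) + (om 3).2 * (ε.2 + ε'.1) = 0 := hE 3
  have d0 : (om 0).1 * δ.1 + (om 0).2 * δ.2 = 0 := hD 0
  have d1 : (om 1).1 * δ'.1 + (om 1).2 * δ'.2 = 0 := hD 1
  have d2 : (om 2).1 * (δ.1 + δ'.1) + (om 2).2 * (δ.2 + δ'.2) = 0 := hD 2
  have d3 : (om 3).1 * (δ.1 + -δ'.2) + (om 3).2 * (δ.2 + δ'.1) = 0 := hD 3
  obtain ⟨c, hc1, hc2⟩ := par (hom0 0) hε e0 d0
  have hc : c ≠ 0 := by
    intro h0
    rw [h0, zero_mul] at hc1 hc2
    exact hδ (Prod.ext hc1 hc2)
  -- the difference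
  have hη : (δ'.1 - c * ε'.1, δ'.2 - c * ε'.2) = (0 : Pt) := by
    by_contra hη
    have f1 : (om 1).1 * (δ'.1 - c * ε'.1) + (om 1).2 * (δ'.2 - c * ε'.2) = 0 := by
      linear_combination d1 - c * e1
    have f2 : (om 2).1 * (δ'.1 - c * ε'.1) + (om 2).2 * (δ'.2 - c * ε'.2) = 0 := by
      rw [hc1, hc2] at d2
      linear_combination d2 - c * e2
    have f3 : (om 3).1 * (-(δ'.2 - c * ε'.2)) + (om 3).2 * (δ'.1 - c * ε'.1) = 0 := by
      rw [hc1, hc2] at d3
      linear_combination d3 - c * e3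
    obtain ⟨s, hs1, hs2⟩ := par (u := (δ'.1 - c * ε'.1, δ'.2 - c * ε'.2)) (hom0 1) hη f1 e1
    simp only at hs1 hs2
    have f4 : (om 2).1 * ε.1 + (om 2).2 * ε.2 = 0 := by
      rw [hs1, hs2] at e2
      linear_combination e2 - s * f2
    obtain ⟨r, hr1, hr2⟩ := par (u := (δ'.1 - c * ε'.1, δ'.2 - c * ε'.2)) (hom0 2) hη f2 f4
    simp only at hr1 hr2
    have hr : r ≠ 0 := by
      intro h0
      rw [h0, zero_mul] at hr1 hr2
      exact hε (Prod.ext hr1 hr2)
    set a := δ'.1 - c * ε'.1 with ha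
    set b := δ'.2 - c * ε'.2 with hb
    have f5 : (om 3).1 * a + (om 3).2 * b = 0 := by
      rw [hr1, hr2, hs1, hs2] at e3
      have : r * ((om 3).1 * a + (om 3).2 * b) = 0 := by linear_combination e3 - s * f3
      exact (mul_eq_zero.1 this).resolve_left hr
    have hN : 0 < a ^ 2 + b ^ 2 := by
      rcases pt_ne hη with h1 | h1
      · have h1' : a ≠ 0 := h1
        positivity
      · have h1' : b ≠ 0 := h1
        positivity
    refine hom0 3 (Prod.ext ?_ ?_)
    · have : (a ^ 2 + b ^ 2) * (om 3).1 = 0 := by linear_combination a * f5 - b * f3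
      exact (mul_eq_zero.1 this).resolve_left hN.ne'
    · have : (a ^ 2 + b ^ 2) * (om 3).2 = 0 := by linear_combination b * f5 + a * f3
      exact (mul_eq_zero.1 this).resolve_left hN.ne'
  have g1 : δ'.1 = c * ε'.1 := by
    have := congrArg Prod.fst hη
    simp only [Prod.fst_zero] at this
    linarith
  have g2 : δ'.2 = c * ε'.2 := by
    have := congrArg Prod.snd hη
    simp only [Prod.snd_zero] at this
    linarith
  obtain ⟨k1, k2⟩ := hax
  unfold AxEq
  simp only [cr] at k1 k2 ⊢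
  rw [hc1, hc2, g1] at k1
  rw [hc1, hc2, g2] at k2
  refine ⟨mul_left_cancel₀ hc ?_, mul_left_cancel₀ hc ?_⟩
  · linear_combination k1
  · linear_combination k2

end Pool.Agent.Work.MP_916cc8_co
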